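import Pool.Agent.H5.Leep.AltFacts

/-!
Subgroups of the alternating groups of prime power degree.
-/

namespace LeepA

open Equiv Equiv.Perm MulAction
open scoped Pointwise

set_option maxHeartbeats 400000

theorem card_imprim {X O : Type*} [Fintype X] [DecidableEq X] [Fintype O] [DecidableEq O]
    [Nonempty O] (π : X → O) (s : ℕ) (hs : ∀ o, Fintype.card {x // π x = o} = s) (hs2 : 2 ≤ s)
    (D : Subgroup (Perm X)) (hDA : D ≤ alternatingGroup X)
    (hD : ∀ g ∈ D, ∃ h : Perm O, ∀ x, π (g x) = h (π x)) :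
    2 * Nat.card D ≤ (Fintype.card O).factorial * s.factorial ^ (Fintype.card O) := by
  classical
  -- a transposition
  obtain ⟨x0, y0, hxy, hπxy⟩ : ∃ x y : X, x ≠ y ∧ π x = π y := by
    obtain ⟨o⟩ := (inferInstance : Nonempty O)
    have h1 : 1 < Fintype.card {x // π x = o} := by rw [hs o]; omega
    obtain ⟨a, b, hab⟩ := Fintype.exists_pair_of_one_lt_card h1
    exact ⟨a, b, fun h => hab (Subtype.ext h), a.2.trans b.2.symm⟩
  have hπτ : ∀ z, π (swap x0 y0 z) = π z := by
    intro z
    by_cases hz1 : z = x0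
    · rw [hz1, swap_apply_left, hπxy]
    by_cases hz2 : z = y0
    · rw [hz2, swap_apply_right, hπxy]
    rw [swap_apply_of_ne_of_ne hz1 hz2]
  choose h hh using fun g : D => hD g.1 g.2
  let rep : Perm O → Perm X := fun k => if hk : ∃ g : D, h g = k then hk.choose.1 else 1
  have hrep : ∀ g : D, rep (h g) ∈ D ∧ ∀ x, π (rep (h g) x) = h g (π x) := by
    intro g
    have hk : ∃ g' : D, h g' = h g := ⟨g, rfl⟩
    have e1 : rep (h g) = hk.choose.1 := dif_pos hk
    rw [e1]
    refine ⟨hk.choose.2, fun x => ?_⟩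
    rw [hh hk.choose x, hk.choose_spec]
  have hrepinv : ∀ g : D, ∀ x, π ((rep (h g))⁻¹ x) = (h g)⁻¹ (π x) := by
    intro g x
    have e1 := (hrep g).2 ((rep (h g))⁻¹ x)
    rw [app_inv] at e1
    rw [e1, inv_app]
  let Stab := {σ : Perm X // π ∘ σ = π}
  let τ : Bool → Perm X := fun ε => if ε then swap x0 y0 else 1
  have hπτ' : ∀ ε z, π (τ ε z) = π z := by
    intro ε z
    cases ε
    · rfl
    · exact hπτ z
  let F : D × Bool → Perm O × Stab := fun p =>
    (h p.1, ⟨(rep (h p.1))⁻¹ * p.1.1 * τ p.2, by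
      funext z
      change π ((rep (h p.1))⁻¹ (p.1.1 (τ p.2 z))) = π z
      rw [hrepinv, hh, hπτ', inv_app]⟩)
  have hF : Function.Injective F := by
    rintro ⟨g, ε⟩ ⟨g', ε'⟩ heq
    have e1 : h g = h g' := congrArg Prod.fst heq
    have e2 : (rep (h g))⁻¹ * g.1 * τ ε = (rep (h g'))⁻¹ * g'.1 * τ ε' :=
      congrArg (fun p => (p.2 : Stab).1) heq
    rw [e1, mul_assoc, mul_assoc] at e2
    have e3 : g.1 * τ ε = g'.1 * τ ε' := mul_left_cancel e2
    have e4 := congrArg sign e3
    rw [map_mul, map_mul, mem_alternatingGroup.mp (hDA g.2), mem_alternatingGroup.mp (hDA g'.2),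
      one_mul, one_mul] at e4
    have hs1 : sign (swap x0 y0) = -1 := sign_swap hxy
    have hεε : ε = ε' := by
      cases ε <;> cases ε'
      · rfl
      · exfalso
        change sign 1 = sign (swap x0 y0) at e4
        rw [hs1, Perm.sign_one] at e4
        exact absurd e4 (by decide)
      · exfalso
        change sign (swap x0 y0) = sign 1 at e4
        rw [hs1, Perm.sign_one] at e4
        exact absurd e4 (by decide)
      · rfl
    subst hεε
    have e5 : g.1 = g'.1 := mul_right_cancel e3
    rw [Subtype.ext e5]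
  have h1 := Nat.card_le_card_of_injective F hF
  have h2 : Nat.card Stab = s.factorial ^ (Fintype.card O) := by
    have h3 := DomMulAct.stabilizer_card π
    rw [Nat.card_eq_fintype_card]
    refine Eq.trans ?_ (h3.trans ?_)
    · exact Fintype.card_congr (Equiv.refl _)
    · rw [Finset.prod_congr rfl (fun o _ => by rw [hs o]), Finset.prod_const, Finset.card_univ]
  rw [Nat.card_prod, Nat.card_prod, Nat.card_perm, h2, Nat.card_eq_fintype_card (α := Bool),
    Fintype.card_bool, Nat.card_eq_fintype_card (α := O)] at h1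
  omega

theorem base_ineq {s : ℕ} (hs : 3 ≤ s) : 3 * 8 ^ s * s.factorial ^ 3 < (3 * s).factorial := by
  induction s, hs using Nat.le_induction with
  | base => decide
  | succ s hs ih =>
    have e1 : 3 * (s + 1) = 3 * s + 1 + 1 + 1 := by ring
    rw [e1, Nat.factorial_succ (3 * s + 1 + 1), Nat.factorial_succ (3 * s + 1),
      Nat.factorial_succ (3 * s), Nat.factorial_succ s]
    have h1 : 8 * (s + 1) ^ 3 ≤ (3 * s + 1 + 1 + 1) * ((3 * s + 1 + 1) * (3 * s + 1)) := by
      have h0 : 8 * (s + 1) ^ 2 ≤ 3 * ((3 * s + 1 + 1) * (3 * s + 1)) := by nlinarith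
      calc 8 * (s + 1) ^ 3 = (s + 1) * (8 * (s + 1) ^ 2) := by ring
        _ ≤ (s + 1) * (3 * ((3 * s + 1 + 1) * (3 * s + 1))) := Nat.mul_le_mul_left _ h0
        _ = _ := by ring
    calc 3 * 8 ^ (s + 1) * ((s + 1) * s.factorial) ^ 3
        = (8 * (s + 1) ^ 3) * (3 * 8 ^ s * s.factorial ^ 3) := by ring
      _ < ((3 * s + 1 + 1 + 1) * ((3 * s + 1 + 1) * (3 * s + 1))) * (3 * s).factorial := by
        apply Nat.mul_lt_mul_of_le_of_lt h1 ih (by positivity)
      _ = _ := by ring

theorem main_ineq {s t : ℕ} (hs : 3 ≤ s) (ht : 3 ≤ t) :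
    2 ^ (s * t) * (t.factorial * s.factorial ^ t) < 2 * (s * t).factorial := by
  induction t, ht using Nat.le_induction with
  | base =>
    have h1 := base_ineq hs
    have h2 : 2 ^ (s * 3) = 8 ^ s := by
      rw [mul_comm, pow_mul]
      norm_num
    rw [h2, mul_comm s 3]
    have h3 : Nat.factorial 3 = 6 := rfl
    rw [h3]
    nlinarith
  | succ t ht ih =>
    have h1 : s * (t + 1) = s * t + s := by ring
    rw [h1, pow_add, Nat.factorial_succ, pow_succ]
    -- the ascending factorial
    have h2 : (s * t + s).factorial = (s * t).factorial * (s * t + 1).ascFactorial s := by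
      rw [Nat.factorial_mul_ascFactorial]
    have h3 : 2 ^ s * (t + 1) * s.factorial ≤ (s * t + 1).ascFactorial s := by
      have h4 : (t + 1) ^ s * s.factorial ≤ (s * t + 1).ascFactorial s := by
        rw [Nat.ascFactorial_eq_prod_range, ← Finset.prod_range_add_one_eq_factorial]
        have h5 : (t + 1) ^ s = ∏ _i ∈ Finset.range s, (t + 1) := by
          rw [Finset.prod_const, Finset.card_range]
        rw [h5, ← Finset.prod_mul_distrib]
        apply Finset.prod_le_prod'
        intro i hi
        rw [Finset.mem_range] at hi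
        have h6 : (i + 1) * t ≤ s * t := Nat.mul_le_mul_right t hi
        nlinarith
      have h7 : 2 ^ s * (t + 1) ≤ (t + 1) ^ s := by
        obtain ⟨k, rfl⟩ : ∃ k, s = k + 1 := ⟨s - 1, by omega⟩
        rw [pow_succ (t + 1) k]
        apply Nat.mul_le_mul_right
        have h8 : 4 ^ k ≤ (t + 1) ^ k := Nat.pow_le_pow_left (by omega) k
        have h9 : (2 : ℕ) ^ (k + 1) ≤ 4 ^ k := by
          have h10 : (4 : ℕ) = 2 ^ 2 := by norm_num
          rw [h10, ← pow_mul]
          exact Nat.pow_le_pow_right (by norm_num) (by omega)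
        exact h9.trans h8
      exact (Nat.mul_le_mul_right _ h7).trans h4
    rw [h2]
    calc 2 ^ (s * t) * 2 ^ s * ((t + 1) * t.factorial * (s.factorial ^ t * s.factorial))
        = (2 ^ (s * t) * (t.factorial * s.factorial ^ t)) * (2 ^ s * (t + 1) * s.factorial) := by ring
      _ < (2 * (s * t).factorial) * (s * t + 1).ascFactorial s := by
        apply Nat.mul_lt_mul_of_lt_of_le ih h3
        positivity
      _ = _ := by ring

theorem alt_index_imprim {n : ℕ} (hodd : Odd n) (hn : 5 ≤ n)
    (D : Subgroup (alternatingGroup (Fin n)))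
    (htr : IsPretransitive (D.map (alternatingGroup (Fin n)).subtype) (Fin n))
    (hprim : ¬ IsPreprimitive (D.map (alternatingGroup (Fin n)).subtype) (Fin n)) :
    2 ^ (n - 1) < D.index := by
  classical
  let D' : Subgroup (Perm (Fin n)) := D.map (alternatingGroup (Fin n)).subtype
  obtain ⟨B, hB, hBt⟩ : ∃ B : Set (Fin n), IsBlock D' B ∧ ¬ IsTrivialBlock B := by
    by_contra hcon
    push Not at hcon
    exact hprim { toIsPretransitive := htr, isTrivialBlock_of_isBlock := fun hB => hcon _ hB }
  rw [IsTrivialBlock, not_or, Set.not_subsingleton_iff] at hBt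
  have hBne : B.Nonempty := hBt.1.nonempty
  have hmul := hB.ncard_block_mul_ncard_orbit_eq hBne
  rw [Nat.card_eq_fintype_card, Fintype.card_fin] at hmul
  obtain ⟨hpart, -⟩ := hB.isBlockSystem hBne
  -- the map to the block system
  let O : Type := MulAction.orbit D' B
  have hOfin : Finite O := inferInstance
  let _ : Fintype O := Fintype.ofFinite O
  have hcover : ∀ x : Fin n, ∃ T : O, x ∈ T.1 := by
    intro x
    obtain ⟨b, hb⟩ := hBne
    obtain ⟨g, rfl⟩ := exists_smul_eq D' b x
    exact ⟨⟨g • B, ⟨g, rfl⟩⟩, Set.smul_mem_smul_set hb⟩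
  choose π hπ using hcover
  have huniq : ∀ (x : Fin n) (T : O), x ∈ T.1 → T = π x := by
    intro x T hx
    obtain ⟨T0, -, hT0⟩ := hpart.2 x
    have h1 := hT0 T.1 ⟨T.2, hx⟩
    have h2 := hT0 (π x).1 ⟨(π x).2, hπ x⟩
    exact Subtype.ext (h1.trans h2.symm)
  have hfib : ∀ T : O, Fintype.card {x // π x = T} = B.ncard := by
    intro T
    obtain ⟨T, g, rfl⟩ := T
    have h1 : (g • B).ncard = B.ncard := by
      rw [← Set.image_smul]
      exact Set.ncard_image_of_injective _ (MulAction.injective g)
    rw [← h1, ← Nat.card_eq_fintype_card, ← Nat.card_coe_set_eq]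
    apply Nat.card_congr
    exact
      { toFun := fun x => ⟨x.1, by
          have := hπ x.1
          rw [x.2] at this
          exact this⟩
        invFun := fun x => ⟨x.1, (huniq x.1 _ x.2).symm⟩
        left_inv := fun _ => rfl
        right_inv := fun _ => rfl }
  have hs1 : 1 < B.ncard := Set.one_lt_ncard_iff_nontrivial.mpr hBt.1
  have hcardO : Fintype.card O = (orbit D' B).ncard := by
    rw [← Nat.card_eq_fintype_card, Nat.card_coe_set_eq]
  have ht1 : (orbit D' B).ncard ≠ 1 := by
    intro h1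
    rw [h1, mul_one] at hmul
    apply hBt.2
    rw [Set.eq_univ_iff_ncard, hmul, Nat.card_eq_fintype_card, Fintype.card_fin]
  set s := B.ncard with hs
  set t := (orbit D' B).ncard with ht
  have hs_odd : Odd s := by
    rw [← hmul] at hodd
    exact (Nat.odd_mul.mp hodd).1
  have ht_odd : Odd t := by
    rw [← hmul] at hodd
    exact (Nat.odd_mul.mp hodd).2
  have hs3 : 3 ≤ s := by
    obtain ⟨k, hk⟩ := hs_odd
    omega
  have ht3 : 3 ≤ t := by
    obtain ⟨k, hk⟩ := ht_odd
    omega
  have hOne : Nonempty O := ⟨⟨B, 1, one_smul _ B⟩⟩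
  have hDA : D' ≤ alternatingGroup (Fin n) := Subgroup.map_subtype_le D
  have h2 := card_imprim π s hfib (by omega) D' hDA (by
    intro g hg
    refine ⟨MulAction.toPerm (⟨g, hg⟩ : D'), fun x => ?_⟩
    symm
    apply huniq
    exact Set.smul_mem_smul_set (a := (⟨g, hg⟩ : D')) (hπ x))
  rw [hcardO] at h2
  have h3 := main_ineq hs3 ht3
  rw [hmul] at h3
  have hcardD : Nat.card D' = Nat.card D :=
    Subgroup.card_map_of_injective (Subtype.val_injective)
  rw [hcardD] at h2
  have hnt : Nontrivial (Fin n) := Fin.nontrivial_iff_two_le.mpr (by omega)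
  have h5 : 2 * Nat.card (alternatingGroup (Fin n)) = n.factorial := by
    rw [two_mul_nat_card_alternatingGroup, Nat.card_perm, Nat.card_eq_fintype_card, Fintype.card_fin]
  have h6 := D.card_mul_index
  have h7 : 2 ^ n = 2 * 2 ^ (n - 1) := by
    rw [← pow_succ']
    congr 1
    omega
  have hDpos : 0 < Nat.card D := Nat.card_pos
  have h8 : 2 ^ n * (2 * Nat.card D) ≤ 2 ^ n * (t.factorial * s.factorial ^ t) :=
    Nat.mul_le_mul_left _ h2
  have h9 : 2 ^ (n - 1) * Nat.card D < D.index * Nat.card D := by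
    have h10 : 2 ^ n * (2 * Nat.card D) = 4 * (2 ^ (n - 1) * Nat.card D) := by
      rw [h7]; ring
    have h11 : 2 * n.factorial = 4 * (D.index * Nat.card D) := by
      rw [← h5, ← h6]; ring
    omega
  exact Nat.lt_of_mul_lt_mul_right h9

theorem bochert_alt {n : ℕ} (h17 : 17 ≤ n) (D : Subgroup (alternatingGroup (Fin n)))
    (hprim : IsPreprimitive (D.map (alternatingGroup (Fin n)).subtype) (Fin n)) :
    D = ⊤ ∨ 2 ^ (n - 1) < D.index := by
  have hnt : Nontrivial (Fin n) := Fin.nontrivial_iff_two_le.mpr (by omega)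
  let D' : Subgroup (Perm (Fin n)) := D.map (alternatingGroup (Fin n)).subtype
  have hidx : D'.index = D.index * 2 := by
    rw [Subgroup.index_map_subtype, alternatingGroup.index_eq_two]
  by_cases hA : alternatingGroup (Fin n) ≤ D'
  · left
    rw [eq_top_iff]
    intro a _
    obtain ⟨b, hb, hba⟩ := hA a.2
    have : b = a := Subtype.ext hba
    rw [← this]
    exact hb
  · right
    have h6 := bochert D' hprim hA
    rw [Fintype.card_fin, hidx] at h6
    have h7 := four_pow_lt_factorial (m := (n + 1) / 2) (by omega)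
    have h8 : 2 ^ n ≤ 4 ^ ((n + 1) / 2) := by
      have h9 : (4 : ℕ) = 2 ^ 2 := by norm_num
      rw [h9, ← pow_mul]
      exact Nat.pow_le_pow_right (by norm_num) (by omega)
    have h10 : 2 ^ n = 2 * 2 ^ (n - 1) := by
      rw [← pow_succ']
      congr 1
      omega
    omega

/-- an `ℓ`-element has a conjugate in a subgroup of index prime to `ℓ` -/
theorem exists_conj_mem {A : Type*} [Group A] [Finite A] {ℓ : ℕ} [Fact ℓ.Prime] (D : Subgroup A)
    (hD : ¬ ℓ ∣ D.index) (c : A) (k : ℕ) (hc : orderOf c = ℓ ^ k) : ∃ a : A, a⁻¹ * c * a ∈ D := by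
  have hpg : IsPGroup ℓ (Subgroup.zpowers c) := by
    apply IsPGroup.of_card (n := k)
    rw [Nat.card_zpowers, hc]
  obtain ⟨q, hq⟩ := hpg.nonempty_fixed_point_of_prime_not_dvd_card (A ⧸ D) hD
  obtain ⟨a, rfl⟩ := QuotientGroup.mk_surjective q
  refine ⟨a, ?_⟩
  have h1 := hq ⟨c, Subgroup.mem_zpowers c⟩
  have h2 : (QuotientGroup.mk (c * a) : A ⧸ D) = QuotientGroup.mk a := h1
  have h3 := QuotientGroup.eq.mp h2.symm
  rwa [← mul_assoc] at h3

theorem alt_index_primepow {ℓ b n : ℕ} (hℓ : ℓ.Prime) (hn : n = ℓ ^ b) (hodd : Odd n)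
    (h5 : n = 9 ∨ 17 ≤ n)
    (D : Subgroup (alternatingGroup (Fin n))) (hD : ¬ ℓ ∣ D.index) :
    D = ⊤ ∨ 2 ^ (n - 1) < D.index := by
  classical
  have hn5 : 5 ≤ n := by omega
  have hℓf : Fact ℓ.Prime := ⟨hℓ⟩
  let D' : Subgroup (Perm (Fin n)) := D.map (alternatingGroup (Fin n)).subtype
  -- transitivity
  have htrA : IsPretransitive (alternatingGroup (Fin n)) (Fin n) :=
    alternatingGroup.isPretransitive_of_three_le_card (Fin n) (by
      rw [Nat.card_eq_fintype_card, Fintype.card_fin]; omega)
  have htr : IsPretransitive D' (Fin n) := by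
    have horb : ∀ x : Fin n, orbit D x = Set.univ := by
      intro x
      let S : Subgroup (alternatingGroup (Fin n)) := stabilizer (alternatingGroup (Fin n)) x
      have hS : S.index = n := by
        rw [index_stabilizer_of_transitive, Nat.card_eq_fintype_card, Fintype.card_fin]
      have e1 : (D ⊓ S).relIndex D * D.index = (D ⊓ S).index :=
        Subgroup.relIndex_mul_index inf_le_left
      have e2 : (D ⊓ S).relIndex S * S.index = (D ⊓ S).index :=
        Subgroup.relIndex_mul_index inf_le_right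
      have e3 : (D ⊓ S).relIndex D = (orbit D x).ncard := by
        rw [Subgroup.inf_relIndex_left, ← index_stabilizer]
        rfl
      have e4 : n ∣ (orbit D x).ncard * D.index := by
        rw [← e3, e1, ← e2, hS]
        exact Dvd.intro_left _ rfl
      have e50 : ∀ k : ℕ, Nat.Coprime (ℓ ^ b) k → Nat.Coprime n k := by
        intro k hk
        rw [hn]
        exact hk
      have e5 : Nat.Coprime n D.index :=
        e50 _ (Nat.Coprime.pow_left b ((Nat.Prime.coprime_iff_not_dvd hℓ).mpr hD))
      have e6 : n ∣ (orbit D x).ncard := e5.dvd_of_dvd_mul_right e4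
      have e7 : 0 < (orbit D x).ncard :=
        (Set.ncard_pos (Set.toFinite _)).mpr (MulAction.nonempty_orbit x)
      rw [Set.eq_univ_iff_ncard, Nat.card_eq_fintype_card, Fintype.card_fin]
      apply le_antisymm
      · have := Set.ncard_le_card (orbit D x)
        rwa [Nat.card_eq_fintype_card, Fintype.card_fin] at this
      · exact Nat.le_of_dvd e7 e6
    constructor
    intro x y
    have h1 : y ∈ orbit D x := by rw [horb x]; exact Set.mem_univ y
    obtain ⟨g, hg⟩ := h1
    exact ⟨⟨g.1.1, g.1, g.2, rfl⟩, hg⟩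
  by_cases hprim : IsPreprimitive D' (Fin n)
  · rcases h5 with h9 | h17
    · -- a 3-cycle
      left
      have hℓ3 : ℓ = 3 := by
        have h1 : ℓ ∣ 9 := by
          rw [← h9, hn]
          apply dvd_pow_self
          rintro rfl
          rw [pow_zero] at hn
          omega
        have h2 : ℓ ∣ 3 := by
          have h3 : (9 : ℕ) = 3 ^ 2 := by norm_num
          rw [h3] at h1
          exact hℓ.dvd_of_dvd_pow h1
        exact (Nat.prime_dvd_prime_iff_eq hℓ Nat.prime_three).mp h2
      let i0 : Fin n := ⟨0, by omega⟩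
      let i1 : Fin n := ⟨1, by omega⟩
      let i2 : Fin n := ⟨2, by omega⟩
      have h01 : i0 ≠ i1 := by
        intro h
        have := congrArg Fin.val h
        simp [i0, i1] at this
      have h02 : i0 ≠ i2 := by
        intro h
        have := congrArg Fin.val h
        simp [i0, i2] at this
      have h12 : i1 ≠ i2 := by
        intro h
        have := congrArg Fin.val h
        simp [i1, i2] at this
      have h3c : IsThreeCycle (swap i0 i1 * swap i0 i2) :=
        isThreeCycle_swap_mul_swap_same h01 h02 h12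
      let c : alternatingGroup (Fin n) := ⟨swap i0 i1 * swap i0 i2, h3c.mem_alternatingGroup⟩
      have hc : orderOf c = ℓ ^ 1 := by
        rw [pow_one, hℓ3]
        refine Eq.trans ?_ h3c.orderOf
        exact (Subgroup.orderOf_coe c).symm
      obtain ⟨a, ha⟩ := exists_conj_mem D hD c 1 hc
      have h3c' : IsThreeCycle ((a⁻¹ * c * a : alternatingGroup (Fin n)) : Perm (Fin n)) := by
        have h1 : ((a⁻¹ * c * a : alternatingGroup (Fin n)) : Perm (Fin n)) =
            (a : Perm (Fin n))⁻¹ * (swap i0 i1 * swap i0 i2) * ((a : Perm (Fin n))⁻¹)⁻¹ := by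
          rw [inv_inv]; rfl
        rw [h1, IsThreeCycle, cycleType_conj]
        exact h3c
      have hA := alternatingGroup_le_of_isPreprimitive_of_isThreeCycle_mem hprim h3c'
        ⟨_, ha, rfl⟩
      rw [eq_top_iff]
      intro z _
      obtain ⟨y, hy, hyz⟩ := hA z.2
      have : y = z := Subtype.ext hyz
      rw [← this]
      exact hy
    · exact bochert_alt h17 D hprim
  · right
    exact alt_index_imprim hodd hn5 D htr hprim

end LeepA
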