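import Pool.Agent.H5.Leep.CycGroup
import Pool.Agent.H5.Leep.AltPow

/-!
The groups for all odd prime powers except `7`.
-/

namespace LeepA

set_option maxHeartbeats 400000

theorem exists_GG_pow {ℓ b : ℕ} (hℓ : ℓ.Prime) (hℓ2 : ℓ ≠ 2) (hb : b ≠ 0) (h7 : ℓ ^ b ≠ 7) :
    ∃ (G : Type) (_ : Group G), Finite G ∧ GG ℓ (ℓ ^ b) G := by
  have hodd : Odd (ℓ ^ b) := (hℓ.odd_of_ne_two hℓ2).pow
  by_cases h17 : 17 ≤ ℓ ^ b
  · exact GG_alt (by omega) hodd (fun D hD => alt_index_primepow hℓ rfl hodd (Or.inr h17) D hD)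
  · by_cases hb1 : b = 1
    · subst hb1
      rw [pow_one] at h7 h17 ⊢
      exact exists_GG hℓ hℓ2 h7
    · have hℓ3 : 3 ≤ ℓ := by
        have := hℓ.two_le
        omega
      have hb2 : 2 ≤ b := by omega
      have h9 : ℓ ^ b = 9 := by
        have h1 : ℓ ^ 2 ≤ ℓ ^ b := Nat.pow_le_pow_right (by omega) hb2
        have h2 : ℓ < 5 := by
          by_contra hcon
          have : 5 ^ 2 ≤ ℓ ^ 2 := Nat.pow_le_pow_left (by omega) 2
          omega
        have h3 : ℓ = 3 := by
          interval_cases ℓ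
          · rfl
          · exact absurd hℓ (by norm_num)
        subst h3
        have h4 : b = 2 := by
          by_contra hcon
          have : 3 ^ 3 ≤ 3 ^ b := Nat.pow_le_pow_right (by norm_num) (by omega)
          omega
        rw [h4]
        norm_num
      exact GG_alt (by omega) hodd (fun D hD => alt_index_primepow hℓ rfl hodd (Or.inl h9) D hD)

end LeepA
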