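import Pool.Agent.H5.Leep.Bochert

/-!
Subgroups of small index of the alternating groups.
-/

namespace LeepA

open Equiv Equiv.Perm MulAction

set_option maxHeartbeats 400000

theorem alt_index_small {n : ℕ} (hn : 5 ≤ n) (D : Subgroup (alternatingGroup (Fin n)))
    (hD : D.index < n) : D = ⊤ := by
  have hsimp : IsSimpleGroup (alternatingGroup (Fin n)) :=
    alternatingGroup.isSimpleGroup (by simpa using hn)
  rcases hsimp.eq_bot_or_eq_top_of_normal D.normalCore inferInstance with h | h
  · exfalso
    have h1 : Function.Injective (MulAction.toPermHom (alternatingGroup (Fin n))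
        (alternatingGroup (Fin n) ⧸ D)) := by
      rw [← MonoidHom.ker_eq_bot_iff, ← Subgroup.normalCore_eq_ker]
      exact h
    have h2 : Nat.card (alternatingGroup (Fin n)) ≤ (D.index).factorial := by
      have h3 := Nat.card_le_card_of_injective _ h1
      rwa [Nat.card_perm] at h3
    have h4 : D.index.factorial ≤ (n - 1).factorial := Nat.factorial_le (by omega)
    have hnt : Nontrivial (Fin n) := Fin.nontrivial_iff_two_le.mpr (by omega)
    have h5 : 2 * Nat.card (alternatingGroup (Fin n)) = n.factorial := by
      rw [two_mul_nat_card_alternatingGroup, Nat.card_perm, Nat.card_eq_fintype_card, Fintype.card_fin]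
    have h6 : n.factorial = n * (n - 1).factorial := (Nat.mul_factorial_pred (by omega)).symm
    have h7 : 0 < (n - 1).factorial := Nat.factorial_pos _
    nlinarith
  · exact top_le_iff.mp (h ▸ D.normalCore_le)

theorem four_pow_lt_factorial {m : ℕ} (hm : 9 ≤ m) : 4 ^ m < m.factorial := by
  induction m, hm using Nat.le_induction with
  | base => decide
  | succ m hm ih =>
    rw [pow_succ, Nat.factorial_succ]
    nlinarith

theorem alt_index_prime {p : ℕ} (hp : p.Prime) (h17 : 17 ≤ p)
    (D : Subgroup (alternatingGroup (Fin p))) (hD : ¬ p ∣ D.index) :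
    D = ⊤ ∨ 2 ^ (p - 1) < D.index := by
  have hpf : Fact p.Prime := ⟨hp⟩
  have hnt : Nontrivial (Fin p) := Fin.nontrivial_iff_two_le.mpr (by omega)
  have h5 : 2 * Nat.card (alternatingGroup (Fin p)) = p.factorial := by
    rw [two_mul_nat_card_alternatingGroup, Nat.card_perm, Nat.card_eq_fintype_card, Fintype.card_fin]
  have hpA : p ∣ Nat.card (alternatingGroup (Fin p)) := by
    have h6 : p ∣ 2 * Nat.card (alternatingGroup (Fin p)) := by
      rw [h5]
      exact Nat.dvd_factorial hp.pos le_rfl
    rcases hp.dvd_mul.mp h6 with h | h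
    · have := Nat.le_of_dvd (by norm_num) h
      omega
    · exact h
  have hpD : p ∣ Nat.card D := by
    rw [← D.card_mul_index] at hpA
    exact (hp.dvd_mul.mp hpA).resolve_right hD
  obtain ⟨g, hg⟩ := exists_prime_orderOf_dvd_card' p hpD
  let σ : Perm (Fin p) := ((g : alternatingGroup (Fin p)) : Perm (Fin p))
  have hσ : orderOf σ = p := by
    refine Eq.trans ?_ hg
    change orderOf (((g : alternatingGroup (Fin p)) : Perm (Fin p))) = orderOf g
    rw [Subgroup.orderOf_coe, Subgroup.orderOf_coe]
  let D' : Subgroup (Perm (Fin p)) := D.map (alternatingGroup (Fin p)).subtype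
  have hσD : σ ∈ D' := ⟨g, g.2, rfl⟩
  have hcyc : σ.IsCycle := by
    apply isCycle_of_prime_order' (by rw [hσ]; exact hp)
    rw [hσ, Fintype.card_fin]
    omega
  have hsupp : σ.support = Finset.univ := by
    rw [← Finset.card_eq_iff_eq_univ, ← hcyc.orderOf, hσ, Fintype.card_fin]
  have hmoved : ∀ x, σ x ≠ x := by
    intro x
    rw [← Perm.mem_support, hsupp]
    exact Finset.mem_univ x
  have htrans : IsPretransitive D' (Fin p) := by
    constructor
    intro x y
    obtain ⟨i, hi⟩ := hcyc.exists_zpow_eq (hmoved x) (hmoved y)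
    exact ⟨⟨σ ^ i, D'.zpow_mem hσD i⟩, hi⟩
  have hprim : IsPreprimitive D' (Fin p) := by
    apply IsPreprimitive.of_prime_card
    rw [Nat.card_eq_fintype_card, Fintype.card_fin]
    exact hp
  have hidx : D'.index = D.index * 2 := by
    rw [Subgroup.index_map_subtype, alternatingGroup.index_eq_two]
  by_cases hA : alternatingGroup (Fin p) ≤ D'
  · left
    rw [eq_top_iff]
    intro a _
    obtain ⟨b, hb, hba⟩ := hA a.2
    have : b = a := Subtype.ext hba
    rw [← this]
    exact hb
  · right
    have h6 := bochert D' hprim hA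
    rw [Fintype.card_fin, hidx] at h6
    have h7 := four_pow_lt_factorial (m := (p + 1) / 2) (by omega)
    have h8 : 2 ^ p ≤ 4 ^ ((p + 1) / 2) := by
      have h9 : (4 : ℕ) = 2 ^ 2 := by norm_num
      rw [h9, ← pow_mul]
      exact Nat.pow_le_pow_right (by norm_num) (by omega)
    have h10 : 2 ^ p = 2 * 2 ^ (p - 1) := by
      rw [← pow_succ']
      congr 1
      omega
    omega

end LeepA
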