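import Pool.Agent.H5.Leep.GG

/-!
Semidirect products satisfying the group condition.
-/

namespace LeepA

set_option maxHeartbeats 400000

theorem card_mul_relIndex {G : Type*} [Group G] (W K : Subgroup G) (h : W ≤ K) :
    Nat.card W * W.relIndex K = Nat.card K := by
  have h1 := (W.subgroupOf K).card_mul_index
  rw [Nat.card_congr (Subgroup.subgroupOfEquivOfLe h).toEquiv] at h1
  exact h1

theorem GG_of_semidirect {N A : Type*} [CommGroup N] [Group A] [Finite N] [Finite A]
    (φ : A →* MulAut N) (ℓ r : ℕ) (hN : Nat.card N = 2 ^ (r - 1))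
    (h1 : ∀ D : Subgroup A, ¬ ℓ ∣ D.index → D = ⊤ ∨ 2 ^ (r - 1) < D.index)
    (h2 : ∀ D : Subgroup A, D.index < r → D = ⊤)
    (h3 : ∀ U : Subgroup N, (∀ a, ∀ u ∈ U, φ a u ∈ U) → U = ⊥ ∨ U = ⊤)
    (h4 : ∀ n : N, (∀ a, φ a n = n) → n = 1)
    (P : Subgroup A) (hP : P.index = r) (χ : N →* Multiplicative (ZMod 2))
    (hχ : Function.Surjective χ) (hχP : ∀ p ∈ P, ∀ n, χ (φ p n) = χ n) :
    GG ℓ r (SemidirectProduct N A φ) := by
  let G := SemidirectProduct N A φ
  have hGfin : Finite G := Finite.of_equiv _ SemidirectProduct.equivProd.symm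
  let W : Subgroup G := (SemidirectProduct.inl : N →* G).range
  have hWker : W = (SemidirectProduct.rightHom : G →* A).ker :=
    SemidirectProduct.range_inl_eq_ker_rightHom
  have hWn : W.Normal := by
    rw [hWker]
    infer_instance
  have hWcard : Nat.card W = 2 ^ (r - 1) := by
    rw [← hN]
    exact (Nat.card_congr (MonoidHom.ofInjective
      (SemidirectProduct.inl_injective (φ := φ))).toEquiv).symm
  have hWmem : ∀ g : G, g ∈ W ↔ g.right = 1 := by
    intro g
    rw [hWker, MonoidHom.mem_ker]
    rfl
  have hGcard : Nat.card G = Nat.card N * Nat.card A := SemidirectProduct.card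
  have hsurj : Function.Surjective (SemidirectProduct.rightHom : G →* A) :=
    SemidirectProduct.rightHom_surjective
  -- conjugation
  have hconj : ∀ (g : G) (n : N), g * SemidirectProduct.inl n * g⁻¹ =
      SemidirectProduct.inl (φ g.right n) := by
    intro g n
    apply SemidirectProduct.ext
    · have e1 : SemidirectProduct.left (g * SemidirectProduct.inl n * g⁻¹) =
        g.left * φ g.right n * φ (g.right * 1) (φ g.right⁻¹ g.left⁻¹) := rfl
      rw [e1, mul_one, ← MulAut.mul_apply, ← map_mul, mul_inv_cancel, map_one,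
        MulAut.one_apply, mul_comm g.left, mul_assoc, mul_inv_cancel, mul_one]
      rfl
    · have e1 : SemidirectProduct.right (g * SemidirectProduct.inl n * g⁻¹) = g.right * 1 * g.right⁻¹ := rfl
      rw [e1, mul_one, mul_inv_cancel]
      rfl
  -- subgroups supplementing `W`
  have hsup : ∀ S : Subgroup G, S ⊔ W = ⊤ → ∀ a : A, ∃ g ∈ S, g.right = a := by
    intro S hS a
    have h5 : S.map (SemidirectProduct.rightHom : G →* A) = ⊤ := by
      have h6 : (S ⊔ W).map (SemidirectProduct.rightHom : G →* A) = ⊤ := by
        rw [hS]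
        exact Subgroup.map_top_of_surjective _ hsurj
      rw [Subgroup.map_sup] at h6
      have h7 : W.map (SemidirectProduct.rightHom : G →* A) = ⊥ := by
        rw [Subgroup.map_eq_bot_iff, hWker]
      rwa [h7, sup_bot_eq] at h6
    have h8 : a ∈ S.map (SemidirectProduct.rightHom : G →* A) := by
      rw [h5]; exact Subgroup.mem_top a
    obtain ⟨g, hg, hga⟩ := h8
    exact ⟨g, hg, hga⟩
  -- (c)
  have hc : ∀ S : Subgroup G, S ⊔ W = ⊤ → S ⊓ W = ⊥ ∨ S = ⊤ := by
    intro S hS
    let U : Subgroup N := S.comap (SemidirectProduct.inl : N →* G)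
    rcases h3 U (by
      intro a u hu
      obtain ⟨g, hg, rfl⟩ := hsup S hS a
      have h5 := S.mul_mem (S.mul_mem hg hu) (S.inv_mem hg)
      rw [hconj] at h5
      exact h5) with h | h
    · left
      rw [eq_bot_iff]
      rintro g ⟨hgS, hgW⟩
      obtain ⟨n, rfl⟩ := hgW
      have h5 : n ∈ U := hgS
      rw [h, Subgroup.mem_bot] at h5
      rw [Subgroup.mem_bot, h5, map_one]
    · right
      have h5 : W ≤ S := by
        rintro _ ⟨n, rfl⟩
        have h6 : n ∈ U := by rw [h]; exact Subgroup.mem_top n
        exact h6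
      rw [← hS, sup_eq_left.mpr h5]
  refine ⟨W, hWn, hWcard, ?_, ?_, hc, ?_, ?_⟩
  · -- (a)
    intro H hH
    let D : Subgroup A := H.map (SemidirectProduct.rightHom : G →* A)
    have hDcomap : D.comap (SemidirectProduct.rightHom : G →* A) = H ⊔ W := by
      rw [hWker]
      exact Subgroup.comap_map_eq _ H
    have hDidx : D.index = (H ⊔ W).index := by
      rw [← hDcomap, Subgroup.index_comap_of_surjective _ hsurj]
    have hdvd : (H ⊔ W).index ∣ H.index := Subgroup.index_dvd_of_le le_sup_left
    have hHpos : 0 < H.index := Nat.pos_of_ne_zero Subgroup.FiniteIndex.index_ne_zero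
    rcases h1 D (fun h => hH (h.trans (hDidx ▸ hdvd))) with h | h
    · have h5 : H ⊔ W = ⊤ := by
        rw [← hDcomap, h, Subgroup.comap_top]
      rcases hc H h5 with h6 | h6
      · right; left
        refine ⟨?_, h6⟩
        have h7 : Nat.card (H ⊔ W : Subgroup G) = Nat.card H * Nat.card W := by
          have e1 : Nat.card W * W.relIndex (H ⊔ W) = Nat.card (H ⊔ W : Subgroup G) :=
            card_mul_relIndex _ _ (le_sup_right)
          have e2 : W.relIndex (H ⊔ W) = W.relIndex H := Subgroup.relIndex_sup_right H W
          have e3 : W.relIndex H = Nat.card H := by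
            have e4 : W.subgroupOf H = ⊥ := by
              rw [Subgroup.subgroupOf_eq_bot, disjoint_iff, inf_comm]
              exact h6
            rw [Subgroup.relIndex, e4, Subgroup.index_bot]
          rw [← e1, e2, e3, mul_comm]
        rw [h5, Subgroup.card_top] at h7
        have h8 := H.card_mul_index
        rw [h7] at h8
        rw [← hWcard]
        exact Nat.eq_of_mul_eq_mul_left Nat.card_pos h8
      · left; exact h6
    · right; right
      rw [hDidx] at h
      exact lt_of_lt_of_le h (Nat.le_of_dvd hHpos hdvd)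
  · -- (b)
    intro S hWS hS
    let D : Subgroup A := S.map (SemidirectProduct.rightHom : G →* A)
    have hDcomap : D.comap (SemidirectProduct.rightHom : G →* A) = S := by
      have h5 : D.comap (SemidirectProduct.rightHom : G →* A) = S ⊔ W := by
        rw [hWker]
        exact Subgroup.comap_map_eq _ S
      rw [h5, sup_eq_left.mpr hWS]
    have hDidx : D.index = S.index := by
      conv_rhs => rw [← hDcomap]
      rw [Subgroup.index_comap_of_surjective _ hsurj]
    have h5 := h2 D (hDidx ▸ hS)
    rw [← hDcomap, h5, Subgroup.comap_top]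
  · -- (e)
    intro S hS w hw hcomm
    obtain ⟨n, rfl⟩ := hw
    have h5 : n = 1 := by
      apply h4
      intro a
      obtain ⟨g, hg, rfl⟩ := hsup S hS a
      have h6 := hcomm g hg
      have h7 := hconj g n
      rw [h6, mul_assoc, mul_inv_cancel, mul_one] at h7
      exact (SemidirectProduct.inl_injective h7).symm
    rw [h5, map_one]
  · -- (d)
    let V : Subgroup G := P.comap (SemidirectProduct.rightHom : G →* A)
    have hVidx : V.index = r := by
      rw [Subgroup.index_comap_of_surjective _ hsurj, hP]
    let f : V →* Multiplicative (ZMod 2) :=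
      { toFun := fun x => χ x.1.left
        map_one' := map_one χ
        map_mul' := by
          intro x y
          have e1 : (x * y).1.left = x.1.left * φ x.1.right y.1.left := rfl
          rw [e1, map_mul]
          congr 1
          exact hχP _ x.2 _ }
    have hf : Function.Surjective f := by
      intro z
      obtain ⟨n, rfl⟩ := hχ z
      exact ⟨⟨SemidirectProduct.inl n, P.one_mem⟩, rfl⟩
    refine ⟨V, f.ker.map V.subtype, Subgroup.map_subtype_le _, hVidx, ?_⟩
    rw [Subgroup.index_map_subtype, hVidx, Subgroup.index_ker, f.range_eq_top.mpr hf]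
    rw [Subgroup.card_top, Nat.card_congr Multiplicative.toAdd, Nat.card_zmod]

end LeepA
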