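import Pool.Agent.H5.Leep.AltFacts
import Pool.Agent.H5.Leep.GGSemi

/-!
The group `W ⋊ A_n`, `W` the even functions.
-/

namespace LeepA

open Equiv Equiv.Perm MulAction

set_option maxHeartbeats 400000

/-- the sum of the values -/
def sumHom (n : ℕ) : (Fin n → ZMod 2) →+ ZMod 2 where
  toFun f := ∑ i, f i
  map_zero' := by simp
  map_add' f g := by simp [Finset.sum_add_distrib]

/-- the even functions -/
abbrev Ev (n : ℕ) : Type := (sumHom n).ker

theorem Ev_mem {n : ℕ} (f : Fin n → ZMod 2) : f ∈ (sumHom n).ker ↔ ∑ i, f i = 0 := Iff.rfl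

theorem card_Ev {n : ℕ} (hn : 0 < n) : Nat.card (Ev n) = 2 ^ (n - 1) := by
  have h1 := (sumHom n).ker.card_mul_index
  have hsurj : Function.Surjective (sumHom n) := by
    intro c
    refine ⟨Pi.single ⟨0, hn⟩ c, ?_⟩
    change ∑ i, (Pi.single ⟨0, hn⟩ c : Fin n → ZMod 2) i = c
    simp
  rw [AddSubgroup.index_ker, (sumHom n).range_eq_top.mpr hsurj, AddSubgroup.card_top,
    Nat.card_zmod] at h1
  have h2 : Nat.card (Fin n → ZMod 2) = 2 ^ (n - 1) * 2 := by
    rw [Nat.card_fun, Nat.card_zmod, Nat.card_eq_fintype_card, Fintype.card_fin, ← pow_succ]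
    congr 1
    omega
  rw [h2] at h1
  exact Nat.eq_of_mul_eq_mul_right (by norm_num) h1

/-- the action of a permutation -/
def actEv {n : ℕ} (a : Perm (Fin n)) : Ev n ≃+ Ev n where
  toFun f := ⟨fun i => f.1 (a⁻¹ i), by
    rw [Ev_mem, Equiv.sum_comp a⁻¹ f.1]
    exact f.2⟩
  invFun f := ⟨fun i => f.1 (a i), by
    rw [Ev_mem, Equiv.sum_comp a f.1]
    exact f.2⟩
  left_inv f := by
    apply Subtype.ext
    funext i
    exact congrArg f.1 (inv_app a i)
  right_inv f := by
    apply Subtype.ext
    funext i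
    exact congrArg f.1 (app_inv a i)
  map_add' f g := rfl

theorem actEv_apply {n : ℕ} (a : Perm (Fin n)) (f : Ev n) (i : Fin n) :
    (actEv a f).1 i = f.1 (a⁻¹ i) := rfl

/-- the homomorphism defining the semidirect product -/
def phiEv (n : ℕ) : alternatingGroup (Fin n) →* MulAut (Multiplicative (Ev n)) where
  toFun a := AddEquiv.toMultiplicative (actEv a.1)
  map_one' := rfl
  map_mul' a b := by
    apply MulEquiv.ext
    intro x
    apply congrArg Multiplicative.ofAdd
    apply Subtype.ext
    funext i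
    change (Multiplicative.toAdd x).1 ((a.1 * b.1)⁻¹ i) = (Multiplicative.toAdd x).1 (b.1⁻¹ (a.1⁻¹ i))
    rw [mul_inv_rev]
    rfl

theorem phiEv_apply {n : ℕ} (a : alternatingGroup (Fin n)) (f : Ev n) :
    phiEv n a (Multiplicative.ofAdd f) = Multiplicative.ofAdd (actEv a.1 f) := rfl

/-- the even function supported at two points -/
def pr {n : ℕ} (i j : Fin n) : Ev n :=
  ⟨Pi.single i 1 + Pi.single j 1, by
    rw [Ev_mem]
    simp only [Pi.add_apply, Finset.sum_add_distrib, Finset.sum_pi_single', Finset.mem_univ,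
      if_true]
    decide⟩

theorem pr_val {n : ℕ} (i j : Fin n) : (pr i j).1 = Pi.single i 1 + Pi.single j 1 := rfl

theorem pr_self {n : ℕ} (i : Fin n) : pr i i = 0 := by
  apply Subtype.ext
  funext k
  change ((Pi.single i 1 + Pi.single i 1 : Fin n → ZMod 2)) k = 0
  rw [Pi.add_apply]
  exact CharTwo.add_self_eq_zero _

/-- a double transposition -/
def dt {n : ℕ} (i j a b : Fin n) (hij : i ≠ j) (hab : a ≠ b) : alternatingGroup (Fin n) :=
  ⟨swap i j * swap a b, mul_mem_alternatingGroup_of_isSwap ⟨i, j, hij, rfl⟩ ⟨a, b, hab, rfl⟩⟩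

theorem zmod2_cases (c : ZMod 2) : c = 0 ∨ c = 1 := by
  fin_cases c
  · left; rfl
  · right; rfl

theorem exists_pair {n : ℕ} (hn : 5 ≤ n) (f : Fin n → ZMod 2) (i j : Fin n) :
    ∃ a b : Fin n, a ≠ b ∧ a ≠ i ∧ a ≠ j ∧ b ≠ i ∧ b ≠ j ∧ f a = f b := by
  classical
  let S : Finset (Fin n) := Finset.univ \ {i, j}
  have hS : 3 ≤ S.card := by
    have h1 : S.card = Fintype.card (Fin n) - ({i, j} : Finset (Fin n)).card := by
      rw [Finset.card_univ_sdiff]
    have h2 : ({i, j} : Finset (Fin n)).card ≤ 2 := Finset.card_le_two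
    rw [h1, Fintype.card_fin]
    omega
  obtain ⟨a, ha, b, hb, hab, hf⟩ := Finset.exists_ne_map_eq_of_card_lt_of_maps_to
    (s := S) (t := (Finset.univ : Finset (ZMod 2))) (by
      rw [Finset.card_univ, ZMod.card]
      omega) (fun x _ => Finset.mem_univ (f x))
  simp only [S, Finset.mem_sdiff, Finset.mem_univ, true_and, Finset.mem_insert,
    Finset.mem_singleton, not_or] at ha hb
  exact ⟨a, b, hab, ha.1, ha.2, hb.1, hb.2, hf⟩

theorem irred {n : ℕ} (hn : 5 ≤ n) (hodd : Odd n) (U : Subgroup (Multiplicative (Ev n)))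
    (hU : ∀ a, ∀ u ∈ U, phiEv n a u ∈ U) : U = ⊥ ∨ U = ⊤ := by
  classical
  by_cases hbot : U = ⊥
  · left; exact hbot
  right
  obtain ⟨u, hu, hu1⟩ : ∃ u : Multiplicative (Ev n), u ∈ U ∧ u ≠ 1 := by
    by_contra hcon
    push Not at hcon
    exact hbot ((Subgroup.eq_bot_iff_forall U).mpr hcon)
  set f : Ev n := Multiplicative.toAdd u with hf
  have hadd : ∀ g h : Ev n, Multiplicative.ofAdd g ∈ U → Multiplicative.ofAdd h ∈ U →
      Multiplicative.ofAdd (g + h) ∈ U := fun g h hg hh => U.mul_mem hg hh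
  have hsub : ∀ g h : Ev n, Multiplicative.ofAdd g ∈ U → Multiplicative.ofAdd h ∈ U →
      Multiplicative.ofAdd (g - h) ∈ U := fun g h hg hh => U.div_mem hg hh
  have hact : ∀ (a : alternatingGroup (Fin n)) (g : Ev n), Multiplicative.ofAdd g ∈ U →
      Multiplicative.ofAdd (actEv a.1 g) ∈ U := fun a g hg => hU a _ hg
  have hf0 : f.1 ≠ 0 := fun h => hu1 (Multiplicative.toAdd.injective (Subtype.ext h))
  obtain ⟨i, hi⟩ := Function.ne_iff.mp hf0
  have hi1 : f.1 i = 1 := (zmod2_cases (f.1 i)).resolve_left hi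
  obtain ⟨j, hj⟩ : ∃ j, f.1 j = 0 := by
    by_contra hcon
    push Not at hcon
    have h1 : ∀ j, f.1 j = 1 := fun j => (zmod2_cases (f.1 j)).resolve_left (hcon j)
    have h2 := (Ev_mem f.1).mp f.2
    simp only [h1, Finset.sum_const, Finset.card_univ, Fintype.card_fin, nsmul_eq_mul, mul_one] at h2
    rw [ZMod.natCast_eq_zero_iff] at h2
    exact (Nat.not_even_iff_odd.mpr hodd) (even_iff_two_dvd.mpr h2)
  have hij : i ≠ j := by
    rintro rfl
    rw [hi1] at hj
    exact one_ne_zero hj
  -- the first pair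
  have hpr : Multiplicative.ofAdd (pr i j) ∈ U := by
    obtain ⟨a, b, hab, hai, haj, hbi, hbj, hfab⟩ := exists_pair hn f.1 i j
    have h1 := hsub (actEv (dt i j a b hij hab).1 f) f (hact (dt i j a b hij hab) f hu) hu
    have h2 : actEv (dt i j a b hij hab).1 f - f = pr i j := by
      apply Subtype.ext
      funext k
      change f.1 ((swap i j * swap a b)⁻¹ k) - f.1 k = (Pi.single i 1 + Pi.single j 1 : Fin n → ZMod 2) k
      rw [mul_inv_rev, swap_inv, swap_inv, Perm.mul_apply, Pi.add_apply]
      by_cases hki : k = i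
      · subst hki
        rw [swap_apply_left, swap_apply_of_ne_of_ne haj.symm hbj.symm, hj, hi1,
          Pi.single_eq_same, Pi.single_eq_of_ne hij]
        decide
      by_cases hkj : k = j
      · subst hkj
        rw [swap_apply_right, swap_apply_of_ne_of_ne hai.symm hbi.symm, hj, hi1,
          Pi.single_eq_same, Pi.single_eq_of_ne hij.symm]
        decide
      rw [swap_apply_of_ne_of_ne hki hkj, Pi.single_eq_of_ne hki, Pi.single_eq_of_ne hkj]
      by_cases hka : k = a
      · subst hka
        rw [swap_apply_left, hfab]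
        simp
      by_cases hkb : k = b
      · subst hkb
        rw [swap_apply_right, hfab]
        simp
      rw [swap_apply_of_ne_of_ne hka hkb]
      simp
    rw [h2] at h1
    exact h1
  -- all pairs with `i`
  have hpr2 : ∀ k, Multiplicative.ofAdd (pr i k) ∈ U := by
    intro k
    by_cases hki : k = i
    · subst hki
      rw [pr_self]
      exact U.one_mem
    by_cases hkj : k = j
    · subst hkj
      exact hpr
    obtain ⟨a, b, hab, haj, hak, hbj, hbk, hfab⟩ := exists_pair hn (Pi.single i 1) j k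
    have hai : a ≠ i := by
      rintro rfl
      rw [Pi.single_eq_same, Pi.single_eq_of_ne hab.symm] at hfab
      exact one_ne_zero hfab
    have hbi : b ≠ i := by
      rintro rfl
      rw [Pi.single_eq_same, Pi.single_eq_of_ne hab] at hfab
      exact one_ne_zero hfab.symm
    have h1 := hact (dt j k a b (Ne.symm hkj) hab) _ hpr
    have h2 : actEv (dt j k a b (Ne.symm hkj) hab).1 (pr i j) = pr i k := by
      apply Subtype.ext
      funext z
      change (Pi.single i 1 + Pi.single j 1 : Fin n → ZMod 2) ((swap j k * swap a b)⁻¹ z) =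
        (Pi.single i 1 + Pi.single k 1 : Fin n → ZMod 2) z
      rw [mul_inv_rev, swap_inv, swap_inv, Perm.mul_apply, Pi.add_apply, Pi.add_apply]
      by_cases hzi : z = i
      · subst hzi
        rw [swap_apply_of_ne_of_ne hij (Ne.symm hki), swap_apply_of_ne_of_ne hai.symm hbi.symm,
          Pi.single_eq_of_ne hij, Pi.single_eq_of_ne (Ne.symm hki)]
      by_cases hzj : z = j
      · subst hzj
        rw [swap_apply_left, swap_apply_of_ne_of_ne hak.symm hbk.symm,
          Pi.single_eq_of_ne hki, Pi.single_eq_of_ne hkj, Pi.single_eq_of_ne hij.symm,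
          Pi.single_eq_of_ne (Ne.symm hkj)]
      by_cases hzk : z = k
      · subst hzk
        rw [swap_apply_right, swap_apply_of_ne_of_ne haj.symm hbj.symm,
          Pi.single_eq_same, Pi.single_eq_same, Pi.single_eq_of_ne hij.symm,
          Pi.single_eq_of_ne hki]
      rw [swap_apply_of_ne_of_ne hzj hzk]
      by_cases hza : z = a
      · subst hza
        rw [swap_apply_left, Pi.single_eq_of_ne hbi, Pi.single_eq_of_ne hbj,
          Pi.single_eq_of_ne hzi, Pi.single_eq_of_ne hzk]
      by_cases hzb : z = b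
      · subst hzb
        rw [swap_apply_right, Pi.single_eq_of_ne hai, Pi.single_eq_of_ne haj,
          Pi.single_eq_of_ne hzi, Pi.single_eq_of_ne hzk]
      rw [swap_apply_of_ne_of_ne hza hzb, Pi.single_eq_of_ne hzi, Pi.single_eq_of_ne hzj,
        Pi.single_eq_of_ne hzk]
    rw [h2] at h1
    exact h1
  -- everything
  rw [eq_top_iff]
  intro v _
  set g : Ev n := Multiplicative.toAdd v with hg
  have h3 : g = ∑ k, (g.1 k).val • pr i k := by
    apply Subtype.ext
    funext z
    rw [AddSubgroup.val_finsetSum, Finset.sum_apply]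
    have h4 : ∀ k, ((((g.1 k).val • pr i k : Ev n)) : Fin n → ZMod 2) z =
        g.1 k * ((Pi.single i 1 : Fin n → ZMod 2) z) + g.1 k * (Pi.single k 1 : Fin n → ZMod 2) z := by
      intro k
      change ((g.1 k).val • (pr i k).1) z = _
      rw [Pi.smul_apply, nsmul_eq_mul, ZMod.natCast_val, ZMod.cast_id, pr_val, Pi.add_apply, mul_add]
    rw [Finset.sum_congr rfl (fun k _ => h4 k), Finset.sum_add_distrib, ← Finset.sum_mul,
      (Ev_mem g.1).mp g.2, zero_mul, zero_add]
    rw [Finset.sum_eq_single z]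
    · rw [Pi.single_eq_same, mul_one]
    · intro b _ hb
      rw [Pi.single_eq_of_ne (Ne.symm hb), mul_zero]
    · intro h
      exact absurd (Finset.mem_univ z) h
  have h5 : ∀ S : Finset (Fin n), Multiplicative.ofAdd (∑ k ∈ S, (g.1 k).val • pr i k) ∈ U := by
    intro S
    induction S using Finset.induction_on with
    | empty => exact U.one_mem
    | insert a S ha ih =>
      rw [Finset.sum_insert ha]
      apply hadd _ _ _ ih
      rw [ofAdd_nsmul]
      exact U.pow_mem (hpr2 a) _
  have h6 := h5 Finset.univ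
  rw [← h3] at h6
  exact h6

theorem fixed_Ev {n : ℕ} (hn : 5 ≤ n) (hodd : Odd n) (u : Multiplicative (Ev n))
    (hu : ∀ a, phiEv n a u = u) : u = 1 := by
  classical
  set f : Ev n := Multiplicative.toAdd u with hf
  have hconst : ∀ i j, f.1 i = f.1 j := by
    intro i j
    by_cases hij : i = j
    · rw [hij]
    obtain ⟨a, b, hab, hai, haj, hbi, hbj, hfab⟩ := exists_pair hn f.1 i j
    have h1 : actEv (dt i j a b hij hab).1 f = f := hu (dt i j a b hij hab)
    have h2 := congrFun (congrArg Subtype.val h1) i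
    change f.1 ((swap i j * swap a b)⁻¹ i) = f.1 i at h2
    rw [mul_inv_rev, swap_inv, swap_inv, Perm.mul_apply, swap_apply_left,
      swap_apply_of_ne_of_ne haj.symm hbj.symm] at h2
    exact h2.symm
  have h0 : 0 < n := by omega
  have h2 := (Ev_mem f.1).mp f.2
  have h3 : ∀ i, f.1 i = f.1 ⟨0, h0⟩ := fun i => hconst i _
  have h4 : f.1 ⟨0, h0⟩ = 0 := by
    rcases zmod2_cases (f.1 ⟨0, h0⟩) with h | h
    · exact h
    · exfalso
      rw [h] at h3
      simp only [h3, Finset.sum_const, Finset.card_univ, Fintype.card_fin, nsmul_eq_mul,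
        mul_one] at h2
      rw [ZMod.natCast_eq_zero_iff] at h2
      exact (Nat.not_even_iff_odd.mpr hodd) (even_iff_two_dvd.mpr h2)
  apply Multiplicative.toAdd.injective
  apply Subtype.ext
  funext i
  change f.1 i = 0
  rw [h3 i, h4]

theorem alt_transitive {n : ℕ} (hn : 5 ≤ n) (i j : Fin n) :
    ∃ a : alternatingGroup (Fin n), a.1 i = j := by
  classical
  by_cases hij : i = j
  · exact ⟨1, hij⟩
  obtain ⟨a, b, hab, hai, haj, hbi, hbj, -⟩ := exists_pair hn (0 : Fin n → ZMod 2) i j
  refine ⟨dt i j a b hij hab, ?_⟩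
  change (swap i j * swap a b) i = j
  rw [Perm.mul_apply, swap_apply_of_ne_of_ne hai.symm hbi.symm, swap_apply_left]

/-- the group for an odd degree -/
theorem GG_alt {n ℓ : ℕ} (hn : 5 ≤ n) (hodd : Odd n)
    (h1 : ∀ D : Subgroup (alternatingGroup (Fin n)), ¬ ℓ ∣ D.index →
      D = ⊤ ∨ 2 ^ (n - 1) < D.index) :
    ∃ (G : Type) (_ : Group G), Finite G ∧ GG ℓ n G := by
  classical
  have h0 : 0 < n := by omega
  let i0 : Fin n := ⟨0, h0⟩
  let i1 : Fin n := ⟨1, by omega⟩
  have hi01 : i1 ≠ i0 := by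
    intro h
    have := congrArg Fin.val h
    simp [i0, i1] at this
  have hfinN : Finite (Multiplicative (Ev n)) := by
    apply Nat.finite_of_card_ne_zero
    rw [Nat.card_congr Multiplicative.toAdd, card_Ev h0]
    positivity
  have hfin : Finite (SemidirectProduct (Multiplicative (Ev n)) (alternatingGroup (Fin n))
    (phiEv n)) := Finite.of_equiv _ SemidirectProduct.equivProd.symm
  refine ⟨SemidirectProduct (Multiplicative (Ev n)) (alternatingGroup (Fin n)) (phiEv n),
    inferInstance, hfin, ?_⟩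
  let P : Subgroup (alternatingGroup (Fin n)) := MulAction.stabilizer (alternatingGroup (Fin n)) i0
  have htrans : IsPretransitive (alternatingGroup (Fin n)) (Fin n) := by
    constructor
    intro i j
    obtain ⟨a, ha⟩ := alt_transitive hn i j
    exact ⟨a, ha⟩
  have hP : P.index = n := by
    rw [index_stabilizer_of_transitive, Nat.card_eq_fintype_card, Fintype.card_fin]
  let χ : Multiplicative (Ev n) →* Multiplicative (ZMod 2) :=
    { toFun := fun u => Multiplicative.ofAdd ((Multiplicative.toAdd u).1 i0)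
      map_one' := rfl
      map_mul' := fun _ _ => rfl }
  refine GG_of_semidirect (phiEv n) ℓ n ?_ h1 (fun D hD => alt_index_small hn D hD)
    (irred hn hodd) (fixed_Ev hn hodd) P hP χ ?_ ?_
  · rw [Nat.card_congr Multiplicative.toAdd, card_Ev h0]
  · intro z
    rcases zmod2_cases (Multiplicative.toAdd z) with h | h
    · exact ⟨1, (Multiplicative.toAdd.injective h).symm⟩
    · refine ⟨Multiplicative.ofAdd (pr i0 i1), ?_⟩
      apply Multiplicative.toAdd.injective
      rw [h]
      change (Pi.single i0 1 + Pi.single i1 1 : Fin n → ZMod 2) i0 = 1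
      rw [Pi.add_apply, Pi.single_eq_same, Pi.single_eq_of_ne (Ne.symm hi01), add_zero]
  · intro p hp u
    apply Multiplicative.toAdd.injective
    change (Multiplicative.toAdd u).1 (p.1⁻¹ i0) = (Multiplicative.toAdd u).1 i0
    have h2 : p.1 i0 = i0 := hp
    have h3 : p.1⁻¹ i0 = i0 := by
      rw [Perm.inv_eq_iff_eq]
      exact h2.symm
    rw [h3]

/-- the group for a prime `≥ 17` -/
theorem exists_GG_alt {p : ℕ} (hp : p.Prime) (h17 : 17 ≤ p) :
    ∃ (G : Type) (_ : Group G), Finite G ∧ GG p p G :=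
  GG_alt (by omega) (hp.odd_of_ne_two (by omega)) (alt_index_prime hp h17)

end LeepA
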