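import Mathlib

/-!
The base extension: a finite Galois extension with given group inside a countable algebraically
closed field with infinitely many algebraically independent elements.
-/

namespace LeepA

open IntermediateField

theorem countable_mvPolynomial (σ R : Type) [Countable σ] [CommRing R] [Countable R] :
    Countable (MvPolynomial σ R) := by
  rw [← Cardinal.mk_le_aleph0_iff]
  refine MvPolynomial.cardinalMk_le_max.trans ?_
  simp

theorem countable_fractionRing (R : Type) [CommRing R] [IsDomain R] [Countable R] :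
    Countable (FractionRing R) := by
  have h : Function.Surjective fun x : R × R =>
      algebraMap R (FractionRing R) x.1 / algebraMap R (FractionRing R) x.2 := by
    intro z
    obtain ⟨a, b, -, rfl⟩ := IsFractionRing.div_surjective R z
    exact ⟨(a, b), rfl⟩
  exact h.countable

theorem countable_algClosure (k : Type) [Field k] [Countable k] : Countable (AlgebraicClosure k) := by
  rw [← Cardinal.mk_le_aleph0_iff]
  refine (Algebra.IsAlgebraic.cardinalMk_le_max k (AlgebraicClosure k)).trans ?_
  simp

theorem exists_big (F : Type) [Field F] [Countable F] :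
    ∃ (Ω : Type) (_ : Field Ω) (_ : Algebra F Ω), IsAlgClosed Ω ∧ Countable Ω ∧
      ∃ t : ℕ → Ω, AlgebraicIndependent F t := by
  have h1 : Countable (MvPolynomial ℕ F) := countable_mvPolynomial ℕ F
  have h2 : Countable (FractionRing (MvPolynomial ℕ F)) := countable_fractionRing _
  have h3 : Countable (AlgebraicClosure (FractionRing (MvPolynomial ℕ F))) := countable_algClosure _
  refine ⟨AlgebraicClosure (FractionRing (MvPolynomial ℕ F)), inferInstance, inferInstance,
    inferInstance, h3, ?_⟩
  let j : MvPolynomial ℕ F →ₐ[F] AlgebraicClosure (FractionRing (MvPolynomial ℕ F)) :=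
    (IsScalarTower.toAlgHom F (FractionRing (MvPolynomial ℕ F))
      (AlgebraicClosure (FractionRing (MvPolynomial ℕ F)))).comp
      (IsScalarTower.toAlgHom F (MvPolynomial ℕ F) (FractionRing (MvPolynomial ℕ F)))
  have hj : Function.Injective j :=
    (algebraMap (FractionRing (MvPolynomial ℕ F))
      (AlgebraicClosure (FractionRing (MvPolynomial ℕ F)))).injective.comp
      (IsFractionRing.injective (MvPolynomial ℕ F) (FractionRing (MvPolynomial ℕ F)))
  exact ⟨fun n => j (MvPolynomial.X n), (MvPolynomial.algebraicIndependent_X ℕ F).map' hj⟩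

theorem base_of_galois (K0 F : Type) [Field K0] [Field F] [Algebra K0 F]
    [FiniteDimensional K0 F] [IsGalois K0 F] [Countable F] :
    ∃ (Ω : Type) (_ : Field Ω) (_ : Algebra K0 Ω)
      (M0 : IntermediateField K0 Ω), IsAlgClosed Ω ∧ Countable Ω ∧
      FiniteDimensional K0 M0 ∧ IsGalois K0 M0 ∧
      Nonempty ((M0 ≃ₐ[K0] M0) ≃* (F ≃ₐ[K0] F)) ∧
      ∃ t : ℕ → Ω, AlgebraicIndependent K0 t := by
  obtain ⟨Ω, i1, i2, hΩ, hc, t, ht⟩ := exists_big F
  letI : Algebra K0 Ω := ((algebraMap F Ω).comp (algebraMap K0 F)).toAlgebra
  haveI : IsScalarTower K0 F Ω := IsScalarTower.of_algebraMap_eq fun _ => rfl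
  let φ : F →ₐ[K0] Ω := IsScalarTower.toAlgHom K0 F Ω
  let e : F ≃ₐ[K0] φ.fieldRange := AlgEquiv.ofInjectiveField φ
  exact ⟨Ω, inferInstance, inferInstance,
    φ.fieldRange, inferInstance, hc, e.toLinearEquiv.finiteDimensional, IsGalois.of_algEquiv e,
    ⟨(AlgEquiv.autCongr e).symm⟩, t, ht.restrictScalars (algebraMap K0 F).injective⟩

theorem exists_base (G : Type) [Group G] [Finite G] :
    ∃ (K0 Ω : Type) (_ : Field K0) (_ : Field Ω) (_ : Algebra K0 Ω)
      (M0 : IntermediateField K0 Ω), CharZero K0 ∧ IsAlgClosed Ω ∧ Countable Ω ∧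
      FiniteDimensional K0 M0 ∧ IsGalois K0 M0 ∧ Nonempty ((M0 ≃ₐ[K0] M0) ≃* G) ∧
      ∃ t : ℕ → Ω, AlgebraicIndependent K0 t := by
  letI actA : MulSemiringAction G (MvPolynomial G ℚ) :=
    { smul := fun g P => MvPolynomial.rename (fun h => g * h) P
      one_smul := by
        intro P
        change MvPolynomial.rename (fun h => 1 * h) P = P
        have h1 : (fun h : G => 1 * h) = id := funext fun h => one_mul h
        rw [h1]
        exact MvPolynomial.rename_id_apply P
      mul_smul := by
        intro a b P
        change MvPolynomial.rename (fun h => a * b * h) P =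
          MvPolynomial.rename (fun h => a * h) (MvPolynomial.rename (fun h => b * h) P)
        rw [MvPolynomial.rename_rename]
        have h1 : (fun h : G => a * b * h) = (fun h => a * h) ∘ fun h => b * h :=
          funext fun h => mul_assoc a b h
        rw [h1]
      smul_zero := fun g => map_zero _
      smul_add := fun g P Q => map_add _ P Q
      smul_one := fun g => map_one _
      smul_mul := fun g P Q => map_mul _ P Q }
  have hX : ∀ (g h : G), g • (MvPolynomial.X h : MvPolynomial G ℚ) = MvPolynomial.X (g * h) :=
    fun g h => MvPolynomial.rename_X _ _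
  haveI fA : FaithfulSMul G (MvPolynomial G ℚ) := by
    constructor
    intro g g' h
    have := h (MvPolynomial.X 1)
    rw [hX, hX, mul_one, mul_one] at this
    exact MvPolynomial.X_injective this
  letI actF : MulSemiringAction G (FractionRing (MvPolynomial G ℚ)) :=
    IsFractionRing.mulSemiringAction G (MvPolynomial G ℚ) (FractionRing (MvPolynomial G ℚ))
  haveI : SMulDistribClass G (MvPolynomial G ℚ) (FractionRing (MvPolynomial G ℚ)) :=
    IsFractionRing.smulDistribClass G (MvPolynomial G ℚ) (FractionRing (MvPolynomial G ℚ))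
  haveI fF : FaithfulSMul G (FractionRing (MvPolynomial G ℚ)) :=
    IsFractionRing.faithfulSMul G (MvPolynomial G ℚ) (FractionRing (MvPolynomial G ℚ))
  haveI : Countable (MvPolynomial G ℚ) := countable_mvPolynomial G ℚ
  haveI : Countable (FractionRing (MvPolynomial G ℚ)) := countable_fractionRing _
  haveI : IsGalois (FixedPoints.subfield G (FractionRing (MvPolynomial G ℚ)))
      (FractionRing (MvPolynomial G ℚ)) := inferInstance
  obtain ⟨Ω, i1, i2, M0, h1, h2, h3, h4, ⟨e⟩, h6⟩ :=
    base_of_galois (FixedPoints.subfield G (FractionRing (MvPolynomial G ℚ)))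
      (FractionRing (MvPolynomial G ℚ))
  refine ⟨FixedPoints.subfield G (FractionRing (MvPolynomial G ℚ)), Ω, inferInstance, i1, i2, M0,
    ?_, h1, h2, h3, h4, ⟨e.trans (FixedPoints.toAlgAutMulEquiv G
      (FractionRing (MvPolynomial G ℚ))).symm⟩, h6⟩
  haveI : CharZero (FractionRing (MvPolynomial G ℚ)) := algebraRat.charZero _
  exact (algebraMap (FixedPoints.subfield G (FractionRing (MvPolynomial G ℚ)))
    (FractionRing (MvPolynomial G ℚ))).charZero

end LeepA
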