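import Mathlib

/-!
Bochert's bound on the index of a primitive group, and the subgroups of small index of the
alternating groups of prime degree.
-/

namespace LeepA

open Equiv Equiv.Perm MulAction

set_option maxHeartbeats 400000

theorem inv_app {α : Type*} (x : Perm α) (a : α) : x⁻¹ (x a) = a := x.symm_apply_apply a

theorem app_inv {α : Type*} (x : Perm α) (a : α) : x (x⁻¹ a) = a := x.apply_symm_apply a

theorem isThreeCycle_comm {α : Type*} [Fintype α] [DecidableEq α] (x y : Perm α) (Δ : Finset α)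
    (a : α) (ha : a ∈ Δ) (hx : ∀ z ∈ Δ, z ≠ a → x z = z) (hxa : x a ≠ a)
    (hy : ∀ z, z ∉ Δ → y z = z) (hya : y a ≠ a) : IsThreeCycle (x * y * x⁻¹ * y⁻¹) := by
  have hx' : ∀ z ∈ Δ, z ≠ a → x⁻¹ z = z := by
    intro z hz hza
    rw [Perm.inv_eq_iff_eq]
    exact (hx z hz hza).symm
  have hy' : ∀ z, z ∉ Δ → y⁻¹ z = z := by
    intro z hz
    rw [Perm.inv_eq_iff_eq]
    exact (hy z hz).symm
  -- stability
  have hyΔ : ∀ z ∈ Δ, y z ∈ Δ := by
    intro z hz
    by_contra h
    have h1 := hy (y z) h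
    have h2 := y.injective h1
    rw [h2] at h
    exact h hz
  have hyΔ' : ∀ z ∈ Δ, y⁻¹ z ∈ Δ := by
    intro z hz
    by_contra h
    have h1 := hy' (y⁻¹ z) h
    have h2 := (y⁻¹).injective h1
    rw [h2] at h
    exact h hz
  have hxaΔ : x a ∉ Δ := by
    intro h
    have h1 := hx (x a) h hxa
    exact hxa (x.injective h1)
  have hxaΔ' : x⁻¹ a ∉ Δ := by
    intro h
    have h0 : x⁻¹ a ≠ a := by
      intro h1
      rw [Perm.inv_eq_iff_eq] at h1
      exact hxa h1.symm
    have h1 := hx' (x⁻¹ a) h h0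
    have h2 := (x⁻¹).injective h1
    exact h0 h2
  have hc : ∀ z, (x * y * x⁻¹ * y⁻¹) z = x (y (x⁻¹ (y⁻¹ z))) := fun z => rfl
  have e1 : (x * y * x⁻¹ * y⁻¹) (y a) = a := by
    rw [hc, inv_app, hy _ hxaΔ', app_inv]
  have hb : y⁻¹ a ≠ a := by
    intro h1
    rw [Perm.inv_eq_iff_eq] at h1
    exact hya h1.symm
  have e2 : (x * y * x⁻¹ * y⁻¹) a = x a := by
    rw [hc, hx' _ (hyΔ' a ha) hb, app_inv]
  have e3 : (x * y * x⁻¹ * y⁻¹) (x a) = y a := by
    rw [hc, hy' _ hxaΔ, inv_app, hx _ (hyΔ a ha) hya]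
  have e4 : ∀ z, z ≠ a → z ≠ x a → z ≠ y a → (x * y * x⁻¹ * y⁻¹) z = z := by
    intro z h1 h2 h3
    rw [hc]
    by_cases hz : z ∈ Δ
    · have h4 : y⁻¹ z ≠ a := by
        intro h5
        rw [Perm.inv_eq_iff_eq] at h5
        exact h3 h5
      rw [hx' _ (hyΔ' z hz) h4, app_inv, hx _ hz h1]
    · rw [hy' _ hz]
      have h4 : x⁻¹ z ∉ Δ := by
        intro h5
        have h6 : x⁻¹ z ≠ a := by
          intro h7
          rw [Perm.inv_eq_iff_eq] at h7
          exact h2 h7
        have h8 := hx _ h5 h6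
        rw [app_inv] at h8
        rw [← h8] at h5
        exact hz h5
      rw [hy _ h4, app_inv]
  have hne : x a ≠ y a := fun h => hxaΔ (h ▸ hyΔ a ha)
  rw [← card_support_eq_three_iff]
  have hsupp : (x * y * x⁻¹ * y⁻¹).support = {a, x a, y a} := by
    ext z
    rw [Perm.mem_support, Finset.mem_insert, Finset.mem_insert, Finset.mem_singleton]
    constructor
    · intro h
      by_contra hcon
      push Not at hcon
      exact h (e4 z hcon.1 hcon.2.1 hcon.2.2)
    · rintro (h | h | h)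
      · rw [h, e2]; exact hxa
      · rw [h, e3]; exact hne.symm
      · rw [h, e1]; exact hya.symm
  rw [hsupp]
  exact Finset.card_eq_three.mpr ⟨a, x a, y a, hxa.symm, hya.symm, hne, rfl⟩

theorem card_le_index_of_disjoint {G : Type*} [Group G] [Finite G] (D Q : Subgroup G)
    (h : ∀ g, g ∈ D → g ∈ Q → g = 1) : Nat.card Q ≤ D.index := by
  have : Finite (G ⧸ D) := inferInstance
  apply Nat.card_le_card_of_injective (fun q : Q => (QuotientGroup.mk (q : G) : G ⧸ D))
  intro a b hab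
  have h1 : (a : G)⁻¹ * b ∈ D := QuotientGroup.eq.mp hab
  have h2 := h _ h1 (Q.mul_mem (Q.inv_mem a.2) b.2)
  exact Subtype.ext (inv_mul_eq_one.mp h2)

theorem bochert {α : Type*} [Fintype α] [DecidableEq α] (D : Subgroup (Perm α))
    (hD : IsPreprimitive D α) (hA : ¬ alternatingGroup α ≤ D) :
    ((Fintype.card α + 1) / 2).factorial ≤ D.index := by
  classical
  let P : ℕ → Prop := fun k => ∃ Δ : Finset α, Δ.card = k ∧
    ∀ g ∈ D, (∀ a ∈ Δ, g a = a) → g = 1
  have hP : ∃ k, P k := ⟨Fintype.card α, Finset.univ, rfl, fun g _ hg =>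
    Perm.ext fun a => hg a (Finset.mem_univ a)⟩
  obtain ⟨Δ, hΔ, hΔ1⟩ := Nat.find_spec hP
  have hmin : ∀ Δ' : Finset α, Δ'.card < Nat.find hP →
      ∃ g ∈ D, (∀ a ∈ Δ', g a = a) ∧ g ≠ 1 := by
    intro Δ' h'
    by_contra hcon
    push Not at hcon
    exact Nat.find_min hP h' ⟨Δ', rfl, hcon⟩
  have hcard : Δ.card + Δᶜ.card = Fintype.card α := by
    rw [Finset.card_add_card_compl]
  have hle : Δ.card ≤ Δᶜ.card := by
    by_contra hcon
    push Not at hcon
    obtain ⟨y, hyD, hy, hy1⟩ := hmin Δᶜ (by rw [← hΔ]; exact hcon)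
    obtain ⟨a, hya⟩ : ∃ a, y a ≠ a := by
      by_contra hcon2
      push Not at hcon2
      exact hy1 (Perm.ext hcon2)
    have ha : a ∈ Δ := by
      by_contra h
      exact hya (hy a (Finset.mem_compl.mpr h))
    obtain ⟨x, hxD, hx, hx1⟩ := hmin (Δ.erase a) (by
      rw [← hΔ]
      exact Finset.card_erase_lt_of_mem ha)
    have hxa : x a ≠ a := by
      intro h
      apply hx1
      apply hΔ1 x hxD
      intro b hb
      by_cases hba : b = a
      · rw [hba, h]
      · exact hx b (Finset.mem_erase.mpr ⟨hba, hb⟩)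
    have h3 := isThreeCycle_comm x y Δ a ha
      (fun z hz hza => hx z (Finset.mem_erase.mpr ⟨hza, hz⟩)) hxa
      (fun z hz => hy z (Finset.mem_compl.mpr hz)) hya
    apply hA
    exact alternatingGroup_le_of_isPreprimitive_of_isThreeCycle_mem hD h3
      (D.mul_mem (D.mul_mem (D.mul_mem hxD hyD) (D.inv_mem hxD)) (D.inv_mem hyD))
  let Q : Subgroup (Perm α) := (Perm.ofSubtype (p := fun a => a ∉ Δ)).range
  have hQcard : Nat.card Q = (Δᶜ.card).factorial := by
    have h1 : Nat.card Q = Nat.card (Perm {a // a ∉ Δ}) :=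
      (Nat.card_congr (MonoidHom.ofInjective (Perm.ofSubtype_injective
        (p := fun a => a ∉ Δ))).toEquiv).symm
    rw [h1, Nat.card_perm, Nat.card_eq_fintype_card, Fintype.card_subtype]
    congr 2
    ext a
    simp
  have h2 := card_le_index_of_disjoint D Q (by
    rintro _ hgD ⟨g, rfl⟩
    apply hΔ1 _ hgD
    intro a ha
    exact Perm.ofSubtype_apply_of_not_mem g (by simpa using ha))
  rw [hQcard] at h2
  refine le_trans (Nat.factorial_le ?_) h2
  omega

end LeepA
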