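import Pool.Agent.H5.Leep.Zero

/-!
The countable chain.
-/

namespace LeepA

open MvPolynomial IntermediateField

theorem indep_mono {K0 Ω : Type} [Field K0] [Field Ω] [Algebra K0 Ω] {ι : Type}
    {A B : IntermediateField K0 Ω} (h : A ≤ B) {t : ι → Ω} (ht : AlgebraicIndependent B t) :
    AlgebraicIndependent A t := by
  let _ : Algebra A B := (IntermediateField.inclusion h).toAlgebra
  have : IsScalarTower A B Ω := IsScalarTower.of_algebraMap_eq fun _ => rfl
  exact ht.restrictScalars (IntermediateField.inclusion h).injective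

/-- Later variables stay algebraically independent over an extension which is algebraic over the
earlier ones. -/
theorem indep_step {K0 Ω : Type} [Field K0] [Field Ω] [Algebra K0 Ω]
    (K : IntermediateField K0 Ω) (t : ℕ → Ω) (ht : AlgebraicIndependent K t) (r n : ℕ)
    (x : Fin n → Ω)
    (hx : ∀ i, IsAlgebraic (adjoin K (Set.range fun j : Fin r => t j)) (x i)) :
    AlgebraicIndependent ((adjoin K (Set.range x)).restrictScalars K0) (fun j => t (j + r)) := by
  set F := adjoin K (Set.range fun j : Fin r => t j) with hF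
  have hdisj : Disjoint (Set.Iio r) (Set.Ici r) := by
    rw [Set.disjoint_left]
    intro a ha hb
    exact absurd (Set.mem_Iio.1 ha) (not_lt.2 (Set.mem_Ici.1 hb))
  have h1 := ht.adjoin_of_disjoint hdisj
  have himg : t '' Set.Iio r = Set.range fun j : Fin r => t j := by
    ext z
    constructor
    · rintro ⟨a, ha, rfl⟩
      exact ⟨⟨a, ha⟩, rfl⟩
    · rintro ⟨a, rfl⟩
      exact ⟨a, a.2, rfl⟩
  rw [himg] at h1
  have h2 : AlgebraicIndependent F fun i : Set.Ici r => t i :=
    IntermediateField.algebraicIndependent_adjoin_iff.2 h1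
  have h3 : AlgebraicIndependent (algebraicClosure F Ω) fun i : Set.Ici r => t i :=
    h2.algebraicClosure
  have h4 : AlgebraicIndependent (algebraicClosure F Ω) fun j : ℕ => t (j + r) := by
    have := h3.comp (fun j : ℕ => (⟨j + r, Nat.le_add_left _ _⟩ : Set.Ici r)) (by
      intro a b hab
      have := congrArg Subtype.val hab
      simpa using this)
    exact this
  have hle : (adjoin K (Set.range x)).restrictScalars K0 ≤
      ((algebraicClosure F Ω).restrictScalars K).restrictScalars K0 := by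
    intro z hz
    have hz' : z ∈ adjoin K (Set.range x) := hz
    have : adjoin K (Set.range x) ≤ (algebraicClosure F Ω).restrictScalars K := by
      rw [adjoin_le_iff]
      rintro _ ⟨i, rfl⟩
      exact mem_algebraicClosure_iff.2 (hx i)
    exact this hz'
  exact indep_mono hle h4

/-- one step of the chain -/
theorem chain_step {K0 Ω : Type} [Field K0] [Field Ω] [Algebra K0 Ω] [CharZero K0] [IsAlgClosed Ω]
    {p : ℕ} (hp : p.Prime) (hp2 : p ≠ 2) (M0 : IntermediateField K0 Ω)
    [FiniteDimensional K0 M0]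
    [IsGalois K0 M0] (hG : GoodGroup p (M0 ≃ₐ[K0] M0)) (t : ℕ → Ω)
    (A : IntermediateField K0 Ω) (hA : A ⊓ M0 = ⊥) (r : ℕ)
    (hr : AlgebraicIndependent A (fun j => t (j + r)))
    (q : Fin (p - 1) → MvPolynomial (Fin (p + 1)) Ω) :
    ∃ B : IntermediateField K0 Ω, B ⊓ M0 = ⊥ ∧
      (∃ r : ℕ, AlgebraicIndependent B (fun j => t (j + r))) ∧ A ≤ B ∧
        ((∀ k, (q k).IsHomogeneous 2 ∧ q k ∈ (MvPolynomial.map (algebraMap A Ω)).range) →
          ∃ x : Fin (p + 1) → Ω, (∀ i, x i ∈ B) ∧ x ≠ 0 ∧ ∀ k, eval x (q k) = 0) := by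
  by_cases hq : ∀ k, (q k).IsHomogeneous 2 ∧ q k ∈ (MvPolynomial.map (algebraMap A Ω)).range
  · choose hq1 q0 hq0 using hq
    have hq0' : ∀ k, (q0 k).IsHomogeneous 2 := by
      intro k
      have := hq1 k
      rw [← hq0 k] at this
      exact MvPolynomial.IsHomogeneous.of_map (algebraMap A Ω).injective this
    obtain ⟨x, hx0, hxz, hxalg, hxgood⟩ := exists_zero hp hp2 M0 hG A hA
      (fun i : Fin (p + 1) => t (i + r)) (hr.comp (fun i : Fin (p + 1) => (i : ℕ))
        Fin.val_injective) q0 hq0'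
    have hind := indep_step A (fun j => t (j + r)) hr (p + 1) (p + 1) x hxalg
    have hind' : AlgebraicIndependent ((adjoin A (Set.range x)).restrictScalars K0)
        (fun j => t (j + (r + (p + 1)))) := by
      have h5 : (fun j => t (j + (r + (p + 1)))) = fun j => t (j + (p + 1) + r) := by
        funext j
        congr 1
        omega
      rw [h5]
      exact hind
    have hxm : ∀ i, x i ∈ adjoin A (Set.range x) := fun i => subset_adjoin _ _ ⟨i, rfl⟩
    refine ⟨(adjoin A (Set.range x)).restrictScalars K0, hxgood, ⟨r + (p + 1), hind'⟩, ?_, ?_⟩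
    · intro z hz
      exact (adjoin A (Set.range x)).algebraMap_mem ⟨z, hz⟩
    · intro _
      refine ⟨x, hxm, hx0, fun k => ?_⟩
      rw [← hq0 k, eval_map]
      exact hxz k
  · exact ⟨A, hA, ⟨r, hr⟩, le_rfl, fun h => absurd h hq⟩

/-- T5a: countable chain -/
theorem exists_K {K0 Ω : Type} [Field K0] [Field Ω] [Algebra K0 Ω] [CharZero K0] [IsAlgClosed Ω]
    [Countable Ω] {p : ℕ} (hp : p.Prime) (hp2 : p ≠ 2) (M0 : IntermediateField K0 Ω)
    [FiniteDimensional K0 M0]
    [IsGalois K0 M0] (hG : GoodGroup p (M0 ≃ₐ[K0] M0)) (t : ℕ → Ω)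
    (ht : AlgebraicIndependent K0 t) :
    ∃ K : IntermediateField K0 Ω, K ⊓ M0 = ⊥ ∧
      ∀ q : Fin (p - 1) → MvPolynomial (Fin (p + 1)) K, (∀ k, (q k).IsHomogeneous 2) →
        ∃ a : Fin (p + 1) → K, a ≠ 0 ∧ ∀ k, eval a (q k) = 0 := by
  classical
  let S := {K : IntermediateField K0 Ω // K ⊓ M0 = ⊥ ∧
    ∃ r : ℕ, AlgebraicIndependent K (fun j => t (j + r))}
  -- one step
  have step : ∀ (A : S) (q : Fin (p - 1) → MvPolynomial (Fin (p + 1)) Ω),
      ∃ B : S, A.1 ≤ B.1 ∧
        ((∀ k, (q k).IsHomogeneous 2 ∧ q k ∈ (MvPolynomial.map (algebraMap A.1 Ω)).range) →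
          ∃ x : Fin (p + 1) → Ω, (∀ i, x i ∈ B.1) ∧ x ≠ 0 ∧ ∀ k, eval x (q k) = 0) := by
    rintro ⟨A, hA, r, hr⟩ q
    obtain ⟨B, hB1, hB2, hB3, hB4⟩ := chain_step hp hp2 M0 hG t A hA r hr q
    exact ⟨⟨B, hB1, hB2⟩, hB3, hB4⟩
  choose stp hstp1 hstp2 using step
  -- the enumeration
  have hc1 : Countable (MvPolynomial (Fin (p + 1)) Ω) :=
    Function.Injective.countable (f := fun q : MvPolynomial (Fin (p + 1)) Ω =>
      (Finsupp.onFinset q.support (fun d => q.coeff d) (fun d hd =>
        MvPolynomial.mem_support_iff.2 hd) : (Fin (p + 1) →₀ ℕ) →₀ Ω)) (by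
      intro a b hab
      ext d
      exact DFunLike.congr_fun hab d)
  have : Countable (Fin (p - 1) → MvPolynomial (Fin (p + 1)) Ω) := inferInstance
  obtain ⟨g, hg⟩ := exists_surjective_nat (Fin (p - 1) → MvPolynomial (Fin (p + 1)) Ω)
  let f : ℕ → Fin (p - 1) → MvPolynomial (Fin (p + 1)) Ω := fun n => g (Nat.unpair n).1
  have hf : ∀ q n, ∃ m, n ≤ m ∧ f m = q := by
    intro q n
    obtain ⟨a, rfl⟩ := hg q
    refine ⟨Nat.pair a n, Nat.right_le_pair a n, ?_⟩
    simp [f]
  have hbot : ((⊥ : IntermediateField K0 Ω) ⊓ M0 = ⊥ ∧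
      ∃ r : ℕ, AlgebraicIndependent (⊥ : IntermediateField K0 Ω) (fun j => t (j + r))) := by
    refine ⟨bot_inf_eq _, 0, ?_⟩
    have h1 : AlgebraicIndependent (algebraicClosure K0 Ω) t := ht.algebraicClosure
    exact indep_mono (bot_le : (⊥ : IntermediateField K0 Ω) ≤ algebraicClosure K0 Ω) h1
  let seq : ℕ → S := fun n => Nat.rec ⟨⊥, hbot⟩ (fun n A => stp A (f n)) n
  have hseq : ∀ n, seq (n + 1) = stp (seq n) (f n) := fun n => rfl
  have hmono : Monotone fun n => (seq n).1 := by
    apply monotone_nat_of_le_succ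
    intro n
    rw [hseq]
    exact hstp1 _ _
  have hdir : Directed (· ≤ ·) fun n => (seq n).1 := hmono.directed_le
  obtain ⟨K, hK⟩ : ∃ K : IntermediateField K0 Ω, K = ⨆ n, (seq n).1 := ⟨_, rfl⟩
  have hmem : ∀ z, z ∈ K ↔ ∃ n, z ∈ (seq n).1 := by
    intro z
    rw [hK, ← SetLike.mem_coe, coe_iSup_of_directed hdir, Set.mem_iUnion]
    rfl
  refine ⟨K, ?_, ?_⟩
  · rw [eq_bot_iff]
    rintro z ⟨hz1, hz2⟩
    obtain ⟨n, hn⟩ := (hmem z).1 hz1
    rw [← (seq n).2.1]
    exact ⟨hn, hz2⟩
  · intro q hq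
    -- all coefficients lie in one field of the chain
    have hco : ∀ k, ∃ n, ∀ d, algebraMap K Ω ((q k).coeff d) ∈ (seq n).1 := by
      intro k
      have h1 : ∀ d, ∃ n, algebraMap K Ω ((q k).coeff d) ∈ (seq n).1 := fun d =>
        (hmem _).1 ((q k).coeff d).2
      choose N hN using h1
      refine ⟨(q k).support.sup N, fun d => ?_⟩
      by_cases hd : d ∈ (q k).support
      · exact hmono (Finset.le_sup hd) (hN d)
      · rw [MvPolynomial.notMem_support_iff] at hd
        rw [hd, map_zero]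
        exact zero_mem _
    choose N hN using hco
    obtain ⟨m, hm, hfm⟩ := hf (fun k => MvPolynomial.map (algebraMap K Ω) (q k))
      (Finset.univ.sup N)
    have hz := hstp2 (seq m) (f m) (by
      intro k
      rw [hfm]
      refine ⟨(hq k).map _, ?_⟩
      rw [← SetLike.mem_coe, RingHom.coe_range, MvPolynomial.mem_range_map_iff_coeffs_subset]
      intro c hc
      rw [Finset.mem_coe, MvPolynomial.mem_coeffs_iff] at hc
      obtain ⟨d, -, rfl⟩ := hc
      rw [MvPolynomial.coeff_map]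
      have h2 := hmono ((Finset.le_sup (Finset.mem_univ k)).trans hm) (hN k d)
      exact ⟨⟨_, h2⟩, rfl⟩)
    obtain ⟨x, hx1, hx0, hx⟩ := hz
    have hxK : ∀ i, x i ∈ K := fun i => (hmem _).2 ⟨m + 1, by
      rw [hseq]
      exact hx1 i⟩
    refine ⟨fun i => ⟨x i, hxK i⟩, ?_, ?_⟩
    · intro h
      apply hx0
      funext i
      exact congrArg Subtype.val (congrFun h i)
    · intro k
      have h3 := hx k
      rw [hfm, eval_map] at h3
      apply (algebraMap K Ω).injective
      rw [map_zero, ← h3, MvPolynomial.eval, MvPolynomial.coe_eval₂Hom, MvPolynomial.eval₂_comp_left]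
      rfl

end LeepA
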