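import Pool.Agent.H5.Leep.MinHom

/-!
Linear change of the Noether normalising forms.
-/

namespace LeepA

open MvPolynomial IntermediateField

/-- substitution given by a matrix -/
noncomputable def sub {K : Type*} [CommRing K] {m : ℕ} (A : Matrix (Fin m) (Fin m) K) :
    MvPolynomial (Fin m) K →ₐ[K] MvPolynomial (Fin m) K :=
  aeval fun i => ∑ j, C (A i j) * X j

theorem sub_X {K : Type*} [CommRing K] {m : ℕ} (A : Matrix (Fin m) (Fin m) K) (i : Fin m) :
    sub A (X i) = ∑ j, C (A i j) * X j := by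
  simp [sub]

theorem sub_sub {K : Type*} [CommRing K] {m : ℕ} (A B : Matrix (Fin m) (Fin m) K)
    (p : MvPolynomial (Fin m) K) : sub B (sub A p) = sub (A * B) p := by
  rw [← AlgHom.comp_apply]
  congr 1
  ext i : 1
  rw [AlgHom.comp_apply, sub_X, sub_X, map_sum]
  simp only [map_mul, sub_X, algHom_C, Matrix.mul_apply, algebraMap_eq, map_sum, Finset.sum_mul,
    Finset.mul_sum]
  rw [Finset.sum_comm]
  simp only [mul_assoc]

theorem sub_one {K : Type*} [CommRing K] {m : ℕ} (p : MvPolynomial (Fin m) K) :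
    sub (1 : Matrix (Fin m) (Fin m) K) p = p := by
  have : sub (1 : Matrix (Fin m) (Fin m) K) = AlgHom.id K _ := by
    ext i : 1
    rw [sub_X]
    simp [Matrix.one_apply]
  rw [this]; rfl

theorem sub_homog {K : Type*} [CommRing K] {m : ℕ} (A : Matrix (Fin m) (Fin m) K)
    {p : MvPolynomial (Fin m) K} {d : ℕ} (hp : p.IsHomogeneous d) : (sub A p).IsHomogeneous d := by
  apply isHomogeneous_aeval_lin _ hp
  intro j
  apply IsHomogeneous.sum
  intro i _
  exact isHomogeneous_C_mul_X _ _

theorem eval_sub {K : Type*} [CommRing K] {m : ℕ} (A : Matrix (Fin m) (Fin m) K)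
    (p : MvPolynomial (Fin m) K) (v : Fin m → K) :
    eval v (sub A p) = eval (A.mulVec v) p := by
  rw [sub, ← coe_aeval_eq_eval, ← coe_aeval_eq_eval]
  change (aeval v : MvPolynomial (Fin m) K →ₐ[K] K) (aeval _ p) = aeval _ p
  rw [← AlgHom.comp_apply]
  congr 1
  ext i : 1
  rw [AlgHom.comp_apply, aeval_X, aeval_X, map_sum]
  simp [Matrix.mulVec, dotProduct]

/-- A nonzero vector is the first column of an invertible matrix. -/
theorem exists_matrix {K : Type*} [Field K] {m : ℕ} (v : Fin (m + 1) → K) (hv : v ≠ 0) :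
    ∃ A B : Matrix (Fin (m + 1)) (Fin (m + 1)) K, A * B = 1 ∧ B * A = 1 ∧
      A.mulVec (Pi.single 0 1) = v := by
  have he : (Pi.single 0 1 : Fin (m + 1) → K) ≠ 0 := by simp
  obtain ⟨g, hg⟩ := Submodule.exists_linearEquiv_restrict_eq
    ((LinearEquiv.toSpanNonzeroSingleton K _ _ he).symm.trans
      (LinearEquiv.toSpanNonzeroSingleton K _ _ hv))
  refine ⟨LinearMap.toMatrix' g.toLinearMap, LinearMap.toMatrix' g.symm.toLinearMap, ?_, ?_, ?_⟩
  · rw [← LinearMap.toMatrix'_comp]; simp
  · rw [← LinearMap.toMatrix'_comp]; simp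
  · have h1 := hg ⟨Pi.single 0 1, Submodule.mem_span_singleton_self _⟩
    have h2 : (LinearEquiv.toSpanNonzeroSingleton K _ _ he).symm
        ⟨Pi.single 0 1, Submodule.mem_span_singleton_self _⟩ = 1 := by
      rw [LinearEquiv.symm_apply_eq]
      ext1
      simp
    rw [LinearEquiv.trans_apply, h2] at h1
    rw [LinearMap.toMatrix'_mulVec]
    simp only [LinearEquiv.coe_coe]
    rw [← h1]
    simp

variable {K Ω : Type} [Field K] [Field Ω] [Algebra K Ω] {n m : ℕ}

/-- the new forms -/
noncomputable def chg (B : Matrix (Fin m) (Fin m) K) (l : Fin m → MvPolynomial (Fin n) K) :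
    Fin m → MvPolynomial (Fin n) K := fun j => ∑ i, C (B j i) * l i

theorem aeval_chg (B : Matrix (Fin m) (Fin m) K) (l : Fin m → MvPolynomial (Fin n) K)
    (x : Fin n → Ω) (p : MvPolynomial (Fin m) K) :
    aeval (fun j => aeval x (chg B l j)) p = aeval (fun j => aeval x (l j)) (sub B p) := by
  rw [sub, ← AlgHom.comp_apply]
  congr 1
  ext i : 1
  rw [AlgHom.comp_apply, aeval_X, aeval_X, chg]
  simp [map_sum]

theorem chg_adjoin_le (B : Matrix (Fin m) (Fin m) K) (l : Fin m → MvPolynomial (Fin n) K)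
    (x : Fin n → Ω) : Algebra.adjoin K (Set.range fun j => aeval x (chg B l j)) ≤
      Algebra.adjoin K (Set.range fun j => aeval x (l j)) := by
  apply Algebra.adjoin_le
  rintro _ ⟨j, rfl⟩
  simp only [chg, map_sum, map_mul, aeval_C]
  apply sum_mem
  intro i _
  exact mul_mem (algebraMap_mem _ _) (Algebra.subset_adjoin ⟨i, rfl⟩)

theorem chg_chg (A B : Matrix (Fin m) (Fin m) K) (l : Fin m → MvPolynomial (Fin n) K) :
    chg A (chg B l) = chg (A * B) l := by
  funext j
  simp only [chg, Matrix.mul_apply, map_sum, Finset.mul_sum, Finset.sum_mul, map_mul]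
  rw [Finset.sum_comm]
  simp only [mul_assoc]

theorem chg_one (l : Fin m → MvPolynomial (Fin n) K) : chg (1 : Matrix (Fin m) (Fin m) K) l = l := by
  funext j
  simp [chg, Matrix.one_apply]

theorem chg_adjoin_eq {A B : Matrix (Fin m) (Fin m) K} (h : A * B = 1)
    (l : Fin m → MvPolynomial (Fin n) K)
    (x : Fin n → Ω) : Algebra.adjoin K (Set.range fun j => aeval x (chg B l j)) =
      Algebra.adjoin K (Set.range fun j => aeval x (l j)) := by
  apply le_antisymm (chg_adjoin_le B l x)
  have h1 := chg_adjoin_le A (chg B l) x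
  rwa [chg_chg, h, chg_one] at h1

theorem chg_field_eq {A B : Matrix (Fin m) (Fin m) K} (h : A * B = 1)
    (l : Fin m → MvPolynomial (Fin n) K)
    (x : Fin n → Ω) : adjoin K (Set.range fun j => aeval x (chg B l j)) =
      adjoin K (Set.range fun j => aeval x (l j)) := by
  have h1 : ∀ y : Fin m → Ω, adjoin K (Set.range y) =
      adjoin K (Algebra.adjoin K (Set.range y) : Set Ω) := by
    intro y
    apply le_antisymm
    · exact adjoin.mono _ _ _ Algebra.subset_adjoin
    · rw [adjoin_le_iff]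
      exact algebra_adjoin_le_adjoin K (Set.range y)
  rw [h1, chg_adjoin_eq h, ← h1]

theorem Stage.chg {A B : Matrix (Fin m) (Fin m) K} (h : A * B = 1) (h' : B * A = 1)
    {l : Fin m → MvPolynomial (Fin n) K} {x : Fin n → Ω} {ρ : ℕ} (st : Stage x l ρ) :
    Stage x (chg B l) ρ where
  lin j := by
    apply IsHomogeneous.sum
    intro i _
    exact (st.lin i).C_mul _
  indep := by
    rw [algebraicIndependent_iff]
    intro p hp
    rw [aeval_chg] at hp
    have h1 : sub B p = 0 := st.indep (hp.trans (map_zero _).symm)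
    have h2 := sub_sub B A p
    rw [h', sub_one, h1, map_zero] at h2
    exact h2.symm
  int i := by
    rw [chg_adjoin_eq h]
    exact st.int i
  hom := st.hom
  deg := by
    rw [chg_field_eq h]
    exact st.deg

theorem FR.chg {A B : Matrix (Fin m) (Fin m) K} (h : A * B = 1)
    {l : Fin m → MvPolynomial (Fin n) K} {x : Fin n → Ω} {c : ℕ} (fr : FR x l c) :
    FR x (chg B l) c := by
  obtain ⟨ι, hι, b, d, hb, hd, hs⟩ := fr
  refine ⟨ι, hι, b, d, hb, hd, ?_⟩
  intro e f hf
  obtain ⟨g, hg1, hg2, hg3⟩ := hs e f hf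
  refine ⟨fun i => sub A (g i), fun i => sub_homog A (hg1 i), ?_, ?_⟩
  · intro i hi
    change sub A (g i) = 0
    rw [hg2 i hi, map_zero]
  · rw [hg3]
    apply Finset.sum_congr rfl
    intro i _
    rw [aeval_chg, sub_sub, h, sub_one]

end LeepA
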