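import Pool.Agent.H5.Leep.NormForm

/-!
The leading coefficient with respect to the first variable; choice of coordinates.
-/

namespace LeepA

open MvPolynomial IntermediateField Module

set_option maxHeartbeats 400000

theorem finSucc_top {K : Type*} [CommRing K] {m : ℕ} {a : MvPolynomial (Fin (m + 1)) K} {D : ℕ}
    (ha : a.IsHomogeneous D) :
    (finSuccEquiv K m a).natDegree ≤ D ∧
      (finSuccEquiv K m a).coeff D = C (eval (Pi.single 0 1) a) := by
  have hdeg : (finSuccEquiv K m a).natDegree ≤ D := by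
    rw [natDegree_finSuccEquiv]
    exact (degreeOf_le_totalDegree _ _).trans ha.totalDegree_le
  refine ⟨hdeg, ?_⟩
  have hcons : (Pi.single 0 1 : Fin (m + 1) → K) = Fin.cons 1 (0 : Fin m → K) := by
    funext i
    refine Fin.cases ?_ (fun j => ?_) i
    · simp
    · simp
  have h0 : ((finSuccEquiv K m a).coeff D).totalDegree = 0 := by
    rw [totalDegree_zero_iff_isHomogeneous]
    exact ha.finSuccEquiv_coeff_isHomogeneous D 0 (add_zero _)
  rw [totalDegree_eq_zero_iff_eq_C] at h0
  rw [hcons, eval_eq_eval_mv_eval', Polynomial.eval_eq_sum_range' (n := D + 1)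
    (lt_of_le_of_lt Polynomial.natDegree_map_le (Nat.lt_succ_of_le hdeg))]
  rw [Finset.sum_range_succ, Finset.sum_eq_zero, zero_add, one_pow, mul_one, Polynomial.coeff_map]
  · rw [h0]
    simp
  · intro i hi
    rw [Finset.mem_range] at hi
    rw [one_pow, mul_one, Polynomial.coeff_map, eval_zero, constantCoeff_eq]
    apply (ha.finSuccEquiv_coeff_isHomogeneous i (D - i) (by omega)).coeff_eq_zero
    simp only [map_zero]
    omega

variable {K Ω : Type} [Field K] [Field Ω] [Algebra K Ω] {n m : ℕ}

theorem toF_eq (y : Fin (m + 1) → Ω) (a : MvPolynomial (Fin (m + 1)) K) :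
    toF y a = (finSuccEquiv K m a).map
      (aeval (fun j => (⟨y j.succ, subset_adjoin _ _ ⟨j, rfl⟩⟩ :
        adjoin K (Set.range fun j : Fin m => y j.succ))) : MvPolynomial (Fin m) K →ₐ[K] _).toRingHom := by
  induction a using MvPolynomial.induction_on with
  | C c =>
    rw [finSuccEquiv_apply]
    simp [toF, Polynomial.algebraMap_apply]
  | add p q hp hq => simp only [map_add, hp, hq, Polynomial.map_add]
  | mul_X p i hp =>
    rw [map_mul, map_mul, hp, Polynomial.map_mul]
    congr 1
    refine Fin.cases ?_ (fun j => ?_) i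
    · rw [finSuccEquiv_X_zero]; simp [toF]
    · rw [finSuccEquiv_X_succ]; simp [toF]

theorem natDegree_toF (y : Fin (m + 1) → Ω) {a : MvPolynomial (Fin (m + 1)) K} {D : ℕ}
    (ha : a.IsHomogeneous D) (h0 : eval (Pi.single 0 1) a ≠ 0) : (toF y a).natDegree = D := by
  obtain ⟨h1, h2⟩ := finSucc_top ha
  rw [toF_eq]
  apply le_antisymm (Polynomial.natDegree_map_le.trans h1)
  apply Polynomial.le_natDegree_of_ne_zero
  rw [Polynomial.coeff_map, h2]
  simpa using h0

/-- choice of coordinates such that a given form is monic in the first variable -/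
theorem exists_coords [Infinite K] {x : Fin n → Ω} {l : Fin (m + 1) → MvPolynomial (Fin n) K}
    {ρ : ℕ} (st : Stage x l ρ) {a : MvPolynomial (Fin (m + 1)) K} (ha0 : a ≠ 0) {D : ℕ}
    (hD : 0 < D) (ha : a.IsHomogeneous D) :
    ∃ (l' : Fin (m + 1) → MvPolynomial (Fin n) K) (a' : MvPolynomial (Fin (m + 1)) K),
      Stage x l' ρ ∧ (∀ c, FR x l c → FR x l' c) ∧ a'.IsHomogeneous D ∧
      eval (Pi.single 0 1) a' ≠ 0 ∧ aeval (fun j => aeval x (l' j)) a' =
        aeval (fun j => aeval x (l j)) a ∧
      adjoin K (Set.range fun j => aeval x (l' j)) = adjoin K (Set.range fun j => aeval x (l j)) := by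
  obtain ⟨v, hv⟩ : ∃ v : Fin (m + 1) → K, eval v a ≠ 0 := by
    by_contra hcon
    push Not at hcon
    exact ha0 (MvPolynomial.funext (by simpa using hcon))
  have hv0 : v ≠ 0 := by
    rintro rfl
    apply hv
    rw [eval_zero, constantCoeff_eq]
    apply ha.coeff_eq_zero
    simp only [map_zero]
    omega
  obtain ⟨A, B, hAB, hBA, hAv⟩ := exists_matrix v hv0
  refine ⟨chg B l, sub A a, st.chg hAB hBA, fun c hc => hc.chg hAB, sub_homog A ha, ?_, ?_,
    chg_field_eq hAB l x⟩
  · rw [eval_sub, hAv]
    exact hv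
  · rw [aeval_chg, sub_sub, hAB, sub_one]

end LeepA
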