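import Mathlib

/-!
The dimension of `A/(u)` for a finite domain extension `A` of a polynomial ring in one variable
over a field, in terms of the norm on fraction fields.
-/

namespace LeepA

open Module Polynomial nonZeroDivisors

theorem isLocalization_of_integral {R A Q : Type*} [CommRing R] [IsDomain R] [CommRing A]
    [IsDomain A] [Algebra R A] [Algebra.IsIntegral R A] (hinj : Function.Injective (algebraMap R A))
    [Field Q] [Algebra A Q] [IsFractionRing A Q] :
    IsLocalization (Algebra.algebraMapSubmonoid A R⁰) Q := by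
  have hle : Algebra.algebraMapSubmonoid A R⁰ ≤ A⁰ := by
    rintro _ ⟨r, hr, rfl⟩
    have hr0 : r ≠ 0 := nonZeroDivisors.ne_zero hr
    rw [mem_nonZeroDivisors_iff_ne_zero]
    intro h
    exact hr0 (hinj (by simpa using h))
  have hdvd : ∀ a ∈ A⁰, ∃ m ∈ Algebra.algebraMapSubmonoid A R⁰, a ∣ m := by
    intro a ha
    obtain ⟨r, hr, hd⟩ := (Algebra.IsIntegral.isIntegral (R := R) a).isAlgebraic.exists_nonzero_dvd ha
    exact ⟨algebraMap R A r, ⟨r, mem_nonZeroDivisors_of_ne_zero hr, rfl⟩, hd⟩
  have h1 : IsLocalization A⁰ (Localization (Algebra.algebraMapSubmonoid A R⁰)) :=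
    IsLocalization.of_le_of_exists_dvd _ _ hle hdvd
  let e : Localization (Algebra.algebraMapSubmonoid A R⁰) ≃ₐ[A] Q :=
    IsLocalization.algEquiv A⁰ _ _
  exact IsLocalization.isLocalization_of_algEquiv _ e

/-- dimension of `A/(u)` -/
theorem quot_dim {F A Q1 Q2 : Type*} [Field F] [CommRing A] [IsDomain A] [Algebra F A]
    [Algebra F[X] A] [IsScalarTower F F[X] A] [Module.Finite F[X] A]
    (hinj : Function.Injective (algebraMap F[X] A))
    [Field Q1] [Algebra F[X] Q1] [IsFractionRing F[X] Q1] [Field Q2] [Algebra A Q2]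
    [IsFractionRing A Q2] [Algebra Q1 Q2] [Algebra F[X] Q2] [IsScalarTower F[X] Q1 Q2]
    [IsScalarTower F[X] A Q2] {u : A} (hu : u ≠ 0) (N : F[X])
    (hN : algebraMap F[X] Q1 N = Algebra.norm Q1 (algebraMap A Q2 u)) :
    FiniteDimensional F (A ⧸ Ideal.span {u}) ∧
      finrank F (A ⧸ Ideal.span {u}) = N.natDegree := by
  have hfaith : FaithfulSMul F[X] A := (faithfulSMul_iff_algebraMap_injective _ _).mpr hinj
  have htf : Module.IsTorsionFree F[X] A := inferInstance
  have hfree : Module.Free F[X] A := inferInstance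
  have hint : Algebra.IsIntegral F[X] A := inferInstance
  have hloc : IsLocalization (Algebra.algebraMapSubmonoid A F[X]⁰) Q2 :=
    isLocalization_of_integral hinj
  have h1 := Algebra.norm_localization F[X] (Rₘ := Q1) (Sₘ := Q2) F[X]⁰ u
  have h2 : Algebra.norm F[X] u = N := by
    apply IsFractionRing.injective F[X] Q1
    rw [← h1, hN]
  let b := Module.Free.chooseBasis F[X] A
  have h3 := finrank_quotient_span_eq_natDegree_norm b hu
  have hI : Ideal.span {u} ≠ ⊥ := by simpa using hu
  refine ⟨?_, by rw [h3, h2]⟩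
  have e := (Ideal.span {u}).quotientEquivDirectSum F b hI
  have hfin : FiniteDimensional F (DirectSum _ fun i => F[X] ⧸ Ideal.span {(Ideal.span {u}).smithCoeffs b hI i}) := by
    infer_instance
  exact LinearEquiv.finiteDimensional e.symm

end LeepA
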