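import Pool.Agent.H5.Leep.Change
import Pool.Agent.H5.Leep.Norm

/-!
The dimension of the section of the coordinate ring.
-/

namespace LeepA

open MvPolynomial IntermediateField Module
open scoped IntermediateField.algebraAdjoinAdjoin

section explicitInt

variable {K Ω : Type*} [Field K] [Field Ω] [Algebra K Ω] {m : ℕ}

theorem int_iff (y : Fin m → Ω) (z : Ω) :
    IsIntegral (Algebra.adjoin K (Set.range y)) z ↔
      (aeval y : MvPolynomial (Fin m) K →ₐ[K] Ω).toRingHom.IsIntegralElem z := by
  constructor
  · rintro ⟨P, hP, hz⟩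
    -- lift the coefficients
    let θ : MvPolynomial (Fin m) K →+* Algebra.adjoin K (Set.range y) :=
      (aeval (fun j => (⟨y j, Algebra.subset_adjoin ⟨j, rfl⟩⟩ :
        Algebra.adjoin K (Set.range y))) : MvPolynomial (Fin m) K →ₐ[K] _).toRingHom
    have hθ : ∀ c, ((θ c : _) : Ω) = aeval y c := by
      intro c
      have : ((Algebra.adjoin K (Set.range y)).val.comp
        (aeval (fun j => (⟨y j, Algebra.subset_adjoin ⟨j, rfl⟩⟩ :
        Algebra.adjoin K (Set.range y))) : MvPolynomial (Fin m) K →ₐ[K] _)) = aeval y := by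
        ext j
        simp
      exact congrArg (fun f => f c) this
    have hlift : P ∈ Polynomial.lifts θ := by
      rw [Polynomial.lifts_iff_coeff_lifts]
      intro j
      have h1 := (P.coeff j).2
      have h2 : ((P.coeff j : _) : Ω) ∈ (aeval y : MvPolynomial (Fin m) K →ₐ[K] Ω).range := by
        rw [← Algebra.adjoin_range_eq_range_aeval]
        exact h1
      obtain ⟨c, hc⟩ := h2
      exact ⟨c, Subtype.ext ((hθ c).trans hc)⟩
    obtain ⟨Q, hQ, -, hQm⟩ := Polynomial.lifts_and_degree_eq_and_monic hlift hP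
    refine ⟨Q, hQm, ?_⟩
    have h3 : (aeval y : MvPolynomial (Fin m) K →ₐ[K] Ω).toRingHom =
        (algebraMap (Algebra.adjoin K (Set.range y)) Ω).comp θ := by
      ext c
      · simp [θ]
      · simp [θ]
    rw [h3, ← Polynomial.eval₂_map, hQ]
    exact hz
  · rintro ⟨Q, hQ, hz⟩
    let θ : MvPolynomial (Fin m) K →+* Algebra.adjoin K (Set.range y) :=
      (aeval (fun j => (⟨y j, Algebra.subset_adjoin ⟨j, rfl⟩⟩ :
        Algebra.adjoin K (Set.range y))) : MvPolynomial (Fin m) K →ₐ[K] _).toRingHom
    refine ⟨Q.map θ, hQ.map _, ?_⟩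
    have h3 : (aeval y : MvPolynomial (Fin m) K →ₐ[K] Ω).toRingHom =
        (algebraMap (Algebra.adjoin K (Set.range y)) Ω).comp θ := by
      ext c
      · simp [θ]
      · simp [θ]
    rw [h3] at hz
    rw [Polynomial.eval₂_map]
    exact hz

end explicitInt

section core

variable {K Ω : Type} [Field K] [Field Ω] [Algebra K Ω] {n m : ℕ}

theorem transcendental_succ {y : Fin (m + 1) → Ω} (hy : AlgebraicIndependent K y) :
    Transcendental (adjoin K (Set.range fun j : Fin m => y j.succ)) (y 0) := by
  have h1 := hy.transcendental_adjoin (s := {0}ᶜ) (i := 0) (by simp)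
  have h2 : y '' {0}ᶜ = Set.range fun j : Fin m => y j.succ := by
    ext z
    constructor
    · rintro ⟨i, hi, rfl⟩
      obtain ⟨j, rfl⟩ := Fin.exists_succ_eq.mpr (show i ≠ 0 from hi)
      exact ⟨j, rfl⟩
    · rintro ⟨j, rfl⟩
      exact ⟨j.succ, Fin.succ_ne_zero j, rfl⟩
  rw [h2] at h1
  rw [Transcendental] at h1 ⊢
  rw [IsFractionRing.isAlgebraic_iff (Algebra.adjoin K (Set.range fun j : Fin m => y j.succ))
    (adjoin K (Set.range fun j : Fin m => y j.succ)) Ω] at h1
  exact h1

/-- polynomials in `y` as polynomials in `y 0` over `K(y 1, ..)` -/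
noncomputable def toF (y : Fin (m + 1) → Ω) : MvPolynomial (Fin (m + 1)) K →ₐ[K]
    Polynomial (adjoin K (Set.range fun j : Fin m => y j.succ)) :=
  aeval (Fin.cons Polynomial.X fun j =>
    Polynomial.C ⟨y j.succ, subset_adjoin _ _ ⟨j, rfl⟩⟩)

theorem aeval_toF (y : Fin (m + 1) → Ω) (c : MvPolynomial (Fin (m + 1)) K) :
    Polynomial.aeval (y 0) (toF y c) = aeval y c := by
  have : ((Polynomial.aeval (R := adjoin K (Set.range fun j : Fin m => y j.succ))
      (y 0)).restrictScalars K).comp (toF y) = aeval y := by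
    ext i
    refine Fin.cases ?_ (fun j => ?_) i
    · simp [toF]
    · simp [toF]
  exact congrArg (fun f => f c) this

/-- the field of the Noether normalisation is contained in the function field -/
theorem field_le (x : Fin n → Ω) (l : Fin m → MvPolynomial (Fin n) K) :
    adjoin K (Set.range fun j => aeval x (l j)) ≤ adjoin K (Set.range x) := by
  rw [adjoin_le_iff]
  rintro _ ⟨j, rfl⟩
  apply algebra_adjoin_le_adjoin
  rw [Algebra.adjoin_range_eq_range_aeval]
  exact ⟨l j, rfl⟩

/-- the base field of the section -/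
abbrev FF (x : Fin n → Ω) (l : Fin (m + 1) → MvPolynomial (Fin n) K) : IntermediateField K Ω :=
  adjoin K (Set.range fun j : Fin m => aeval x (l j.succ))

/-- the coordinate ring of the section -/
abbrev AA (x : Fin n → Ω) (l : Fin (m + 1) → MvPolynomial (Fin n) K) :
    Subalgebra (FF x l) Ω := Algebra.adjoin (FF x l) (Set.range x)

theorem aeval_mem_AA (x : Fin n → Ω) (l : Fin (m + 1) → MvPolynomial (Fin n) K)
    (f : MvPolynomial (Fin n) K) : aeval x f ∈ AA x l := by
  have h1 : aeval x f ∈ Algebra.adjoin K (Set.range x) := by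
    rw [Algebra.adjoin_range_eq_range_aeval]
    exact ⟨f, rfl⟩
  have h2 : Algebra.adjoin K (Set.range x) ≤ (AA x l).restrictScalars K := by
    apply Algebra.adjoin_le
    intro z hz
    exact Algebra.subset_adjoin hz
  exact h2 h1

theorem AA_le (x : Fin n → Ω) (l : Fin (m + 1) → MvPolynomial (Fin n) K) {z : Ω}
    (hz : z ∈ AA x l) : z ∈ adjoin K (Set.range x) := by
  have hF : FF x l ≤ adjoin K (Set.range x) := field_le x (fun j : Fin m => l j.succ)
  induction hz using Algebra.adjoin_induction with
  | mem z hz => exact subset_adjoin _ _ hz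
  | algebraMap r => exact hF r.2
  | add a b _ _ ha hb => exact add_mem ha hb
  | mul a b _ _ ha hb => exact mul_mem ha hb

end core

end LeepA
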