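import Pool.Agent.H5.Leep.Core

namespace LeepA

open MvPolynomial IntermediateField Module

set_option maxHeartbeats 400000

theorem core_abs {K Ω : Type} [Field K] [Field Ω] [Algebra K Ω] (F Ky Kx : IntermediateField K Ω)
    (t : Ω) (ht : Transcendental F t) (A : Subalgebra F Ω) (htA : t ∈ A) (htKy : t ∈ Ky)
    (hFKy : F ≤ Ky) (hle : Ky ≤ Kx) (hAx : ∀ z ∈ A, z ∈ Kx)
    (hfrac1 : ∀ z ∈ Ky, ∃ a b : Polynomial F, z = Polynomial.aeval t a / Polynomial.aeval t b)
    (hfrac2 : ∀ z ∈ Kx, ∃ a ∈ A, ∃ b ∈ A, z = a / b)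
    (hft : Algebra.FiniteType F A)
    (hint : ∀ z ∈ A, (Polynomial.aeval (R := F) t).toRingHom.IsIntegralElem z)
    (u : A) (hu : u ≠ 0) (N : Polynomial F)
    (hN : Polynomial.aeval t N = ((Algebra.norm Ky (⟨u.1, hAx u.1 u.2⟩ : extendScalars hle) : Ky) : Ω)) :
    FiniteDimensional F (A ⧸ Ideal.span {u}) ∧ finrank F (A ⧸ Ideal.span {u}) = N.natDegree := by
  -- algebra structures
  let φ : Polynomial F →+* A := (Polynomial.aeval (⟨t, htA⟩ : A)).toRingHom
  have hφ : ∀ P, ((φ P : A) : Ω) = Polynomial.aeval t P := by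
    intro P
    have : (A.val.comp (Polynomial.aeval (⟨t, htA⟩ : A))) = Polynomial.aeval t := by
      ext
      simp
    exact congrArg (fun f => f P) this
  let iAlg1 : Algebra (Polynomial F) A := φ.toAlgebra
  have tow1 : IsScalarTower F (Polynomial F) A := by
    apply IsScalarTower.of_algebraMap_eq
    intro r
    change _ = φ (Polynomial.C r)
    apply Subtype.ext
    rw [hφ, Polynomial.aeval_C]
    rfl
  have hmem1 : ∀ P : Polynomial F, Polynomial.aeval t P ∈ Ky := by
    intro P
    rw [Polynomial.aeval_eq_sum_range]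
    apply sum_mem
    intro i _
    rw [Algebra.smul_def]
    exact mul_mem (hFKy (P.coeff i).2) (pow_mem htKy _)
  let ψ : Polynomial F →+* Ky :=
    RingHom.codRestrict (Polynomial.aeval t).toRingHom Ky hmem1
  let iAlg2 : Algebra (Polynomial F) Ky := ψ.toAlgebra
  let ψ2 : A →+* extendScalars hle :=
    RingHom.codRestrict A.val.toRingHom (extendScalars hle) (fun z => hAx z.1 z.2)
  let iAlg3 : Algebra A (extendScalars hle) := ψ2.toAlgebra
  let iAlg4 : Algebra (Polynomial F) (extendScalars hle) := (ψ2.comp φ).toAlgebra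
  have tow2 : IsScalarTower (Polynomial F) A (extendScalars hle) :=
    IsScalarTower.of_algebraMap_eq (fun r => rfl)
  have tow3 : IsScalarTower (Polynomial F) Ky (extendScalars hle) := by
    apply IsScalarTower.of_algebraMap_eq
    intro r
    apply Subtype.ext
    exact hφ r
  have hinjt : ∀ P : Polynomial F, Polynomial.aeval t P = 0 → P = 0 :=
    fun P hP => (transcendental_iff.mp ht) P hP
  have faith1 : FaithfulSMul (Polynomial F) Ky := by
    rw [faithfulSMul_iff_algebraMap_injective, injective_iff_map_eq_zero]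
    intro P hP
    exact hinjt P (congrArg Subtype.val hP)
  have frac1 : IsFractionRing (Polynomial F) Ky := by
    apply IsFractionRing.of_field
    intro z
    obtain ⟨a, b, hab⟩ := hfrac1 z.1 z.2
    exact ⟨a, b, Subtype.ext hab⟩
  have faith2 : FaithfulSMul A (extendScalars hle) := by
    rw [faithfulSMul_iff_algebraMap_injective, injective_iff_map_eq_zero]
    intro P hP
    have h : (P.1 : Ω) = 0 := congrArg Subtype.val hP
    exact Subtype.ext h
  have frac2 : IsFractionRing A (extendScalars hle) := by
    apply IsFractionRing.of_field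
    intro z
    obtain ⟨a, ha, b, hb, hab⟩ := hfrac2 z.1 z.2
    exact ⟨⟨a, ha⟩, ⟨b, hb⟩, Subtype.ext hab⟩
  have hinj : Function.Injective (algebraMap (Polynomial F) A) := by
    rw [injective_iff_map_eq_zero]
    intro P hP
    apply hinjt
    rw [← hφ]
    exact congrArg Subtype.val hP
  have hinteg : Algebra.IsIntegral (Polynomial F) A := by
    constructor
    intro a
    obtain ⟨P, hP, hPa⟩ := hint a.1 a.2
    refine ⟨P, hP, ?_⟩
    apply Subtype.ext
    have h1 : ((Polynomial.eval₂ (algebraMap (Polynomial F) A) a P : A) : Ω) =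
        Polynomial.eval₂ (Polynomial.aeval (R := F) t).toRingHom a.1 P := by
      have h2 := Polynomial.hom_eval₂ P (algebraMap (Polynomial F) A) A.val.toRingHom a
      have h3 : (A.val.toRingHom).comp (algebraMap (Polynomial F) A) =
          (Polynomial.aeval (R := F) t).toRingHom := by
        apply RingHom.ext
        intro r
        exact hφ r
      rw [h3] at h2
      exact h2
    rw [h1, hPa]
    rfl
  have hftX : Algebra.FiniteType (Polynomial F) A :=
    Algebra.FiniteType.of_restrictScalars_finiteType F (Polynomial F) A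
  have hfin : Module.Finite (Polynomial F) A := Algebra.IsIntegral.finite
  apply quot_dim (Q1 := Ky) (Q2 := extendScalars hle) hinj hu N
  apply Subtype.ext
  exact hN

end LeepA
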