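import Pool.Agent.H5.Leep.DetInv

/-!
The cut lemma.
-/

namespace LeepA

open MvPolynomial IntermediateField Module

set_option maxHeartbeats 400000

variable {K Ω : Type} [Field K] [Field Ω] [Algebra K Ω] {n m : ℕ}

theorem norm_transport (E1 E2 Kx : IntermediateField K Ω) (h1 : E1 ≤ Kx) (h2 : E2 ≤ Kx)
    (hE : E1 = E2) (u : Ω) (hu : u ∈ Kx) :
    ((Algebra.norm E1 (⟨u, hu⟩ : extendScalars h1) : E1) : Ω) =
      ((Algebra.norm E2 (⟨u, hu⟩ : extendScalars h2) : E2) : Ω) := by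
  subst hE
  rfl

theorem isAlgebraic_of_le {E1 E2 : IntermediateField K Ω} (h : E1 ≤ E2) {z : Ω}
    (hz : IsAlgebraic E1 z) : IsAlgebraic E2 z := by
  let iA : Algebra E1 E2 := (inclusion h).toRingHom.toAlgebra
  have : IsScalarTower E1 E2 Ω := IsScalarTower.of_algebraMap_eq (fun _ => rfl)
  exact hz.tower_top E2

theorem aeval_g {x : Fin n → Ω} {l : Fin (m + 1) → MvPolynomial (Fin n) K}
    (g : AA x l →ₐ[FF x l] Ω) (x' : Fin n → Ω)
    (hx' : ∀ i, x' i = g ⟨x i, Algebra.subset_adjoin ⟨i, rfl⟩⟩) (f : MvPolynomial (Fin n) K) :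
    aeval x' f = g ⟨aeval x f, aeval_mem_AA x l f⟩ := by
  induction f using MvPolynomial.induction_on with
  | C c =>
    rw [algHom_C]
    have h1 : (⟨aeval x (C c), aeval_mem_AA x l (C c)⟩ : AA x l) =
        algebraMap (FF x l) (AA x l) (algebraMap K (FF x l) c) := by
      apply Subtype.ext
      change aeval x (C c) = _
      rw [algHom_C]
      rfl
    rw [h1, AlgHom.commutes]
    rfl
  | add p q hp hq =>
    rw [map_add, hp, hq, ← map_add]
    congr 1
    apply Subtype.ext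
    change aeval x p + aeval x q = aeval x (p + q)
    rw [map_add]
  | mul_X p i hp =>
    rw [map_mul, hp, aeval_X, hx' i, ← map_mul]
    congr 1
    apply Subtype.ext
    change aeval x p * x i = aeval x (p * X i)
    rw [map_mul, aeval_X]

theorem cut_aux [CharZero K] [IsAlgClosed Ω]
    {p : ℕ} (hp : p.Prime) (hp2 : p ≠ 2) {x : Fin n → Ω} {l : Fin (m + 1) → MvPolynomial (Fin n) K}
    {ρ : ℕ} (st : Stage x l ρ) (hρ : ¬ p ∣ ρ) (q : MvPolynomial (Fin n) K)
    (hq : q.IsHomogeneous 2) (hqx : aeval x q ≠ 0)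
    (hmem : aeval x q ∈ adjoin K (Set.range x)) {k j : ℕ} (hkj : k * j = ρ)
    {a : MvPolynomial (Fin (m + 1)) K} (ha : a.IsHomogeneous (2 * k))
    (ha0 : eval (Pi.single 0 1) a ≠ 0) (g : MvPolynomial (Fin n) K)
    (hqa : aeval x (q * g + aeval l a) = 0)
    (hN : ((Algebra.norm (adjoin K (Set.range fun j => aeval x (l j)))
        (⟨aeval x q, hmem⟩ : extendScalars (field_le x l)) :
        adjoin K (Set.range fun j => aeval x (l j))) : Ω) =
        aeval (fun j => aeval x (l j)) (((-1) ^ k * a) ^ j)) :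
    ∃ (x' : Fin n → Ω) (l' : Fin m → MvPolynomial (Fin n) K) (ρ' : ℕ),
      Stage x' l' ρ' ∧ ¬ p ∣ ρ' ∧ ρ' ≤ 2 * ρ ∧ aeval x' q = 0 ∧
      (∀ f : MvPolynomial (Fin n) K, aeval x f = 0 → aeval x' f = 0) ∧
      (∀ i, IsAlgebraic (adjoin K (Set.range x)) (x' i)) ∧
      (∀ c, ρ = 2 ^ c → FR x l c → FR x' l' (c + 1)) := by
  obtain ⟨hfd, hdim⟩ := sec_dim st hmem hqx hkj ha ha0 hN
  have hp2ρ : ¬ p ∣ finrank (FF x l)
      (AA x l ⧸ Ideal.span {(⟨aeval x q, aeval_mem_AA x l q⟩ : AA x l)}) := by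
    rw [hdim]
    intro h
    rcases hp.dvd_mul.mp h with h | h
    · exact hp2 ((Nat.prime_dvd_prime_iff_eq hp Nat.prime_two).mp h)
    · exact hρ h
  obtain ⟨g0, hg0u, hg0fd, hg0p, hg0le⟩ := point_abs (Ω := Ω)
    (⟨aeval x q, aeval_mem_AA x l q⟩ : AA x l) p hfd hp2ρ
  let x' : Fin n → Ω := fun i => g0 ⟨x i, Algebra.subset_adjoin ⟨i, rfl⟩⟩
  have hx' : ∀ i, x' i = g0 ⟨x i, Algebra.subset_adjoin ⟨i, rfl⟩⟩ := fun _ => rfl
  have hev := aeval_g g0 x' hx'
  have hy' : ∀ j : Fin m, aeval x' (l j.succ) = aeval x (l j.succ) := by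
    intro j
    rw [hev]
    have h1 : (⟨aeval x (l j.succ), aeval_mem_AA x l (l j.succ)⟩ : AA x l) =
        algebraMap (FF x l) (AA x l) ⟨aeval x (l j.succ), subset_adjoin _ _ ⟨j, rfl⟩⟩ := rfl
    rw [h1, AlgHom.commutes]
    rfl
  have hyfun : (fun j : Fin m => aeval x' (l j.succ)) = fun j : Fin m => aeval x (l j.succ) :=
    funext hy'
  have hFle : FF x l ≤ adjoin K (Set.range x') := by
    rw [adjoin_le_iff]
    rintro _ ⟨j, rfl⟩
    change aeval x (l j.succ) ∈ adjoin K (Set.range x')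
    rw [← hy' j]
    apply algebra_adjoin_le_adjoin
    rw [Algebra.adjoin_range_eq_range_aeval]
    exact ⟨l j.succ, rfl⟩
  obtain ⟨hdeg, halg⟩ := field_of_range (FF x l) x g0 hg0fd x' hx' hFle
  have hrel : ∀ f : MvPolynomial (Fin n) K, aeval x f = 0 → aeval x' f = 0 := by
    intro f hf
    rw [hev]
    have h1 : (⟨aeval x f, aeval_mem_AA x l f⟩ : AA x l) = 0 := Subtype.ext hf
    rw [h1, map_zero]
  have hqx' : aeval x' q = 0 := by
    rw [hev]
    exact hg0u
  have hind : AlgebraicIndependent K (fun j : Fin m => aeval x' (l j.succ)) := by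
    rw [hyfun]
    exact st.indep.comp Fin.succ (Fin.succ_injective m)
  have hmon := fun i => (int_iff _ _).mp (st.int i)
  refine ⟨x', fun j => l j.succ, finrank (FF x l) g0.range, ?_, hg0p, ?_, hqx', hrel, ?_, ?_⟩
  · refine ⟨fun j => st.lin j.succ, hind, ?_, ?_, ?_⟩
    · intro i
      rw [int_iff]
      have hπa : (aeval x' : MvPolynomial (Fin n) K →ₐ[K] Ω) (aeval l a) = 0 := by
        have h1 := hrel _ hqa
        rwa [map_add, map_mul, hqx', zero_mul, zero_add] at h1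
      have h1 := int_general (aeval x' : MvPolynomial (Fin n) K →ₐ[K] Ω) l
        (fun i => int_of_rel (aeval x' : MvPolynomial (Fin n) K →ₐ[K] Ω) x l hrel i (hmon i))
        ha ha0 hπa i
      have h2 : (aeval (fun j : Fin m => aeval x' (l j.succ)) : MvPolynomial (Fin m) K →ₐ[K] Ω) =
          (aeval x').comp (aeval (fun j : Fin m => l j.succ) :
            MvPolynomial (Fin m) K →ₐ[K] MvPolynomial (Fin n) K) := by
        ext j
        simp
      rw [aeval_X] at h1
      rw [h2]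
      exact h1
    · exact hom_general x x' l hmon st.hom hrel ha ha0 hq hqx' hqa hind
    · change relfinrank (adjoin K (Set.range (fun j : Fin m => aeval x' (l j.succ)))) _ = _
      rw [hyfun]
      exact hdeg
  · rw [← hdim]
    exact hg0le
  · intro i
    have hF2 : FF x l ≤ adjoin K (Set.range x) := field_le x (fun j : Fin m => l j.succ)
    exact isAlgebraic_of_le hF2 (halg i)
  · rintro c rfl ⟨ι, hι, b, d, hb, hd, hgen⟩
    have hQ : ∀ j, ∃ g : ι → MvPolynomial (Fin (m + 1)) K,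
        (∀ i, (g i).IsHomogeneous (2 + d j - d i)) ∧ (∀ i, 2 + d j < d i → g i = 0) ∧
        aeval x (q * b j) = ∑ i, aeval (fun j => aeval x (l j)) (g i) * aeval x (b i) :=
      fun j => hgen (2 + d j) (q * b j) (hq.mul (hb j))
    choose Q hQh hQz hQ using hQ
    have hinv := det_inv st b d hd hgen q hmem (fun i j => Q j i) hQ _ hN (by
      rw [map_pow, map_mul, map_pow, map_neg, map_one]
      exact pow_ne_zero _ (mul_ne_zero (pow_ne_zero _ (neg_ne_zero.mpr one_ne_zero)) ha0))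
    exact nakayama x x' l st.lin hrel b d hb c hd hgen q hqx' (fun i j => Q j i)
      (fun i j => hQh j i) (fun i j => hQz j i) hQ hinv

theorem cut {K Ω : Type} [Field K] [Field Ω] [Algebra K Ω] [CharZero K] [IsAlgClosed Ω] {n m : ℕ}
    {p : ℕ} (hp : p.Prime) (hp2 : p ≠ 2) {x : Fin n → Ω} {l : Fin (m + 1) → MvPolynomial (Fin n) K}
    {ρ : ℕ} (st : Stage x l ρ) (hρ : ¬ p ∣ ρ) (q : MvPolynomial (Fin n) K) (hq : q.IsHomogeneous 2)
    (hqx : aeval x q ≠ 0) :
    ∃ (x' : Fin n → Ω) (l' : Fin m → MvPolynomial (Fin n) K) (ρ' : ℕ),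
      Stage x' l' ρ' ∧ ¬ p ∣ ρ' ∧ ρ' ≤ 2 * ρ ∧ aeval x' q = 0 ∧
      (∀ f : MvPolynomial (Fin n) K, aeval x f = 0 → aeval x' f = 0) ∧
      (∀ i, IsAlgebraic (adjoin K (Set.range x)) (x' i)) ∧
      (ρ' = 2 * ρ → ∀ c, ρ = 2 ^ c → FR x l c → FR x' l' (c + 1)) := by
  have hρ0 : ρ ≠ 0 := by
    rintro rfl
    exact hρ (dvd_zero p)
  have hmem : aeval x q ∈ adjoin K (Set.range x) := by
    apply algebra_adjoin_le_adjoin
    rw [Algebra.adjoin_range_eq_range_aeval]
    exact ⟨q, rfl⟩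
  obtain ⟨k, j, a, g, hk, hkj, ha, hqa, hN⟩ := norm_form st hρ0 hq hmem
  have hj : j ≠ 0 := by
    rintro rfl
    exact hρ0 (by rw [← hkj, mul_zero])
  have ha0 : a ≠ 0 := by
    rintro rfl
    rw [mul_zero, zero_pow hj, map_zero] at hN
    have hfin : FiniteDimensional (adjoin K (Set.range fun j => aeval x (l j)))
        (extendScalars (field_le x l)) := by
      have h := st.deg
      rw [relfinrank_eq_finrank_of_le (field_le x l)] at h
      apply FiniteDimensional.of_finrank_pos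
      omega
    have h1 : Algebra.norm (adjoin K (Set.range fun j => aeval x (l j)))
        (⟨aeval x q, hmem⟩ : extendScalars (field_le x l)) = 0 := Subtype.ext hN
    rw [Algebra.norm_eq_zero_iff] at h1
    exact hqx (congrArg Subtype.val h1)
  obtain ⟨l', a', st', hFR, ha', ha0', haa, hE⟩ := exists_coords st ha0 (by omega) ha
  have hN' : ((Algebra.norm (adjoin K (Set.range fun j => aeval x (l' j)))
        (⟨aeval x q, hmem⟩ : extendScalars (field_le x l')) :
        adjoin K (Set.range fun j => aeval x (l' j))) : Ω) =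
        aeval (fun j => aeval x (l' j)) (((-1) ^ k * a') ^ j) := by
    rw [norm_transport _ _ _ (field_le x l') (field_le x l) hE, hN]
    simp only [map_pow, map_mul, map_neg, map_one, haa]
  have hqa' : aeval x (q * g + aeval l' a') = 0 := by
    rw [← hqa, map_add, map_add, aeval_aeval_lin, aeval_aeval_lin, haa]
  obtain ⟨x', l'', ρ', h1, h2, h3, h4, h5, h6, h7⟩ :=
    cut_aux hp hp2 st' hρ q hq hqx hmem hkj ha' ha0' g hqa' hN'
  exact ⟨x', l'', ρ', h1, h2, h3, h4, h5, h6, fun _ c hc hc2 => h7 c hc (hFR c hc2)⟩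

end LeepA
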