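import Pool.Agent.H5.Leep.AltGroup

/-!
The group `F_{2^(p-1)} ⋊ μ_p`.
-/

namespace LeepA

set_option maxHeartbeats 400000

theorem exists_surj (V : Type*) [AddCommGroup V] [Module (ZMod 2) V] [Nontrivial V] :
    ∃ χ : V →+ ZMod 2, Function.Surjective χ := by
  obtain ⟨v, hv⟩ := exists_ne (0 : V)
  obtain ⟨f, hf⟩ : ∃ f : Module.Dual (ZMod 2) V, f v ≠ 0 := by
    by_contra hcon
    push Not at hcon
    exact hv ((Module.forall_dual_apply_eq_zero_iff (ZMod 2) v).mp hcon)
  refine ⟨f.toAddMonoidHom, ?_⟩
  intro c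
  have h1 : f v = 1 := (zmod2_cases (f v)).resolve_left hf
  refine ⟨c • v, ?_⟩
  change f (c • v) = c
  rw [map_smul, h1, smul_eq_mul, mul_one]

theorem exists_GG_cyc (p : ℕ) (hp : p.Prime) (h : orderOf (2 : ZMod p) = p - 1) :
    ∃ (G : Type) (_ : Group G), Finite G ∧ GG p p G := by
  have hpf : Fact p.Prime := ⟨hp⟩
  have hp1 := hp.one_lt
  have h2f : Fact (Nat.Prime 2) := ⟨Nat.prime_two⟩
  let F := GaloisField 2 (p - 1)
  have hFcard : Nat.card F = 2 ^ (p - 1) := GaloisField.card 2 (p - 1) (by omega)
  have hFfin : Finite F := Nat.finite_of_card_ne_zero (by rw [hFcard]; positivity)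
  have hUcard : Nat.card Fˣ = 2 ^ (p - 1) - 1 := by
    rw [Nat.card_units, hFcard]
  have hdvd : p ∣ Nat.card Fˣ := by
    rw [hUcard, ← CharP.cast_eq_zero_iff (ZMod p) p, Nat.cast_sub Nat.one_le_two_pow]
    push_cast
    rw [← h, pow_orderOf_eq_one, sub_self]
  obtain ⟨ζ, hζ⟩ := exists_prime_orderOf_dvd_card' p hdvd
  let φ : Subgroup.zpowers ζ →* MulAut (Multiplicative F) :=
    { toFun := fun g => AddEquiv.toMultiplicative (AddAut.mulLeft (g : Fˣ))
      map_one' := by
        ext x
        exact congrArg Multiplicative.ofAdd (one_mul (Multiplicative.toAdd x))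
      map_mul' := by
        intro a b
        ext x
        exact congrArg Multiplicative.ofAdd
          (mul_assoc (((a : Fˣ) : F)) (((b : Fˣ) : F)) (Multiplicative.toAdd x)) }
  have hA : Nat.card (Subgroup.zpowers ζ) = p := by rw [Nat.card_zpowers, hζ]
  have hNcard : Nat.card (Multiplicative F) = 2 ^ (p - 1) := by
    rw [Nat.card_congr Multiplicative.toAdd, hFcard]
  have hfin : Finite (SemidirectProduct (Multiplicative F) (Subgroup.zpowers ζ) φ) :=
    Finite.of_equiv _ SemidirectProduct.equivProd.symm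
  have hidx : ∀ D : Subgroup (Subgroup.zpowers ζ), D.index = 1 ∨ D.index = p := by
    intro D
    have h1 : D.index ∣ p := by
      have h2 := D.index_dvd_card
      rwa [hA] at h2
    exact (Nat.dvd_prime hp).mp h1
  have hfree : ∀ (a : Subgroup.zpowers ζ) (n : Multiplicative F), φ a n = n → a = 1 ∨ n = 1 := by
    intro z v h6
    have h7 : ((z : Fˣ) : F) * Multiplicative.toAdd v = Multiplicative.toAdd v :=
      congrArg Multiplicative.toAdd h6
    have h8 : (((z : Fˣ) : F) - 1) * Multiplicative.toAdd v = 0 := by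
      rw [sub_mul, one_mul, h7, sub_self]
    rcases mul_eq_zero.mp h8 with h9 | h9
    · left
      exact Subtype.ext (Units.ext (sub_eq_zero.mp h9))
    · right
      exact Multiplicative.toAdd.injective h9
  have hntF : Nontrivial F := inferInstance
  obtain ⟨χ0, hχ0⟩ := exists_surj F
  refine ⟨SemidirectProduct (Multiplicative F) (Subgroup.zpowers ζ) φ, inferInstance, hfin, ?_⟩
  refine GG_of_semidirect φ p p hNcard ?_ ?_ ?_ ?_ ⊥ ?_ (AddMonoidHom.toMultiplicative χ0) ?_ ?_
  · intro D hD
    left
    rcases hidx D with h1 | h1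
    · exact Subgroup.index_eq_one.mp h1
    · exact absurd (dvd_of_eq h1.symm) hD
  · intro D hD
    rcases hidx D with h1 | h1
    · exact Subgroup.index_eq_one.mp h1
    · omega
  · intro U hU
    let act : MulAction (Subgroup.zpowers ζ) U :=
      { smul := fun a u => ⟨φ a u.1, hU a u.1 u.2⟩
        one_smul := by
          intro u
          apply Subtype.ext
          change φ 1 u.1 = u.1
          rw [map_one]
          rfl
        mul_smul := by
          intro a b u
          apply Subtype.ext
          change φ (a * b) u.1 = φ a (φ b u.1)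
          rw [map_mul]
          rfl }
    have hpg : IsPGroup p (Subgroup.zpowers ζ) := by
      apply IsPGroup.of_card (n := 1)
      rw [hA, pow_one]
    have hmod := hpg.card_modEq_card_fixedPoints U
    have hζ1 : (⟨ζ, Subgroup.mem_zpowers ζ⟩ : Subgroup.zpowers ζ) ≠ 1 := by
      intro h1
      have h2 : ζ = 1 := congrArg Subtype.val h1
      rw [h2, orderOf_one] at hζ
      omega
    have hfp : Nat.card (MulAction.fixedPoints (Subgroup.zpowers ζ) U) = 1 := by
      rw [Nat.card_eq_one_iff_unique]
      constructor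
      · constructor
        have key : ∀ u : MulAction.fixedPoints (Subgroup.zpowers ζ) U, (u : U) = 1 := by
          intro u
          have h3 := u.2 ⟨ζ, Subgroup.mem_zpowers ζ⟩
          have h4 : φ ⟨ζ, Subgroup.mem_zpowers ζ⟩ (u : U).1 = (u : U).1 := congrArg Subtype.val h3
          exact Subtype.ext ((hfree _ _ h4).resolve_left hζ1)
        intro a b
        exact Subtype.ext ((key a).trans (key b).symm)
      · exact ⟨⟨1, fun z => Subtype.ext (map_one (φ z))⟩⟩
    rw [hfp] at hmod
    have hUdvd : Nat.card U ∣ 2 ^ (p - 1) := by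
      rw [← hNcard]
      exact U.card_subgroup_dvd_card
    obtain ⟨k, hk, hUk⟩ := (Nat.dvd_prime_pow Nat.prime_two).mp hUdvd
    have hdiv : p - 1 ∣ k := by
      rw [← h]
      apply orderOf_dvd_of_pow_eq_one
      rw [hUk, ← ZMod.natCast_eq_natCast_iff] at hmod
      push_cast at hmod
      exact hmod
    rcases Nat.eq_zero_or_pos k with hk0 | hkpos
    · left
      rw [hk0, pow_zero] at hUk
      exact Subgroup.card_eq_one.mp hUk
    · right
      have hk1 : k = p - 1 := le_antisymm hk (Nat.le_of_dvd hkpos hdiv)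
      rw [hk1] at hUk
      apply Subgroup.eq_top_of_card_eq
      rw [hUk, hNcard]
  · intro n hn
    have hζ1 : (⟨ζ, Subgroup.mem_zpowers ζ⟩ : Subgroup.zpowers ζ) ≠ 1 := by
      intro h1
      have h2 : ζ = 1 := congrArg Subtype.val h1
      rw [h2, orderOf_one] at hζ
      omega
    exact (hfree _ _ (hn _)).resolve_left hζ1
  · rw [Subgroup.index_bot, hA]
  · intro z
    obtain ⟨x, hx⟩ := hχ0 (Multiplicative.toAdd z)
    exact ⟨Multiplicative.ofAdd x, congrArg Multiplicative.ofAdd hx⟩
  · intro a ha n
    rw [Subgroup.mem_bot.mp ha, map_one]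
    rfl

/-- the group for all primes except `2` and `7` -/
theorem exists_GG {p : ℕ} (hp : p.Prime) (h2 : p ≠ 2) (h7 : p ≠ 7) :
    ∃ (G : Type) (_ : Group G), Finite G ∧ GG p p G := by
  by_cases h17 : 17 ≤ p
  · exact exists_GG_alt hp h17
  · have h16 : p ≤ 16 := by omega
    have h3 : p = 3 ∨ p = 5 ∨ p = 11 ∨ p = 13 := by
      interval_cases p <;> first | omega | (exfalso; revert hp; norm_num; done)
    apply exists_GG_cyc p hp
    rcases h3 with rfl | rfl | rfl | rfl
    · rw [orderOf_eq_iff (by norm_num)]; decide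
    · rw [orderOf_eq_iff (by norm_num)]; decide
    · rw [orderOf_eq_iff (by norm_num)]; decide
    · rw [orderOf_eq_iff (by norm_num)]; decide

end LeepA
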