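import Mathlib

/-!
The system u-invariants of a field.
-/

namespace LeepA

/-- There is an anisotropic system of `r` quadratic forms on `K^N`. -/
def HasAnisoSystem (K : Type*) [Field K] (r N : ℕ) : Prop :=
  ∃ q : Fin r → QuadraticForm K (Fin N → K), ∀ v, (∀ i, q i v = 0) → v = 0

/-- `u_r(K)`: the supremum of the dimensions of anisotropic systems of `r` quadratic forms. -/
noncomputable def uInv (K : Type*) [Field K] (r : ℕ) : ℕ∞ :=
  ⨆ (N : ℕ) (_ : HasAnisoSystem K r N), (N : ℕ∞)

end LeepA
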