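import Pool.Agent.H5.Leep.Good
import Pool.Agent.H5.Leep.UInv

/-!
The lower bound for `u_p`.
-/

namespace LeepA

open IntermediateField

/-- A nonsquare in an extension of degree `d` gives an anisotropic system of `d` forms in `2d`
variables. -/
theorem anisoSystem_of_nonsquare {K L : Type} [Field K] [Field L] [Algebra K L]
    {d : ℕ} (hd : Module.finrank K L = d) (hd0 : d ≠ 0) (a : L) (ha : ¬ IsSquare a) :
    HasAnisoSystem K d (2 * d) := by
  have hfin : FiniteDimensional K L := Module.finite_of_finrank_pos (by omega)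
  let e : Module.Basis (Fin d) K L := Module.finBasisOfFinrankEq K L hd
  let F : Fin 2 → (Fin (2 * d) → K) →ₗ[K] L := fun c =>
    e.equivFun.symm.toLinearMap ∘ₗ LinearMap.funLeft K K (fun j => finProdFinEquiv (c, j))
  let Q : QuadraticMap K (Fin (2 * d) → K) L :=
    QuadraticMap.linMulLin (F 0) (F 0) -
      QuadraticMap.linMulLin (LinearMap.mulLeft K a ∘ₗ F 1) (F 1)
  refine ⟨fun i => (e.coord i).compQuadraticMap Q, fun v hv => ?_⟩
  have hQ : Q v = 0 := by
    apply e.ext_elem
    intro i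
    have := hv i
    rw [map_zero]
    exact this
  have hQ' : F 0 v * F 0 v - a * F 1 v * F 1 v = 0 := hQ
  have h1 : F 1 v = 0 := by
    by_contra h1
    apply ha
    refine ⟨F 0 v / F 1 v, ?_⟩
    field_simp
    linear_combination -hQ'
  have h0 : F 0 v = 0 := by
    rw [h1, mul_zero, sub_zero] at hQ'
    exact mul_self_eq_zero.1 hQ'
  have hall : ∀ c j, v (finProdFinEquiv (c, j)) = 0 := by
    intro c j
    have hc : F c v = 0 := by
      fin_cases c
      · exact h0
      · exact h1
    have h2 : e.equivFun.symm (fun j => v (finProdFinEquiv (c, j))) = 0 := hc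
    rw [LinearEquiv.map_eq_zero_iff] at h2
    exact congrFun h2 j
  funext k
  obtain ⟨⟨c, j⟩, rfl⟩ := finProdFinEquiv.surjective k
  exact hall c j

/-- the degree of `K(θ)` for `θ` in `M0` -/
theorem finrank_adjoin_of_good {K0 Ω : Type} [Field K0] [Field Ω] [Algebra K0 Ω] [CharZero K0]
    (M0 : IntermediateField K0 Ω) [FiniteDimensional K0 M0] [Normal K0 M0]
    (K : IntermediateField K0 Ω) (hK : K ⊓ M0 = ⊥) (θ : M0) :
    Module.finrank K K⟮(θ : Ω)⟯ = Module.finrank K0 K0⟮θ⟯ := by
  have hmp := minpoly_of_good M0 K hK (θ : Ω) θ.2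
  have hmp2 : minpoly K0 (θ : Ω) = minpoly K0 θ :=
    minpoly.algebraMap_eq (algebraMap M0 Ω).injective θ
  have hint0 : IsIntegral K0 θ := Algebra.IsIntegral.isIntegral θ
  have hint : IsIntegral K0 (θ : Ω) := hint0.algebraMap
  have hintK : IsIntegral K (θ : Ω) := hint.tower_top
  rw [IntermediateField.adjoin.finrank hintK, ← hmp, Polynomial.natDegree_map, hmp2,
    IntermediateField.adjoin.finrank hint0]

/-- An irreducible quadratic polynomial gives a nonsquare. -/
theorem exists_nonsquare_of_minpoly {L Ω : Type} [Field L] [Field Ω] [Algebra L Ω] [CharZero L]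
    (θ : Ω) (hθ : IsIntegral L θ) (h2 : (minpoly L θ).natDegree = 2) : ∃ a : L, ¬ IsSquare a := by
  by_contra hcon
  push Not at hcon
  have hirr := minpoly.irreducible hθ
  have hdeg : (minpoly L θ).degree = 2 := by
    rw [Polynomial.degree_eq_natDegree hirr.ne_zero, h2]
    rfl
  have hP := Polynomial.eq_quadratic_of_degree_le_two hdeg.le
  have hlead : (minpoly L θ).coeff 2 = 1 := by
    have := minpoly.monic hθ
    rw [Polynomial.Monic, Polynomial.leadingCoeff, h2] at this
    exact this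
  obtain ⟨s, hs⟩ := hcon (discrim ((minpoly L θ).coeff 2) ((minpoly L θ).coeff 1)
    ((minpoly L θ).coeff 0))
  obtain ⟨x, hx⟩ := exists_quadratic_eq_zero (a := (minpoly L θ).coeff 2)
    (b := (minpoly L θ).coeff 1) (c := (minpoly L θ).coeff 0) (by rw [hlead]; exact one_ne_zero)
    ⟨s, hs⟩
  have hroot : (minpoly L θ).IsRoot x := by
    rw [Polynomial.IsRoot, hP]
    simp only [Polynomial.eval_add, Polynomial.eval_mul, Polynomial.eval_C, Polynomial.eval_pow,
      Polynomial.eval_X]
    linear_combination hx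
  have h1 := Polynomial.degree_eq_one_of_irreducible_of_root hirr hroot
  rw [hdeg] at h1
  norm_num at h1

/-- T5c: the lower bound -/
theorem lower {K0 Ω : Type} [Field K0] [Field Ω] [Algebra K0 Ω] [CharZero K0]
    {p : ℕ} (hp : p.Prime) (hp2 : p ≠ 2) (M0 : IntermediateField K0 Ω) [FiniteDimensional K0 M0]
    [IsGalois K0 M0] (hG : GoodGroup p (M0 ≃ₐ[K0] M0)) (K : IntermediateField K0 Ω)
    (hK : K ⊓ M0 = ⊥) : HasAnisoSystem K p (2 * p) := by
  have hp1 := hp.one_lt
  have : Fact (Nat.Prime 2) := ⟨Nat.prime_two⟩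
  have hcard := hG.1
  obtain ⟨W, hW⟩ := Sylow.exists_subgroup_card_pow_prime (G := M0 ≃ₐ[K0] M0) 2 (n := p - 2) (by
    rw [hcard]
    exact Dvd.dvd.mul_left (pow_dvd_pow 2 (by omega)) p)
  obtain ⟨V, hV, hWV⟩ := Sylow.exists_subgroup_card_pow_prime_le (G := M0 ≃ₐ[K0] M0) 2
    (n := p - 2) (m := p - 1) (by
    rw [hcard]
    exact Dvd.intro_left _ rfl) W hW (by omega)
  have hG1 : Nat.card (M0 ≃ₐ[K0] M0) = Module.finrank K0 M0 := IsGalois.card_aut_eq_finrank K0 M0
  have hmul : ∀ H : Subgroup (M0 ≃ₐ[K0] M0),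
      Module.finrank K0 (fixedField H) * Nat.card H = p * 2 ^ (p - 1) := by
    intro H
    rw [← hcard, hG1, ← finrank_fixedField_eq_card H]
    exact Module.finrank_mul_finrank K0 (fixedField H) M0
  have h1 : Module.finrank K0 (fixedField V) = p := by
    have := hmul V
    rw [hV] at this
    exact Nat.eq_of_mul_eq_mul_right (by positivity) this
  have h2 : Module.finrank K0 (fixedField W) = 2 * p := by
    have := hmul W
    rw [hW] at this
    have h3 : (2 : ℕ) ^ (p - 1) = 2 * 2 ^ (p - 2) := by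
      rw [← pow_succ']
      congr 1
      omega
    rw [h3] at this
    refine Nat.eq_of_mul_eq_mul_right (by positivity : 0 < 2 ^ (p - 2)) ?_
    rw [this]
    ring
  have hle : fixedField V ≤ fixedField W := by
    intro z hz g
    exact hz ⟨g.1, hWV g.2⟩
  obtain ⟨θ1, hθ1⟩ := Field.exists_primitive_element K0 (fixedField V)
  obtain ⟨θ2, hθ2⟩ := Field.exists_primitive_element K0 (fixedField W)
  have e1 : K0⟮(θ1 : M0)⟯ = fixedField V := by
    have := congrArg IntermediateField.lift hθ1
    rw [lift_top] at this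
    exact (lift_adjoin_simple K0 (fixedField V) θ1).symm.trans this
  have e2 : K0⟮(θ2 : M0)⟯ = fixedField W := by
    have := congrArg IntermediateField.lift hθ2
    rw [lift_top] at this
    exact (lift_adjoin_simple K0 (fixedField W) θ2).symm.trans this
  have f1 := finrank_adjoin_of_good M0 K hK (θ1 : M0)
  have f2 := finrank_adjoin_of_good M0 K hK (θ2 : M0)
  rw [e1, h1] at f1
  rw [e2, h2] at f2
  have hmem : ((θ1 : M0) : Ω) ∈ K⟮((θ2 : M0) : Ω)⟯ := by
    have h3 : (θ1 : M0) ∈ K0⟮(θ2 : M0)⟯ := by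
      rw [e2]
      exact hle θ1.2
    have h4 : ((θ1 : M0) : Ω) ∈ K0⟮((θ2 : M0) : Ω)⟯ := by
      rw [← lift_adjoin_simple K0 M0 (θ2 : M0), mem_lift]
      exact h3
    have h5 : K0⟮((θ2 : M0) : Ω)⟯ ≤ (K⟮((θ2 : M0) : Ω)⟯).restrictScalars K0 := by
      rw [adjoin_simple_le_iff]
      exact mem_adjoin_simple_self K _
    exact h5 h4
  set L : IntermediateField K Ω := K⟮((θ1 : M0) : Ω)⟯ with hL
  have hLL : L ≤ K⟮((θ2 : M0) : Ω)⟯ := by
    rw [hL, adjoin_simple_le_iff]
    exact hmem
  have hint : IsIntegral L ((θ2 : M0) : Ω) := by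
    have h6 : IsIntegral K0 (θ2 : M0) := Algebra.IsIntegral.isIntegral _
    have h7 : IsIntegral K0 ((θ2 : M0) : Ω) := h6.algebraMap
    exact (h7.tower_top (A := K)).tower_top
  have hdeg : Module.finrank L (extendScalars hLL) = 2 := by
    have h8 := Module.finrank_mul_finrank K L (extendScalars hLL)
    have h9 : Module.finrank K (extendScalars hLL) = 2 * p := f2
    rw [f1, h9, mul_comm] at h8
    exact Nat.eq_of_mul_eq_mul_right hp.pos h8
  have hnat : (minpoly L ((θ2 : M0) : Ω)).natDegree = 2 := by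
    rw [← IntermediateField.adjoin.finrank hint, ← hdeg, extendScalars_adjoin]
  obtain ⟨a, ha⟩ := exists_nonsquare_of_minpoly _ hint hnat
  exact anisoSystem_of_nonsquare f1 hp.ne_zero a ha

end LeepA
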