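import Pool.Agent.H5.Leep.DCore
import Pool.Agent.H5.Leep.Lower

/-!
The D-argument.
-/

namespace LeepA

open MvPolynomial IntermediateField

theorem bad_finrank {K0 Ω : Type} [Field K0] [Field Ω] [Algebra K0 Ω] [CharZero K0]
    {p : ℕ} (hp : p.Prime) (M0 : IntermediateField K0 Ω) [FiniteDimensional K0 M0]
    [IsGalois K0 M0] (hG : GoodGroup p (M0 ≃ₐ[K0] M0)) (K E : IntermediateField K0 Ω)
    (hK : K ⊓ M0 = ⊥) (hKE : K ≤ E) (hpE : ¬ p ∣ relfinrank K E)
    (hE : E ⊓ M0 ≠ ⊥) : Module.finrank K0 ↥(E ⊓ M0) = 2 ^ (p - 1) := by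
  have hNM : E ⊓ M0 ≤ M0 := inf_le_right
  have hdvd := finrank_dvd_relfinrank M0 K E (E ⊓ M0) hK hKE hNM inf_le_left
  set N' : IntermediateField K0 M0 := IntermediateField.restrict hNM with hN'
  have hfrN : Module.finrank K0 N' = Module.finrank K0 ↥(E ⊓ M0) :=
    (IntermediateField.restrictAlgEquiv hNM).toLinearEquiv.finrank_eq.symm
  have hcard : Nat.card N'.fixingSubgroup = Module.finrank N' M0 :=
    IsGalois.card_fixingSubgroup_eq_finrank N'
  have hmul : Module.finrank K0 N' * Module.finrank N' M0 = Module.finrank K0 M0 :=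
    Module.finrank_mul_finrank K0 N' M0
  have hG1 : Nat.card (M0 ≃ₐ[K0] M0) = Module.finrank K0 M0 := IsGalois.card_aut_eq_finrank K0 M0
  rw [← hG1, hG.1, ← hcard] at hmul
  have hpN : ¬ p ∣ Module.finrank K0 N' := by
    rw [hfrN]
    exact fun h => hpE (h.trans hdvd)
  have hpH : p ∣ Nat.card N'.fixingSubgroup := by
    have : p ∣ Module.finrank K0 N' * Nat.card N'.fixingSubgroup := by
      rw [hmul]
      exact Dvd.intro _ rfl
    exact (hp.dvd_mul.1 this).resolve_left hpN
  rcases hG.2 N'.fixingSubgroup hpH with h | h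
  · rw [h, mul_comm] at hmul
    rw [← hfrN]
    exact Nat.eq_of_mul_eq_mul_left hp.pos hmul
  · exfalso
    apply hE
    have h3 : N' = ⊥ := by
      rw [← IsGalois.fixedField_fixingSubgroup N', h]
      exact IsGalois.fixedField_top
    have h4 : IntermediateField.lift N' = E ⊓ M0 := lift_restrict hNM
    rw [← h4, h3]
    exact IntermediateField.lift_bot (F := K0) (E := Ω) M0

/-- The compositum of a good field with `M0` is Galois with the same group. -/
theorem compositum {K0 Ω : Type} [Field K0] [Field Ω] [Algebra K0 Ω] [CharZero K0]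
    (M0 : IntermediateField K0 Ω) [FiniteDimensional K0 M0] [IsGalois K0 M0]
    (K : IntermediateField K0 Ω) (hK : K ⊓ M0 = ⊥) :
    ∃ M : IntermediateField K Ω, (∀ z ∈ M0, z ∈ M) ∧ FiniteDimensional K M ∧ IsGalois K M ∧
      Nonempty ((M0 ≃ₐ[K0] M0) ≃* (M ≃ₐ[K] M)) := by
  obtain ⟨θ, hθ⟩ := Field.exists_primitive_element K0 M0
  have hint0 : IsIntegral K0 θ := Algebra.IsIntegral.isIntegral θ
  have hint : IsIntegral K0 (θ : Ω) := hint0.algebraMap
  have hintK : IsIntegral K (θ : Ω) := hint.tower_top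
  set M : IntermediateField K Ω := K⟮(θ : Ω)⟯ with hM
  have hfr : Module.finrank K M = Module.finrank K0 M0 := by
    rw [hM, finrank_adjoin_of_good M0 K hK θ, hθ, IntermediateField.finrank_top']
  have hfd : FiniteDimensional K M := IntermediateField.adjoin.finiteDimensional hintK
  have hM0 : ∀ z ∈ M0, z ∈ M := by
    intro z hz
    have h1 : K0⟮(θ : Ω)⟯ = M0 := by
      rw [← lift_adjoin_simple K0 M0 θ, hθ, lift_top]
    have h2 : K0⟮(θ : Ω)⟯ ≤ M.restrictScalars K0 := by
      rw [adjoin_simple_le_iff]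
      exact mem_adjoin_simple_self K _
    have h3 : z ∈ M.restrictScalars K0 := h2 (by rw [h1]; exact hz)
    exact h3
  let j : M0 →+* M :=
    { toFun := fun z => ⟨z, hM0 z z.2⟩
      map_one' := rfl
      map_mul' := fun _ _ => rfl
      map_zero' := rfl
      map_add' := fun _ _ => rfl }
  letI : Algebra M0 M := j.toAlgebra
  haveI : IsScalarTower K0 M0 M := IsScalarTower.of_algebraMap_eq fun _ => rfl
  let θM : M := ⟨(θ : Ω), mem_adjoin_simple_self K _⟩
  have hgen : K⟮θM⟯ = ⊤ := by
    apply lift_injective M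
    rw [lift_adjoin_simple, lift_top]
  have hmp : (minpoly K0 (θ : Ω)).map (algebraMap K0 K) = minpoly K (θ : Ω) :=
    minpoly_of_good M0 K hK (θ : Ω) θ.2
  have hgal : IsGalois K M := by
    have hsep : (minpoly K (θ : Ω)).Separable := (minpoly.irreducible hintK).separable
    have hspl : Polynomial.IsSplittingField K M (minpoly K (θ : Ω)) := by
      rw [isSplittingField_iff_intermediateField]
      constructor
      · rw [← hmp, Polynomial.map_map]
        have h1 : ((minpoly K0 θ).map (algebraMap K0 M0)).Splits :=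
          Normal.splits inferInstance _
        have h2 := h1.map (algebraMap M0 M)
        rw [Polynomial.map_map] at h2
        have h3 : minpoly K0 (θ : Ω) = minpoly K0 θ :=
          minpoly.algebraMap_eq (algebraMap M0 Ω).injective θ
        rw [h3]
        exact h2
      · rw [eq_top_iff, ← hgen, adjoin_simple_le_iff]
        apply subset_adjoin
        rw [Polynomial.mem_rootSet]
        refine ⟨minpoly.ne_zero hintK, ?_⟩
        have h1 : minpoly K (θ : Ω) = minpoly K θM :=
          minpoly.algebraMap_eq (algebraMap M Ω).injective θM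
        rw [h1]
        exact minpoly.aeval _ _
    exact IsGalois.of_separable_splitting_field (p := minpoly K (θ : Ω)) hsep
  refine ⟨M, hM0, hfd, hgal, ?_⟩
  let f : (M ≃ₐ[K] M) →* (M0 ≃ₐ[K0] M0) :=
    (AlgEquiv.restrictNormalHom (F := K0) (K₁ := M) M0).comp
      { toFun := fun σ => σ.restrictScalars K0
        map_one' := rfl
        map_mul' := fun _ _ => rfl }
  have hf : ∀ σ z, algebraMap M0 M (f σ z) = σ (algebraMap M0 M z) := by
    intro σ z
    exact AlgEquiv.restrictNormal_commutes _ _ _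
  have hinj : Function.Injective f := by
    intro σ τ h
    let E' : IntermediateField K M := (AlgHom.equalizer (σ : M →ₐ[K] M)
      (τ : M →ₐ[K] M)).toIntermediateField (by
      intro z hz
      rw [AlgHom.mem_equalizer] at hz ⊢
      rw [map_inv₀, map_inv₀, hz])
    have h1 : θM ∈ E' := by
      have h2 := hf σ θ
      have h3 := hf τ θ
      rw [h] at h2
      exact h2.symm.trans h3
    have h2 : E' = ⊤ := by
      rw [eq_top_iff, ← hgen, adjoin_simple_le_iff]
      exact h1
    ext z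
    have h3 : z ∈ E' := by
      rw [h2]
      exact mem_top
    exact congrArg Subtype.val (h3 : σ z = τ z)
  have hcard : Nat.card (M ≃ₐ[K] M) = Nat.card (M0 ≃ₐ[K0] M0) := by
    rw [IsGalois.card_aut_eq_finrank, IsGalois.card_aut_eq_finrank, hfr]
  have hbij : Function.Bijective f := (Nat.bijective_iff_injective_and_card f).2 ⟨hinj, hcard⟩
  exact ⟨(MulEquiv.ofBijective f hbij).symm⟩

/-- T3 -/
theorem D_arg {K0 Ω : Type} [Field K0] [Field Ω] [Algebra K0 Ω] [CharZero K0] [IsAlgClosed Ω]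
    {p : ℕ} (hp : p.Prime) (hp2 : p ≠ 2) (M0 : IntermediateField K0 Ω) [FiniteDimensional K0 M0]
    [IsGalois K0 M0] (hG : GoodGroup p (M0 ≃ₐ[K0] M0)) (K : IntermediateField K0 Ω)
    (hK : K ⊓ M0 = ⊥) {n : ℕ} (x : Fin n → Ω) (l : Fin 2 → MvPolynomial (Fin n) K)
    (st : Stage x l (2 ^ (p - 1))) (fr : FR x l (p - 1))
    (hbad : (adjoin K (Set.range x)).restrictScalars K0 ⊓ M0 ≠ ⊥) :
    ∃ a : Fin n → K, a ≠ 0 ∧ ∀ f : MvPolynomial (Fin n) K, aeval x f = 0 → eval a f = 0 := by
  have hcharK : CharZero K := charZero_of_injective_algebraMap (algebraMap K0 K).injective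
  obtain ⟨M, hM0, hfd, hgal, ⟨e⟩⟩ := compositum M0 K hK
  have hGM := hG.of_mulEquiv e
  set y : Fin 2 → Ω := fun j => aeval x (l j) with hy
  set Ky : IntermediateField K0 Ω := (adjoin K (Set.range y)).restrictScalars K0 with hKy
  set Kx : IntermediateField K0 Ω := (adjoin K (Set.range x)).restrictScalars K0 with hKx
  have hgood : Ky ⊓ M0 = ⊥ := good_adjoin M0 K hK y st.indep
  have hrel : relfinrank Ky Kx = 2 ^ (p - 1) := st.deg
  have hyx : ∀ j, y j ∈ adjoin K (Set.range x) := by
    intro j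
    apply algebra_adjoin_le_adjoin
    rw [Algebra.adjoin_range_eq_range_aeval]
    exact ⟨l j, rfl⟩
  have hle0 : adjoin K (Set.range y) ≤ adjoin K (Set.range x) := by
    rw [adjoin_le_iff]
    rintro _ ⟨j, rfl⟩
    exact hyx j
  have hle : Ky ≤ Kx := hle0
  have hpE : ¬ p ∣ relfinrank Ky Kx := by
    rw [hrel]
    intro h
    exact hp2 ((Nat.prime_dvd_prime_iff_eq hp Nat.prime_two).1 (hp.dvd_of_dvd_pow h))
  have hN0 : Module.finrank K0 ↥(Kx ⊓ M0) = 2 ^ (p - 1) :=
    bad_finrank hp M0 hG Ky Kx hgood hle hpE hbad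
  -- a primitive element of `N0`
  have hNM : Kx ⊓ M0 ≤ M0 := inf_le_right
  have hfdN : FiniteDimensional K0 ↥(Kx ⊓ M0) :=
    FiniteDimensional.of_injective (IntermediateField.inclusion hNM).toLinearMap
      (IntermediateField.inclusion hNM).injective
  obtain ⟨θ1, hθ1⟩ := Field.exists_primitive_element K0 ↥(Kx ⊓ M0)
  have hθM0 : (θ1 : Ω) ∈ M0 := hNM θ1.2
  have hθx : (θ1 : Ω) ∈ adjoin K (Set.range x) := (inf_le_left : Kx ⊓ M0 ≤ Kx) θ1.2
  have hθ1' : K0⟮(θ1 : Ω)⟯ = Kx ⊓ M0 := by
    rw [← lift_adjoin_simple K0 (Kx ⊓ M0) θ1, hθ1, lift_top]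
  let θ : M0 := ⟨(θ1 : Ω), hθM0⟩
  have hfθ : Module.finrank K0 K0⟮θ⟯ = 2 ^ (p - 1) := by
    have h1 : Module.finrank K0 K0⟮θ⟯ = Module.finrank K0 (IntermediateField.lift K0⟮θ⟯) :=
      (IntermediateField.liftAlgEquiv K0⟮θ⟯).toLinearEquiv.finrank_eq
    rw [h1, lift_adjoin_simple]
    change Module.finrank K0 K0⟮(θ1 : Ω)⟯ = _
    rw [hθ1', hN0]
  set N : IntermediateField K Ω := K⟮(θ1 : Ω)⟯ with hN
  have hfN : Module.finrank K N = 2 ^ (p - 1) := by
    have := finrank_adjoin_of_good M0 K hK θ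
    rw [hfθ] at this
    exact this
  have hNleM : N ≤ M := by
    rw [hN, adjoin_simple_le_iff]
    exact hM0 _ hθM0
  have hNx : N ≤ adjoin K (Set.range x) := by
    rw [hN, adjoin_simple_le_iff]
    exact hθx
  -- `K(x) = N(y)`
  have hx : ∀ i, x i ∈ adjoin N (Set.range y) := by
    set L : IntermediateField K0 Ω :=
      ((adjoin N (Set.range y)).restrictScalars K).restrictScalars K0 with hL
    have hyL : Ky ≤ L := by
      have : adjoin K (Set.range y) ≤ (adjoin N (Set.range y)).restrictScalars K := by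
        rw [adjoin_le_iff]
        rintro _ ⟨j, rfl⟩
        exact subset_adjoin N (Set.range y) ⟨j, rfl⟩
      exact this
    have hLx : L ≤ Kx := by
      intro z hz
      have hz' : z ∈ adjoin N (Set.range y) := hz
      have h1 : adjoin N (Set.range y) ≤ extendScalars hNx := by
        rw [adjoin_le_iff]
        rintro _ ⟨j, rfl⟩
        exact hyx j
      exact h1 hz'
    have hN0L : Kx ⊓ M0 ≤ L := by
      rw [← hθ1', adjoin_simple_le_iff]
      exact (adjoin N (Set.range y)).algebraMap_mem ⟨(θ1 : Ω), mem_adjoin_simple_self K _⟩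
    have hdvd := finrank_dvd_relfinrank M0 Ky L (Kx ⊓ M0) hgood hyL hNM hN0L
    rw [hN0] at hdvd
    have hmul := relfinrank_mul_relfinrank hyL hLx
    rw [hrel] at hmul
    have hone : relfinrank L Kx = 1 := by
      obtain ⟨c, hc⟩ := hdvd
      rw [hc, mul_assoc] at hmul
      have h2 : c * relfinrank L Kx = 1 :=
        Nat.eq_of_mul_eq_mul_left (by positivity : 0 < 2 ^ (p - 1)) (by rw [hmul, mul_one])
      exact Nat.eq_one_of_mul_eq_one_left h2
    have hKxL : Kx ≤ L := relfinrank_eq_one_iff.1 hone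
    intro i
    exact hKxL (subset_adjoin K (Set.range x) ⟨i, rfl⟩ : x i ∈ adjoin K (Set.range x))
  exact D_core hp hp2 M hGM N hNleM hfN x l st fr hx hNx

end LeepA
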