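import Pool.Agent.H5.Leep.Defs

/-!
Group theoretic part of the D-argument.
-/

namespace LeepA

open MulAction

theorem GoodGroup.of_mulEquiv {p : ℕ} {G G' : Type*} [Group G] [Group G'] (e : G ≃* G')
    (h : GoodGroup p G) : GoodGroup p G' := by
  refine ⟨?_, fun H hH => ?_⟩
  · rw [← h.1]
    exact (Nat.card_congr e.toEquiv).symm
  · have h1 : (H.comap e.toMonoidHom).map e.toMonoidHom = H :=
      Subgroup.map_comap_eq_self_of_surjective e.surjective H
    have h2 : Nat.card (H.comap e.toMonoidHom) = Nat.card H := by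
      conv_rhs => rw [← h1]
      exact (Subgroup.card_map_of_injective e.injective).symm
    rcases h.2 (H.comap e.toMonoidHom) (by rwa [h2]) with h3 | h3
    · left
      rw [← h2, h3]
    · right
      rw [← h1, h3]
      exact Subgroup.map_top_of_surjective _ e.surjective

section
variable {p : ℕ} {G : Type*} [Group G] [Finite G] {E : Type*} [MulAction G E]
  [IsPretransitive G E] [Finite E]

theorem card_stabilizer_of_good (hG : GoodGroup p G) (hE : Nat.card E = 2 ^ (p - 1)) (φ : E) :
    Nat.card (stabilizer G φ) = p := by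
  have h1 : (stabilizer G φ).index = 2 ^ (p - 1) := by
    rw [index_stabilizer_of_transitive, hE]
  have h2 := (stabilizer G φ).card_mul_index
  rw [h1, hG.1] at h2
  exact Nat.eq_of_mul_eq_mul_right (by positivity) h2

theorem not_normal_of_good (hp : p.Prime) (hp2 : p ≠ 2) (hG : GoodGroup p G) (T : Subgroup G)
    (hT : Nat.card T = p) : ¬ T.Normal := by
  intro hN
  have : Fact (Nat.Prime 2) := ⟨Nat.prime_two⟩
  have hp3 : 3 ≤ p := by
    have := hp.two_le
    omega
  have hq : Nat.card (G ⧸ T) = 2 ^ (p - 1) := by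
    have h2 := T.card_eq_card_quotient_mul_card_subgroup
    rw [hG.1, hT, mul_comm] at h2
    exact (Nat.eq_of_mul_eq_mul_right hp.pos h2).symm
  obtain ⟨S, hS⟩ := Sylow.exists_subgroup_card_pow_prime (G := G ⧸ T) 2 (n := 1) (by
    rw [hq]
    exact pow_dvd_pow 2 (by omega))
  set S' := S.comap (QuotientGroup.mk' T) with hS'
  have hidx : S'.index = S.index := by
    rw [hS', Subgroup.index_comap_of_surjective _ (QuotientGroup.mk'_surjective T)]
  have h3 := S.card_mul_index
  have h4 := S'.card_mul_index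
  rw [hS, hq] at h3
  rw [hidx, hG.1] at h4
  have h5 : (2 : ℕ) ^ (p - 1) = 2 ^ 1 * 2 ^ (p - 2) := by
    rw [← pow_add]
    congr 1
    omega
  have h6 : S.index = 2 ^ (p - 2) := by
    rw [h5] at h3
    exact Nat.eq_of_mul_eq_mul_left (by norm_num) h3
  rw [h6, h5] at h4
  have h7 : Nat.card S' = 2 * p := by
    refine Nat.eq_of_mul_eq_mul_right (by positivity : 0 < 2 ^ (p - 2)) ?_
    rw [h4]
    ring
  rcases hG.2 S' (by rw [h7]; exact Dvd.intro_left _ rfl) with h | h
  · rw [h7] at h
    have := hp.pos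
    omega
  · rw [h, Subgroup.card_top, hG.1, h5] at h7
    have h8 : (2 : ℕ) ^ (p - 2) = 1 := by
      refine Nat.eq_of_mul_eq_mul_left (by have := hp.pos; positivity : 0 < 2 * p) ?_
      rw [mul_one]
      linarith
    have h9 : 2 ≤ 2 ^ (p - 2) := by
      calc 2 = 2 ^ 1 := by norm_num
        _ ≤ 2 ^ (p - 2) := Nat.pow_le_pow_right (by norm_num) (by omega)
    omega

theorem stabilizer_inj_of_good (hp : p.Prime) (hp2 : p ≠ 2) (hG : GoodGroup p G)
    (hE : Nat.card E = 2 ^ (p - 1)) (φ ψ : E) (h : stabilizer G φ = stabilizer G ψ) : φ = ψ := by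
  obtain ⟨g, rfl⟩ := exists_smul_eq G φ ψ
  have hc := card_stabilizer_of_good hG hE φ
  set T := stabilizer G φ with hT
  have hg : g ∈ Subgroup.normalizer (T : Set G) := by
    rw [Subgroup.mem_normalizer_iff_map_conj_eq]
    have h1 : stabilizer G (g • φ) = T.map (MulAut.conj g).toMonoidHom :=
      stabilizer_smul_eq_stabilizer_map_conj g φ
    rw [← h] at h1
    exact h1.symm
  have hle : T ≤ Subgroup.normalizer (T : Set G) := Subgroup.le_normalizer
  rcases hG.2 (Subgroup.normalizer (T : Set G)) (by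
      have := Subgroup.card_dvd_of_le hle
      rwa [hc] at this) with h1 | h1
  · have h2 : T = Subgroup.normalizer (T : Set G) :=
      Subgroup.eq_of_le_of_card_ge hle (by rw [h1, hc])
    rw [← h2] at hg
    exact (mem_stabilizer_iff.1 hg).symm
  · exact absurd (Subgroup.normalizer_eq_top_iff.1 h1) (not_normal_of_good hp hp2 hG T hc)

theorem collision_count (hp : p.Prime) (hp2 : p ≠ 2) (hG : GoodGroup p G)
    (hE : Nat.card E = 2 ^ (p - 1)) (T : Subgroup G) (hT : T ≠ ⊤) (r : E → E → Prop)
    (hsymm : ∀ φ ψ, r φ ψ → r ψ φ)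
    (hr : ∀ g ∈ T, ∀ φ ψ, r φ ψ → r (g • φ) (g • ψ)) (φ ψ : E) (hne : φ ≠ ψ) (hφψ : r φ ψ) :
    Nat.card T ≤ Nat.card {φ : E // ∃ ψ, ψ ≠ φ ∧ r φ ψ} := by
  -- the basic injection
  have key : ∀ a b : E, a ≠ b → r a b → (∀ g ∈ T, g • a = a → g = 1) →
      Nat.card T ≤ Nat.card {φ : E // ∃ ψ, ψ ≠ φ ∧ r φ ψ} := by
    intro a b hab hrab hfree
    refine Nat.card_le_card_of_injective
      (fun g : T => (⟨g.1 • a, g.1 • b, fun h => hab (smul_left_cancel g.1 h).symm,
        hr g.1 g.2 a b hrab⟩ : {φ : E // ∃ ψ, ψ ≠ φ ∧ r φ ψ})) ?_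
    intro g g' hgg
    have h1 : g.1 • a = g'.1 • a := congrArg Subtype.val hgg
    have h2 : (g'.1⁻¹ * g.1) • a = a := by
      rw [mul_smul, h1, inv_smul_smul]
    have h3 := hfree _ (T.mul_mem (T.inv_mem g'.2) g.2) h2
    exact Subtype.ext (inv_mul_eq_one.1 h3).symm
  by_cases h1 : ∀ g ∈ T, g • φ = φ → g = 1
  · exact key φ ψ hne hφψ h1
  by_cases h2 : ∀ g ∈ T, g • ψ = ψ → g = 1
  · exact key ψ φ hne.symm (hsymm _ _ hφψ) h2
  exfalso
  -- an element of order `p` in `T` fixing a point: `T` is the stabilizer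
  have key2 : ∀ a : E, (¬ ∀ g ∈ T, g • a = a → g = 1) → T = stabilizer G a := by
    intro a ha
    push Not at ha
    obtain ⟨g, hgT, hga, hg1⟩ := ha
    have hc := card_stabilizer_of_good hG hE a
    have hinf : T ⊓ stabilizer G a = stabilizer G a := by
      apply Subgroup.eq_of_le_of_card_ge inf_le_right
      have hd : Nat.card ↥(T ⊓ stabilizer G a) ∣ p := by
        rw [← hc]
        exact Subgroup.card_dvd_of_le inf_le_right
      rcases (Nat.dvd_prime hp).1 hd with h | h
      · exfalso
        have := Subgroup.card_eq_one.1 h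
        have hm : g ∈ T ⊓ stabilizer G a := ⟨hgT, hga⟩
        rw [this, Subgroup.mem_bot] at hm
        exact hg1 hm
      · rw [h, hc]
    have hle : stabilizer G a ≤ T := by
      rw [← hinf]
      exact inf_le_left
    rcases hG.2 T (by
      have := Subgroup.card_dvd_of_le hle
      rwa [hc] at this) with h | h
    · exact (Subgroup.eq_of_le_of_card_ge hle (by rw [h, hc])).symm
    · exact absurd h hT
  have h3 := key2 φ h1
  have h4 := key2 ψ h2
  exact hne (stabilizer_inj_of_good hp hp2 hG hE φ ψ (h3.symm.trans h4))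

theorem collision_all (hG : GoodGroup p G)
    (hE : Nat.card E = 2 ^ (p - 1)) (r : E → E → Prop) (hequiv : Equivalence r)
    (hr : ∀ (g : G) (φ ψ : E), r φ ψ → r (g • φ) (g • ψ)) (φ ψ : E) (hne : φ ≠ ψ)
    (hφψ : r φ ψ) (a b : E) : r a b := by
  let B : Subgroup G :=
    { carrier := {g | r (g • φ) φ}
      one_mem' := by
        change r ((1 : G) • φ) φ
        rw [one_smul]
        exact hequiv.refl φ
      mul_mem' := by
        intro g k hg hk
        change r ((g * k) • φ) φ
        rw [mul_smul]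
        exact hequiv.trans (hr g _ _ hk) hg
      inv_mem' := by
        intro g hg
        change r (g⁻¹ • φ) φ
        have := hr g⁻¹ _ _ hg
        rw [inv_smul_smul] at this
        exact hequiv.symm this }
  have hstab : stabilizer G φ ≤ B := by
    intro g hg
    change r (g • φ) φ
    rw [mem_stabilizer_iff.1 hg]
    exact hequiv.refl φ
  have hc := card_stabilizer_of_good hG hE φ
  have hB : B = ⊤ := by
    rcases hG.2 B (by
      have := Subgroup.card_dvd_of_le hstab
      rwa [hc] at this) with h | h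
    · exfalso
      have h1 : stabilizer G φ = B := Subgroup.eq_of_le_of_card_ge hstab (by rw [h, hc])
      obtain ⟨g, hg⟩ := exists_smul_eq G φ ψ
      have h2 : g ∈ B := by
        change r (g • φ) φ
        rw [hg]
        exact hequiv.symm hφψ
      rw [← h1, mem_stabilizer_iff, hg] at h2
      exact hne h2.symm
    · exact h
  have hall : ∀ c : E, r c φ := by
    intro c
    obtain ⟨g, rfl⟩ := exists_smul_eq G φ c
    have : g ∈ B := by
      rw [hB]
      exact Subgroup.mem_top g
    exact this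
  exact hequiv.trans (hall a) (hequiv.symm (hall b))

end

end LeepA
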