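import Mathlib

/-!
Linear algebra part of the D-argument.
-/

namespace LeepA

open Polynomial

/-- Rows which agree at `t` give zeros of the determinant at `t`. -/
theorem det_dvd_of_collisions {F : Type*} [Field F] {E : Type*} [Fintype E] [DecidableEq E]
    (B : Matrix E E F[X]) (t : F) (rep : E → E) (hrep : ∀ φ, rep (rep φ) = rep φ)
    (hrow : ∀ φ i, (B φ i).eval t = (B (rep φ) i).eval t) :
    (X - C t) ^ (Finset.univ.filter (fun φ => rep φ ≠ φ)).card ∣ B.det := by
  have hQ : ∀ φ i, ∃ q : F[X], B φ i - B (rep φ) i = (X - C t) * q := by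
    intro φ i
    have : (B φ i - B (rep φ) i).IsRoot t := by
      rw [IsRoot, eval_sub, hrow φ i, sub_self]
    exact dvd_iff_isRoot.2 this
  choose Q hQ using hQ
  let v : E → F[X] := fun φ => if rep φ ≠ φ then X - C t else 1
  let B' : Matrix E E F[X] := fun φ i => if rep φ ≠ φ then Q φ i else B φ i
  let N : Matrix E E F[X] := fun φ ψ => if rep φ ≠ φ ∧ ψ = rep φ then 1 else 0
  have hNN : N * N = 0 := by
    ext1 φ χ
    rw [Matrix.mul_apply, Matrix.zero_apply]
    refine Finset.sum_eq_zero fun ψ _ => ?_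
    by_cases h : rep φ ≠ φ ∧ ψ = rep φ
    · have h2 : N ψ χ = 0 := by
        change (if rep ψ ≠ ψ ∧ χ = rep ψ then (1 : F[X]) else 0) = 0
        rw [if_neg]
        rintro ⟨h3, -⟩
        rw [h.2] at h3
        exact h3 (hrep φ)
      rw [h2, mul_zero]
    · have h2 : N φ ψ = 0 := if_neg h
      rw [h2, zero_mul]
  have hunit : (1 + N) * (1 - N) = 1 := by
    rw [add_mul, one_mul, mul_sub, mul_one, hNN, sub_zero]
    abel
  have hRB : (1 - N) * B = Matrix.of fun φ i => v φ * B' φ i := by
    ext1 φ i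
    rw [sub_mul, one_mul, Matrix.sub_apply, Matrix.mul_apply, Matrix.of_apply]
    by_cases h : rep φ ≠ φ
    · have h1 : ∑ ψ, N φ ψ * B ψ i = B (rep φ) i := by
        rw [Finset.sum_eq_single (rep φ)]
        · have : N φ (rep φ) = 1 := if_pos ⟨h, rfl⟩
          rw [this, one_mul]
        · intro ψ _ hψ
          have : N φ ψ = 0 := if_neg fun h3 => hψ h3.2
          rw [this, zero_mul]
        · intro h3
          exact absurd (Finset.mem_univ _) h3
      have h2 : v φ = X - C t := if_pos h
      have h3 : B' φ i = Q φ i := if_pos h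
      rw [h1, h2, h3, hQ]
    · have h1 : ∑ ψ, N φ ψ * B ψ i = 0 := by
        refine Finset.sum_eq_zero fun ψ _ => ?_
        have : N φ ψ = 0 := if_neg fun h3 => h h3.1
        rw [this, zero_mul]
      have h2 : v φ = 1 := if_neg h
      have h3 : B' φ i = B φ i := if_neg h
      rw [h1, h2, h3, sub_zero, one_mul]
  have hprod : ∏ φ, v φ = (X - C t) ^ (Finset.univ.filter (fun φ => rep φ ≠ φ)).card := by
    rw [Finset.prod_ite, Finset.prod_const_one, mul_one, Finset.prod_const]
  have hdet : B.det = (X - C t) ^ (Finset.univ.filter (fun φ => rep φ ≠ φ)).card *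
      ((1 + N).det * B'.det) := by
    calc B.det = ((1 + N) * (1 - N) * B).det := by rw [hunit, one_mul]
      _ = (1 + N).det * ((1 - N) * B).det := by rw [mul_assoc, Matrix.det_mul]
      _ = (1 + N).det * ((∏ φ, v φ) * B'.det) := by rw [hRB, Matrix.det_mul_column]
      _ = _ := by rw [hprod]; ring
  rw [hdet]
  exact Dvd.intro _ rfl

/-- Half of the elements of nontrivial classes are not representatives. -/
theorem card_nontrivial_le {E : Type*} [Fintype E] [DecidableEq E] (r : E → E → Prop)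
    (rep : E → E) (h2 : ∀ φ ψ, r φ ψ → rep φ = rep ψ) :
    Nat.card {φ : E // ∃ ψ, ψ ≠ φ ∧ r φ ψ} ≤
      2 * (Finset.univ.filter (fun φ => rep φ ≠ φ)).card := by
  classical
  have e1 : Nat.card {φ : E // ∃ ψ, ψ ≠ φ ∧ r φ ψ} =
      (Finset.univ.filter (fun φ => ∃ ψ, ψ ≠ φ ∧ r φ ψ)).card := by
    rw [Nat.card_eq_fintype_card, Fintype.card_subtype]
  rw [e1]
  set S := Finset.univ.filter (fun φ : E => ∃ ψ, ψ ≠ φ ∧ r φ ψ) with hS
  set T := Finset.univ.filter (fun φ : E => rep φ ≠ φ) with hT
  have h3 : S.card = (S.filter (fun φ => rep φ ≠ φ)).card +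
      (S.filter (fun φ => ¬ rep φ ≠ φ)).card :=
    (Finset.card_filter_add_card_filter_not _).symm
  have h4 : (S.filter (fun φ => rep φ ≠ φ)).card ≤ T.card := by
    apply Finset.card_le_card
    intro φ hφ
    rw [hT, Finset.mem_filter]
    exact ⟨Finset.mem_univ _, (Finset.mem_filter.1 hφ).2⟩
  have h5 : (S.filter (fun φ => ¬ rep φ ≠ φ)).card ≤ T.card := by
    have hch : ∀ φ : E, ∃ ψ : E, φ ∈ S.filter (fun φ => ¬ rep φ ≠ φ) → ψ ≠ φ ∧ r φ ψ := by
      intro φ
      by_cases h : φ ∈ S.filter (fun φ => ¬ rep φ ≠ φ)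
      · obtain ⟨ψ, hψ⟩ := (Finset.mem_filter.1 (Finset.mem_filter.1 h).1).2
        exact ⟨ψ, fun _ => hψ⟩
      · exact ⟨φ, fun h' => absurd h' h⟩
    choose f hf using hch
    have hrep : ∀ φ ∈ S.filter (fun φ => ¬ rep φ ≠ φ), rep (f φ) = φ := by
      intro φ hφ
      have h6 := hf φ hφ
      have h7 : rep φ = φ := not_not.1 (Finset.mem_filter.1 hφ).2
      rw [← h2 φ (f φ) h6.2, h7]
    refine Finset.card_le_card_of_injOn f ?_ ?_
    · intro φ hφ
      have hφ' := Finset.mem_coe.1 hφ
      rw [Finset.mem_coe, hT, Finset.mem_filter]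
      refine ⟨Finset.mem_univ _, ?_⟩
      rw [hrep φ hφ']
      exact (hf φ hφ').1.symm
    · intro φ hφ ψ hψ hfe
      have h8 := hrep φ (Finset.mem_coe.1 hφ)
      have h9 := hrep ψ (Finset.mem_coe.1 hψ)
      rw [← h8, ← h9, hfe]
  omega

/-- binomially distributed degrees -/
theorem sum_deg {c : ℕ} {ι : Type*} [Fintype ι] (d : ι → ℕ)
    (h : ∀ e, Nat.card {i // d i = e} = c.choose e) :
    Fintype.card ι = 2 ^ c ∧ 2 * ∑ i, d i = c * 2 ^ c := by
  classical
  have hle : ∀ i ∈ (Finset.univ : Finset ι), d i ∈ Finset.range (c + 1) := by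
    intro i _
    rw [Finset.mem_range]
    by_contra hcon
    have h1 := h (d i)
    rw [Nat.choose_eq_zero_of_lt (by omega)] at h1
    have h2 : Nonempty {j // d j = d i} := ⟨⟨i, rfl⟩⟩
    rw [Nat.card_eq_zero] at h1
    rcases h1 with h1 | h1
    · exact not_isEmpty_of_nonempty _ h1
    · exact not_finite {j // d j = d i}
  have hfib : ∀ e, (Finset.univ.filter (fun i => d i = e)).card = c.choose e := by
    intro e
    rw [← h e, Nat.card_eq_fintype_card, Fintype.card_subtype]
  constructor
  · rw [← Nat.sum_range_choose, ← Finset.card_univ, Finset.card_eq_sum_card_fiberwise hle]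
    exact Finset.sum_congr rfl fun e _ => hfib e
  · have h1 : ∑ i, d i = ∑ e ∈ Finset.range (c + 1), e * c.choose e := by
      rw [← Finset.sum_fiberwise_of_maps_to hle]
      refine Finset.sum_congr rfl fun e _ => ?_
      rw [Finset.sum_congr rfl (g := fun _ => e) (fun i hi => (Finset.mem_filter.1 hi).2),
        Finset.sum_const, hfib e, smul_eq_mul, mul_comm]
    have h2 : ∑ e ∈ Finset.range (c + 1), e * c.choose e =
        ∑ e ∈ Finset.range (c + 1), (c - e) * c.choose e := by
      rw [← Finset.sum_range_reflect]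
      refine Finset.sum_congr rfl fun e he => ?_
      have he' : e ≤ c := Nat.lt_succ_iff.1 (Finset.mem_range.1 he)
      have h3 : c + 1 - 1 - e = c - e := by omega
      rw [h3, Nat.choose_symm he']
    have h3 : (∑ e ∈ Finset.range (c + 1), e * c.choose e) +
        ∑ e ∈ Finset.range (c + 1), (c - e) * c.choose e = c * 2 ^ c := by
      rw [← Finset.sum_add_distrib, ← Nat.sum_range_choose, Finset.mul_sum]
      refine Finset.sum_congr rfl fun e he => ?_
      have he' : e ≤ c := Nat.lt_succ_iff.1 (Finset.mem_range.1 he)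
      rw [← add_mul]
      congr 1
      omega
    rw [h1]
    omega

/-- If the values of polynomials at finitely many distinct points satisfy a linear relation, the
relation is trivial. -/
theorem eq_zero_of_relation {F : Type*} [Field F] {n : ℕ} {E : Type*} [Fintype E]
    (z : E → Fin n → F) (hz : Function.Injective z) (v : E → F)
    (hv : ∀ m : Fin n →₀ ℕ, ∑ φ, v φ * MvPolynomial.eval (z φ) (MvPolynomial.monomial m 1) = 0) :
    v = 0 := by
  classical
  have hlin : ∀ f : MvPolynomial (Fin n) F, ∑ φ, v φ * MvPolynomial.eval (z φ) f = 0 := by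
    intro f
    induction f using MvPolynomial.induction_on' with
    | monomial m a =>
      have h1 : MvPolynomial.monomial m a = MvPolynomial.C a * MvPolynomial.monomial m (1 : F) := by
        rw [MvPolynomial.C_mul_monomial, mul_one]
      rw [h1]
      have h2 : ∑ φ, v φ * MvPolynomial.eval (z φ)
          (MvPolynomial.C a * MvPolynomial.monomial m (1 : F)) =
          a * ∑ φ, v φ * MvPolynomial.eval (z φ) (MvPolynomial.monomial m 1) := by
        rw [Finset.mul_sum]
        refine Finset.sum_congr rfl fun φ _ => ?_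
        rw [map_mul, MvPolynomial.eval_C]
        ring
      rw [h2, hv m, mul_zero]
    | add p q hp hq =>
      have h2 : ∑ φ, v φ * MvPolynomial.eval (z φ) (p + q) =
          ∑ φ, v φ * MvPolynomial.eval (z φ) p + ∑ φ, v φ * MvPolynomial.eval (z φ) q := by
        rw [← Finset.sum_add_distrib]
        refine Finset.sum_congr rfl fun φ _ => ?_
        rw [map_add]
        ring
      rw [h2, hp, hq, add_zero]
  funext φ0
  have hsep : ∀ φ : {φ : E // φ ≠ φ0}, ∃ i : Fin n, z φ.1 i ≠ z φ0 i := by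
    intro φ
    have : z φ.1 ≠ z φ0 := fun h' => φ.2 (hz h')
    exact Function.ne_iff.1 this
  choose i hi using hsep
  let f : MvPolynomial (Fin n) F :=
    ∏ φ : {φ : E // φ ≠ φ0}, (MvPolynomial.X (i φ) - MvPolynomial.C (z φ.1 (i φ)))
  have hf : ∀ ψ, MvPolynomial.eval (z ψ) f =
      ∏ φ : {φ : E // φ ≠ φ0}, (z ψ (i φ) - z φ.1 (i φ)) := by
    intro ψ
    simp only [f, map_prod, map_sub, MvPolynomial.eval_X, MvPolynomial.eval_C]
  have hf0 : MvPolynomial.eval (z φ0) f ≠ 0 := by
    rw [hf, Finset.prod_ne_zero_iff]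
    intro φ _
    exact sub_ne_zero.2 (hi φ).symm
  have hf1 : ∀ ψ, ψ ≠ φ0 → MvPolynomial.eval (z ψ) f = 0 := by
    intro ψ hψ
    rw [hf]
    exact Finset.prod_eq_zero (Finset.mem_univ (⟨ψ, hψ⟩ : {φ : E // φ ≠ φ0})) (sub_self _)
  have h1 := hlin f
  rw [Finset.sum_eq_single φ0 (fun ψ _ hψ => by rw [hf1 ψ hψ, mul_zero])
    (fun h => absurd (Finset.mem_univ _) h)] at h1
  exact (mul_eq_zero.1 h1).resolve_right hf0

/-- The number of roots with multiplicities. -/
theorem sum_le_natDegree {F : Type*} [Field F] (P : F[X]) (hP : P ≠ 0) (O : Finset F) (c : ℕ)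
    (h : ∀ t ∈ O, (X - C t) ^ c ∣ P) : O.card * c ≤ P.natDegree := by
  have h1 : (∏ t ∈ O, (X - C t) ^ c) ∣ P := by
    refine Finset.prod_dvd_of_coprime ?_ h
    intro a _ b _ hab
    exact (pairwise_coprime_X_sub_C Function.injective_id hab).pow
  have h2 := natDegree_le_of_dvd h1 hP
  have h3 : (∏ t ∈ O, (X - C t) ^ c).natDegree = O.card * c := by
    rw [natDegree_prod_of_monic _ _ fun t _ => (monic_X_sub_C t).pow c]
    simp [natDegree_pow, mul_comm]
  rwa [h3] at h2

/-- Degree of a determinant with columns of bounded degree. -/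
theorem natDegree_det_le {F : Type*} [Field F] {E : Type*} [Fintype E] [DecidableEq E]
    (B : Matrix E E F[X]) (d : E → ℕ) (h : ∀ φ i, (B φ i).natDegree ≤ d i) :
    B.det.natDegree ≤ ∑ i, d i := by
  rw [Matrix.det_apply]
  refine natDegree_sum_le_of_forall_le _ _ fun σ _ => ?_
  have h1 : (Equiv.Perm.sign σ • ∏ i, B (σ i) i).natDegree ≤ (∏ i, B (σ i) i).natDegree := by
    rcases Int.units_eq_one_or (Equiv.Perm.sign σ) with h | h
    · rw [h, one_smul]
    · rw [h, Units.neg_smul, one_smul, natDegree_neg]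
  refine h1.trans ((natDegree_prod_le _ _).trans ?_)
  exact Finset.sum_le_sum fun i _ => h _ i

end LeepA
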