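import Pool.Agent.H5.Leep.DGroup
import Pool.Agent.H5.Leep.DMatrix

/-!
The D-argument for a family of lines permuted by the Galois group.
-/

namespace LeepA

open MvPolynomial

theorem aeval_scale {K Ω : Type*} [Field K] [Field Ω] [Algebra K Ω] {n e : ℕ}
    {f : MvPolynomial (Fin n) K} (hf : f.IsHomogeneous e) (r : Ω) (z : Fin n → Ω) :
    aeval (fun i => r * z i) f = r ^ e * aeval z f := by
  rw [aeval_def, aeval_def, eval₂_eq', eval₂_eq', Finset.mul_sum]
  refine Finset.sum_congr rfl fun m hm => ?_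
  have hm1 := hf (mem_support_iff.1 hm)
  have hm' : ∑ i, m i = e := by
    rw [← hm1, Finsupp.weight_apply, Finsupp.sum_fintype]
    · simp
    · simp
  have h1 : ∏ i, (r * z i) ^ m i = r ^ e * ∏ i, z i ^ m i := by
    rw [← hm', ← Finset.prod_pow_eq_pow_sum, ← Finset.prod_mul_distrib]
    refine Finset.prod_congr rfl fun i _ => ?_
    rw [mul_pow]
  rw [h1]
  ring

/-- The value of the family at a point. -/
def zp {Ω E : Type*} [Field Ω] {n : ℕ} (A B : E → Fin n → Ω) (s t : Ω) (φ : E) : Fin n → Ω :=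
  fun i => A φ i * s + B φ i * t

section
variable {K Ω : Type} [Field K] [Field Ω] [Algebra K Ω] {E : Type} [Fintype E] [DecidableEq E]
  {n : ℕ} (A B : E → Fin n → Ω) {ι : Type} [Fintype ι] (b : ι → MvPolynomial (Fin n) K)
  (ε : ι ≃ E)

/-- The matrix of values. -/
noncomputable def bmat (s t : Ω) : Matrix E E Ω := fun φ ψ => aeval (zp A B s t φ) (b (ε.symm ψ))

/-- `FR` at a point. -/
def FRat (s t : Ω) : Prop :=
  ∀ (e : ℕ) (f : MvPolynomial (Fin n) K), f.IsHomogeneous e → ∃ g : ι → Ω, ∀ φ,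
    aeval (zp A B s t φ) f = ∑ i, g i * aeval (zp A B s t φ) (b i)

theorem det_ne_zero_of_injective (s t : Ω) (hFR : FRat A B b s t)
    (hinj : Function.Injective (zp A B s t)) : (bmat A B b ε s t).det ≠ 0 := by
  intro hdet
  obtain ⟨v, hv0, hv⟩ := Matrix.exists_vecMul_eq_zero_iff.2 hdet
  apply hv0
  refine eq_zero_of_relation (zp A B s t) hinj v fun m => ?_
  obtain ⟨g, hg⟩ := hFR _ (monomial m (1 : K)) (isHomogeneous_monomial (1 : K) rfl)
  have h1 : ∀ φ, MvPolynomial.eval (zp A B s t φ) (monomial m (1 : Ω)) =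
      aeval (zp A B s t φ) (monomial m (1 : K)) := by
    intro φ
    rw [aeval_monomial, eval_monomial, map_one]
  have h2 : ∀ i, ∑ φ, v φ * aeval (zp A B s t φ) (b i) = 0 := by
    intro i
    have := congrFun hv (ε i)
    rw [Matrix.vecMul, Pi.zero_apply] at this
    simpa [dotProduct, bmat] using this
  calc ∑ φ, v φ * MvPolynomial.eval (zp A B s t φ) (monomial m 1)
      = ∑ φ, ∑ i, g i * (v φ * aeval (zp A B s t φ) (b i)) := by
        refine Finset.sum_congr rfl fun φ _ => ?_
        rw [h1, hg, Finset.mul_sum]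
        refine Finset.sum_congr rfl fun i _ => ?_
        ring
    _ = ∑ i, g i * ∑ φ, v φ * aeval (zp A B s t φ) (b i) := by
        rw [Finset.sum_comm]
        refine Finset.sum_congr rfl fun i _ => ?_
        rw [Finset.mul_sum]
    _ = 0 := by
        refine Finset.sum_eq_zero fun i _ => ?_
        rw [h2, mul_zero]

theorem bmat_scale (d : ι → ℕ) (hb : ∀ i, (b i).IsHomogeneous (d i)) (r s t : Ω) :
    (bmat A B b ε (r * s) (r * t)).det = r ^ (∑ i, d i) * (bmat A B b ε s t).det := by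
  have h1 : bmat A B b ε (r * s) (r * t) =
      Matrix.of fun φ ψ => r ^ (d (ε.symm ψ)) * bmat A B b ε s t φ ψ := by
    ext φ ψ
    have h2 : zp A B (r * s) (r * t) φ = fun i => r * zp A B s t φ i := by
      funext i
      simp only [zp]
      ring
    rw [Matrix.of_apply, bmat, bmat, h2, aeval_scale (hb _)]
  rw [h1, Matrix.det_mul_row]
  congr 1
  rw [Finset.prod_pow_eq_pow_sum]
  congr 1
  exact ε.symm.sum_comp d

/-- The matrix of polynomials along a line of points `(s0 + s1 T, t0 + t1 T)`. -/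
noncomputable def bpoly (s0 s1 t0 t1 : Ω) : Matrix E E (Polynomial Ω) := fun φ ψ =>
  aeval (fun i => Polynomial.C (A φ i) * (Polynomial.C s0 + Polynomial.C s1 * Polynomial.X) +
    Polynomial.C (B φ i) * (Polynomial.C t0 + Polynomial.C t1 * Polynomial.X))
    (MvPolynomial.map (algebraMap K Ω) (b (ε.symm ψ)))

theorem bpoly_eval (s0 s1 t0 t1 r : Ω) (φ ψ : E) :
    (bpoly A B b ε s0 s1 t0 t1 φ ψ).eval r =
      bmat A B b ε (s0 + s1 * r) (t0 + t1 * r) φ ψ := by
  have h1 := comp_aeval_apply (R := Ω) (fun i => Polynomial.C (A φ i) *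
    (Polynomial.C s0 + Polynomial.C s1 * Polynomial.X) +
    Polynomial.C (B φ i) * (Polynomial.C t0 + Polynomial.C t1 * Polynomial.X))
    (Polynomial.aeval r : Polynomial Ω →ₐ[Ω] Ω)
    (MvPolynomial.map (algebraMap K Ω) (b (ε.symm ψ)))
  rw [bpoly, bmat, ← Polynomial.coe_aeval_eq_eval]
  rw [h1, aeval_map_algebraMap]
  congr 2
  funext i
  simp [zp]

theorem bpoly_det_eval (s0 s1 t0 t1 r : Ω) :
    (bpoly A B b ε s0 s1 t0 t1).det.eval r = (bmat A B b ε (s0 + s1 * r) (t0 + t1 * r)).det := by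
  rw [← Polynomial.coe_evalRingHom, RingHom.map_det]
  congr 1
  ext φ ψ
  exact bpoly_eval A B b ε s0 s1 t0 t1 r φ ψ

theorem bpoly_natDegree (d : ι → ℕ) (hb : ∀ i, (b i).IsHomogeneous (d i)) (s0 s1 t0 t1 : Ω) :
    (bpoly A B b ε s0 s1 t0 t1).det.natDegree ≤ ∑ i, d i := by
  have h1 := natDegree_det_le (bpoly A B b ε s0 s1 t0 t1) (fun ψ => d (ε.symm ψ)) (by
    intro φ ψ
    have h2 := aeval_natDegree_le (MvPolynomial.map (algebraMap K Ω) (b (ε.symm ψ)))
      (m := d (ε.symm ψ)) (n := 1) (((hb (ε.symm ψ)).map (algebraMap K Ω)).totalDegree_le)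
      (fun i => Polynomial.C (A φ i) * (Polynomial.C s0 + Polynomial.C s1 * Polynomial.X) +
        Polynomial.C (B φ i) * (Polynomial.C t0 + Polynomial.C t1 * Polynomial.X)) (by
        intro i
        compute_degree)
    rw [mul_one] at h2
    exact h2)
  rw [ε.symm.sum_comp d] at h1
  exact h1

theorem bpoly_not_const [CharZero Ω] (d : ι → ℕ) (hb : ∀ i, (b i).IsHomogeneous (d i)) (k : Ω)
    (hFR : ∀ s t, FRat A B b s t) (hinj : Function.Injective (zp A B 1 k)) (hd : ∑ i, d i ≠ 0) :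
    (bpoly A B b ε 0 1 1 k).det.natDegree ≠ 0 := by
  intro hdeg
  obtain ⟨c, hc⟩ := Polynomial.natDegree_eq_zero.1 hdeg
  have hP : ∀ r : Ω, (bmat A B b ε r (1 + k * r)).det = c := by
    intro r
    have := bpoly_det_eval A B b ε 0 1 1 k r
    rw [← hc, Polynomial.eval_C] at this
    rw [this]
    congr 2
    ring
  have hQ : ∀ r : Ω, (bpoly A B b ε 1 0 k 1).det.eval r = (bmat A B b ε 1 (k + r)).det := by
    intro r
    rw [bpoly_det_eval]
    congr 2 <;> ring
  have hQ2 : (bpoly A B b ε 1 0 k 1).det = Polynomial.C c * Polynomial.X ^ (∑ i, d i) := by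
    refine Polynomial.eq_of_infinite_eval_eq _ _ ?_
    have hsub : ({0}ᶜ : Set Ω) ⊆ {r | (bpoly A B b ε 1 0 k 1).det.eval r =
        (Polynomial.C c * Polynomial.X ^ (∑ i, d i)).eval r} := by
      intro r hr
      have hr0 : r ≠ 0 := hr
      change (bpoly A B b ε 1 0 k 1).det.eval r =
        (Polynomial.C c * Polynomial.X ^ (∑ i, d i)).eval r
      rw [hQ, Polynomial.eval_mul, Polynomial.eval_C, Polynomial.eval_pow, Polynomial.eval_X,
        mul_comm, ← hP r⁻¹, ← bmat_scale A B b ε d hb r r⁻¹ (1 + k * r⁻¹)]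
      congr 2
      · field_simp
      · field_simp
        ring
    exact (Set.finite_singleton (0 : Ω)).infinite_compl.mono hsub
  have hQ0 := hQ 0
  rw [hQ2, Polynomial.eval_mul, Polynomial.eval_C, Polynomial.eval_pow, Polynomial.eval_X,
    zero_pow hd, mul_zero, add_zero] at hQ0
  exact det_ne_zero_of_injective A B b ε 1 k (hFR 1 k) hinj hQ0.symm

include ε in
/-- A root of the determinant along the line gives a collision. -/
theorem exists_collision [CharZero Ω] [IsAlgClosed Ω] (d : ι → ℕ)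
    (hb : ∀ i, (b i).IsHomogeneous (d i)) (k : Ω)
    (hFR : ∀ s t, FRat A B b s t) (hinj : Function.Injective (zp A B 1 k)) (hd : ∑ i, d i ≠ 0) :
    ∃ r : Ω, ∃ φ ψ, φ ≠ ψ ∧ zp A B r (1 + k * r) φ = zp A B r (1 + k * r) ψ := by
  have h1 := bpoly_not_const A B b ε d hb k hFR hinj hd
  obtain ⟨r, hr⟩ := IsAlgClosed.exists_root (bpoly A B b ε 0 1 1 k).det (by
    intro h2
    exact h1 (Polynomial.natDegree_eq_of_degree_eq_some h2))
  rw [Polynomial.IsRoot, bpoly_det_eval] at hr
  have hr' : (bmat A B b ε r (1 + k * r)).det = 0 := by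
    rw [← hr]
    congr 2
    ring
  refine ⟨r, ?_⟩
  by_contra hcon
  push Not at hcon
  refine det_ne_zero_of_injective A B b ε r (1 + k * r) (hFR _ _) ?_ hr'
  intro φ ψ h
  by_contra hne
  exact hcon φ ψ hne h

end

/-- main combinatorial statement -/
theorem D_inner {K Ω : Type} [Field K] [Field Ω] [Algebra K Ω] [CharZero K] [IsAlgClosed Ω]
    {p : ℕ} (hp : p.Prime) (hp2 : p ≠ 2) (M : IntermediateField K Ω) [FiniteDimensional K M]
    [IsGalois K M] (hG : GoodGroup p (M ≃ₐ[K] M)) {E : Type} [Fintype E] [DecidableEq E]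
    [MulAction (M ≃ₐ[K] M) E] [MulAction.IsPretransitive (M ≃ₐ[K] M) E]
    (hE : Nat.card E = 2 ^ (p - 1)) {n : ℕ} (α β : E → Fin n → M)
    (hα : ∀ (σ : M ≃ₐ[K] M) φ i, α (σ • φ) i = σ (α φ i))
    (hβ : ∀ (σ : M ≃ₐ[K] M) φ i, β (σ • φ) i = σ (β φ i))
    (hαβ : ∀ φ ψ, α φ = α ψ → β φ = β ψ → φ = ψ)
    {ι : Type} [Fintype ι] (b : ι → MvPolynomial (Fin n) K) (d : ι → ℕ)
    (hb : ∀ i, (b i).IsHomogeneous (d i))
    (hd : ∀ e, Nat.card {i // d i = e} = (p - 1).choose e)
    (hFR : ∀ s t : Ω, FRat (fun φ i => ((α φ i : M) : Ω)) (fun φ i => ((β φ i : M) : Ω)) b s t) :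
    ∃ (τ : Fin 2 → K) (a : Fin n → K), τ ≠ 0 ∧ ∀ φ i,
      α φ i * algebraMap K M (τ 0) + β φ i * algebraMap K M (τ 1) = algebraMap K M (a i) := by
  classical
  have hchar : CharZero Ω := charZero_of_injective_algebraMap (algebraMap K Ω).injective
  have hp3 : 3 ≤ p := by
    have := hp.two_le
    omega
  obtain ⟨hcard, hsum⟩ := sum_deg d hd
  have hδ : ∑ i, d i ≠ 0 := by
    intro h0
    rw [h0] at hsum
    have : 0 < (p - 1) * 2 ^ (p - 1) := Nat.mul_pos (by omega) (by positivity)
    omega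
  have hcE : Fintype.card E = 2 ^ (p - 1) := by rw [← hE, Nat.card_eq_fintype_card]
  let ε : ι ≃ E := Fintype.equivOfCardEq (by rw [hcard, hcE])
  set A : E → Fin n → Ω := fun φ i => ((α φ i : M) : Ω) with hA
  set B : E → Fin n → Ω := fun φ i => ((β φ i : M) : Ω) with hB
  -- a point without collisions
  obtain ⟨k, hk⟩ : ∃ k : ℕ, ∀ φ ψ, φ ≠ ψ → (fun i => α φ i + β φ i * (k : M)) ≠
      fun i => α ψ i + β ψ i * (k : M) := by
    have hfin : (⋃ x : {x : E × E // x.1 ≠ x.2}, {k : ℕ | (fun i => α x.1.1 i +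
        β x.1.1 i * (k : M)) = fun i => α x.1.2 i + β x.1.2 i * (k : M)}).Finite := by
      refine Set.finite_iUnion fun x => ?_
      refine Set.Subsingleton.finite ?_
      intro k hk l hl
      by_contra hkl
      apply x.2
      have hk' : (fun i => α x.1.1 i + β x.1.1 i * (k : M)) =
        fun i => α x.1.2 i + β x.1.2 i * (k : M) := hk
      have hl' : (fun i => α x.1.1 i + β x.1.1 i * (l : M)) =
        fun i => α x.1.2 i + β x.1.2 i * (l : M) := hl
      have hkl' : ((k : M) - (l : M)) ≠ 0 := sub_ne_zero.2 (by exact_mod_cast hkl)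
      have hβ' : β x.1.1 = β x.1.2 := by
        funext i
        have e1 := congrFun hk' i
        have e2 := congrFun hl' i
        refine mul_right_cancel₀ hkl' ?_
        linear_combination e1 - e2
      have hα' : α x.1.1 = α x.1.2 := by
        funext i
        have e1 := congrFun hk' i
        simp only [hβ'] at e1
        linear_combination e1
      exact hαβ _ _ hα' hβ'
    obtain ⟨k, hk⟩ := hfin.infinite_compl.nonempty
    refine ⟨k, fun φ ψ hne h => hk ?_⟩
    exact Set.mem_iUnion.2 ⟨⟨(φ, ψ), hne⟩, h⟩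
  have hinj1 : Function.Injective (zp A B 1 (k : Ω)) := by
    intro φ ψ h
    by_contra hne
    apply hk φ ψ hne
    funext i
    have e1 := congrFun h i
    simp only [zp, hA, hB] at e1
    apply (algebraMap M Ω).injective
    rw [map_add, map_add, map_mul, map_mul, map_natCast]
    have e2 : ∀ z : M, algebraMap M Ω z = (z : Ω) := fun _ => rfl
    rw [e2, e2, e2, e2]
    linear_combination e1
  obtain ⟨r, φ0, ψ0, hne0, hcoll⟩ := exists_collision A B b ε d hb (k : Ω) hFR hinj1 hδ
  -- the collision relation at a point of `M`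
  let R : M → E → E → Prop := fun t φ ψ =>
    ∀ i, α φ i * t + β φ i * (1 + (k : M) * t) = α ψ i * t + β ψ i * (1 + (k : M) * t)
  have hRequiv : ∀ t, Equivalence (R t) := fun t =>
    ⟨fun _ _ => rfl, fun h i => (h i).symm, fun h h' i => (h i).trans (h' i)⟩
  have hRσ : ∀ (σ : M ≃ₐ[K] M) t φ ψ, R t φ ψ → R (σ t) (σ • φ) (σ • ψ) := by
    intro σ t φ ψ h i
    have e1 := congrArg σ (h i)
    rw [map_add, map_mul, map_mul, map_add, map_mul, map_one, map_natCast, map_add, map_mul,
      map_mul, map_add, map_mul, map_one, map_natCast] at e1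
    rw [hα, hα, hβ, hβ]
    exact e1
  -- the root lies in `M`
  obtain ⟨t0, ht0⟩ : ∃ t0 : M, (t0 : Ω) = r := by
    obtain ⟨i, hi⟩ := Function.ne_iff.1 (hk φ0 ψ0 hne0)
    have e1 := congrFun hcoll i
    simp only [zp, hA, hB] at e1
    refine ⟨(β ψ0 i - β φ0 i) / ((α φ0 i + β φ0 i * (k : M)) - (α ψ0 i + β ψ0 i * (k : M))), ?_⟩
    have hne : (algebraMap M Ω) ((α φ0 i + β φ0 i * (k : M)) - (α ψ0 i + β ψ0 i * (k : M))) ≠ 0 := by
      rw [Ne, map_eq_zero]
      exact sub_ne_zero.2 hi
    have e3 : ∀ z : M, (z : Ω) = algebraMap M Ω z := fun _ => rfl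
    rw [e3, map_div₀, div_eq_iff hne]
    rw [map_sub, map_sub, map_add, map_add, map_mul, map_mul, map_natCast]
    have e2 : ∀ z : M, algebraMap M Ω z = (z : Ω) := fun _ => rfl
    rw [e2, e2, e2, e2]
    linear_combination -e1
  have hcoll' : R t0 φ0 ψ0 := by
    intro i
    have e1 := congrFun hcoll i
    simp only [zp, hA, hB] at e1
    apply (algebraMap M Ω).injective
    rw [map_add, map_mul, map_mul, map_add, map_mul, map_one, map_natCast, map_add, map_mul,
      map_mul, map_add, map_mul, map_one, map_natCast]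
    have e2 : ∀ z : M, algebraMap M Ω z = (z : Ω) := fun _ => rfl
    rw [e2, e2, e2, e2, e2, ht0]
    exact e1
  by_cases hT : MulAction.stabilizer (M ≃ₐ[K] M) t0 = ⊤
  · -- the collision point is rational
    have hfix : ∀ σ : M ≃ₐ[K] M, σ t0 = t0 := by
      intro σ
      have : σ ∈ MulAction.stabilizer (M ≃ₐ[K] M) t0 := by
        rw [hT]
        exact Subgroup.mem_top σ
      exact this
    obtain ⟨τ0, hτ0⟩ := IntermediateField.mem_bot.1 ((IsGalois.mem_bot_iff_fixed t0).2 hfix)
    have hall := collision_all hG hE (R t0) (hRequiv t0) (by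
      intro σ φ ψ h
      have := hRσ σ t0 φ ψ h
      rwa [hfix σ] at this) φ0 ψ0 hne0 hcoll'
    have hval : ∀ i, ∃ a : K, α φ0 i * t0 + β φ0 i * (1 + (k : M) * t0) = algebraMap K M a := by
      intro i
      have h1 : (α φ0 i * t0 + β φ0 i * (1 + (k : M) * t0)) ∈ (⊥ : IntermediateField K M) := by
        rw [IsGalois.mem_bot_iff_fixed]
        intro σ
        rw [map_add, map_mul, map_mul, map_add, map_mul, map_one, map_natCast, ← hα, ← hβ,
          hfix σ]
        exact hall (σ • φ0) φ0 i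
      obtain ⟨a, ha⟩ := IntermediateField.mem_bot.1 h1
      exact ⟨a, ha.symm⟩
    choose a ha using hval
    refine ⟨![τ0, 1 + (k : K) * τ0], a, ?_, ?_⟩
    · intro h
      have h0 := congrFun h 0
      have h1 := congrFun h 1
      simp only [Matrix.cons_val_zero, Matrix.cons_val_one, Pi.zero_apply] at h0 h1
      rw [h0, mul_zero, add_zero] at h1
      exact one_ne_zero h1
    · intro φ i
      simp only [Matrix.cons_val_zero, Matrix.cons_val_one]
      rw [map_add, map_mul, map_one, map_natCast, hτ0, ← ha i]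
      exact hall φ φ0 i
  · exfalso
    set P := (bpoly A B b ε 0 1 1 (k : Ω)).det with hP
    have hPdeg := bpoly_not_const A B b ε d hb (k : Ω) hFR hinj1 hδ
    have hP0 : P ≠ 0 := by
      intro h0
      apply hPdeg
      rw [← hP, h0, Polynomial.natDegree_zero]
    have hPle : P.natDegree ≤ ∑ i, d i := bpoly_natDegree A B b ε d hb 0 1 1 (k : Ω)
    -- representatives
    let S : M → Setoid E := fun t => ⟨R t, hRequiv t⟩
    let rep : M → E → E := fun t φ => (Quotient.mk (S t) φ).out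
    have hrep1 : ∀ t φ, R t φ (rep t φ) := fun t φ =>
      (hRequiv t).symm (Quotient.exact (s := S t) (Quotient.out_eq (Quotient.mk (S t) φ)))
    have hrep2 : ∀ t φ ψ, R t φ ψ → rep t φ = rep t ψ := by
      intro t φ ψ h
      exact congrArg Quotient.out (Quotient.sound (s := S t) h)
    have hdvd : ∀ t : M, (Polynomial.X - Polynomial.C (t : Ω)) ^
        (Finset.univ.filter (fun φ => rep t φ ≠ φ)).card ∣ P := by
      intro t
      refine det_dvd_of_collisions _ (t : Ω) (rep t) (fun φ => (hrep2 t _ _ (hrep1 t φ)).symm) ?_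
      intro φ ψ
      rw [bpoly_eval, bpoly_eval, bmat, bmat]
      congr 2
      funext i
      have e1 := congrArg (algebraMap M Ω) (hrep1 t φ i)
      rw [map_add, map_mul, map_mul, map_add, map_mul, map_one, map_natCast, map_add, map_mul,
        map_mul, map_add, map_mul, map_one, map_natCast] at e1
      have e2 : ∀ z : M, algebraMap M Ω z = (z : Ω) := fun _ => rfl
      rw [e2, e2, e2, e2, e2] at e1
      simp only [zp, hA, hB]
      linear_combination e1
    have hcount : ∀ σ : M ≃ₐ[K] M, Nat.card (MulAction.stabilizer (M ≃ₐ[K] M) t0) ≤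
        2 * (Finset.univ.filter (fun φ => rep (σ t0) φ ≠ φ)).card := by
      intro σ
      have h1 := collision_count hp hp2 hG hE _ hT (R t0) (fun φ ψ h => (hRequiv t0).symm h) (by
        intro g hg φ ψ h
        have h2 := hRσ g t0 φ ψ h
        have h3 : g t0 = t0 := hg
        rwa [h3] at h2) φ0 ψ0 hne0 hcoll'
      have h2 : Nat.card {φ : E // ∃ ψ, ψ ≠ φ ∧ R t0 φ ψ} ≤
          Nat.card {φ : E // ∃ ψ, ψ ≠ φ ∧ R (σ t0) φ ψ} := by
        refine Nat.card_le_card_of_injective (fun x => ⟨σ • x.1, ?_⟩) ?_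
        · obtain ⟨ψ, hψ1, hψ2⟩ := x.2
          exact ⟨σ • ψ, fun h => hψ1 (smul_left_cancel σ h), hRσ σ t0 _ _ hψ2⟩
        · intro x y hxy
          exact Subtype.ext (smul_left_cancel σ (congrArg Subtype.val hxy))
      exact h1.trans (h2.trans (card_nontrivial_le (R (σ t0)) (rep (σ t0)) (hrep2 (σ t0))))
    -- the orbit
    have hfinO : (MulAction.orbit (M ≃ₐ[K] M) t0).Finite :=
      Set.finite_range (fun σ : M ≃ₐ[K] M => σ • t0)
    let O : Finset Ω := hfinO.toFinset.image (fun t : M => (t : Ω))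
    have hOcard : O.card = Nat.card (MulAction.orbit (M ≃ₐ[K] M) t0) := by
      rw [Finset.card_image_of_injective _ Subtype.val_injective, ← Set.ncard_eq_toFinset_card _ hfinO]
      rfl
    set c0 := (Nat.card (MulAction.stabilizer (M ≃ₐ[K] M) t0) + 1) / 2 with hc0
    have hle := sum_le_natDegree P hP0 O c0 (by
      intro t ht
      obtain ⟨t', ht', rfl⟩ := Finset.mem_image.1 ht
      obtain ⟨σ, rfl⟩ := hfinO.mem_toFinset.1 ht'
      refine (pow_dvd_pow _ ?_).trans (hdvd (σ t0))
      have := hcount σ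
      omega)
    have hgrp : Nat.card (MulAction.orbit (M ≃ₐ[K] M) t0) *
        Nat.card (MulAction.stabilizer (M ≃ₐ[K] M) t0) = p * 2 ^ (p - 1) := by
      rw [← hG.1, ← (MulAction.stabilizer (M ≃ₐ[K] M) t0).card_mul_index, MulAction.index_stabilizer,
        mul_comm]
      rfl
    have h1 : Nat.card (MulAction.stabilizer (M ≃ₐ[K] M) t0) ≤ 2 * c0 := by omega
    have h2 : p * 2 ^ (p - 1) ≤ O.card * (2 * c0) := by
      rw [← hgrp, hOcard]
      exact Nat.mul_le_mul_left _ h1
    have h3 : O.card * (2 * c0) ≤ (p - 1) * 2 ^ (p - 1) := by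
      calc O.card * (2 * c0) = 2 * (O.card * c0) := by ring
        _ ≤ 2 * ∑ i, d i := Nat.mul_le_mul_left _ (hle.trans hPle)
        _ = (p - 1) * 2 ^ (p - 1) := hsum
    have h4 : (p - 1) * 2 ^ (p - 1) < p * 2 ^ (p - 1) :=
      Nat.mul_lt_mul_of_pos_right (by omega) (by positivity)
    omega

end LeepA
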