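import Pool.Agent.H5.Leep.DInner

/-!
The coordinates are linear forms in the Noether parameters.
-/

namespace LeepA

open MvPolynomial IntermediateField

section
variable {K Ω : Type} [Field K] [Field Ω] [Algebra K Ω] {n : ℕ} {x : Fin n → Ω}

theorem aeval_comp_lin {m : ℕ} (l : Fin m → MvPolynomial (Fin n) K) (z : Fin n → Ω)
    (c : MvPolynomial (Fin m) K) :
    aeval z (aeval l c) = aeval (fun j => aeval z (l j)) c :=
  comp_aeval_apply l (aeval z) c

/-- a point satisfying the relations of `x` and with the same parameters: its coordinates are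
roots of the same monic polynomials. -/
theorem root_of_specialization {m : ℕ} {l : Fin m → MvPolynomial (Fin n) K} {ρ : ℕ}
    (st : Stage x l ρ) (i : Fin n) :
    ∃ Q : Polynomial Ω, Q ≠ 0 ∧ ∀ x' : Fin n → Ω,
      (∀ f : MvPolynomial (Fin n) K, aeval x f = 0 → aeval x' f = 0) →
      (∀ j, aeval x' (l j) = aeval x (l j)) → Q.eval (x' i) = 0 := by
  have hint := st.int i
  set y : Fin m → Ω := fun j => aeval x (l j) with hy
  obtain ⟨q, hqm, hq0⟩ := hint
  have hc : ∀ k, ∃ c : MvPolynomial (Fin m) K, aeval y c = (q.coeff k : Ω) := by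
    intro k
    have h0 : ∀ w ∈ Algebra.adjoin K (Set.range y), ∃ c : MvPolynomial (Fin m) K,
        aeval y c = w := by
      intro w hw
      rw [Algebra.adjoin_range_eq_range_aeval] at hw
      exact hw
    exact h0 _ (q.coeff k).2
  choose c hc using hc
  let Q : Polynomial Ω := q.map (algebraMap (Algebra.adjoin K (Set.range y)) Ω)
  let R : MvPolynomial (Fin n) K :=
    ∑ k ∈ Finset.range (q.natDegree + 1), aeval l (c k) * X i ^ k
  have hR : ∀ x' : Fin n → Ω, (∀ j, aeval x' (l j) = aeval x (l j)) →
      aeval x' R = Q.eval (x' i) := by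
    intro x' hx'
    have h1 : (fun j => aeval x' (l j)) = y := funext hx'
    rw [map_sum, Polynomial.eval_map, Polynomial.eval₂_eq_sum_range]
    refine Finset.sum_congr rfl fun k _ => ?_
    rw [map_mul, map_pow, aeval_X, aeval_comp_lin, h1, hc]
    rfl
  refine ⟨Q, (hqm.map _).ne_zero, fun x' h1 h2 => ?_⟩
  rw [← hR x' h2]
  apply h1
  rw [hR x (fun j => rfl), Polynomial.eval_map]
  exact hq0

/-- Homogeneity of the relation ideal: the relations hold at all multiples. -/
theorem relation_scale {z : Fin n → Ω} (f : MvPolynomial (Fin n) K)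
    (hf : ∀ d, aeval z (homogeneousComponent d f) = 0) (r : Ω) :
    aeval (fun i => r * z i) f = 0 := by
  rw [← sum_homogeneousComponent f, map_sum]
  refine Finset.sum_eq_zero fun d _ => ?_
  rw [aeval_scale (homogeneousComponent_isHomogeneous d f), hf d, mul_zero]

/-- A homogeneous polynomial of degree one in two variables. -/
theorem eq_linear {N : Type} [Field N] (G : MvPolynomial (Fin 2) N) (hG : G.IsHomogeneous 1) :
    ∃ a b : N, G = C a * X 0 + C b * X 1 := by
  have h1 : G ∈ homogeneousSubmodule (Fin 2) N 1 := hG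
  rw [homogeneousSubmodule_one_eq_span_X] at h1
  have h2 : Set.range (X : Fin 2 → MvPolynomial (Fin 2) N) = {X 0, X 1} := by
    ext z
    constructor
    · rintro ⟨i, rfl⟩
      fin_cases i
      · exact Or.inl rfl
      · exact Or.inr rfl
    · rintro (rfl | rfl)
      · exact ⟨0, rfl⟩
      · exact ⟨1, rfl⟩
  rw [h2, Submodule.mem_span_pair] at h1
  obtain ⟨a, b, hab⟩ := h1
  refine ⟨a, b, ?_⟩
  rw [← hab, smul_eq_C_mul, smul_eq_C_mul]

theorem exists_poly [CharZero K] {l : Fin 2 → MvPolynomial (Fin n) K} {ρ : ℕ}
    (st : Stage x l ρ) (N : IntermediateField K Ω) [FiniteDimensional K N]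
    (hx : ∀ i, x i ∈ adjoin N (Set.range fun j => aeval x (l j))) (i : Fin n) :
    ∃ G : MvPolynomial (Fin 2) N, x i = aeval (fun j => aeval x (l j)) G := by
  set y : Fin 2 → Ω := fun j => aeval x (l j) with hy
  have hind : AlgebraicIndependent N y := st.indep.extendScalars N
  have h1 : x i ∈ Algebra.adjoin N (Set.range y) := by
    have e : MvPolynomial (Fin 2) N ≃ₐ[N] Algebra.adjoin N (Set.range y) := hind.aevalEquiv
    have hcl0 : IsIntegrallyClosed (MvPolynomial (Fin 2) N) :=
      UniqueFactorizationMonoid.instIsIntegrallyClosed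
    have hcl : IsIntegrallyClosed (Algebra.adjoin N (Set.range y)) :=
      IsIntegrallyClosed.of_equiv e.toRingEquiv
    let z : adjoin N (Set.range y) := ⟨x i, hx i⟩
    have hle : Algebra.adjoin K (Set.range y) ≤
        (Algebra.adjoin N (Set.range y)).restrictScalars K := by
      refine Algebra.adjoin_le ?_
      intro w hw
      exact Algebra.subset_adjoin (R := N) hw
    have hint : IsIntegral (Algebra.adjoin N (Set.range y)) (x i) := by
      have h2 := st.int i
      exact h2.map_of_comp_eq (Subalgebra.inclusion hle).toRingHom (RingHom.id Ω) rfl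
    open scoped algebraAdjoinAdjoin in
    have hintz : IsIntegral (Algebra.adjoin N (Set.range y)) z := by
      rw [← isIntegral_algHom_iff (IsScalarTower.toAlgHom (Algebra.adjoin N (Set.range y))
        (adjoin N (Set.range y)) Ω) (algebraMap (adjoin N (Set.range y)) Ω).injective]
      exact hint
    open scoped algebraAdjoinAdjoin in
    obtain ⟨w, hw⟩ := IsIntegrallyClosed.isIntegral_iff.1 hintz
    have hw' : (w : Ω) = x i := congrArg Subtype.val hw
    rw [← hw']
    exact w.2
  rw [Algebra.adjoin_range_eq_range_aeval] at h1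
  obtain ⟨G, hG⟩ := h1
  exact ⟨G, hG.symm⟩

/-- A polynomial whose rescalings coincide is homogeneous of degree one. -/
theorem homog_of_rescale {N : Type} [Field N] [CharZero N] [Algebra N Ω] (y : Fin 2 → Ω)
    (hind : AlgebraicIndependent N y) (G : MvPolynomial (Fin 2) N) (k k' : ℕ) (hk : k ≠ k')
    (h : (2 : Ω) ^ k' * aeval (fun j => (2 : Ω) ^ k * y j) G =
      (2 : Ω) ^ k * aeval (fun j => (2 : Ω) ^ k' * y j) G) : G.IsHomogeneous 1 := by
  have hinj : ∀ P : MvPolynomial (Fin 2) N, aeval y P = 0 → P = 0 := by
    intro P hP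
    have hi := hind
    rw [AlgebraicIndependent, injective_iff_map_eq_zero] at hi
    exact hi P hP
  have hexp : ∀ a : ℕ, aeval (fun j => (2 : Ω) ^ a * y j) G =
      ∑ d ∈ Finset.range (G.totalDegree + 1),
        ((2 : Ω) ^ a) ^ d * aeval y (homogeneousComponent d G) := by
    intro a
    conv_lhs => rw [← sum_homogeneousComponent G, map_sum]
    refine Finset.sum_congr rfl fun d _ => ?_
    rw [aeval_scale (homogeneousComponent_isHomogeneous d G)]
  let c : ℕ → N := fun d => 2 ^ (k' + k * d) - 2 ^ (k + k' * d)
  have hzero : ∑ d ∈ Finset.range (G.totalDegree + 1), C (c d) * homogeneousComponent d G = 0 := by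
    apply hinj
    rw [map_sum]
    rw [hexp, hexp, Finset.mul_sum, Finset.mul_sum, ← sub_eq_zero, ← Finset.sum_sub_distrib] at h
    rw [← h]
    refine Finset.sum_congr rfl fun d _ => ?_
    have hcd : algebraMap N Ω (c d) = 2 ^ (k' + k * d) - 2 ^ (k + k' * d) := by
      simp only [c, map_sub, map_pow, map_ofNat]
    rw [map_mul, aeval_C, hcd]
    ring
  have hcomp : ∀ d, d ≠ 1 → homogeneousComponent d G = 0 := by
    intro d hd
    by_cases hdG : d ∈ Finset.range (G.totalDegree + 1)
    · have h1 := congrArg (homogeneousComponent d) hzero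
      rw [map_sum, map_zero, Finset.sum_eq_single d] at h1
      · rw [homogeneousComponent_C_mul, homogeneousComponent_eq_self
          (homogeneousComponent_isHomogeneous d G)] at h1
        have hcd : c d ≠ 0 := by
          intro h0
          have h2 : (2 : N) ^ (k' + k * d) = 2 ^ (k + k' * d) := sub_eq_zero.1 h0
          have h3 : (2 : ℕ) ^ (k' + k * d) = 2 ^ (k + k' * d) := by
            exact_mod_cast h2
          have h4 := Nat.pow_right_injective (le_refl 2) h3
          have h5 : ((k' : ℤ) - k) * (1 - d) = 0 := by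
            have : (k' : ℤ) + k * d = k + k' * d := by exact_mod_cast h4
            linear_combination this
          rcases mul_eq_zero.1 h5 with h6 | h6
          · apply hk
            omega
          · apply hd
            omega
        exact (mul_eq_zero.1 h1).resolve_left ((map_ne_zero_iff C (C_injective _ _)).2 hcd)
      · intro e _ he
        rw [homogeneousComponent_C_mul, homogeneousComponent_of_mem
          (homogeneousComponent_mem e G), if_neg he.symm, mul_zero]
      · intro h2
        exact absurd hdG h2
    · refine homogeneousComponent_eq_zero _ _ ?_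
      rw [Finset.mem_range] at hdG
      omega
  have hG : G = homogeneousComponent 1 G := by
    ext m
    rw [coeff_homogeneousComponent]
    split_ifs with hm
    · rfl
    · have h1 := hcomp m.degree hm
      have h2 := congrArg (coeff m) h1
      rw [coeff_homogeneousComponent, if_pos rfl, coeff_zero] at h2
      exact h2
  rw [hG]
  exact homogeneousComponent_isHomogeneous 1 G

theorem exists_linear [CharZero K] {l : Fin 2 → MvPolynomial (Fin n) K} {ρ : ℕ}
    (st : Stage x l ρ) (N : IntermediateField K Ω) [FiniteDimensional K N]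
    (hx : ∀ i, x i ∈ adjoin N (Set.range fun j => aeval x (l j))) :
    ∃ α β : Fin n → N, ∀ i, x i = α i * aeval x (l 0) + β i * aeval x (l 1) := by
  have hchar : CharZero Ω := charZero_of_injective_algebraMap (algebraMap K Ω).injective
  choose G hG using exists_poly st N hx
  set y : Fin 2 → Ω := fun j => aeval x (l j) with hy
  have hind : AlgebraicIndependent N y := st.indep.extendScalars N
  have hinj : ∀ P : MvPolynomial (Fin 2) N, aeval y P = 0 → P = 0 := by
    intro P hP
    have hi := hind
    rw [AlgebraicIndependent, injective_iff_map_eq_zero] at hi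
    exact hi P hP
  have hΘ : ∀ (s : Fin 2 → Ω) (f : MvPolynomial (Fin n) K),
      aeval s (aeval G f) = aeval (fun i => aeval s (G i)) f := fun s f =>
    comp_aeval_apply G ((aeval s : MvPolynomial (Fin 2) N →ₐ[N] Ω).restrictScalars K) f
  have hGx : (fun i => aeval y (G i)) = x := funext fun i => (hG i).symm
  have hA : ∀ f : MvPolynomial (Fin n) K, aeval x f = 0 → aeval G f = 0 := by
    intro f hf
    apply hinj
    rw [hΘ, hGx, hf]
  have hB : ∀ j, aeval G (l j) = X j := by
    intro j
    rw [← sub_eq_zero]
    apply hinj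
    rw [map_sub, hΘ, hGx, aeval_X, sub_self]
  have hlin : ∀ i, (G i).IsHomogeneous 1 := by
    intro i
    obtain ⟨Q, hQ0, hQ⟩ := root_of_specialization st i
    -- the rescaled points
    let xk : ℕ → Fin n → Ω := fun k i => ((2 : Ω) ^ k)⁻¹ * aeval (fun j => (2 : Ω) ^ k * y j) (G i)
    have hroot : ∀ k, Q.eval (xk k i) = 0 := by
      intro k
      apply hQ
      · intro f hf
        refine relation_scale f (fun d => ?_) _
        rw [← hΘ, hA _ (st.hom f hf d), map_zero]
      · intro j
        have h1 := aeval_scale (st.lin j) ((2 : Ω) ^ k)⁻¹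
          (fun i => aeval (fun j => (2 : Ω) ^ k * y j) (G i))
        change aeval (xk k) (l j) = _
        rw [h1, ← hΘ, hB, aeval_X, pow_one, inv_mul_cancel_left₀ (pow_ne_zero _ two_ne_zero)]
    have hfin : Set.Finite {w | Q.eval w = 0} := by
      have := Polynomial.finite_setOfPred_isRoot hQ0
      exact this
    obtain ⟨k, k', hk, hkk⟩ : ∃ k k', k ≠ k' ∧ xk k i = xk k' i := by
      by_contra hcon
      push Not at hcon
      have hinjk : Function.Injective fun k => xk k i := by
        intro a b hab
        by_contra hne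
        exact hcon a b hne hab
      exact Set.infinite_of_injective_forall_mem hinjk (fun k => hroot k) hfin
    refine homog_of_rescale y hind (G i) k k' hk ?_
    have h2 : ((2 : Ω) ^ k)⁻¹ * aeval (fun j => (2 : Ω) ^ k * y j) (G i) =
      ((2 : Ω) ^ k')⁻¹ * aeval (fun j => (2 : Ω) ^ k' * y j) (G i) := hkk
    have h3 : (2 : Ω) ^ k ≠ 0 := pow_ne_zero _ two_ne_zero
    have h4 : (2 : Ω) ^ k' ≠ 0 := pow_ne_zero _ two_ne_zero
    field_simp at h2
    linear_combination h2
  have hab : ∀ i, ∃ a b : N, G i = C a * X 0 + C b * X 1 := fun i => eq_linear (G i) (hlin i)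
  choose α β hαβ using hab
  refine ⟨α, β, fun i => ?_⟩
  rw [hG i, hαβ i, map_add, map_mul, map_mul, aeval_C, aeval_C, aeval_X, aeval_X]
  rfl

end

end LeepA
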