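import Mathlib

/-!
Common definitions for the sharpness of Leep's estimate (A).
-/

namespace LeepA

open MvPolynomial IntermediateField

/-- The condition on the finite group: order `p * 2^(p-1)`, and every subgroup whose order is
divisible by `p` has order `p` or is the whole group. -/
def GoodGroup (p : ℕ) (G : Type*) [Group G] : Prop :=
  Nat.card G = p * 2 ^ (p - 1) ∧
    ∀ H : Subgroup G, p ∣ Nat.card H → Nat.card H = p ∨ H = ⊤

section
variable {K Ω : Type} [Field K] [Field Ω] [Algebra K Ω] {n : ℕ}

/-- `x` is the generic point of a homogeneous prime of `K[X_1..X_n]`, in Noether position with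
respect to the linear forms `l`; `ρ` is the degree. -/
structure Stage (x : Fin n → Ω) {m : ℕ} (l : Fin m → MvPolynomial (Fin n) K) (ρ : ℕ) : Prop where
  lin : ∀ j, (l j).IsHomogeneous 1
  indep : AlgebraicIndependent K (fun j => aeval x (l j))
  int : ∀ i, IsIntegral (Algebra.adjoin K (Set.range fun j => aeval x (l j))) (x i)
  hom : ∀ f : MvPolynomial (Fin n) K, aeval x f = 0 →
    ∀ d, aeval x (homogeneousComponent d f) = 0
  deg : relfinrank (adjoin K (Set.range fun j => aeval x (l j))) (adjoin K (Set.range x)) = ρ

/-- homogeneous generators of the coordinate ring over the Noether normalisation, with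
`binom c e` generators of degree `e`. -/
def FR (x : Fin n → Ω) {m : ℕ} (l : Fin m → MvPolynomial (Fin n) K) (c : ℕ) : Prop :=
  ∃ (ι : Type) (_ : Fintype ι) (b : ι → MvPolynomial (Fin n) K) (d : ι → ℕ),
    (∀ i, (b i).IsHomogeneous (d i)) ∧
    (∀ e, Nat.card {i // d i = e} = c.choose e) ∧
    ∀ (e : ℕ) (f : MvPolynomial (Fin n) K), f.IsHomogeneous e →
      ∃ g : ι → MvPolynomial (Fin m) K, (∀ i, (g i).IsHomogeneous (e - d i)) ∧
        (∀ i, e < d i → g i = 0) ∧
        aeval x f = ∑ i, aeval (fun j => aeval x (l j)) (g i) * aeval x (b i)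

end

end LeepA
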