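import Mathlib

/-!
Lemmas on homogeneous components of multivariate polynomials.
-/

namespace LeepA

open MvPolynomial

variable {σ τ R : Type*} [CommRing R]

theorem hc_sum {ι : Type*} (s : Finset ι) (f : ι → MvPolynomial σ R) (n : ℕ) :
    homogeneousComponent n (∑ i ∈ s, f i) = ∑ i ∈ s, homogeneousComponent n (f i) :=
  map_sum _ _ _

theorem hc_mul (f g : MvPolynomial σ R) {b : ℕ} (hg : g.IsHomogeneous b) (a : ℕ) :
    homogeneousComponent (a + b) (f * g) = homogeneousComponent a f * g := by
  conv_lhs => rw [← sum_homogeneousComponent f, Finset.sum_mul, hc_sum]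
  have h : ∀ i ∈ Finset.range (f.totalDegree + 1),
      homogeneousComponent (a + b) (homogeneousComponent i f * g) =
        if i = a then homogeneousComponent a f * g else 0 := by
    intro i _
    rw [homogeneousComponent_of_mem
      (((homogeneousComponent_isHomogeneous i f).mul hg : _) : (_ : MvPolynomial σ R) ∈ _)]
    by_cases hi : i = a
    · subst hi; simp
    · rw [if_neg (by omega), if_neg hi]
  rw [Finset.sum_congr rfl h, Finset.sum_ite_eq']
  split_ifs with hm
  · rfl
  · rw [homogeneousComponent_eq_zero a f (by simpa using hm), zero_mul]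

theorem hc_mul_lt (f g : MvPolynomial σ R) {b : ℕ} (hg : g.IsHomogeneous b) {a : ℕ} (hab : a < b) :
    homogeneousComponent a (f * g) = 0 := by
  conv_lhs => rw [← sum_homogeneousComponent f, Finset.sum_mul, hc_sum]
  apply Finset.sum_eq_zero
  intro i _
  rw [homogeneousComponent_of_mem
    (((homogeneousComponent_isHomogeneous i f).mul hg : _) : (_ : MvPolynomial σ R) ∈ _)]
  rw [if_neg (by omega)]

theorem isHomogeneous_aeval_lin {l : σ → MvPolynomial τ R} (hl : ∀ j, (l j).IsHomogeneous 1)
    {c : MvPolynomial σ R} {d : ℕ} (hc : c.IsHomogeneous d) :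
    (aeval l c : MvPolynomial τ R).IsHomogeneous d := by
  have := hc.aeval l hl
  rwa [one_mul] at this

theorem hc_aeval {l : σ → MvPolynomial τ R} (hl : ∀ j, (l j).IsHomogeneous 1)
    (c : MvPolynomial σ R) (d : ℕ) :
    homogeneousComponent d (aeval l c : MvPolynomial τ R) =
      aeval l (homogeneousComponent d c) := by
  conv_lhs => rw [← sum_homogeneousComponent c, map_sum, hc_sum]
  have h : ∀ i ∈ Finset.range (c.totalDegree + 1),
      homogeneousComponent d (aeval l (homogeneousComponent i c) : MvPolynomial τ R) =
        if i = d then (aeval l (homogeneousComponent d c) : MvPolynomial τ R) else 0 := by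
    intro i _
    rw [homogeneousComponent_of_mem
      ((isHomogeneous_aeval_lin hl (homogeneousComponent_isHomogeneous i c) : _) :
        (_ : MvPolynomial τ R) ∈ _)]
    by_cases hi : i = d
    · subst hi; simp
    · rw [if_neg (by omega), if_neg hi]
  rw [Finset.sum_congr rfl h, Finset.sum_ite_eq']
  split_ifs with hm
  · rfl
  · rw [homogeneousComponent_eq_zero d c (by simpa using hm), map_zero]

theorem isHomogeneous_of_hc_eq {c : MvPolynomial σ R} {d : ℕ}
    (h : homogeneousComponent d c = c) : c.IsHomogeneous d := by
  rw [← h]; exact homogeneousComponent_isHomogeneous d c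

end LeepA
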