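import Pool.Agent.H5.Leep.Defs
import Pool.Agent.H5.Leep.Poly

/-!
The minimal polynomial of a homogeneous form over the Noether normalisation is homogeneous.
-/

namespace LeepA

open MvPolynomial IntermediateField
open scoped IntermediateField.algebraAdjoinAdjoin

variable {K Ω : Type} [Field K] [Field Ω] [Algebra K Ω] {n m : ℕ}

theorem aeval_aeval_lin (x : Fin n → Ω) (l : Fin m → MvPolynomial (Fin n) K)
    (c : MvPolynomial (Fin m) K) :
    aeval x (aeval l c : MvPolynomial (Fin n) K) = aeval (fun j => aeval x (l j)) c := by
  rw [← AlgHom.comp_apply]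
  congr 1
  ext j
  simp

theorem integrallyClosed_adjoin {y : Fin m → Ω} (hy : AlgebraicIndependent K y) :
    IsIntegrallyClosed (Algebra.adjoin K (Set.range y)) :=
  IsIntegrallyClosed.of_equiv hy.aevalEquiv.toRingEquiv

theorem minpoly_hom {x : Fin n → Ω} {l : Fin m → MvPolynomial (Fin n) K}
    (lin : ∀ j, (l j).IsHomogeneous 1)
    (indep : AlgebraicIndependent K (fun j => aeval x (l j)))
    (hom : ∀ f : MvPolynomial (Fin n) K, aeval x f = 0 →
      ∀ d, aeval x (homogeneousComponent d f) = 0)
    {q : MvPolynomial (Fin n) K} {e : ℕ} (hq : q.IsHomogeneous e)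
    (hint : IsIntegral (Algebra.adjoin K (Set.range fun j => aeval x (l j))) (aeval x q)) :
    ∃ a : ℕ → MvPolynomial (Fin m) K, (∀ i, (a i).IsHomogeneous (e * i)) ∧ a 0 = 1 ∧
      ∀ j ≤ (minpoly (adjoin K (Set.range fun j => aeval x (l j))) (aeval x q)).natDegree,
        (((minpoly (adjoin K (Set.range fun j => aeval x (l j))) (aeval x q)).coeff j :
          adjoin K (Set.range fun j => aeval x (l j))) : Ω) =
        aeval (fun j => aeval x (l j))
          (a ((minpoly (adjoin K (Set.range fun j => aeval x (l j))) (aeval x q)).natDegree - j)) := by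
  set y : Fin m → Ω := fun j => aeval x (l j) with hy
  set u : Ω := aeval x q with hu
  have hic := integrallyClosed_adjoin indep
  set P := minpoly (Algebra.adjoin K (Set.range y)) u with hP
  have hmp : minpoly (adjoin K (Set.range y)) u =
      P.map (algebraMap (Algebra.adjoin K (Set.range y)) (adjoin K (Set.range y))) :=
    minpoly.isIntegrallyClosed_eq_field_fractions' _ hint
  have hmonic : P.Monic := minpoly.monic hint
  have hdeg : (minpoly (adjoin K (Set.range y)) u).natDegree = P.natDegree := by
    rw [hmp, hmonic.natDegree_map]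
  set k := P.natDegree with hk
  -- lift the coefficients
  have hlift : ∀ j, ∃ c : MvPolynomial (Fin m) K, aeval y c = ((P.coeff j : _) : Ω) := by
    intro j
    have h1 := (P.coeff j).2
    have h2 : ((P.coeff j : _) : Ω) ∈ (aeval y : MvPolynomial (Fin m) K →ₐ[K] Ω).range := by
      rw [← Algebra.adjoin_range_eq_range_aeval]
      exact h1
    exact h2
  choose c hc using hlift
  have hck : c k = 1 := by
    apply indep
    rw [hc k, map_one, hk, hmonic.coeff_natDegree]; rfl
  have hcoef : ∀ j, (((minpoly (adjoin K (Set.range y)) u).coeff j : _) : Ω) = aeval y (c j) := by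
    intro j
    rw [hmp, Polynomial.coeff_map, hc j]; rfl
  -- the relation in the polynomial ring
  have hrel : aeval x (∑ j ∈ Finset.range (k + 1), aeval l (c j) * q ^ j) = 0 := by
    rw [map_sum]
    have h0 : Polynomial.aeval u P = 0 := minpoly.aeval _ _
    rw [Polynomial.aeval_eq_sum_range] at h0
    rw [← hk] at h0
    rw [← h0]
    apply Finset.sum_congr rfl
    intro j _
    rw [map_mul, map_pow, aeval_aeval_lin, hc j, ← hu]
    rfl
  have hrel2 := hom _ hrel (e * k)
  rw [hc_sum, map_sum] at hrel2
  have hterm : ∀ j ∈ Finset.range (k + 1),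
      aeval x (homogeneousComponent (e * k) (aeval l (c j) * q ^ j : MvPolynomial (Fin n) K)) =
        aeval y (homogeneousComponent (e * (k - j)) (c j)) * u ^ j := by
    intro j hj
    have hjk : j ≤ k := by simpa [Nat.lt_succ_iff] using hj
    have he : e * k = e * (k - j) + e * j := by rw [← mul_add, Nat.sub_add_cancel hjk]
    rw [he, hc_mul _ _ (hq.pow j), hc_aeval lin, map_mul, map_pow, aeval_aeval_lin]
  rw [Finset.sum_congr rfl hterm] at hrel2
  have hrel3 : ∑ j ∈ Finset.range (k + 1), aeval y (c j) * u ^ j = 0 := by
    rw [map_sum] at hrel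
    rw [← hrel]
    apply Finset.sum_congr rfl
    intro j _
    rw [map_mul, map_pow, aeval_aeval_lin]
  -- difference polynomial
  have hdiff : ∑ j ∈ Finset.range k,
      aeval y (c j - homogeneousComponent (e * (k - j)) (c j)) * u ^ j = 0 := by
    have h1 : ∑ j ∈ Finset.range (k + 1),
        aeval y (c j - homogeneousComponent (e * (k - j)) (c j)) * u ^ j = 0 := by
      have : ∀ j ∈ Finset.range (k + 1),
          aeval y (c j - homogeneousComponent (e * (k - j)) (c j)) * u ^ j =
          aeval y (c j) * u ^ j - aeval y (homogeneousComponent (e * (k - j)) (c j)) * u ^ j := by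
        intro j _; rw [map_sub, sub_mul]
      rw [Finset.sum_congr rfl this, Finset.sum_sub_distrib, hrel3, hrel2, sub_zero]
    rw [Finset.sum_range_succ] at h1
    have h2 : c k - homogeneousComponent (e * (k - k)) (c k) = 0 := by
      rw [hck, Nat.sub_self, mul_zero, homogeneousComponent_eq_self (isHomogeneous_one _ _),
        sub_self]
    rw [h2, map_zero, zero_mul, add_zero] at h1
    exact h1
  have hmem : ∀ c' : MvPolynomial (Fin m) K, aeval y c' ∈ adjoin K (Set.range y) := by
    intro c'
    apply algebra_adjoin_le_adjoin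
    rw [Algebra.adjoin_range_eq_range_aeval]
    exact ⟨c', rfl⟩
  let D : Polynomial (adjoin K (Set.range y)) := ∑ j ∈ Finset.range k,
    Polynomial.C ⟨aeval y (c j - homogeneousComponent (e * (k - j)) (c j)), hmem _⟩ *
      Polynomial.X ^ j
  have hDu : Polynomial.aeval u D = 0 := by
    simp only [D, map_sum, map_mul, map_pow, Polynomial.aeval_C, Polynomial.aeval_X]
    exact hdiff
  have hint2 : IsIntegral (adjoin K (Set.range y)) u := by
    have := hint.tower_top (A := adjoin K (Set.range y))
    exact this
  have hD0 : D = 0 := by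
    by_contra hne
    have h3 := minpoly.degree_le_of_ne_zero (adjoin K (Set.range y)) u hne hDu
    have h4 : D.degree < k := by
      rw [Polynomial.degree_lt_iff_coeff_zero]
      intro i hi
      simp only [D, Polynomial.finsetSum_coeff, Polynomial.coeff_C_mul_X_pow]
      apply Finset.sum_eq_zero
      intro j hj
      have : j < k := by simpa using hj
      rw [if_neg (by omega)]
    have h5 : (k : WithBot ℕ) ≤ D.degree := by
      rw [← hdeg, ← Polynomial.degree_eq_natDegree (minpoly.ne_zero hint2)]
      exact h3
    exact absurd h4 (not_lt.mpr h5)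
  have hcj : ∀ j < k, c j = homogeneousComponent (e * (k - j)) (c j) := by
    intro j hj
    have h6 : D.coeff j = ⟨aeval y (c j - homogeneousComponent (e * (k - j)) (c j)), hmem _⟩ := by
      simp only [D, Polynomial.finsetSum_coeff, Polynomial.coeff_C_mul_X_pow]
      rw [Finset.sum_ite_eq]
      simp [hj]
    rw [hD0, Polynomial.coeff_zero] at h6
    have h7 : aeval y (c j - homogeneousComponent (e * (k - j)) (c j)) = 0 :=
      (congrArg Subtype.val h6).symm
    have h8 := indep (h7.trans (map_zero _).symm)
    exact sub_eq_zero.mp h8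
  refine ⟨fun i => if i ≤ k then homogeneousComponent (e * i) (c (k - i)) else 0, ?_, ?_, ?_⟩
  · intro i
    by_cases hi : i ≤ k
    · simp only [hi, if_true]
      exact homogeneousComponent_isHomogeneous _ _
    · simp only [hi, if_false]
      exact isHomogeneous_zero _ _ _
  · simp only [Nat.zero_le, if_true, Nat.sub_zero, mul_zero, hck]
    exact homogeneousComponent_eq_self (isHomogeneous_one _ _)
  · intro j hj
    rw [hdeg] at hj ⊢
    rw [hcoef j]
    have h9 : k - (k - j) = j := Nat.sub_sub_self hj
    simp only [Nat.sub_le, if_true, h9]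
    rcases hj.lt_or_eq with h | h
    · rw [← hcj j h]
    · subst h
      rw [Nat.sub_self, mul_zero]
      congr 1
      have h10 : ∀ c' : MvPolynomial (Fin m) K, c' = 1 → c' = homogeneousComponent 0 c' := by
        rintro _ rfl
        exact (homogeneousComponent_eq_self (isHomogeneous_one _ _)).symm
      exact h10 _ hck

end LeepA
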