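import Pool.Agent.H5.Leep.Nak
import Pool.Agent.H5.Leep.MinHom

/-!
Graded Nakayama step: the new generators.
-/

namespace LeepA

open MvPolynomial Module

set_option maxHeartbeats 400000

variable {K Ω : Type} [Field K] [Field Ω] [Algebra K Ω] {n m : ℕ}

/-- the form attached to a vector -/
noncomputable def phi {ι : Type} [Fintype ι] (l0 : MvPolynomial (Fin n) K)
    (b : ι → MvPolynomial (Fin n) K) (d : ι → ℕ) (e : ℕ) (v : ι → K) : MvPolynomial (Fin n) K :=
  ∑ i, C (v i) * l0 ^ (e - d i) * b i

theorem phi_homog {ι : Type} [Fintype ι] {l0 : MvPolynomial (Fin n) K} (hl0 : l0.IsHomogeneous 1)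
    {b : ι → MvPolynomial (Fin n) K} {d : ι → ℕ} (hb : ∀ i, (b i).IsHomogeneous (d i)) {e : ℕ}
    {v : ι → K} (hv : v ∈ suppOn K (fun i => d i ≤ e)) : (phi l0 b d e v).IsHomogeneous e := by
  apply IsHomogeneous.sum
  intro i _
  by_cases hi : d i ≤ e
  · have h1 := (((isHomogeneous_C (Fin n) (v i)).mul (hl0.pow (e - d i))).mul (hb i))
    have h2 : 0 + 1 * (e - d i) + d i = e := by omega
    rwa [h2] at h1
  · rw [hv i hi, C_0, zero_mul, zero_mul]
    exact isHomogeneous_zero _ _ _

theorem phi_lin {ι : Type} [Fintype ι] (l0 : MvPolynomial (Fin n) K)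
    (b : ι → MvPolynomial (Fin n) K) (d : ι → ℕ) (e : ℕ) (x : Fin n → Ω) (v w : ι → K) (c : K) :
    aeval x (phi l0 b d e (v + c • w)) = aeval x (phi l0 b d e v) + c • aeval x (phi l0 b d e w) := by
  simp only [phi, map_sum, Finset.smul_sum]
  rw [← Finset.sum_add_distrib]
  apply Finset.sum_congr rfl
  intro i _
  rw [Pi.add_apply, Pi.smul_apply, smul_eq_mul, C_add, C_mul]
  simp only [map_mul, map_add, algHom_C, map_pow, Algebra.smul_def]
  ring

/-- `phi` as a linear map with values in `Ω` -/
noncomputable def phiL {ι : Type} [Fintype ι] (l0 : MvPolynomial (Fin n) K)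
    (b : ι → MvPolynomial (Fin n) K) (d : ι → ℕ) (e : ℕ) (x : Fin n → Ω) : (ι → K) →ₗ[K] Ω where
  toFun v := aeval x (phi l0 b d e v)
  map_add' v w := by
    have := phi_lin l0 b d e x v w 1
    rwa [one_smul, one_smul] at this
  map_smul' c v := by
    have := phi_lin l0 b d e x 0 v c
    rw [zero_add] at this
    rw [this]
    simp [phi]

theorem phiL_apply {ι : Type} [Fintype ι] (l0 : MvPolynomial (Fin n) K)
    (b : ι → MvPolynomial (Fin n) K) (d : ι → ℕ) (e : ℕ) (x : Fin n → Ω) (v : ι → K) :
    phiL l0 b d e x v = aeval x (phi l0 b d e v) := rfl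

theorem nakayama (x x' : Fin n → Ω) (l : Fin (m + 1) → MvPolynomial (Fin n) K)
    (hl : ∀ j, (l j).IsHomogeneous 1)
    (hrel : ∀ f : MvPolynomial (Fin n) K, aeval x f = 0 → aeval x' f = 0)
    {ι : Type} [Fintype ι] (b : ι → MvPolynomial (Fin n) K) (d : ι → ℕ)
    (hb : ∀ i, (b i).IsHomogeneous (d i)) (c : ℕ) (hd : ∀ e, Nat.card {i // d i = e} = c.choose e)
    (hgen : ∀ (e : ℕ) (f : MvPolynomial (Fin n) K), f.IsHomogeneous e →
      ∃ g : ι → MvPolynomial (Fin (m + 1)) K, (∀ i, (g i).IsHomogeneous (e - d i)) ∧
        (∀ i, e < d i → g i = 0) ∧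
        aeval x f = ∑ i, aeval (fun j => aeval x (l j)) (g i) * aeval x (b i))
    (q : MvPolynomial (Fin n) K) (hqx' : aeval x' q = 0)
    (Q : ι → ι → MvPolynomial (Fin (m + 1)) K)
    (hQh : ∀ i j, (Q i j).IsHomogeneous (2 + d j - d i)) (hQz : ∀ i j, 2 + d j < d i → Q i j = 0)
    (hQ : ∀ j, aeval x (q * b j) = ∑ i, aeval (fun j => aeval x (l j)) (Q i j) * aeval x (b i))
    (hinv : ∀ v : ι → K, (∀ i, ∑ j, eval (Pi.single 0 1) (Q i j) * v j = 0) → v = 0) :
    FR x' (fun j : Fin m => l j.succ) (c + 1) := by
  classical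
  -- the relations at `x'`
  have hrel' : ∀ (f : MvPolynomial (Fin n) K) (g : ι → MvPolynomial (Fin (m + 1)) K),
      aeval x f = ∑ i, aeval (fun j => aeval x (l j)) (g i) * aeval x (b i) →
      aeval x' f = ∑ i, aeval (fun j => aeval x' (l j)) (g i) * aeval x' (b i) := by
    intro f g hfg
    have h1 : aeval x (f - ∑ i, aeval l (g i) * b i) = 0 := by
      rw [map_sub, hfg, map_sum, sub_eq_zero]
      apply Finset.sum_congr rfl
      intro i _
      rw [map_mul, aeval_aeval_lin]
    have h2 := hrel _ h1
    rw [map_sub, sub_eq_zero, map_sum] at h2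
    rw [h2]
    apply Finset.sum_congr rfl
    intro i _
    rw [map_mul, aeval_aeval_lin]
  -- the matrix
  let Qb : Matrix ι ι K := Matrix.of fun i j => eval (Pi.single 0 1) (Q i j)
  have hQb : ∀ v i, Qb.mulVec v i = ∑ j, eval (Pi.single 0 1) (Q i j) * v j := fun _ _ => rfl
  let U : ℕ → Submodule K (ι → K) := fun e => suppOn K (fun i => d i ≤ e)
  let U2 : ℕ → Submodule K (ι → K) := fun e => suppOn K (fun i => d i + 2 ≤ e)
  have hinj : Function.Injective Qb.mulVecLin := by
    rw [injective_iff_map_eq_zero]
    intro v hv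
    apply hinv
    intro i
    rw [← hQb]
    exact congrFun hv i
  have hmapU : ∀ e, (U2 e).map Qb.mulVecLin ≤ U e := by
    rintro e _ ⟨v, hv, rfl⟩ i hi
    rw [Matrix.mulVecLin_apply, hQb]
    apply Finset.sum_eq_zero
    intro j _
    by_cases hj : d j + 2 ≤ e
    · rw [hQz i j (by omega), map_zero, zero_mul]
    · rw [hv j hj, mul_zero]
  have hrank : ∀ e, finrank K (U e) = finrank K ((U2 e).map Qb.mulVecLin) + (c + 1).choose e := by
    intro e
    rw [← (Submodule.equivMapOfInjective Qb.mulVecLin hinj (U2 e)).finrank_eq, finrank_suppOn,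
      finrank_suppOn]
    exact card_step d c hd e
  have hw : ∀ e, ∃ w : Fin ((c + 1).choose e) → (ι → K), (∀ i, w i ∈ U e) ∧
      ∀ v ∈ U e, ∃ a ∈ (U2 e).map Qb.mulVecLin, ∃ κ : Fin ((c + 1).choose e) → K,
        v = a + ∑ i, κ i • w i :=
    fun e => exists_supplement _ _ (hmapU e) _ (hrank e)
  choose w hwU hwspan using hw
  -- the new generators
  let ι' : Type := Σ e : Fin (c + 2), Fin ((c + 1).choose e)
  let d' : ι' → ℕ := fun i => i.1
  let b' : ι' → MvPolynomial (Fin n) K := fun i => phi (l 0) b d i.1 (w i.1 i.2)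
  have hb' : ∀ i, (b' i).IsHomogeneous (d' i) := fun i => phi_homog (hl 0) hb (hwU _ _)
  refine ⟨ι', inferInstance, b', d', hb', ?_, ?_⟩
  · intro e
    rw [Nat.card_eq_fintype_card]
    by_cases he : e < c + 2
    · let E : {i : ι' // d' i = e} ≃ Fin ((c + 1).choose e) :=
        { toFun := fun i => Fin.cast (congrArg (fun t => (c + 1).choose t) i.2) i.1.2
          invFun := fun k => ⟨⟨⟨e, he⟩, k⟩, rfl⟩
          left_inv := by
            rintro ⟨⟨⟨e', he'⟩, k⟩, h⟩
            change e' = e at h
            subst h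
            rfl
          right_inv := fun k => rfl }
      rw [Fintype.card_congr E, Fintype.card_fin]
    · rw [Nat.choose_eq_zero_of_lt (by omega), Fintype.card_eq_zero_iff]
      constructor
      rintro ⟨⟨e', k⟩, h⟩
      change (e' : ℕ) = e at h
      omega
  · -- spanning
    have hgenT : ∀ e (k : Fin ((c + 1).choose e)), aeval x' (phi (l 0) b d e (w e k)) ∈
        TT x' (fun j : Fin m => aeval x' (l j.succ)) b' d' e := by
      intro e k
      have he : e < c + 2 := by
        by_contra hcon
        have h1 : (c + 1).choose e = 0 := Nat.choose_eq_zero_of_lt (by omega)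
        have := k.2
        omega
      exact mem_TT_gen x' (fun j : Fin m => aeval x' (l j.succ)) b' d' ⟨⟨e, he⟩, k⟩
    -- the relation from `q`
    have hQM : ∀ e, ∀ δ ∈ U2 e, phiL (l 0) b d e x' (Qb.mulVec δ) ∈
        (MM x' (fun j : Fin m => aeval x' (l j.succ)) e : Submodule K Ω) := by
      intro e δ hδ
      have h1 : phiL (l 0) b d e x' (Qb.mulVec δ) =
          ∑ j, δ j • phiL (l 0) b d e x' (fun i => eval (Pi.single 0 1) (Q i j)) := by
        have h2 : Qb.mulVec δ = ∑ j, δ j • (fun i => eval (Pi.single 0 1) (Q i j)) := by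
          ext i
          rw [hQb, Finset.sum_apply]
          apply Finset.sum_congr rfl
          intro j _
          rw [Pi.smul_apply, smul_eq_mul, mul_comm]
        rw [h2, map_sum]
        apply Finset.sum_congr rfl
        intro j _
        rw [map_smul]
      rw [h1]
      apply sum_mem
      intro j _
      by_cases hj : d j + 2 ≤ e
      · apply Submodule.smul_mem
        have h3 := hrel' _ _ (hQ j)
        rw [map_mul, hqx', zero_mul] at h3
        have h4 : phiL (l 0) b d e x' (fun i => eval (Pi.single 0 1) (Q i j)) =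
            - ∑ i, (aeval (fun j => aeval x' (l j)) (X 0 ^ (e - 2 - d j) * Q i j) * aeval x' (b i) -
              algebraMap K Ω (eval (Pi.single 0 1) (Q i j)) * aeval x' (l 0) ^ (e - d i) *
                aeval x' (b i)) := by
          rw [Finset.sum_sub_distrib]
          have h5 : ∑ i, aeval (fun j => aeval x' (l j)) (X 0 ^ (e - 2 - d j) * Q i j) *
              aeval x' (b i) = 0 := by
            have h6 : ∀ i, aeval (fun j => aeval x' (l j)) (X 0 ^ (e - 2 - d j) * Q i j) *
              aeval x' (b i) = aeval x' (l 0) ^ (e - 2 - d j) *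
                (aeval (fun j => aeval x' (l j)) (Q i j) * aeval x' (b i)) := by
              intro i
              rw [map_mul, map_pow, aeval_X, mul_assoc]
            rw [Finset.sum_congr rfl (fun i _ => h6 i), ← Finset.mul_sum, ← h3, mul_zero]
          rw [h5, zero_sub, neg_neg, phiL_apply, phi, map_sum]
          apply Finset.sum_congr rfl
          intro i _
          rw [map_mul, map_mul, algHom_C, map_pow]
        rw [h4]
        apply neg_mem
        apply sum_mem
        intro i _
        by_cases hi : 2 + d j < d i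
        · rw [hQz i j hi]
          simp only [mul_zero, map_zero, zero_mul, sub_zero]
          exact zero_mem _
        · have h7 : (X 0 ^ (e - 2 - d j) * Q i j).IsHomogeneous (e - d i) := by
            have h8 := ((isHomogeneous_X_pow (R := K) (0 : Fin (m + 1)) (e - 2 - d j))).mul (hQh i j)
            have h9 : e - 2 - d j + (2 + d j - d i) = e - d i := by omega
            rwa [h9] at h8
          have h10 : eval (Pi.single 0 1) (X 0 ^ (e - 2 - d j) * Q i j) =
              eval (Pi.single 0 1) (Q i j) := by
            rw [map_mul, map_pow, eval_X, Pi.single_eq_same, one_pow, one_mul]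
          rw [← h10]
          exact mem_MM_A x' l hl h7 (hb i) (by omega)
      · rw [hδ j hj, zero_smul]
        exact zero_mem _
    have hkey : ∀ (e : ℕ), (MM x' (fun j : Fin m => aeval x' (l j.succ)) e : Submodule K Ω) ≤
        TT x' (fun j : Fin m => aeval x' (l j.succ)) b' d' e →
        ∀ (f : MvPolynomial (Fin n) K), f.IsHomogeneous e →
        aeval x' f ∈ TT x' (fun j : Fin m => aeval x' (l j.succ)) b' d' e := by
      intro e hMT f hf
      obtain ⟨g, hgh, hgz, hg⟩ := hgen e f hf
      have h1 := hrel' f g hg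
      let v : ι → K := fun i => eval (Pi.single 0 1) (g i)
      have hv : v ∈ U e := by
        intro i hi
        change eval (Pi.single 0 1) (g i) = 0
        rw [hgz i (by omega), map_zero]
      have h2 : aeval x' f - phiL (l 0) b d e x' v ∈
          (MM x' (fun j : Fin m => aeval x' (l j.succ)) e : Submodule K Ω) := by
        rw [h1, phiL_apply, phi, map_sum, ← Finset.sum_sub_distrib]
        apply sum_mem
        intro i _
        rw [map_mul, map_mul, algHom_C, map_pow]
        by_cases hi : e < d i
        · have h3 : v i = 0 := hv i (by omega)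
          rw [h3, hgz i hi]
          simp only [map_zero, zero_mul, sub_zero]
          exact zero_mem _
        · exact mem_MM_A x' l hl (hgh i) (hb i) (by omega)
      obtain ⟨_, ⟨δ, hδ, rfl⟩, κ, hκ⟩ := hwspan e v hv
      have h3 : phiL (l 0) b d e x' v ∈
          TT x' (fun j : Fin m => aeval x' (l j.succ)) b' d' e := by
        rw [hκ, map_add, map_sum]
        apply add_mem
        · exact hMT (hQM e δ hδ)
        · apply sum_mem
          intro k _
          rw [map_smul]
          exact Submodule.smul_mem _ _ (hgenT e k)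
      have h4 := add_mem (hMT h2) h3
      rwa [sub_add_cancel] at h4
    have hmain : ∀ (e : ℕ) (f : MvPolynomial (Fin n) K), f.IsHomogeneous e →
        aeval x' f ∈ TT x' (fun j : Fin m => aeval x' (l j.succ)) b' d' e := by
      intro e
      induction e with
      | zero =>
        apply hkey
        rw [MM, Submodule.span_le]
        rintro z ⟨e', j, F, he, -⟩
        omega
      | succ e ih =>
        apply hkey
        rw [MM, Submodule.span_le]
        rintro z ⟨e', j, F, he, hF, rfl⟩
        obtain rfl : e = e' := by omega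
        exact mem_TT_mul x' (fun j : Fin m => aeval x' (l j.succ)) b' d' e j (ih F hF)
    intro e f hf
    exact hmain e f hf

end LeepA
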