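import Pool.Agent.H5.Leep.IntHom
import Pool.Agent.H5.Leep.Nak2

/-!
The generators of the coordinate ring form a basis of the function field; the determinant of the
multiplication by `q`.
-/

namespace LeepA

open MvPolynomial IntermediateField Module

set_option maxHeartbeats 400000

variable {K Ω : Type} [Field K] [Field Ω] [Algebra K Ω] {n m : ℕ}

theorem card_of_choose {ι : Type} [Fintype ι] (d : ι → ℕ) (c : ℕ)
    (hd : ∀ e, Nat.card {i // d i = e} = c.choose e) : Fintype.card ι = 2 ^ c := by
  classical
  have hd' : ∀ e, (Finset.univ.filter fun i => d i = e).card = c.choose e := by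
    intro e
    rw [← hd e, Nat.card_eq_fintype_card, Fintype.card_subtype]
  have h1 : ∀ i ∈ (Finset.univ : Finset ι), d i ∈ Finset.range (c + 1) := by
    intro i _
    rw [Finset.mem_range]
    by_contra hcon
    have h2 := hd' (d i)
    rw [Nat.choose_eq_zero_of_lt (by omega), Finset.card_eq_zero] at h2
    have h3 : i ∈ Finset.univ.filter fun i' => d i' = d i := by simp
    rw [h2] at h3
    exact absurd h3 (Finset.notMem_empty _)
  rw [← Finset.card_univ, Finset.card_eq_sum_card_fiberwise h1]
  rw [Finset.sum_congr rfl (fun e _ => hd' e), Nat.sum_range_choose]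

/-- abstract spanning statement -/
theorem span_abs (Ky Kx : IntermediateField K Ω) (hle : Ky ≤ Kx) (x : Fin n → Ω)
    (hx : ∀ f : MvPolynomial (Fin n) K, aeval x f ∈ Kx)
    (hfrac : ∀ z ∈ Kx, ∃ r s : MvPolynomial (Fin n) K, z = aeval x r / aeval x s)
    (halg : Algebra.IsAlgebraic Ky (extendScalars hle))
    (S : Submodule Ky (extendScalars hle))
    (hS : ∀ f : MvPolynomial (Fin n) K, (⟨aeval x f, hx f⟩ : extendScalars hle) ∈ S) : S = ⊤ := by
  have hxi : ∀ i, x i ∈ Kx := fun i => by
    have := hx (X i)
    rwa [aeval_X] at this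
  let xx : Fin n → extendScalars hle := fun i => ⟨x i, hxi i⟩
  let A' : Subalgebra Ky (extendScalars hle) := Algebra.adjoin Ky (Set.range xx)
  have hA'S : ∀ z ∈ A', z ∈ S := by
    intro z hz
    have h1 : z ∈ Submodule.span Ky (Submonoid.closure (Set.range xx) : Set (extendScalars hle)) := by
      rw [← Algebra.adjoin_eq_span]
      exact hz
    have h2 : Submodule.span Ky (Submonoid.closure (Set.range xx) : Set (extendScalars hle)) ≤ S := by
      rw [Submodule.span_le]
      intro z hz
      have h3 : ∃ f : MvPolynomial (Fin n) K, z = (⟨aeval x f, hx f⟩ : extendScalars hle) := by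
        induction hz using Submonoid.closure_induction with
        | mem z hz =>
          obtain ⟨i, rfl⟩ := hz
          exact ⟨X i, Subtype.ext (by simp [xx])⟩
        | one => exact ⟨1, Subtype.ext (by simp)⟩
        | mul a b _ _ ha hb =>
          obtain ⟨f, rfl⟩ := ha
          obtain ⟨g, rfl⟩ := hb
          exact ⟨f * g, Subtype.ext (by simp)⟩
      obtain ⟨f, rfl⟩ := h3
      exact hS f
    exact h2 h1
  have hfA' : ∀ f : MvPolynomial (Fin n) K, (⟨aeval x f, hx f⟩ : extendScalars hle) ∈ A' := by
    intro f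
    have h1 : ∀ f : MvPolynomial (Fin n) K, ∃ a ∈ A', (a : Ω) = aeval x f := by
      intro f
      induction f using MvPolynomial.induction_on with
      | C c =>
        refine ⟨algebraMap Ky _ (algebraMap K Ky c), Subalgebra.algebraMap_mem _ _, ?_⟩
        rw [algHom_C]
        rfl
      | add p q hp hq =>
        obtain ⟨a, ha, ha'⟩ := hp
        obtain ⟨b, hb, hb'⟩ := hq
        exact ⟨a + b, add_mem ha hb, by rw [map_add, ← ha', ← hb']; rfl⟩
      | mul_X p i hp =>
        obtain ⟨a, ha, ha'⟩ := hp
        refine ⟨a * xx i, mul_mem ha (Algebra.subset_adjoin ⟨i, rfl⟩), ?_⟩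
        rw [map_mul, ← ha', aeval_X]
        rfl
    obtain ⟨a, ha, ha'⟩ := h1 f
    have h2 : a = (⟨aeval x f, hx f⟩ : extendScalars hle) := Subtype.ext ha'
    rw [← h2]
    exact ha
  rw [eq_top_iff]
  intro z _
  apply hA'S
  obtain ⟨r, s, hrs⟩ := hfrac z.1 z.2
  have hz : z = (⟨aeval x r, hx r⟩ : extendScalars hle) *
      (⟨aeval x s, hx s⟩ : extendScalars hle)⁻¹ := by
    apply Subtype.ext
    rw [hrs, div_eq_mul_inv]
    rfl
  rw [hz]
  apply mul_mem (hfA' r)
  exact Subalgebra.inv_mem_of_algebraic (A := A') (x := ⟨_, hfA' s⟩)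
    (Algebra.IsAlgebraic.isAlgebraic _)

theorem det_abs (Ky Kx : IntermediateField K Ω) (hle : Ky ≤ Kx) {ι : Type} [Fintype ι]
    [DecidableEq ι] (bb : ι → extendScalars hle) (hspan : ⊤ ≤ Submodule.span Ky (Set.range bb))
    (hcard : Fintype.card ι = finrank Ky (extendScalars hle)) (u : extendScalars hle)
    (M : Matrix ι ι Ky) (hM : ∀ j, u * bb j = ∑ i, M i j • bb i) :
    Algebra.norm Ky u = M.det := by
  let B : Basis ι Ky (extendScalars hle) := basisOfTopLeSpanOfCardEqFinrank bb hspan hcard
  have hB : ⇑B = bb := coe_basisOfTopLeSpanOfCardEqFinrank _ _ _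
  rw [Algebra.norm_eq_matrix_det B]
  congr 1
  ext i j
  rw [Algebra.leftMulMatrix_eq_repr_mul, hB, hM, ← hB, B.repr_sum_self]

theorem det_inv {x : Fin n → Ω} {l : Fin (m + 1) → MvPolynomial (Fin n) K} {c : ℕ}
    (st : Stage x l (2 ^ c)) {ι : Type} [Fintype ι] (b : ι → MvPolynomial (Fin n) K) (d : ι → ℕ)
    (hd : ∀ e, Nat.card {i // d i = e} = c.choose e)
    (hgen : ∀ (e : ℕ) (f : MvPolynomial (Fin n) K), f.IsHomogeneous e →
      ∃ g : ι → MvPolynomial (Fin (m + 1)) K, (∀ i, (g i).IsHomogeneous (e - d i)) ∧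
        (∀ i, e < d i → g i = 0) ∧
        aeval x f = ∑ i, aeval (fun j => aeval x (l j)) (g i) * aeval x (b i))
    (q : MvPolynomial (Fin n) K) (hmem : aeval x q ∈ adjoin K (Set.range x))
    (Q : ι → ι → MvPolynomial (Fin (m + 1)) K)
    (hQ : ∀ j, aeval x (q * b j) = ∑ i, aeval (fun j => aeval x (l j)) (Q i j) * aeval x (b i))
    (N : MvPolynomial (Fin (m + 1)) K)
    (hN : ((Algebra.norm (adjoin K (Set.range fun j => aeval x (l j)))
        (⟨aeval x q, hmem⟩ : extendScalars (field_le x l)) :
        adjoin K (Set.range fun j => aeval x (l j))) : Ω) = aeval (fun j => aeval x (l j)) N)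
    (hN0 : eval (Pi.single 0 1) N ≠ 0) :
    ∀ v : ι → K, (∀ i, ∑ j, eval (Pi.single 0 1) (Q i j) * v j = 0) → v = 0 := by
  classical
  have hdeg := st.deg
  rw [relfinrank_eq_finrank_of_le (field_le x l)] at hdeg
  have hfin : FiniteDimensional (adjoin K (Set.range fun j => aeval x (l j)))
      (extendScalars (field_le x l)) := by
    apply FiniteDimensional.of_finrank_pos
    rw [hdeg]
    positivity
  have hx : ∀ f : MvPolynomial (Fin n) K, aeval x f ∈ adjoin K (Set.range x) := by
    intro f
    apply algebra_adjoin_le_adjoin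
    rw [Algebra.adjoin_range_eq_range_aeval]
    exact ⟨f, rfl⟩
  have hy : ∀ g : MvPolynomial (Fin (m + 1)) K, aeval (fun j => aeval x (l j)) g ∈
      adjoin K (Set.range fun j => aeval x (l j)) := by
    intro f
    apply algebra_adjoin_le_adjoin
    rw [Algebra.adjoin_range_eq_range_aeval]
    exact ⟨f, rfl⟩
  let bb : ι → extendScalars (field_le x l) := fun i => ⟨aeval x (b i), hx (b i)⟩
  have hspan : Submodule.span (adjoin K (Set.range fun j => aeval x (l j))) (Set.range bb) = ⊤ := by
    apply span_abs _ _ (field_le x l) x hx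
    · intro z hz
      rw [mem_adjoin_range_iff] at hz
      exact hz
    · infer_instance
    · intro f
      have h1 : (⟨aeval x f, hx f⟩ : extendScalars (field_le x l)) =
          ∑ e ∈ Finset.range (f.totalDegree + 1),
            ⟨aeval x (homogeneousComponent e f), hx _⟩ := by
        apply Subtype.ext
        rw [AddSubmonoidClass.coe_finsetSum]
        change aeval x f = ∑ e ∈ Finset.range (f.totalDegree + 1),
          aeval x (homogeneousComponent e f)
        rw [← map_sum, sum_homogeneousComponent f]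
      rw [h1]
      apply sum_mem
      intro e _
      obtain ⟨g, -, -, hg⟩ := hgen e _ (homogeneousComponent_isHomogeneous e f)
      have h2 : (⟨aeval x (homogeneousComponent e f), hx _⟩ : extendScalars (field_le x l)) =
          ∑ i, (⟨aeval (fun j => aeval x (l j)) (g i), hy _⟩ :
            adjoin K (Set.range fun j => aeval x (l j))) • bb i := by
        apply Subtype.ext
        rw [AddSubmonoidClass.coe_finsetSum]
        exact hg
      rw [h2]
      apply sum_mem
      intro i _
      exact Submodule.smul_mem _ _ (Submodule.subset_span ⟨i, rfl⟩)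
  let θ : MvPolynomial (Fin (m + 1)) K →+* adjoin K (Set.range fun j => aeval x (l j)) :=
    RingHom.codRestrict (aeval (fun j => aeval x (l j)) : MvPolynomial (Fin (m + 1)) K →ₐ[K] Ω).toRingHom
      (adjoin K (Set.range fun j => aeval x (l j))) hy
  have hdet := det_abs _ _ (field_le x l) bb hspan.ge
    (by rw [card_of_choose d c hd, hdeg]) ⟨aeval x q, hmem⟩ ((Matrix.of Q).map θ) (by
      intro j
      apply Subtype.ext
      rw [AddSubmonoidClass.coe_finsetSum]
      have h1 := hQ j
      rw [map_mul] at h1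
      exact h1)
  have h2 : ((Matrix.of Q).map θ).det = θ (Matrix.of Q).det := by
    rw [RingHom.map_det]
    rfl
  rw [h2] at hdet
  rw [hdet] at hN
  have h3 : (Matrix.of Q).det = N := st.indep hN
  have h4 : (((Matrix.of Q).map (eval (Pi.single 0 1 : Fin (m + 1) → K)))).det ≠ 0 := by
    have h5 := RingHom.map_det (eval (Pi.single 0 1 : Fin (m + 1) → K)) (Matrix.of Q)
    rw [h3] at h5
    change (RingHom.mapMatrix (eval (Pi.single 0 1 : Fin (m + 1) → K)) (Matrix.of Q)).det ≠ 0
    rw [← h5]
    exact hN0
  intro v hv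
  apply Matrix.eq_zero_of_mulVec_eq_zero h4
  ext i
  exact hv i

end LeepA
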