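import Mathlib

/-!
A finite-dimensional algebra whose dimension is not divisible by `p` has a residue field whose
degree is not divisible by `p`.
-/

namespace LeepA

open Module

universe u

theorem exists_maximal_module {F : Type*} {B : Type*} [Field F] [CommRing B] [Algebra F B]
    (p : ℕ) : ∀ (k : ℕ) (N : Type u) [AddCommGroup N] [Module F N] [Module B N]
      [IsScalarTower F B N] [FiniteDimensional F N], finrank F N = k → ¬ p ∣ k →
      ∃ P : Ideal B, P.IsMaximal ∧ ¬ p ∣ finrank F (B ⧸ P) := by
  intro k
  induction k using Nat.strong_induction_on with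
  | _ k ih =>
    intro N _ _ _ _ _ hk hp
    have hk0 : k ≠ 0 := by
      rintro rfl; exact hp (dvd_zero p)
    have hnt : Nontrivial N := by
      apply Module.nontrivial_of_finrank_pos (R := F)
      omega
    -- artinian over `B`
    have : IsArtinian B N := isArtinian_of_tower F inferInstance
    have : IsAtomic (Submodule B N) := inferInstance
    obtain ⟨S, hS⟩ : ∃ S : Submodule B N, IsAtom S := IsAtomic.exists_atom _
    have hsimple : IsSimpleModule B S := isSimpleModule_iff_isAtom.mpr hS
    obtain ⟨P, hP, ⟨e⟩⟩ := isSimpleModule_iff_quot_maximal.mp hsimple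
    have hSF : finrank F S = finrank F (B ⧸ P) := (e.restrictScalars F).finrank_eq
    have hadd : finrank F (N ⧸ S) + finrank F S = finrank F N := by
      have := Submodule.finrank_quotient_add_finrank (S.restrictScalars F)
      exact this
    by_cases hd : p ∣ finrank F S
    · have hSpos : 0 < finrank F S := by
        have : Nontrivial S := Submodule.nontrivial_iff_ne_bot.mpr hS.1
        have : FiniteDimensional F S := by
          have h3 : FiniteDimensional F (S.restrictScalars F) := inferInstance
          exact h3
        exact Module.finrank_pos
      have : FiniteDimensional F (N ⧸ S) := by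
        have : FiniteDimensional F (N ⧸ (S.restrictScalars F)) := inferInstance
        exact this
      refine ih (finrank F (N ⧸ S)) (by omega) (N ⧸ S) rfl ?_
      intro h2
      apply hp
      rw [← hk, ← hadd]
      exact dvd_add h2 hd
    · exact ⟨P, hP, by rwa [← hSF]⟩

theorem exists_maximal {F : Type*} {B : Type*} [Field F] [CommRing B] [Algebra F B]
    [FiniteDimensional F B] (p : ℕ) (h : ¬ p ∣ finrank F B) :
    ∃ P : Ideal B, P.IsMaximal ∧ ¬ p ∣ finrank F (B ⧸ P) :=
  exists_maximal_module p _ B rfl h

end LeepA
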