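import Pool.Agent.H5.Leep.GDCore
import Pool.Agent.H5.Leep.DArg

/-!
The D-argument, general form.
-/

namespace LeepG

open MvPolynomial IntermediateField LeepA

theorem bad_finrank {K0 Ω : Type} [Field K0] [Field Ω] [Algebra K0 Ω] [CharZero K0]
    {ℓ r : ℕ} (M0 : IntermediateField K0 Ω) [FiniteDimensional K0 M0]
    [IsGalois K0 M0] (hG : GG ℓ r (M0 ≃ₐ[K0] M0)) (K E : IntermediateField K0 Ω)
    (hK : K ⊓ M0 = ⊥) (hKE : K ≤ E) (hpE : ¬ ℓ ∣ relfinrank K E)
    (hle : relfinrank K E ≤ 2 ^ (r - 1)) (hpos : 0 < relfinrank K E)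
    (hE : E ⊓ M0 ≠ ⊥) : Module.finrank K0 ↥(E ⊓ M0) = 2 ^ (r - 1) := by
  obtain ⟨W, -, -, hG2, -⟩ := hG
  have hNM : E ⊓ M0 ≤ M0 := inf_le_right
  have hdvd := finrank_dvd_relfinrank M0 K E (E ⊓ M0) hK hKE hNM inf_le_left
  set N' : IntermediateField K0 M0 := IntermediateField.restrict hNM with hN'
  have hfrN : Module.finrank K0 N' = Module.finrank K0 ↥(E ⊓ M0) :=
    (IntermediateField.restrictAlgEquiv hNM).toLinearEquiv.finrank_eq.symm
  have hcard : Nat.card N'.fixingSubgroup = Module.finrank N' M0 :=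
    IsGalois.card_fixingSubgroup_eq_finrank N'
  have hmul : Module.finrank K0 N' * Module.finrank N' M0 = Module.finrank K0 M0 :=
    Module.finrank_mul_finrank K0 N' M0
  have hG1 : Nat.card (M0 ≃ₐ[K0] M0) = Module.finrank K0 M0 := IsGalois.card_aut_eq_finrank K0 M0
  have hidx : N'.fixingSubgroup.index = Module.finrank K0 N' := by
    have h1 := N'.fixingSubgroup.card_mul_index
    rw [hG1, ← hmul, hcard, mul_comm] at h1
    exact Nat.eq_of_mul_eq_mul_right Module.finrank_pos h1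
  rcases hG2 N'.fixingSubgroup (by
    rw [hidx, hfrN]
    exact fun h => hpE (h.trans hdvd)) with h | ⟨h, -⟩ | h
  · exfalso
    apply hE
    have h3 : N' = ⊥ := by
      rw [← IsGalois.fixedField_fixingSubgroup N', h]
      exact IsGalois.fixedField_top
    have h4 : IntermediateField.lift N' = E ⊓ M0 := lift_restrict hNM
    rw [← h4, h3]
    exact IntermediateField.lift_bot (F := K0) (E := Ω) M0
  · rw [← hfrN, ← hidx, h]
  · exfalso
    rw [hidx, hfrN] at h
    have := Nat.le_of_dvd hpos hdvd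
    omega

/-- T3 -/
theorem D_arg {K0 Ω : Type} [Field K0] [Field Ω] [Algebra K0 Ω] [CharZero K0] [IsAlgClosed Ω]
    {ℓ r : ℕ} (hℓ : ℓ.Prime) (hℓ2 : ℓ ≠ 2) (hr3 : 3 ≤ r) (M0 : IntermediateField K0 Ω)
    [FiniteDimensional K0 M0] [IsGalois K0 M0] (hG : GG ℓ r (M0 ≃ₐ[K0] M0)) (K : IntermediateField K0 Ω)
    (hK : K ⊓ M0 = ⊥) {n : ℕ} (x : Fin n → Ω) (l : Fin 2 → MvPolynomial (Fin n) K)
    (st : Stage x l (2 ^ (r - 1))) (fr : FR x l (r - 1))
    (hbad : (adjoin K (Set.range x)).restrictScalars K0 ⊓ M0 ≠ ⊥) :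
    ∃ a : Fin n → K, a ≠ 0 ∧ ∀ f : MvPolynomial (Fin n) K, aeval x f = 0 → eval a f = 0 := by
  have hcharK : CharZero K := charZero_of_injective_algebraMap (algebraMap K0 K).injective
  obtain ⟨M, hM0, hfd, hgal, ⟨e⟩⟩ := compositum M0 K hK
  have hGM := LeepG.of_mulEquiv e hG
  set y : Fin 2 → Ω := fun j => aeval x (l j) with hy
  set Ky : IntermediateField K0 Ω := (adjoin K (Set.range y)).restrictScalars K0 with hKy
  set Kx : IntermediateField K0 Ω := (adjoin K (Set.range x)).restrictScalars K0 with hKx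
  have hgood : Ky ⊓ M0 = ⊥ := good_adjoin M0 K hK y st.indep
  have hrel : relfinrank Ky Kx = 2 ^ (r - 1) := st.deg
  have hyx : ∀ j, y j ∈ adjoin K (Set.range x) := by
    intro j
    apply algebra_adjoin_le_adjoin
    rw [Algebra.adjoin_range_eq_range_aeval]
    exact ⟨l j, rfl⟩
  have hle0 : adjoin K (Set.range y) ≤ adjoin K (Set.range x) := by
    rw [adjoin_le_iff]
    rintro _ ⟨j, rfl⟩
    exact hyx j
  have hle : Ky ≤ Kx := hle0
  have hpE : ¬ ℓ ∣ relfinrank Ky Kx := by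
    rw [hrel]
    intro h
    exact hℓ2 ((Nat.prime_dvd_prime_iff_eq hℓ Nat.prime_two).1 (hℓ.dvd_of_dvd_pow h))
  have hN0 : Module.finrank K0 ↥(Kx ⊓ M0) = 2 ^ (r - 1) :=
    bad_finrank M0 hG Ky Kx hgood hle hpE (by rw [hrel]) (by rw [hrel]; positivity) hbad
  -- a primitive element of `N0`
  have hNM : Kx ⊓ M0 ≤ M0 := inf_le_right
  have hfdN : FiniteDimensional K0 ↥(Kx ⊓ M0) :=
    FiniteDimensional.of_injective (IntermediateField.inclusion hNM).toLinearMap
      (IntermediateField.inclusion hNM).injective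
  obtain ⟨θ1, hθ1⟩ := Field.exists_primitive_element K0 ↥(Kx ⊓ M0)
  have hθM0 : (θ1 : Ω) ∈ M0 := hNM θ1.2
  have hθx : (θ1 : Ω) ∈ adjoin K (Set.range x) := (inf_le_left : Kx ⊓ M0 ≤ Kx) θ1.2
  have hθ1' : K0⟮(θ1 : Ω)⟯ = Kx ⊓ M0 := by
    rw [← lift_adjoin_simple K0 (Kx ⊓ M0) θ1, hθ1, lift_top]
  let θ : M0 := ⟨(θ1 : Ω), hθM0⟩
  have hfθ : Module.finrank K0 K0⟮θ⟯ = 2 ^ (r - 1) := by
    have h1 : Module.finrank K0 K0⟮θ⟯ = Module.finrank K0 (IntermediateField.lift K0⟮θ⟯) :=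
      (IntermediateField.liftAlgEquiv K0⟮θ⟯).toLinearEquiv.finrank_eq
    rw [h1, lift_adjoin_simple]
    change Module.finrank K0 K0⟮(θ1 : Ω)⟯ = _
    rw [hθ1', hN0]
  set N : IntermediateField K Ω := K⟮(θ1 : Ω)⟯ with hN
  have hfN : Module.finrank K N = 2 ^ (r - 1) := by
    have := finrank_adjoin_of_good M0 K hK θ
    rw [hfθ] at this
    exact this
  have hNleM : N ≤ M := by
    rw [hN, adjoin_simple_le_iff]
    exact hM0 _ hθM0
  have hNx : N ≤ adjoin K (Set.range x) := by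
    rw [hN, adjoin_simple_le_iff]
    exact hθx
  -- `K(x) = N(y)`
  have hx : ∀ i, x i ∈ adjoin N (Set.range y) := by
    set L : IntermediateField K0 Ω :=
      ((adjoin N (Set.range y)).restrictScalars K).restrictScalars K0 with hL
    have hyL : Ky ≤ L := by
      have : adjoin K (Set.range y) ≤ (adjoin N (Set.range y)).restrictScalars K := by
        rw [adjoin_le_iff]
        rintro _ ⟨j, rfl⟩
        exact subset_adjoin N (Set.range y) ⟨j, rfl⟩
      exact this
    have hLx : L ≤ Kx := by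
      intro z hz
      have hz' : z ∈ adjoin N (Set.range y) := hz
      have h1 : adjoin N (Set.range y) ≤ extendScalars hNx := by
        rw [adjoin_le_iff]
        rintro _ ⟨j, rfl⟩
        exact hyx j
      exact h1 hz'
    have hN0L : Kx ⊓ M0 ≤ L := by
      rw [← hθ1', adjoin_simple_le_iff]
      exact (adjoin N (Set.range y)).algebraMap_mem ⟨(θ1 : Ω), mem_adjoin_simple_self K _⟩
    have hdvd := finrank_dvd_relfinrank M0 Ky L (Kx ⊓ M0) hgood hyL hNM hN0L
    rw [hN0] at hdvd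
    have hmul := relfinrank_mul_relfinrank hyL hLx
    rw [hrel] at hmul
    have hone : relfinrank L Kx = 1 := by
      obtain ⟨c, hc⟩ := hdvd
      rw [hc, mul_assoc] at hmul
      have h2 : c * relfinrank L Kx = 1 :=
        Nat.eq_of_mul_eq_mul_left (by positivity : 0 < 2 ^ (r - 1)) (by rw [hmul, mul_one])
      exact Nat.eq_one_of_mul_eq_one_left h2
    have hKxL : Kx ≤ L := relfinrank_eq_one_iff.1 hone
    intro i
    exact hKxL (subset_adjoin K (Set.range x) ⟨i, rfl⟩ : x i ∈ adjoin K (Set.range x))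
  exact D_core hℓ hℓ2 hr3 M hGM N hNleM hfN x l st fr hx hNx

end LeepG
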