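import Pool.Agent.H5.Leep.GDInner
import Pool.Agent.H5.Leep.DCore

/-!
The D-argument over the field `K`, general form.
-/

namespace LeepG

open MvPolynomial IntermediateField LeepA

theorem D_core {K Ω : Type} [Field K] [Field Ω] [Algebra K Ω] [CharZero K] [IsAlgClosed Ω]
    {ℓ r : ℕ} (hℓ : ℓ.Prime) (hℓ2 : ℓ ≠ 2) (hr3 : 3 ≤ r) (M : IntermediateField K Ω)
    [FiniteDimensional K M] [IsGalois K M] (hG : GG ℓ r (M ≃ₐ[K] M)) (N : IntermediateField K Ω) (hNM : N ≤ M)
    (hN : Module.finrank K N = 2 ^ (r - 1)) {n ρ : ℕ} (x : Fin n → Ω)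
    (l : Fin 2 → MvPolynomial (Fin n) K)
    (st : Stage x l ρ) (fr : FR x l (r - 1))
    (hx : ∀ i, x i ∈ adjoin N (Set.range fun j => aeval x (l j)))
    (hNx : N ≤ adjoin K (Set.range x)) :
    ∃ a : Fin n → K, a ≠ 0 ∧ ∀ f : MvPolynomial (Fin n) K, aeval x f = 0 → eval a f = 0 := by
  classical
  have : FiniteDimensional K N :=
    FiniteDimensional.of_injective (IntermediateField.inclusion hNM).toLinearMap
      (IntermediateField.inclusion hNM).injective
  obtain ⟨α, β, hαβ⟩ := exists_linear st N hx
  set y : Fin 2 → Ω := fun j => aeval x (l j) with hy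
  have hind : AlgebraicIndependent N y := st.indep.extendScalars N
  have hinj : ∀ P : MvPolynomial (Fin 2) N, aeval y P = 0 → P = 0 := by
    intro P hP
    have hi := hind
    rw [AlgebraicIndependent, injective_iff_map_eq_zero] at hi
    exact hi P hP
  let G : Fin n → MvPolynomial (Fin 2) N := fun i => C (α i) * X 0 + C (β i) * X 1
  have hGx : (fun i => aeval y (G i)) = x := by
    funext i
    simp only [G, map_add, map_mul, aeval_C, aeval_X]
    exact (hαβ i).symm
  have hΘ : ∀ f : MvPolynomial (Fin n) K, aeval y (aeval G f) = aeval x f := by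
    intro f
    have := comp_aeval_apply G ((aeval y : MvPolynomial (Fin 2) N →ₐ[N] Ω).restrictScalars K) f
    have h2 : aeval y (aeval G f) = aeval (fun i => aeval y (G i)) f := this
    rw [h2, hGx]
  -- specialisations
  let Ψ : (N →ₐ[K] M) → Ω → Ω → MvPolynomial (Fin 2) N →ₐ[K] Ω := fun φ s t =>
    aevalTower (M.val.comp φ) ![s, t]
  have hΨG : ∀ φ s t (f : MvPolynomial (Fin n) K), Ψ φ s t (aeval G f) =
      aeval (zp (fun (φ : N →ₐ[K] M) i => ((φ (α i) : M) : Ω))
        (fun (φ : N →ₐ[K] M) i => ((φ (β i) : M) : Ω)) s t φ) f := by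
    intro φ s t f
    rw [comp_aeval_apply]
    congr 2
    funext i
    simp only [Ψ, G, zp, map_add, map_mul, aevalTower_C, aevalTower_X, Matrix.cons_val_zero,
      Matrix.cons_val_one]
    rfl
  letI := embAction M N
  haveI := embAction_transitive M N hNM
  have hcard : Nat.card (N →ₐ[K] M) = 2 ^ (r - 1) := by rw [natCard_emb M N hNM, hN]
  haveI : Fintype (N →ₐ[K] M) := Fintype.ofFinite _
  obtain ⟨ι, hι, b, d, hb, hd, hfr⟩ := fr
  have hsep : ∀ φ ψ : N →ₐ[K] M, (fun i => φ (α i)) = (fun i => ψ (α i)) →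
      (fun i => φ (β i)) = (fun i => ψ (β i)) → φ = ψ := by
    intro φ ψ h1 h2
    let E' : IntermediateField K N := (AlgHom.equalizer φ ψ).toIntermediateField (by
      intro z hz
      rw [AlgHom.mem_equalizer] at hz ⊢
      rw [map_inv₀, map_inv₀, hz])
    have hE' : ∀ z : N, z ∈ E' ↔ φ z = ψ z := fun z => Iff.rfl
    set N' : IntermediateField K Ω := IntermediateField.lift E' with hN'
    have hN'N : N' ≤ N := IntermediateField.lift_le E'
    have hmemN' : ∀ z : N, z ∈ E' → (z : Ω) ∈ N' := fun z hz => (IntermediateField.mem_lift z).2 hz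
    have : FiniteDimensional K N' :=
      FiniteDimensional.of_injective (IntermediateField.inclusion hN'N).toLinearMap
        (IntermediateField.inclusion hN'N).injective
    have hind' : AlgebraicIndependent N' y := st.indep.extendScalars N'
    have hyN' : ∀ j, y j ∈ adjoin N' (Set.range y) := fun j => subset_adjoin _ _ ⟨j, rfl⟩
    have hxN' : adjoin K (Set.range x) ≤ (adjoin N' (Set.range y)).restrictScalars K := by
      rw [adjoin_le_iff]
      rintro _ ⟨i, rfl⟩
      change x i ∈ adjoin N' (Set.range y)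
      have e1 : (α i : Ω) ∈ adjoin N' (Set.range y) :=
        (adjoin N' (Set.range y)).algebraMap_mem ⟨(α i : Ω), hmemN' (α i) (congrFun h1 i)⟩
      have e2 : (β i : Ω) ∈ adjoin N' (Set.range y) :=
        (adjoin N' (Set.range y)).algebraMap_mem ⟨(β i : Ω), hmemN' (β i) (congrFun h2 i)⟩
      rw [hαβ i]
      exact add_mem (mul_mem e1 (hyN' 0)) (mul_mem e2 (hyN' 1))
    ext z
    have hz1 : (z : Ω) ∈ adjoin N' (Set.range y) := hxN' (hNx z.2)
    have hz2 : IsAlgebraic K (z : Ω) :=
      (Algebra.IsAlgebraic.isAlgebraic (R := K) z).algebraMap (A := Ω)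
    obtain ⟨c, hc⟩ := mem_range_of_isAlgebraic y hind' (z : Ω) hz1 (hz2.tower_top N')
    have hz3 : (z : Ω) ∈ N' := by
      rw [hc]
      exact c.2
    have hz4 : z ∈ E' := (IntermediateField.mem_lift z).1 hz3
    exact congrArg Subtype.val ((hE' z).1 hz4)
  have hΨK : ∀ φ s t (P : MvPolynomial (Fin 2) K),
      Ψ φ s t (MvPolynomial.map (algebraMap K N) P) = aeval ![s, t] P := by
    intro φ s t P
    induction P using MvPolynomial.induction_on with
    | C c =>
      rw [map_C, aeval_C]
      simp only [Ψ, aevalTower_C]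
      exact (M.val.comp φ).commutes c
    | add P Q hP hQ => rw [map_add, map_add, map_add, hP, hQ]
    | mul_X P j hP =>
      rw [map_mul, map_mul, map_mul, hP, map_X, aeval_X]
      simp only [Ψ, aevalTower_X]
  obtain ⟨τ, a, hτ, ha⟩ := D_inner hℓ hℓ2 hr3 M hG hcard (fun φ i => φ (α i)) (fun φ i => φ (β i))
    (fun _ _ _ => rfl) (fun _ _ _ => rfl) hsep b d hb hd (by
      intro s t e f hf
      obtain ⟨g, hg1, hg2, hg⟩ := hfr e f hf
      refine ⟨fun i => aeval ![s, t] (g i), fun φ => ?_⟩
      have h1 : aeval G f = ∑ i, MvPolynomial.map (algebraMap K N) (g i) * aeval G (b i) := by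
        rw [← sub_eq_zero]
        apply hinj
        rw [map_sub, hΘ, hg, map_sum, sub_eq_zero]
        refine Finset.sum_congr rfl fun i _ => ?_
        rw [map_mul, hΘ, aeval_map_algebraMap]
      have h2 := congrArg (Ψ φ s t) h1
      rw [hΨG, map_sum] at h2
      rw [h2]
      refine Finset.sum_congr rfl fun i _ => ?_
      rw [map_mul, hΨG]
      rw [hΨK])
  -- the rational point
  have hpt : (fun i => algebraMap K Ω (a i)) =
      zp (fun (φ : N →ₐ[K] M) i => ((φ (α i) : M) : Ω))
        (fun (φ : N →ₐ[K] M) i => ((φ (β i) : M) : Ω)) (algebraMap K Ω (τ 0))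
        (algebraMap K Ω (τ 1)) (IntermediateField.inclusion hNM) := by
    funext i
    have h1 := congrArg (algebraMap M Ω) (ha (IntermediateField.inclusion hNM) i)
    rw [map_add, map_mul, map_mul, ← IsScalarTower.algebraMap_apply,
      ← IsScalarTower.algebraMap_apply, ← IsScalarTower.algebraMap_apply] at h1
    exact h1.symm
  have hspec : ∀ f : MvPolynomial (Fin n) K, aeval (fun i => algebraMap K Ω (a i)) f =
      Ψ (IntermediateField.inclusion hNM) (algebraMap K Ω (τ 0)) (algebraMap K Ω (τ 1))
        (aeval G f) := by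
    intro f
    rw [hΨG, hpt]
  have heval : ∀ f : MvPolynomial (Fin n) K,
      aeval (fun i => algebraMap K Ω (a i)) f = algebraMap K Ω (MvPolynomial.eval a f) := by
    intro f
    have h5 := aeval_algebraMap_apply (R := K) Ω a f
    have h6 : aeval a f = MvPolynomial.eval a f := RingHom.congr_fun (coe_aeval_eq_eval a) f
    rw [← h6]
    exact h5
  refine ⟨a, ?_, ?_⟩
  · rintro rfl
    apply hτ
    funext j
    have h1 : aeval G (l j) = X j := by
      rw [← sub_eq_zero]
      apply hinj
      rw [map_sub, hΘ, aeval_X, sub_self]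
    have h2 := hspec (l j)
    rw [h1] at h2
    have h3 : aeval (fun i : Fin n => algebraMap K Ω ((0 : Fin n → K) i)) (l j) = 0 := by
      have h0 : (fun i : Fin n => algebraMap K Ω ((0 : Fin n → K) i)) = 0 := by
        funext i
        simp
      have h4 : constantCoeff (l j) = 0 := by
        rw [constantCoeff_eq]
        exact (st.lin j).coeff_eq_zero (by simp)
      rw [h0, aeval_zero, h4, map_zero]
    rw [h3] at h2
    simp only [Ψ, aevalTower_X] at h2
    apply (algebraMap K Ω).injective
    rw [Pi.zero_apply, map_zero]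
    fin_cases j
    · exact h2.symm
    · exact h2.symm
  · intro f hf
    have h1 : aeval G f = 0 := by
      apply hinj
      rw [hΘ, hf]
    have h2 := hspec f
    rw [h1, map_zero, heval] at h2
    exact (map_eq_zero _).1 h2

end LeepG
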