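import Pool.Agent.H5.Leep.GG

/-!
Group theoretic part of the D-argument, general form.
-/

namespace LeepG

open LeepA MulAction

theorem of_mulEquiv {ℓ r : ℕ} {G G' : Type*} [Group G] [Group G'] (e : G ≃* G')
    (h : GG ℓ r G) : GG ℓ r G' := by
  obtain ⟨W, hWn, hWc, h1, h2, h3, h4, V, V', hVV, hV, hV'⟩ := h
  have hmc : ∀ H : Subgroup G', (H.comap e.toMonoidHom).map e.toMonoidHom = H := fun H =>
    Subgroup.map_comap_eq_self_of_surjective e.surjective H
  have hidx : ∀ H : Subgroup G', (H.comap e.toMonoidHom).index = H.index := fun H =>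
    Subgroup.index_comap_of_surjective H e.surjective
  have htop : ∀ H : Subgroup G', H.comap e.toMonoidHom = ⊤ → H = ⊤ := by
    intro H hH
    rw [← hmc H, hH]
    exact Subgroup.map_top_of_surjective _ e.surjective
  have hinf : ∀ H : Subgroup G', H.comap e.toMonoidHom ⊓ W = ⊥ →
      H ⊓ W.map e.toMonoidHom = ⊥ := by
    intro H hH
    rw [← hmc H, ← Subgroup.map_inf_eq _ _ _ e.injective, hH, Subgroup.map_bot]
  have hsup : ∀ H : Subgroup G', H ⊔ W.map e.toMonoidHom = ⊤ →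
      H.comap e.toMonoidHom ⊔ W = ⊤ := by
    intro H hH
    apply Subgroup.map_injective (f := e.toMonoidHom) e.injective
    change (H.comap e.toMonoidHom ⊔ W).map e.toMonoidHom = Subgroup.map e.toMonoidHom ⊤
    rw [Subgroup.map_sup, hmc, hH, Subgroup.map_top_of_surjective _ e.surjective]
  have hmidx : ∀ H : Subgroup G, (H.map e.toMonoidHom).index = H.index := by
    intro H
    rw [← hidx, Subgroup.comap_map_eq_self_of_injective e.injective]
  refine ⟨W.map e.toMonoidHom, hWn.map _ e.surjective, ?_, ?_, ?_, ?_, ?_,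
    V.map e.toMonoidHom, V'.map e.toMonoidHom, Subgroup.map_mono hVV, ?_, ?_⟩
  · rw [← hWc]
    exact Subgroup.card_map_of_injective e.injective
  · intro H hH
    rcases h1 (H.comap e.toMonoidHom) (by rwa [hidx]) with h | ⟨h, h'⟩ | h
    · exact Or.inl (htop H h)
    · exact Or.inr (Or.inl ⟨by rwa [hidx] at h, hinf H h'⟩)
    · exact Or.inr (Or.inr (by rwa [hidx] at h))
  · intro S hS hi
    apply htop
    refine h2 _ ?_ (by rwa [hidx])
    intro w hw
    exact hS ⟨w, hw, rfl⟩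
  · intro S hS
    rcases h3 _ (hsup S hS) with h | h
    · exact Or.inl (hinf S h)
    · exact Or.inr (htop S h)
  · rintro S hS _ ⟨w, hw, rfl⟩ hcomm
    have hw1 : w = 1 := by
      refine h4 _ (hsup S hS) w hw ?_
      intro s hs
      apply e.injective
      rw [map_mul, map_mul]
      exact hcomm _ hs
    rw [hw1, map_one]
  · rw [hmidx, hV]
  · rw [hmidx, hV']

section
variable {G : Type*} [Group G] [Finite G]

/-- the product formula for a normal subgroup -/
theorem index_sup_mul (T W : Subgroup G) [W.Normal] :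
    (T ⊔ W).index * Nat.card W = T.index * Nat.card ↥(T ⊓ W) := by
  have h1 : W.relIndex (T ⊔ W) = W.relIndex T := Subgroup.relIndex_sup_right T W
  have h2 : W.relIndex (T ⊔ W) * (T ⊔ W).index = W.index :=
    Subgroup.relIndex_mul_index le_sup_right
  have h3 : (T ⊓ W).relIndex T * T.index = (T ⊓ W).index :=
    Subgroup.relIndex_mul_index inf_le_left
  rw [Subgroup.inf_relIndex_left] at h3
  rw [h1] at h2
  have h5 := W.card_mul_index
  have h6 := (T ⊓ W).card_mul_index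
  have h7 : W.relIndex T ≠ 0 := by
    intro h0
    have h8 : W.index ≠ 0 := Subgroup.index_ne_zero_of_finite
    rw [← h2, h0, zero_mul] at h8
    exact h8 rfl
  refine Nat.eq_of_mul_eq_mul_right (Nat.pos_of_ne_zero h7) ?_
  calc (T ⊔ W).index * Nat.card W * W.relIndex T
      = Nat.card W * (W.relIndex T * (T ⊔ W).index) := by ring
    _ = Nat.card G := by rw [h2, h5]
    _ = Nat.card ↥(T ⊓ W) * (T ⊓ W).index := h6.symm
    _ = T.index * Nat.card ↥(T ⊓ W) * W.relIndex T := by rw [← h3]; ring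

end

section
variable {ℓ r : ℕ} {G : Type*} [Group G] [Finite G] {E : Type*} [MulAction G E]
  [IsPretransitive G E] [Finite E]

theorem stab_inf (hℓ : ℓ.Prime) (hℓ2 : ℓ ≠ 2) (hr : 3 ≤ r) (W : Subgroup G)
    (h1 : ∀ H : Subgroup G, ¬ ℓ ∣ H.index →
      H = ⊤ ∨ (H.index = 2 ^ (r - 1) ∧ H ⊓ W = ⊥) ∨ 2 ^ (r - 1) < H.index)
    (hE : Nat.card E = 2 ^ (r - 1)) (φ : E) : stabilizer G φ ⊓ W = ⊥ := by
  have hi : (stabilizer G φ).index = 2 ^ (r - 1) := by
    rw [index_stabilizer_of_transitive, hE]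
  rcases h1 (stabilizer G φ) (by
    rw [hi]
    intro h
    exact hℓ2 ((Nat.prime_dvd_prime_iff_eq hℓ Nat.prime_two).1 (hℓ.dvd_of_dvd_pow h))) with
    h | ⟨-, h⟩ | h
  · exfalso
    rw [h, Subgroup.index_top] at hi
    have : 2 ≤ 2 ^ (r - 1) := by
      calc 2 = 2 ^ 1 := by norm_num
        _ ≤ 2 ^ (r - 1) := Nat.pow_le_pow_right (by norm_num) (by omega)
    omega
  · exact h
  · rw [hi] at h
    exact absurd h (lt_irrefl _)

/-- `W` acts simply transitively -/
theorem exists_trans (W : Subgroup G) (hWc : Nat.card W = 2 ^ (r - 1))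
    (hE : Nat.card E = 2 ^ (r - 1)) (hst : ∀ φ : E, stabilizer G φ ⊓ W = ⊥) (φ ψ : E) :
    ∃ w ∈ W, w • φ = ψ := by
  have hinj : Function.Injective fun w : W => w.1 • φ := by
    intro w w' h
    have h1 : (w'.1⁻¹ * w.1) • φ = φ := by
      have h' : w.1 • φ = w'.1 • φ := h
      rw [mul_smul, h', inv_smul_smul]
    have h2 : w'.1⁻¹ * w.1 ∈ stabilizer G φ ⊓ W :=
      ⟨h1, W.mul_mem (W.inv_mem w'.2) w.2⟩
    rw [hst φ, Subgroup.mem_bot] at h2
    exact Subtype.ext (inv_mul_eq_one.1 h2).symm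
  have hbij := (Nat.bijective_iff_injective_and_card fun w : W => w.1 • φ).2
    ⟨hinj, by rw [hWc, hE]⟩
  obtain ⟨w, hw⟩ := hbij.2 ψ
  exact ⟨w.1, w.2, hw⟩

theorem collision_count (hℓ : ℓ.Prime) (hℓ2 : ℓ ≠ 2) (hr3 : 3 ≤ r) (hG : GG ℓ r G)
    (hE : Nat.card E = 2 ^ (r - 1)) (T : Subgroup G) (hT : T ≠ ⊤) (R : E → E → Prop)
    (hsymm : ∀ φ ψ, R φ ψ → R ψ φ)
    (hR : ∀ g ∈ T, ∀ φ ψ, R φ ψ → R (g • φ) (g • ψ)) (φ ψ : E) (hne : φ ≠ ψ) (hφψ : R φ ψ) :
    (r - 1) * 2 ^ (r - 1) < T.index * Nat.card {φ : E // ∃ ψ, ψ ≠ φ ∧ R φ ψ} := by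
  obtain ⟨W, hWn, hWc, h1, h2, h3, h4, -⟩ := hG
  have hst : ∀ φ : E, stabilizer G φ ⊓ W = ⊥ := fun φ => stab_inf hℓ hℓ2 hr3 W h1 hE φ
  by_contra hcon
  push Not at hcon
  set Y := {φ : E // ∃ ψ, ψ ≠ φ ∧ R φ ψ} with hY
  have hYm : ∀ g ∈ T, ∀ a : E, (∃ b, b ≠ a ∧ R a b) → ∃ b, b ≠ g • a ∧ R (g • a) b := by
    rintro g hg a ⟨b, hb, hab⟩
    exact ⟨g • b, fun h => hb (smul_left_cancel g h), hR g hg a b hab⟩
  have hφY : ∃ b, b ≠ φ ∧ R φ b := ⟨ψ, hne.symm, hφψ⟩
  have hψY : ∃ b, b ≠ ψ ∧ R ψ b := ⟨φ, hne, hsymm _ _ hφψ⟩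
  -- the free action of `T ⊓ W`
  have hU : Nat.card ↥(T ⊓ W) ≤ Nat.card Y := by
    refine Nat.card_le_card_of_injective
      (fun g : ↥(T ⊓ W) => (⟨g.1 • φ, hYm g.1 g.2.1 φ hφY⟩ : Y)) ?_
    intro g g' hgg
    have e1 : g.1 • φ = g'.1 • φ := congrArg Subtype.val hgg
    have e2 : (g'.1⁻¹ * g.1) • φ = φ := by rw [mul_smul, e1, inv_smul_smul]
    have e3 : g'.1⁻¹ * g.1 ∈ stabilizer G φ ⊓ W :=
      ⟨e2, W.mul_mem (W.inv_mem g'.2.2) g.2.2⟩
    rw [hst φ, Subgroup.mem_bot] at e3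
    exact Subtype.ext (inv_mul_eq_one.1 e3).symm
  have hprod := index_sup_mul T W
  have hpow : 0 < 2 ^ (r - 1) := by positivity
  have htop : T ⊔ W = ⊤ := by
    refine h2 _ le_sup_right ?_
    have e1 : (T ⊔ W).index * 2 ^ (r - 1) ≤ (r - 1) * 2 ^ (r - 1) := by
      calc (T ⊔ W).index * 2 ^ (r - 1) = T.index * Nat.card ↥(T ⊓ W) := by rw [← hWc, hprod]
        _ ≤ T.index * Nat.card Y := Nat.mul_le_mul_left _ hU
        _ ≤ _ := hcon
    have e2 := Nat.le_of_mul_le_mul_right e1 hpow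
    omega
  have hbot : T ⊓ W = ⊥ := (h3 T htop).resolve_right hT
  have hTi : T.index = 2 ^ (r - 1) := by
    rw [htop, hbot, Subgroup.index_top, one_mul, Subgroup.card_bot, mul_one, hWc] at hprod
    exact hprod.symm
  have hYr : Nat.card Y ≤ r - 1 := by
    rw [hTi, mul_comm] at hcon
    exact Nat.le_of_mul_le_mul_right hcon hpow
  -- all points of `Y` are fixed by `T`
  have hfix : ∀ a : E, (∃ b, b ≠ a ∧ R a b) → ∀ g ∈ T, g • a = a := by
    intro a ha
    have e1 : (T ⊓ stabilizer G a ⊔ W) = ⊤ := by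
      refine h2 _ le_sup_right ?_
      have e2 := index_sup_mul (T ⊓ stabilizer G a) W
      have e3 : T ⊓ stabilizer G a ⊓ W = ⊥ := by
        rw [eq_bot_iff, ← hbot]
        exact inf_le_inf_right W inf_le_left
      rw [e3, Subgroup.card_bot, mul_one, hWc] at e2
      -- the index of the stabilizer in `T`
      have e4 : (T ⊓ stabilizer G a).relIndex T ≤ Nat.card Y := by
        rw [Subgroup.inf_relIndex_left, Subgroup.relIndex, Subgroup.index]
        refine Nat.card_le_card_of_injective (fun z : T ⧸ (stabilizer G a).subgroupOf T =>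
          (⟨(z.out : T).1 • a, hYm _ (z.out : T).2 a ha⟩ : Y)) ?_
        intro z z' hzz
        have e5 : (z.out : T).1 • a = (z'.out : T).1 • a := congrArg Subtype.val hzz
        rw [← QuotientGroup.out_eq' z, ← QuotientGroup.out_eq' z', QuotientGroup.eq]
        change ((z.out : T)⁻¹ * (z'.out : T)).1 • a = a
        rw [Subgroup.coe_mul, Subgroup.coe_inv, mul_smul, ← e5, inv_smul_smul]
      have e6 := Subgroup.relIndex_mul_index (inf_le_left : T ⊓ stabilizer G a ≤ T)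
      rw [← e6, hTi] at e2
      have e7 := Nat.eq_of_mul_eq_mul_right hpow e2
      rw [e7]
      omega
    have e2 : T ⊓ stabilizer G a = T := by
      apply Subgroup.eq_of_le_of_card_ge inf_le_left
      have e3 := index_sup_mul (T ⊓ stabilizer G a) W
      have e4 : T ⊓ stabilizer G a ⊓ W = ⊥ := by
        rw [eq_bot_iff, ← hbot]
        exact inf_le_inf_right W inf_le_left
      rw [e4, e1, Subgroup.card_bot, Subgroup.index_top, mul_one, one_mul, hWc, ← hTi] at e3
      have e5 := T.card_mul_index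
      have e6 := (T ⊓ stabilizer G a).card_mul_index
      rw [← e3, ← e5] at e6
      have e7 : 0 < T.index := by rw [hTi]; positivity
      exact (Nat.eq_of_mul_eq_mul_right e7 e6).ge
    intro g hg
    rw [← e2] at hg
    exact hg.2
  obtain ⟨w, hw, hwφ⟩ := exists_trans W hWc hE hst φ ψ
  have hw1 : w = 1 := by
    refine h4 T htop w hw fun s hs => ?_
    have e1 : (w⁻¹ * (s * w * s⁻¹)) • φ = φ := by
      have e2 : s⁻¹ • φ = φ := hfix φ hφY _ (T.inv_mem hs)
      rw [mul_smul, mul_smul, mul_smul, e2, hwφ, hfix ψ hψY s hs, ← hwφ, inv_smul_smul]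
    have e3 : w⁻¹ * (s * w * s⁻¹) ∈ stabilizer G φ ⊓ W :=
      ⟨e1, W.mul_mem (W.inv_mem hw) (hWn.conj_mem w hw s)⟩
    rw [hst φ, Subgroup.mem_bot, inv_mul_eq_one] at e3
    exact (eq_mul_inv_iff_mul_eq.1 e3).symm
  rw [hw1, one_smul] at hwφ
  exact hne hwφ

theorem collision_all (hℓ : ℓ.Prime) (hℓ2 : ℓ ≠ 2) (hr3 : 3 ≤ r) (hG : GG ℓ r G)
    (hE : Nat.card E = 2 ^ (r - 1)) (R : E → E → Prop) (hequiv : Equivalence R)
    (hR : ∀ (g : G) (φ ψ : E), R φ ψ → R (g • φ) (g • ψ)) (φ ψ : E) (hne : φ ≠ ψ)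
    (hφψ : R φ ψ) (a b : E) : R a b := by
  obtain ⟨W, hWn, hWc, h1, h2, h3, h4, -⟩ := hG
  have hst : ∀ φ : E, stabilizer G φ ⊓ W = ⊥ := fun φ => stab_inf hℓ hℓ2 hr3 W h1 hE φ
  let B : Subgroup G :=
    { carrier := {g | R (g • φ) φ}
      one_mem' := by
        change R ((1 : G) • φ) φ
        rw [one_smul]
        exact hequiv.refl φ
      mul_mem' := by
        intro g k hg hk
        change R ((g * k) • φ) φ
        rw [mul_smul]
        exact hequiv.trans (hR g _ _ hk) hg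
      inv_mem' := by
        intro g hg
        change R (g⁻¹ • φ) φ
        have := hR g⁻¹ _ _ hg
        rw [inv_smul_smul] at this
        exact hequiv.symm this }
  have hstab : stabilizer G φ ≤ B := by
    intro g hg
    change R (g • φ) φ
    rw [mem_stabilizer_iff.1 hg]
    exact hequiv.refl φ
  have hsup : stabilizer G φ ⊔ W = ⊤ := by
    rw [eq_top_iff]
    intro g _
    obtain ⟨w, hw, hwg⟩ := exists_trans W hWc hE hst φ (g • φ)
    have e1 : w⁻¹ * g ∈ stabilizer G φ := by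
      rw [mem_stabilizer_iff, mul_smul, ← hwg, inv_smul_smul]
    have e2 : g = w * (w⁻¹ * g) := by group
    rw [e2]
    exact Subgroup.mul_mem _ ((le_sup_right : W ≤ _) hw) ((le_sup_left : stabilizer G φ ≤ _) e1)
  have hBsup : B ⊔ W = ⊤ := by
    rw [eq_top_iff, ← hsup]
    exact sup_le_sup_right hstab W
  have hB : B = ⊤ := by
    refine (h3 B hBsup).resolve_left fun hb => ?_
    have e1 := index_sup_mul B W
    have e2 := index_sup_mul (stabilizer G φ) W
    rw [hBsup, hb] at e1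
    rw [hsup, hst φ, e1] at e2
    rw [Subgroup.card_bot, mul_one, mul_one] at e2
    have e3 := B.card_mul_index
    have e4 := (stabilizer G φ).card_mul_index
    rw [← e2, ← e3] at e4
    have e5 : 0 < B.index := Nat.pos_of_ne_zero Subgroup.index_ne_zero_of_finite
    have e6 : stabilizer G φ = B :=
      Subgroup.eq_of_le_of_card_ge hstab (Nat.eq_of_mul_eq_mul_right e5 e4).ge
    obtain ⟨g, hg⟩ := exists_smul_eq G φ ψ
    have e7 : g ∈ B := by
      change R (g • φ) φ
      rw [hg]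
      exact hequiv.symm hφψ
    rw [← e6, mem_stabilizer_iff, hg] at e7
    exact hne e7.symm
  have hall : ∀ c : E, R c φ := by
    intro c
    obtain ⟨g, rfl⟩ := exists_smul_eq G φ c
    have : g ∈ B := by
      rw [hB]
      exact Subgroup.mem_top g
    exact this
  exact hequiv.trans (hall a) (hequiv.symm (hall b))

end

end LeepG
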