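import Pool.Agent.H5.Leep.GDGroup
import Pool.Agent.H5.Leep.DInner

/-!
The D-argument for a family of lines permuted by the Galois group, general form.
-/

namespace LeepG

open MvPolynomial LeepA

/-- main combinatorial statement -/
theorem D_inner {K Ω : Type} [Field K] [Field Ω] [Algebra K Ω] [CharZero K] [IsAlgClosed Ω]
    {ℓ r : ℕ} (hℓ : ℓ.Prime) (hℓ2 : ℓ ≠ 2) (hr3 : 3 ≤ r) (M : IntermediateField K Ω)
    [FiniteDimensional K M] [IsGalois K M] (hG : GG ℓ r (M ≃ₐ[K] M)) {E : Type} [Fintype E] [DecidableEq E]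
    [MulAction (M ≃ₐ[K] M) E] [MulAction.IsPretransitive (M ≃ₐ[K] M) E]
    (hE : Nat.card E = 2 ^ (r - 1)) {n : ℕ} (α β : E → Fin n → M)
    (hα : ∀ (σ : M ≃ₐ[K] M) φ i, α (σ • φ) i = σ (α φ i))
    (hβ : ∀ (σ : M ≃ₐ[K] M) φ i, β (σ • φ) i = σ (β φ i))
    (hαβ : ∀ φ ψ, α φ = α ψ → β φ = β ψ → φ = ψ)
    {ι : Type} [Fintype ι] (b : ι → MvPolynomial (Fin n) K) (d : ι → ℕ)
    (hb : ∀ i, (b i).IsHomogeneous (d i))
    (hd : ∀ e, Nat.card {i // d i = e} = (r - 1).choose e)
    (hFR : ∀ s t : Ω, FRat (fun φ i => ((α φ i : M) : Ω)) (fun φ i => ((β φ i : M) : Ω)) b s t) :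
    ∃ (τ : Fin 2 → K) (a : Fin n → K), τ ≠ 0 ∧ ∀ φ i,
      α φ i * algebraMap K M (τ 0) + β φ i * algebraMap K M (τ 1) = algebraMap K M (a i) := by
  classical
  have hchar : CharZero Ω := charZero_of_injective_algebraMap (algebraMap K Ω).injective
  obtain ⟨hcard, hsum⟩ := sum_deg d hd
  have hδ : ∑ i, d i ≠ 0 := by
    intro h0
    rw [h0] at hsum
    have : 0 < (r - 1) * 2 ^ (r - 1) := Nat.mul_pos (by omega) (by positivity)
    omega
  have hcE : Fintype.card E = 2 ^ (r - 1) := by rw [← hE, Nat.card_eq_fintype_card]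
  let ε : ι ≃ E := Fintype.equivOfCardEq (by rw [hcard, hcE])
  set A : E → Fin n → Ω := fun φ i => ((α φ i : M) : Ω) with hA
  set B : E → Fin n → Ω := fun φ i => ((β φ i : M) : Ω) with hB
  -- a point without collisions
  obtain ⟨k, hk⟩ : ∃ k : ℕ, ∀ φ ψ, φ ≠ ψ → (fun i => α φ i + β φ i * (k : M)) ≠
      fun i => α ψ i + β ψ i * (k : M) := by
    have hfin : (⋃ x : {x : E × E // x.1 ≠ x.2}, {k : ℕ | (fun i => α x.1.1 i +
        β x.1.1 i * (k : M)) = fun i => α x.1.2 i + β x.1.2 i * (k : M)}).Finite := by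
      refine Set.finite_iUnion fun x => ?_
      refine Set.Subsingleton.finite ?_
      intro k hk l hl
      by_contra hkl
      apply x.2
      have hk' : (fun i => α x.1.1 i + β x.1.1 i * (k : M)) =
        fun i => α x.1.2 i + β x.1.2 i * (k : M) := hk
      have hl' : (fun i => α x.1.1 i + β x.1.1 i * (l : M)) =
        fun i => α x.1.2 i + β x.1.2 i * (l : M) := hl
      have hkl' : ((k : M) - (l : M)) ≠ 0 := sub_ne_zero.2 (by exact_mod_cast hkl)
      have hβ' : β x.1.1 = β x.1.2 := by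
        funext i
        have e1 := congrFun hk' i
        have e2 := congrFun hl' i
        refine mul_right_cancel₀ hkl' ?_
        linear_combination e1 - e2
      have hα' : α x.1.1 = α x.1.2 := by
        funext i
        have e1 := congrFun hk' i
        simp only [hβ'] at e1
        linear_combination e1
      exact hαβ _ _ hα' hβ'
    obtain ⟨k, hk⟩ := hfin.infinite_compl.nonempty
    refine ⟨k, fun φ ψ hne h => hk ?_⟩
    exact Set.mem_iUnion.2 ⟨⟨(φ, ψ), hne⟩, h⟩
  have hinj1 : Function.Injective (zp A B 1 (k : Ω)) := by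
    intro φ ψ h
    by_contra hne
    apply hk φ ψ hne
    funext i
    have e1 := congrFun h i
    simp only [zp, hA, hB] at e1
    apply (algebraMap M Ω).injective
    rw [map_add, map_add, map_mul, map_mul, map_natCast]
    have e2 : ∀ z : M, algebraMap M Ω z = (z : Ω) := fun _ => rfl
    rw [e2, e2, e2, e2]
    linear_combination e1
  obtain ⟨rt, φ0, ψ0, hne0, hcoll⟩ := exists_collision A B b ε d hb (k : Ω) hFR hinj1 hδ
  -- the collision relation at a point of `M`
  let R : M → E → E → Prop := fun t φ ψ =>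
    ∀ i, α φ i * t + β φ i * (1 + (k : M) * t) = α ψ i * t + β ψ i * (1 + (k : M) * t)
  have hRequiv : ∀ t, Equivalence (R t) := fun t =>
    ⟨fun _ _ => rfl, fun h i => (h i).symm, fun h h' i => (h i).trans (h' i)⟩
  have hRσ : ∀ (σ : M ≃ₐ[K] M) t φ ψ, R t φ ψ → R (σ t) (σ • φ) (σ • ψ) := by
    intro σ t φ ψ h i
    have e1 := congrArg σ (h i)
    rw [map_add, map_mul, map_mul, map_add, map_mul, map_one, map_natCast, map_add, map_mul,
      map_mul, map_add, map_mul, map_one, map_natCast] at e1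
    rw [hα, hα, hβ, hβ]
    exact e1
  -- the root lies in `M`
  obtain ⟨t0, ht0⟩ : ∃ t0 : M, (t0 : Ω) = rt := by
    obtain ⟨i, hi⟩ := Function.ne_iff.1 (hk φ0 ψ0 hne0)
    have e1 := congrFun hcoll i
    simp only [zp, hA, hB] at e1
    refine ⟨(β ψ0 i - β φ0 i) / ((α φ0 i + β φ0 i * (k : M)) - (α ψ0 i + β ψ0 i * (k : M))), ?_⟩
    have hne : (algebraMap M Ω) ((α φ0 i + β φ0 i * (k : M)) - (α ψ0 i + β ψ0 i * (k : M))) ≠ 0 := by
      rw [Ne, map_eq_zero]
      exact sub_ne_zero.2 hi
    have e3 : ∀ z : M, (z : Ω) = algebraMap M Ω z := fun _ => rfl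
    rw [e3, map_div₀, div_eq_iff hne]
    rw [map_sub, map_sub, map_add, map_add, map_mul, map_mul, map_natCast]
    have e2 : ∀ z : M, algebraMap M Ω z = (z : Ω) := fun _ => rfl
    rw [e2, e2, e2, e2]
    linear_combination -e1
  have hcoll' : R t0 φ0 ψ0 := by
    intro i
    have e1 := congrFun hcoll i
    simp only [zp, hA, hB] at e1
    apply (algebraMap M Ω).injective
    rw [map_add, map_mul, map_mul, map_add, map_mul, map_one, map_natCast, map_add, map_mul,
      map_mul, map_add, map_mul, map_one, map_natCast]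
    have e2 : ∀ z : M, algebraMap M Ω z = (z : Ω) := fun _ => rfl
    rw [e2, e2, e2, e2, e2, ht0]
    exact e1
  by_cases hT : MulAction.stabilizer (M ≃ₐ[K] M) t0 = ⊤
  · -- the collision point is rational
    have hfix : ∀ σ : M ≃ₐ[K] M, σ t0 = t0 := by
      intro σ
      have : σ ∈ MulAction.stabilizer (M ≃ₐ[K] M) t0 := by
        rw [hT]
        exact Subgroup.mem_top σ
      exact this
    obtain ⟨τ0, hτ0⟩ := IntermediateField.mem_bot.1 ((IsGalois.mem_bot_iff_fixed t0).2 hfix)
    have hall := collision_all hℓ hℓ2 hr3 hG hE (R t0) (hRequiv t0) (by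
      intro σ φ ψ h
      have := hRσ σ t0 φ ψ h
      rwa [hfix σ] at this) φ0 ψ0 hne0 hcoll'
    have hval : ∀ i, ∃ a : K, α φ0 i * t0 + β φ0 i * (1 + (k : M) * t0) = algebraMap K M a := by
      intro i
      have h1 : (α φ0 i * t0 + β φ0 i * (1 + (k : M) * t0)) ∈ (⊥ : IntermediateField K M) := by
        rw [IsGalois.mem_bot_iff_fixed]
        intro σ
        rw [map_add, map_mul, map_mul, map_add, map_mul, map_one, map_natCast, ← hα, ← hβ,
          hfix σ]
        exact hall (σ • φ0) φ0 i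
      obtain ⟨a, ha⟩ := IntermediateField.mem_bot.1 h1
      exact ⟨a, ha.symm⟩
    choose a ha using hval
    refine ⟨![τ0, 1 + (k : K) * τ0], a, ?_, ?_⟩
    · intro h
      have h0 := congrFun h 0
      have h1 := congrFun h 1
      simp only [Matrix.cons_val_zero, Matrix.cons_val_one, Pi.zero_apply] at h0 h1
      rw [h0, mul_zero, add_zero] at h1
      exact one_ne_zero h1
    · intro φ i
      simp only [Matrix.cons_val_zero, Matrix.cons_val_one]
      rw [map_add, map_mul, map_one, map_natCast, hτ0, ← ha i]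
      exact hall φ φ0 i
  · exfalso
    set P := (bpoly A B b ε 0 1 1 (k : Ω)).det with hP
    have hPdeg := bpoly_not_const A B b ε d hb (k : Ω) hFR hinj1 hδ
    have hP0 : P ≠ 0 := by
      intro h0
      apply hPdeg
      rw [← hP, h0, Polynomial.natDegree_zero]
    have hPle : P.natDegree ≤ ∑ i, d i := bpoly_natDegree A B b ε d hb 0 1 1 (k : Ω)
    -- representatives
    let S : M → Setoid E := fun t => ⟨R t, hRequiv t⟩
    let rep : M → E → E := fun t φ => (Quotient.mk (S t) φ).out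
    have hrep1 : ∀ t φ, R t φ (rep t φ) := fun t φ =>
      (hRequiv t).symm (Quotient.exact (s := S t) (Quotient.out_eq (Quotient.mk (S t) φ)))
    have hrep2 : ∀ t φ ψ, R t φ ψ → rep t φ = rep t ψ := by
      intro t φ ψ h
      exact congrArg Quotient.out (Quotient.sound (s := S t) h)
    have hdvd : ∀ t : M, (Polynomial.X - Polynomial.C (t : Ω)) ^
        (Finset.univ.filter (fun φ => rep t φ ≠ φ)).card ∣ P := by
      intro t
      refine det_dvd_of_collisions _ (t : Ω) (rep t) (fun φ => (hrep2 t _ _ (hrep1 t φ)).symm) ?_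
      intro φ ψ
      rw [bpoly_eval, bpoly_eval, bmat, bmat]
      congr 2
      funext i
      have e1 := congrArg (algebraMap M Ω) (hrep1 t φ i)
      rw [map_add, map_mul, map_mul, map_add, map_mul, map_one, map_natCast, map_add, map_mul,
        map_mul, map_add, map_mul, map_one, map_natCast] at e1
      have e2 : ∀ z : M, algebraMap M Ω z = (z : Ω) := fun _ => rfl
      rw [e2, e2, e2, e2, e2] at e1
      simp only [zp, hA, hB]
      linear_combination e1
    have hcc := collision_count hℓ hℓ2 hr3 hG hE _ hT (R t0) (fun φ ψ h => (hRequiv t0).symm h) (by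
      intro g hg φ ψ h
      have h2 := hRσ g t0 φ ψ h
      have h3 : g t0 = t0 := hg
      rwa [h3] at h2) φ0 ψ0 hne0 hcoll'
    have hcount : ∀ σ : M ≃ₐ[K] M, Nat.card {φ : E // ∃ ψ, ψ ≠ φ ∧ R t0 φ ψ} ≤
        2 * (Finset.univ.filter (fun φ => rep (σ t0) φ ≠ φ)).card := by
      intro σ
      have h2 : Nat.card {φ : E // ∃ ψ, ψ ≠ φ ∧ R t0 φ ψ} ≤
          Nat.card {φ : E // ∃ ψ, ψ ≠ φ ∧ R (σ t0) φ ψ} := by
        refine Nat.card_le_card_of_injective (fun x => ⟨σ • x.1, ?_⟩) ?_
        · obtain ⟨ψ, hψ1, hψ2⟩ := x.2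
          exact ⟨σ • ψ, fun h => hψ1 (smul_left_cancel σ h), hRσ σ t0 _ _ hψ2⟩
        · intro x y hxy
          exact Subtype.ext (smul_left_cancel σ (congrArg Subtype.val hxy))
      exact h2.trans (card_nontrivial_le (R (σ t0)) (rep (σ t0)) (hrep2 (σ t0)))
    -- the orbit
    have hfinO : (MulAction.orbit (M ≃ₐ[K] M) t0).Finite :=
      Set.finite_range (fun σ : M ≃ₐ[K] M => σ • t0)
    let O : Finset Ω := hfinO.toFinset.image (fun t : M => (t : Ω))
    have hOcard : O.card = Nat.card (MulAction.orbit (M ≃ₐ[K] M) t0) := by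
      rw [Finset.card_image_of_injective _ Subtype.val_injective, ← Set.ncard_eq_toFinset_card _ hfinO]
      rfl
    set c0 := (Nat.card {φ : E // ∃ ψ, ψ ≠ φ ∧ R t0 φ ψ} + 1) / 2 with hc0
    have hle := sum_le_natDegree P hP0 O c0 (by
      intro t ht
      obtain ⟨t', ht', rfl⟩ := Finset.mem_image.1 ht
      obtain ⟨σ, rfl⟩ := hfinO.mem_toFinset.1 ht'
      refine (pow_dvd_pow _ ?_).trans (hdvd (σ t0))
      have := hcount σ
      omega)
    have hgrp : Nat.card (MulAction.orbit (M ≃ₐ[K] M) t0) =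
        (MulAction.stabilizer (M ≃ₐ[K] M) t0).index := by
      rw [MulAction.index_stabilizer]
      rfl
    have h1 : Nat.card {φ : E // ∃ ψ, ψ ≠ φ ∧ R t0 φ ψ} ≤ 2 * c0 := by omega
    have h2 : (r - 1) * 2 ^ (r - 1) < O.card * (2 * c0) := by
      rw [hOcard, hgrp]
      exact hcc.trans_le (Nat.mul_le_mul_left _ h1)
    have h3 : O.card * (2 * c0) ≤ (r - 1) * 2 ^ (r - 1) := by
      calc O.card * (2 * c0) = 2 * (O.card * c0) := by ring
        _ ≤ 2 * ∑ i, d i := Nat.mul_le_mul_left _ (hle.trans hPle)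
        _ = (r - 1) * 2 ^ (r - 1) := hsum
    omega

end LeepG
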