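import Mathlib

/-!
The group condition in the general form.
-/

namespace LeepA

/-- The condition on the finite group: `W` is a normal subgroup of order `2 ^ (r - 1)`;
a subgroup whose index is prime to `ℓ` is the whole group, or a complement of `W`,
or it has index `> 2 ^ (r - 1)`; and so on. -/
def GG (ℓ r : ℕ) (G : Type*) [Group G] : Prop :=
  ∃ W : Subgroup G, W.Normal ∧ Nat.card W = 2 ^ (r - 1) ∧
    (∀ H : Subgroup G, ¬ ℓ ∣ H.index →
      H = ⊤ ∨ (H.index = 2 ^ (r - 1) ∧ H ⊓ W = ⊥) ∨ 2 ^ (r - 1) < H.index) ∧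
    (∀ S : Subgroup G, W ≤ S → S.index < r → S = ⊤) ∧
    (∀ S : Subgroup G, S ⊔ W = ⊤ → S ⊓ W = ⊥ ∨ S = ⊤) ∧
    (∀ S : Subgroup G, S ⊔ W = ⊤ → ∀ w ∈ W, (∀ s ∈ S, s * w = w * s) → w = 1) ∧
    ∃ V V' : Subgroup G, V' ≤ V ∧ V.index = r ∧ V'.index = 2 * r

end LeepA
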