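import Pool.Agent.H5.Leep.GG
import Pool.Agent.H5.Leep.Lower

/-!
The lower bound, general form.
-/

namespace LeepG

open IntermediateField LeepA

theorem lower {K0 Ω : Type} [Field K0] [Field Ω] [Algebra K0 Ω] [CharZero K0]
    {ℓ r : ℕ} (hr3 : 3 ≤ r) (M0 : IntermediateField K0 Ω) [FiniteDimensional K0 M0]
    [IsGalois K0 M0] (hG : GG ℓ r (M0 ≃ₐ[K0] M0)) (K : IntermediateField K0 Ω)
    (hK : K ⊓ M0 = ⊥) : HasAnisoSystem K r (2 * r) := by
  obtain ⟨W, -, -, -, -, -, -, V, V', hVV, hV, hV'⟩ := hG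
  have hG1 : Nat.card (M0 ≃ₐ[K0] M0) = Module.finrank K0 M0 := IsGalois.card_aut_eq_finrank K0 M0
  have hmul : ∀ H : Subgroup (M0 ≃ₐ[K0] M0),
      Module.finrank K0 (fixedField H) = H.index := by
    intro H
    have h1 : Module.finrank K0 (fixedField H) * Nat.card H = Nat.card H * H.index := by
      rw [H.card_mul_index, hG1, ← finrank_fixedField_eq_card H]
      exact Module.finrank_mul_finrank K0 (fixedField H) M0
    rw [mul_comm] at h1
    exact Nat.eq_of_mul_eq_mul_left Nat.card_pos h1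
  have h1 : Module.finrank K0 (fixedField V) = r := by
    rw [hmul, hV]
  have h2 : Module.finrank K0 (fixedField V') = 2 * r := by
    rw [hmul, hV']
  have hle : fixedField V ≤ fixedField V' := by
    intro z hz g
    exact hz ⟨g.1, hVV g.2⟩
  obtain ⟨θ1, hθ1⟩ := Field.exists_primitive_element K0 (fixedField V)
  obtain ⟨θ2, hθ2⟩ := Field.exists_primitive_element K0 (fixedField V')
  have e1 : K0⟮(θ1 : M0)⟯ = fixedField V := by
    have := congrArg IntermediateField.lift hθ1
    rw [lift_top] at this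
    exact (lift_adjoin_simple K0 (fixedField V) θ1).symm.trans this
  have e2 : K0⟮(θ2 : M0)⟯ = fixedField V' := by
    have := congrArg IntermediateField.lift hθ2
    rw [lift_top] at this
    exact (lift_adjoin_simple K0 (fixedField V') θ2).symm.trans this
  have f1 := finrank_adjoin_of_good M0 K hK (θ1 : M0)
  have f2 := finrank_adjoin_of_good M0 K hK (θ2 : M0)
  rw [e1, h1] at f1
  rw [e2, h2] at f2
  have hmem : ((θ1 : M0) : Ω) ∈ K⟮((θ2 : M0) : Ω)⟯ := by
    have h3 : (θ1 : M0) ∈ K0⟮(θ2 : M0)⟯ := by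
      rw [e2]
      exact hle θ1.2
    have h4 : ((θ1 : M0) : Ω) ∈ K0⟮((θ2 : M0) : Ω)⟯ := by
      rw [← lift_adjoin_simple K0 M0 (θ2 : M0), mem_lift]
      exact h3
    have h5 : K0⟮((θ2 : M0) : Ω)⟯ ≤ (K⟮((θ2 : M0) : Ω)⟯).restrictScalars K0 := by
      rw [adjoin_simple_le_iff]
      exact mem_adjoin_simple_self K _
    exact h5 h4
  set L : IntermediateField K Ω := K⟮((θ1 : M0) : Ω)⟯ with hL
  have hLL : L ≤ K⟮((θ2 : M0) : Ω)⟯ := by
    rw [hL, adjoin_simple_le_iff]
    exact hmem
  have hint : IsIntegral L ((θ2 : M0) : Ω) := by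
    have h6 : IsIntegral K0 (θ2 : M0) := Algebra.IsIntegral.isIntegral _
    have h7 : IsIntegral K0 ((θ2 : M0) : Ω) := h6.algebraMap
    exact (h7.tower_top (A := K)).tower_top
  have hdeg : Module.finrank L (extendScalars hLL) = 2 := by
    have h8 := Module.finrank_mul_finrank K L (extendScalars hLL)
    have h9 : Module.finrank K (extendScalars hLL) = 2 * r := f2
    rw [f1, h9, mul_comm] at h8
    exact Nat.eq_of_mul_eq_mul_right (by omega : 0 < r) h8
  have hnat : (minpoly L ((θ2 : M0) : Ω)).natDegree = 2 := by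
    rw [← IntermediateField.adjoin.finrank hint, ← hdeg, extendScalars_adjoin]
  obtain ⟨a, ha⟩ := exists_nonsquare_of_minpoly _ hint hnat
  exact anisoSystem_of_nonsquare f1 (by omega : r ≠ 0) a ha

end LeepG
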