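import Pool.Agent.H5.Leep.GDArg
import Pool.Agent.H5.Leep.Zero

/-!
The main proposition, general form.
-/

namespace LeepG

open MvPolynomial IntermediateField LeepA

/-- (*) -/
theorem exists_zero {K0 Ω : Type} [Field K0] [Field Ω] [Algebra K0 Ω] [CharZero K0] [IsAlgClosed Ω]
    {ℓ r : ℕ} (hℓ : ℓ.Prime) (hℓ2 : ℓ ≠ 2) (hr3 : 3 ≤ r) (M0 : IntermediateField K0 Ω)
    [FiniteDimensional K0 M0] [IsGalois K0 M0] (hG : GG ℓ r (M0 ≃ₐ[K0] M0)) (K : IntermediateField K0 Ω)
    (hK : K ⊓ M0 = ⊥) (t : Fin (r + 1) → Ω) (ht : AlgebraicIndependent K t)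
    (q : Fin (r - 1) → MvPolynomial (Fin (r + 1)) K) (hq : ∀ k, (q k).IsHomogeneous 2) :
    ∃ x : Fin (r + 1) → Ω, x ≠ 0 ∧ (∀ k, aeval x (q k) = 0) ∧
      (∀ i, IsAlgebraic (adjoin K (Set.range t)) (x i)) ∧
      (adjoin K (Set.range x)).restrictScalars K0 ⊓ M0 = ⊥ := by
  -- the state after `k` forms
  have key : ∀ k : ℕ, k ≤ r - 1 → ∃ (c m : ℕ) (x : Fin (r + 1) → Ω)
      (l : Fin m → MvPolynomial (Fin (r + 1)) K) (ρ : ℕ), c ≤ k ∧ m + c = r + 1 ∧
      Stage x l ρ ∧ ¬ ℓ ∣ ρ ∧ ρ ≤ 2 ^ c ∧ (ρ = 2 ^ c → FR x l c) ∧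
      (∀ j : Fin (r - 1), (j : ℕ) < k → aeval x (q j) = 0) ∧
      (∀ i, IsAlgebraic (adjoin K (Set.range t)) (x i)) := by
    intro k
    induction k with
    | zero =>
      intro _
      refine ⟨0, r + 1, t, fun j => X j, 1, le_rfl, rfl, stage_start t ht, ?_, by simp,
        fun _ => fr_start t, fun j hj => absurd hj (Nat.not_lt_zero _), fun i => ?_⟩
      · intro h
        exact hℓ.one_lt.ne' (Nat.dvd_one.1 h)
      · exact isAlgebraic_algebraMap (⟨t i, subset_adjoin _ _ ⟨i, rfl⟩⟩ :
          adjoin K (Set.range t))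
    | succ k ih =>
      intro hk
      obtain ⟨c, m, x, l, ρ, hck, hmc, st, hpρ, hρ, hfr, hz, halg⟩ := ih (by omega)
      by_cases hqx : aeval x (q ⟨k, by omega⟩) = 0
      · refine ⟨c, m, x, l, ρ, by omega, hmc, st, hpρ, hρ, hfr, ?_, halg⟩
        intro j hj
        rcases Nat.lt_succ_iff_lt_or_eq.1 hj with h | h
        · exact hz j h
        · have : j = ⟨k, by omega⟩ := Fin.ext h
          rw [this]
          exact hqx
      · obtain ⟨m', rfl⟩ : ∃ m', m = m' + 1 := ⟨m - 1, by omega⟩
        obtain ⟨x', l', ρ', st', hpρ', hρ', hqx', hrel, halg', hfr'⟩ :=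
          cut hℓ hℓ2 st hpρ (q ⟨k, by omega⟩) (hq _) hqx
        refine ⟨c + 1, m', x', l', ρ', by omega, by omega, st', hpρ', ?_, ?_, ?_, ?_⟩
        · rw [pow_succ]
          omega
        · intro hρ2
          have h1 : ρ = 2 ^ c := by
            rw [pow_succ] at hρ2
            omega
          have h2 : ρ' = 2 * ρ := by
            rw [hρ2, h1, pow_succ]
            ring
          exact hfr' h2 c h1 (hfr h1)
        · intro j hj
          rcases Nat.lt_succ_iff_lt_or_eq.1 hj with h | h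
          · exact hrel _ (hz j h)
          · have : j = ⟨k, by omega⟩ := Fin.ext h
            rw [this]
            exact hqx'
        · intro i
          rw [IntermediateField.isAlgebraic_adjoin_iff]
          refine IsAlgebraic.adjoin_of_forall_isAlgebraic (s := Set.range x) ?_
            (IntermediateField.isAlgebraic_adjoin_iff.1 (halg' i))
          rintro _ ⟨⟨j, rfl⟩, -⟩
          exact IntermediateField.isAlgebraic_adjoin_iff.1 (halg j)
  obtain ⟨c, m, x, l, ρ, hck, hmc, st, hpρ, hρ, hfr, hz, halg⟩ := key (r - 1) le_rfl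
  have hm2 : 2 ≤ m := by omega
  by_cases hgood : (adjoin K (Set.range x)).restrictScalars K0 ⊓ M0 = ⊥
  · refine ⟨x, ?_, fun k => hz k k.2, halg, hgood⟩
    rintro rfl
    have hi := st.indep.ne_zero ⟨0, by omega⟩
    apply hi
    have hl := st.lin ⟨0, by omega⟩
    have h0 : constantCoeff (l ⟨0, by omega⟩) = 0 := by
      rw [constantCoeff_eq]
      exact hl.coeff_eq_zero (by simp)
    rw [aeval_zero, h0, map_zero]
  · set y : Fin m → Ω := fun j => aeval x (l j) with hy
    have hKy := good_adjoin M0 K hK y st.indep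
    have hle : adjoin K (Set.range y) ≤ adjoin K (Set.range x) := by
      rw [adjoin_le_iff]
      rintro _ ⟨j, rfl⟩
      apply algebra_adjoin_le_adjoin
      rw [Algebra.adjoin_range_eq_range_aeval]
      exact ⟨l j, rfl⟩
    have hrel : relfinrank ((adjoin K (Set.range y)).restrictScalars K0)
        ((adjoin K (Set.range x)).restrictScalars K0) = ρ := st.deg
    have hle' : (adjoin K (Set.range y)).restrictScalars K0 ≤
        (adjoin K (Set.range x)).restrictScalars K0 := hle
    have hρ0 : ρ ≠ 0 := by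
      rintro rfl
      exact hpρ (dvd_zero _)
    have h2 : (2 : ℕ) ^ c ≤ 2 ^ (r - 1) := Nat.pow_le_pow_right (by norm_num) hck
    have hdvd := finrank_dvd_relfinrank M0 _ _ _ hKy hle' inf_le_right inf_le_left
    rw [bad_finrank M0 hG _ _ hKy hle' (by rw [hrel]; exact hpρ)
      (by rw [hrel]; exact hρ.trans h2) (by rw [hrel]; exact Nat.pos_of_ne_zero hρ0) hgood,
      hrel] at hdvd
    have h1 : 2 ^ (r - 1) ≤ ρ := Nat.le_of_dvd (Nat.pos_of_ne_zero hρ0) hdvd
    have h3 : r - 1 ≤ c := (Nat.pow_le_pow_iff_right (by norm_num)).1 (h1.trans hρ)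
    obtain rfl : c = r - 1 := le_antisymm hck h3
    obtain rfl : ρ = 2 ^ (r - 1) := le_antisymm hρ h1
    obtain rfl : m = 2 := by omega
    obtain ⟨a, ha, haf⟩ := D_arg hℓ hℓ2 hr3 M0 hG K hK x l st (hfr rfl) hgood
    refine ⟨fun i => algebraMap K Ω (a i), ?_, ?_, ?_, ?_⟩
    · intro h
      apply ha
      funext i
      have := congrFun h i
      simpa using this
    · intro k
      have := haf (q k) (hz k k.2)
      have h4 : aeval (fun i => algebraMap K Ω (a i)) (q k) = algebraMap K Ω (eval a (q k)) := by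
        have h5 := aeval_algebraMap_apply (R := K) Ω a (q k)
        have h6 : aeval a (q k) = eval a (q k) := RingHom.congr_fun (coe_aeval_eq_eval a) (q k)
        rw [← h6]
        exact h5
      rw [h4, this, map_zero]
    · intro i
      exact isAlgebraic_algebraMap (algebraMap K (adjoin K (Set.range t)) (a i))
    · have : adjoin K (Set.range fun i => algebraMap K Ω (a i)) = ⊥ := by
        rw [adjoin_eq_bot_iff]
        rintro _ ⟨i, rfl⟩
        exact (⊥ : IntermediateField K Ω).algebraMap_mem (a i)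
      rw [this, restrictScalars_bot_eq_self]
      exact hK

end LeepG
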