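import Pool.Agent.H5.Leep.Defs

/-!
Good fields: adjoining algebraically independent elements, and the degrees of bad extensions.
-/

namespace LeepA

open MvPolynomial IntermediateField

/-- F3 -/
theorem good_adjoin {K0 Ω : Type} [Field K0] [Field Ω] [Algebra K0 Ω] [CharZero K0]
    (M0 : IntermediateField K0 Ω) [FiniteDimensional K0 M0]
    (K : IntermediateField K0 Ω)
    (hK : K ⊓ M0 = ⊥) {m : ℕ} (y : Fin m → Ω) (hy : AlgebraicIndependent K y) :
    (adjoin K (Set.range y)).restrictScalars K0 ⊓ M0 = ⊥ := by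
  rw [eq_bot_iff]
  rintro z ⟨hz1, hz2⟩
  have hz1' : z ∈ adjoin K (Set.range y) := hz1
  have hz2' : z ∈ M0 := hz2
  suffices hzK : z ∈ K by
    rw [← hK]
    exact ⟨hzK, hz2'⟩
  have halg0 : IsAlgebraic K0 z := by
    have := Algebra.IsAlgebraic.isAlgebraic (R := K0) (⟨z, hz2'⟩ : M0)
    exact this.algebraMap (A := Ω)
  have halg : IsAlgebraic K z := halg0.tower_top K
  obtain ⟨r, s, hrs⟩ := (mem_adjoin_range_iff K y z).1 hz1'
  by_cases hs : aeval y s = 0
  · rw [hs, div_zero] at hrs
    rw [hrs]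
    exact K.zero_mem
  have hyA : AlgebraicIndependent (algebraicClosure K Ω) y := hy.algebraicClosure
  let zA : algebraicClosure K Ω := ⟨z, mem_algebraicClosure_iff.2 halg⟩
  have hzero : C zA * MvPolynomial.map (algebraMap K (algebraicClosure K Ω)) s -
      MvPolynomial.map (algebraMap K (algebraicClosure K Ω)) r = 0 := by
    have hinj := hyA
    rw [AlgebraicIndependent, injective_iff_map_eq_zero] at hinj
    apply hinj
    rw [map_sub, map_mul, aeval_C, aeval_map_algebraMap, aeval_map_algebraMap]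
    have : (algebraMap (algebraicClosure K Ω) Ω) zA = z := rfl
    rw [this, hrs]
    field_simp
    ring
  have hs0 : s ≠ 0 := by
    rintro rfl
    simp at hs
  obtain ⟨d, hd⟩ := MvPolynomial.ne_zero_iff.1 hs0
  have hc := congrArg (MvPolynomial.coeff d) hzero
  rw [MvPolynomial.coeff_sub, MvPolynomial.coeff_C_mul, MvPolynomial.coeff_map,
    MvPolynomial.coeff_map, MvPolynomial.coeff_zero] at hc
  have hc' : z * (algebraMap K Ω (coeff d s)) = algebraMap K Ω (coeff d r) := by
    have := congrArg (algebraMap (algebraicClosure K Ω) Ω) (sub_eq_zero.1 hc)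
    rw [map_mul] at this
    exact this
  have hd' : algebraMap K Ω (coeff d s) ≠ 0 := by
    rw [Ne, map_eq_zero]
    exact hd
  have hz : z = algebraMap K Ω (coeff d r / coeff d s) := by
    rw [map_div₀, eq_div_iff hd', hc']
  rw [hz]
  exact (coeff d r / coeff d s).2

/-- The minimal polynomial over `K` of an element of `M0` is the one over `K0`. -/
theorem minpoly_of_good {K0 Ω : Type} [Field K0] [Field Ω] [Algebra K0 Ω]
    (M0 : IntermediateField K0 Ω) [FiniteDimensional K0 M0] [Normal K0 M0]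
    (K : IntermediateField K0 Ω) (hK : K ⊓ M0 = ⊥) (θ : Ω) (hθ : θ ∈ M0) :
    (minpoly K0 θ).map (algebraMap K0 K) = minpoly K θ := by
  have hint : IsIntegral K0 θ := by
    have := Algebra.IsIntegral.isIntegral (R := K0) (⟨θ, hθ⟩ : M0)
    exact this.algebraMap (B := Ω)
  have hintK : IsIntegral K θ := hint.tower_top
  set P := minpoly K θ with hP
  have hPm : P.Monic := minpoly.monic hintK
  have hdvd : P ∣ (minpoly K0 θ).map (algebraMap K0 K) := by
    apply minpoly.dvd
    rw [Polynomial.aeval_map_algebraMap]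
    exact minpoly.aeval _ _
  have hmp : minpoly K0 θ = minpoly K0 (⟨θ, hθ⟩ : M0) := by
    exact (minpoly.algebraMap_eq (algebraMap M0 Ω).injective (⟨θ, hθ⟩ : M0))
  have hsplit : ((minpoly K0 θ).map (algebraMap K0 M0)).Splits := by
    rw [hmp]
    exact Normal.splits inferInstance _
  have hdvdΩ : P.map (algebraMap K Ω) ∣ ((minpoly K0 θ).map (algebraMap K0 M0)).map
      (algebraMap M0 Ω) := by
    have h1 := Polynomial.map_dvd (algebraMap K Ω) hdvd
    rw [Polynomial.map_map] at h1 ⊢
    rw [← IsScalarTower.algebraMap_eq] at h1 ⊢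
    exact h1
  have hne : ((minpoly K0 θ).map (algebraMap K0 M0)).map (algebraMap M0 Ω) ≠ 0 := by
    rw [Polynomial.map_map]
    exact ((minpoly.monic hint).map _).ne_zero
  have hsplitP : (P.map (algebraMap K Ω)).Splits :=
    (hsplit.map (algebraMap M0 Ω)).of_dvd hne hdvdΩ
  have hlift : P.map (algebraMap K Ω) ∈ Polynomial.lifts (algebraMap M0 Ω) := by
    refine hsplitP.mem_lift_of_roots_mem_range (hPm.map _) (algebraMap M0 Ω) ?_
    intro a ha
    have ha' : a ∈ (((minpoly K0 θ).map (algebraMap K0 M0)).map (algebraMap M0 Ω)).roots :=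
      Multiset.mem_of_le (Polynomial.roots.le_of_dvd hne hdvdΩ) ha
    rw [hsplit.roots_map] at ha'
    obtain ⟨b, -, hb⟩ := Multiset.mem_map.1 ha'
    exact ⟨b, hb⟩
  -- all the coefficients lie in `K0`
  have hcoef : P ∈ Polynomial.lifts (algebraMap K0 K) := by
    rw [Polynomial.lifts_iff_coeff_lifts]
    intro n
    rw [Polynomial.lifts_iff_coeff_lifts] at hlift
    obtain ⟨c, hc⟩ := hlift n
    rw [Polynomial.coeff_map] at hc
    have hmem : (algebraMap K Ω (P.coeff n)) ∈ K ⊓ M0 := by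
      refine ⟨(P.coeff n).2, ?_⟩
      rw [← hc]
      exact c.2
    rw [hK] at hmem
    obtain ⟨e, he⟩ := IntermediateField.mem_bot.1 hmem
    refine ⟨e, ?_⟩
    apply (algebraMap K Ω).injective
    rw [← he, ← IsScalarTower.algebraMap_apply]
  obtain ⟨Q, hQ, hQdeg, hQm⟩ := Polynomial.lifts_and_natDegree_eq_and_monic hcoef hPm
  have hQ0 : Polynomial.aeval θ Q = 0 := by
    have : Polynomial.aeval θ P = 0 := minpoly.aeval _ _
    rw [← hQ, Polynomial.aeval_map_algebraMap] at this
    exact this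
  have hdvd2 : minpoly K0 θ ∣ Q := minpoly.dvd _ _ hQ0
  have hdvd3 : (minpoly K0 θ).map (algebraMap K0 K) ∣ P := by
    rw [← hQ]
    exact Polynomial.map_dvd _ hdvd2
  exact Polynomial.eq_of_monic_of_associated ((minpoly.monic hint).map _) hPm
    (associated_of_dvd_dvd hdvd3 hdvd)

/-- F1 : a subfield of `M0` inside `E` gives a divisor of the degree. -/
theorem finrank_dvd_relfinrank {K0 Ω : Type} [Field K0] [Field Ω] [Algebra K0 Ω] [CharZero K0]
    (M0 : IntermediateField K0 Ω) [FiniteDimensional K0 M0] [Normal K0 M0]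
    (K E N : IntermediateField K0 Ω) (hK : K ⊓ M0 = ⊥) (hKE : K ≤ E) (hNM : N ≤ M0)
    (hNE : N ≤ E) : Module.finrank K0 N ∣ relfinrank K E := by
  have : FiniteDimensional K0 N :=
    FiniteDimensional.of_injective (IntermediateField.inclusion hNM).toLinearMap
      (IntermediateField.inclusion hNM).injective
  obtain ⟨θ, hθ⟩ := Field.exists_primitive_element K0 N
  have hdeg : (minpoly K0 θ).natDegree = Module.finrank K0 N :=
    (Field.primitive_element_iff_minpoly_natDegree_eq K0 θ).1 hθ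
  have hθM : (θ : Ω) ∈ M0 := hNM θ.2
  have hmp := minpoly_of_good M0 K hK (θ : Ω) hθM
  have hmp2 : minpoly K0 (θ : Ω) = minpoly K0 θ :=
    minpoly.algebraMap_eq (algebraMap N Ω).injective θ
  have hint : IsIntegral K0 (θ : Ω) := (Algebra.IsIntegral.isIntegral (R := K0) θ).algebraMap
  have hintK : IsIntegral K (θ : Ω) := hint.tower_top
  have hfr : Module.finrank K K⟮(θ : Ω)⟯ = Module.finrank K0 N := by
    rw [IntermediateField.adjoin.finrank hintK, ← hmp, Polynomial.natDegree_map, hmp2, hdeg]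
  have hle1 : K ≤ (K⟮(θ : Ω)⟯).restrictScalars K0 := by
    intro z hz
    exact (K⟮(θ : Ω)⟯).algebraMap_mem ⟨z, hz⟩
  have hle2 : (K⟮(θ : Ω)⟯).restrictScalars K0 ≤ E := by
    intro z hz
    have hz' : z ∈ K⟮(θ : Ω)⟯ := hz
    have : K⟮(θ : Ω)⟯ ≤ extendScalars hKE := by
      rw [adjoin_simple_le_iff]
      exact hNE θ.2
    exact this hz'
  have hrel : relfinrank K ((K⟮(θ : Ω)⟯).restrictScalars K0) = Module.finrank K0 N := by
    rw [relfinrank_eq_finrank_of_le hle1, ← hfr]
    rfl
  rw [← relfinrank_mul_relfinrank hle1 hle2, hrel]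
  exact Dvd.intro _ rfl

/-- F1, F2 -/
theorem bad_degree {K0 Ω : Type} [Field K0] [Field Ω] [Algebra K0 Ω] [CharZero K0]
    {p : ℕ} (hp : p.Prime) (hp2 : p ≠ 2) (M0 : IntermediateField K0 Ω) [FiniteDimensional K0 M0]
    [IsGalois K0 M0] (hG : GoodGroup p (M0 ≃ₐ[K0] M0)) (K E : IntermediateField K0 Ω)
    (hK : K ⊓ M0 = ⊥) (hKE : K ≤ E) (hfin : relfinrank K E ≠ 0) (hpE : ¬ p ∣ relfinrank K E)
    (hE : E ⊓ M0 ≠ ⊥) :
    ∃ H : Subgroup (M0 ≃ₐ[K0] M0), Nat.card H = p ∧ 2 ^ (p - 1) ∣ relfinrank K E := by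
  have hNM : E ⊓ M0 ≤ M0 := inf_le_right
  have hdvd := finrank_dvd_relfinrank M0 K E (E ⊓ M0) hK hKE hNM inf_le_left
  set N' : IntermediateField K0 M0 := IntermediateField.restrict hNM with hN'
  have hfrN : Module.finrank K0 N' = Module.finrank K0 ↥(E ⊓ M0) :=
    (IntermediateField.restrictAlgEquiv hNM).toLinearEquiv.finrank_eq.symm
  have hcard : Nat.card N'.fixingSubgroup = Module.finrank N' M0 :=
    IsGalois.card_fixingSubgroup_eq_finrank N'
  have hmul : Module.finrank K0 N' * Module.finrank N' M0 = Module.finrank K0 M0 :=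
    Module.finrank_mul_finrank K0 N' M0
  have hG1 : Nat.card (M0 ≃ₐ[K0] M0) = Module.finrank K0 M0 := IsGalois.card_aut_eq_finrank K0 M0
  rw [← hG1, hG.1, ← hcard] at hmul
  have hpN : ¬ p ∣ Module.finrank K0 N' := by
    rw [hfrN]
    exact fun h => hpE (h.trans hdvd)
  have hpH : p ∣ Nat.card N'.fixingSubgroup := by
    have : p ∣ Module.finrank K0 N' * Nat.card N'.fixingSubgroup := by
      rw [hmul]
      exact Dvd.intro _ rfl
    exact (hp.dvd_mul.1 this).resolve_left hpN
  rcases hG.2 N'.fixingSubgroup hpH with h | h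
  · refine ⟨N'.fixingSubgroup, h, ?_⟩
    rw [h, mul_comm] at hmul
    have h2 : Module.finrank K0 N' = 2 ^ (p - 1) := Nat.eq_of_mul_eq_mul_left hp.pos hmul
    rw [← h2, hfrN]
    exact hdvd
  · exfalso
    apply hE
    have h3 : N' = ⊥ := by
      rw [← IsGalois.fixedField_fixingSubgroup N', h]
      exact IsGalois.fixedField_top
    have h4 : IntermediateField.lift N' = E ⊓ M0 := lift_restrict hNM
    rw [← h4, h3]
    exact IntermediateField.lift_bot (F := K0) (E := Ω) M0

end LeepA
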