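import Pool.Agent.H5.Leep.Defs

/-!
The group of order `p * 2 ^ (p - 1)`.
-/

namespace LeepA

set_option maxHeartbeats 400000

theorem goodGroup_of (p : ℕ) (hp : p.Prime) (h2 : orderOf (2 : ZMod p) = p - 1) {G : Type*}
    [Group G] [Finite G] (N : Subgroup G) [N.Normal] (hN : Nat.card N = 2 ^ (p - 1))
    (hG : N.index = p) (hfix : ∀ g ∉ N, ∀ n ∈ N, g * n * g⁻¹ = n → n = 1) : GoodGroup p G := by
  have hpf : Fact p.Prime := ⟨hp⟩
  have hp2 : p ≠ 2 := by
    rintro rfl
    have h3 : (2 : ZMod 2) = 0 := rfl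
    rw [h3] at h2
    have h4 := pow_orderOf_eq_one (0 : ZMod 2)
    rw [h2] at h4
    norm_num at h4
  have hcard : Nat.card G = p * 2 ^ (p - 1) := by
    rw [← N.card_mul_index, hN, hG, mul_comm]
  refine ⟨hcard, ?_⟩
  intro H hpH
  obtain ⟨h, hh⟩ := exists_prime_orderOf_dvd_card' p hpH
  have hgN : (h : G) ∉ N := by
    intro hmem
    have h3 : orderOf (⟨h, hmem⟩ : N) ∣ Nat.card N := orderOf_dvd_natCard _
    rw [Subgroup.orderOf_mk, Subgroup.orderOf_coe, hh, hN] at h3
    exact hp2 ((Nat.prime_dvd_prime_iff_eq hp Nat.prime_two).mp (hp.dvd_of_dvd_pow h3))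
  let U : Subgroup H := N.subgroupOf H
  have hUn : U.Normal := inferInstance
  let act : MulAction (Subgroup.zpowers h) U :=
    MulAction.compHom U ((MulAut.conjNormal (H := U)).comp (Subgroup.zpowers h).subtype)
  have hpg : IsPGroup p (Subgroup.zpowers h) := by
    apply IsPGroup.of_card (n := 1)
    rw [Nat.card_zpowers, hh, pow_one]
  have hmod := hpg.card_modEq_card_fixedPoints U
  have hfp : Nat.card (MulAction.fixedPoints (Subgroup.zpowers h) U) = 1 := by
    rw [Nat.card_eq_one_iff_unique]
    constructor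
    · constructor
      have key : ∀ u : MulAction.fixedPoints (Subgroup.zpowers h) U, (u : U) = 1 := by
        intro u
        have h3 := u.2 ⟨h, Subgroup.mem_zpowers h⟩
        have h4 : h * ((u : U) : H) * h⁻¹ = ((u : U) : H) := congrArg Subtype.val h3
        have h5 : (h : G) * (((u : U) : H) : G) * (h : G)⁻¹ = (((u : U) : H) : G) :=
          congrArg Subtype.val h4
        have h6 := hfix _ hgN _ (Subgroup.mem_subgroupOf.mp (u : U).2) h5
        exact Subtype.ext (Subtype.ext h6)
      intro a b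
      exact Subtype.ext ((key a).trans (key b).symm)
    · exact ⟨⟨1, fun z => map_one (MulAut.conjNormal (z : H) : MulAut U)⟩⟩
  rw [hfp] at hmod
  -- the order of `U`
  have hUdvd : Nat.card U ∣ 2 ^ (p - 1) := by
    rw [← hN]
    exact Subgroup.card_dvd_of_injective
      ((H.subtype.comp U.subtype).codRestrict N (fun u => Subgroup.mem_subgroupOf.mp u.2))
      (fun a b hab => Subtype.ext (Subtype.ext (congrArg (fun t : N => (t : G)) hab)))
  obtain ⟨k, hk, hUk⟩ := (Nat.dvd_prime_pow Nat.prime_two).mp hUdvd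
  have hdiv : p - 1 ∣ k := by
    rw [← h2]
    apply orderOf_dvd_of_pow_eq_one
    rw [hUk, ← ZMod.natCast_eq_natCast_iff] at hmod
    push_cast at hmod
    exact hmod
  have hidx : U.index ∣ p := by
    rw [← hG]
    exact N.relIndex_dvd_index_of_normal H
  have hHU : Nat.card U * U.index = Nat.card H := U.card_mul_index
  rcases Nat.eq_zero_or_pos k with hk0 | hkpos
  · left
    rw [hk0, pow_zero] at hUk
    rw [hUk, one_mul] at hHU
    rw [hHU] at hidx
    exact Nat.dvd_antisymm hidx hpH
  · right
    have hk1 : k = p - 1 := le_antisymm hk (Nat.le_of_dvd hkpos hdiv)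
    rw [hk1] at hUk
    have hp' : p ∣ U.index := by
      rw [← hHU, hUk] at hpH
      rcases hp.dvd_mul.mp hpH with h3 | h3
      · exact absurd ((Nat.prime_dvd_prime_iff_eq hp Nat.prime_two).mp (hp.dvd_of_dvd_pow h3)) hp2
      · exact h3
    have hidx' : U.index = p := Nat.dvd_antisymm hidx hp'
    apply Subgroup.eq_top_of_card_eq
    rw [← hHU, hUk, hidx', hcard, mul_comm]

theorem exists_goodGroup (p : ℕ) (hp : p.Prime) (h : orderOf (2 : ZMod p) = p - 1) :
    ∃ (G : Type) (_ : Group G), Finite G ∧ GoodGroup p G := by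
  have hpf : Fact p.Prime := ⟨hp⟩
  have hp1 := hp.one_lt
  have h2f : Fact (Nat.Prime 2) := ⟨Nat.prime_two⟩
  let F := GaloisField 2 (p - 1)
  have hFcard : Nat.card F = 2 ^ (p - 1) := GaloisField.card 2 (p - 1) (by omega)
  have hFfin : Finite F := Nat.finite_of_card_ne_zero (by rw [hFcard]; positivity)
  have hUcard : Nat.card Fˣ = 2 ^ (p - 1) - 1 := by
    rw [Nat.card_units, hFcard]
  have hdvd : p ∣ Nat.card Fˣ := by
    rw [hUcard, ← CharP.cast_eq_zero_iff (ZMod p) p, Nat.cast_sub Nat.one_le_two_pow]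
    push_cast
    rw [← h, pow_orderOf_eq_one, sub_self]
  obtain ⟨ζ, hζ⟩ := exists_prime_orderOf_dvd_card' p hdvd
  let φ : Subgroup.zpowers ζ →* MulAut (Multiplicative F) :=
    { toFun := fun g => AddEquiv.toMultiplicative (AddAut.mulLeft (g : Fˣ))
      map_one' := by
        ext x
        exact congrArg Multiplicative.ofAdd (one_mul (Multiplicative.toAdd x))
      map_mul' := by
        intro a b
        ext x
        exact congrArg Multiplicative.ofAdd
          (mul_assoc (((a : Fˣ) : F)) (((b : Fˣ) : F)) (Multiplicative.toAdd x)) }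
  let G := SemidirectProduct (Multiplicative F) (Subgroup.zpowers ζ) φ
  have hGcard : Nat.card G = 2 ^ (p - 1) * p := by
    rw [SemidirectProduct.card, Nat.card_zpowers, hζ]
    congr 1
  have hGfin : Finite G := Nat.finite_of_card_ne_zero (by rw [hGcard]; positivity)
  refine ⟨G, inferInstance, hGfin, ?_⟩
  let N : Subgroup G := (SemidirectProduct.inl : Multiplicative F →* G).range
  have hNn : N.Normal := by
    change (SemidirectProduct.inl : Multiplicative F →* G).range.Normal
    rw [SemidirectProduct.range_inl_eq_ker_rightHom]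
    infer_instance
  have hNcard : Nat.card N = 2 ^ (p - 1) := by
    rw [← hFcard]
    exact (Nat.card_congr (MonoidHom.ofInjective
      (SemidirectProduct.inl_injective (φ := φ))).toEquiv).symm
  have hNidx : N.index = p := by
    have h3 := N.card_mul_index
    rw [hNcard, hGcard] at h3
    exact Nat.eq_of_mul_eq_mul_left (by positivity) h3
  apply goodGroup_of p hp h N hNcard hNidx
  rintro ⟨a, z⟩ hg _ ⟨v, rfl⟩ heq
  have hz : z ≠ 1 := by
    rintro rfl
    exact hg ⟨a, rfl⟩
  have h4 := congrArg SemidirectProduct.left heq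
  have h5 : a * φ z v * a⁻¹ = v := by
    have e1 : ((⟨a, z⟩ : G) * SemidirectProduct.inl v * (⟨a, z⟩ : G)⁻¹).left =
      a * φ z v * φ (z * 1) (φ z⁻¹ a⁻¹) := rfl
    rw [e1, mul_one, ← MulAut.mul_apply, ← map_mul, mul_inv_cancel, map_one,
      MulAut.one_apply] at h4
    exact h4
  have h6 : φ z v = v := by
    rw [mul_comm a, mul_assoc, mul_inv_cancel, mul_one] at h5
    exact h5
  have h7 : ((z : Fˣ) : F) * Multiplicative.toAdd v = Multiplicative.toAdd v :=
    congrArg Multiplicative.toAdd h6
  have h8 : (((z : Fˣ) : F) - 1) * Multiplicative.toAdd v = 0 := by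
    rw [sub_mul, one_mul, h7, sub_self]
  rcases mul_eq_zero.mp h8 with h9 | h9
  · exfalso
    apply hz
    exact Subtype.ext (Units.ext (sub_eq_zero.mp h9))
  · have h10 : v = 1 := Multiplicative.toAdd.injective h9
    rw [h10, map_one]

end LeepA
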