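import Pool.Agent.H5.Leep.Point

/-!
Integrality and homogeneity of the section.
-/

namespace LeepA

open MvPolynomial IntermediateField Module

set_option maxHeartbeats 400000

theorem int_step {R : Type*} [CommRing R] {S : Type*} [CommRing S] [Algebra R S]
    {T : Type*} [CommRing T] (χ : T →+* S) (hχ : ∀ c, χ c ∈ integralClosure R S) {z : S}
    (hz : χ.IsIntegralElem z) : IsIntegral R z := by
  obtain ⟨P, hP, hPz⟩ := hz
  let χ' : T →+* integralClosure R S := RingHom.codRestrict χ (integralClosure R S) hχ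
  have h1 : IsIntegral (integralClosure R S) z := by
    refine ⟨P.map χ', hP.map _, ?_⟩
    rw [Polynomial.eval₂_map]
    have h2 : (algebraMap (integralClosure R S) S).comp χ' = χ := by
      ext c; rfl
    rw [h2]
    exact hPz
  exact isIntegral_trans z h1

theorem int_general {K : Type*} [Field K] {S : Type*} [CommRing S] [Algebra K S] {n m : ℕ}
    (π : MvPolynomial (Fin n) K →ₐ[K] S) (l : Fin (m + 1) → MvPolynomial (Fin n) K)
    (hmon : ∀ i, (π.comp (aeval l)).toRingHom.IsIntegralElem (π (X i)))
    {a : MvPolynomial (Fin (m + 1)) K} {D : ℕ} (ha : a.IsHomogeneous D)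
    (ha0 : eval (Pi.single 0 1) a ≠ 0) (hπa : π (aeval l a) = 0) (i : Fin n) :
    (π.comp (aeval fun j : Fin m => l j.succ)).toRingHom.IsIntegralElem (π (X i)) := by
  let θ : MvPolynomial (Fin m) K →ₐ[K] S := π.comp (aeval fun j : Fin m => l j.succ)
  let iA : Algebra (MvPolynomial (Fin m) K) S := θ.toRingHom.toAlgebra
  -- the first coordinate
  have h0 : IsIntegral (MvPolynomial (Fin m) K) (π (l 0)) := by
    obtain ⟨h1, h2⟩ := finSucc_top ha
    refine ⟨Polynomial.C (C (eval (Pi.single 0 1) a)⁻¹) * finSuccEquiv K m a, ?_, ?_⟩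
    · apply Polynomial.monic_of_natDegree_le_of_coeff_eq_one D
      · refine (Polynomial.natDegree_C_mul_le _ _).trans h1
      · rw [Polynomial.coeff_C_mul, h2, ← C_mul, inv_mul_cancel₀ ha0, C_1]
    · rw [Polynomial.eval₂_mul]
      have h3 : Polynomial.eval₂ (algebraMap (MvPolynomial (Fin m) K) S) (π (l 0))
          (finSuccEquiv K m a) = π (aeval l a) := by
        clear h2 h1 ha ha0 hπa
        induction a using MvPolynomial.induction_on with
        | C c =>
          rw [finSuccEquiv_apply]
          simp only [eval₂Hom_C, RingHom.comp_apply, Polynomial.eval₂_C, algHom_C]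
          change θ (C c) = _
          rw [← algebraMap_eq, AlgHom.commutes, AlgHom.commutes]
        | add p q hp hq => simp only [map_add, Polynomial.eval₂_add, hp, hq]
        | mul_X p i hp =>
          rw [map_mul, Polynomial.eval₂_mul, hp, map_mul, map_mul, aeval_X]
          congr 1
          refine Fin.cases ?_ (fun j => ?_) i
          · rw [finSuccEquiv_X_zero, Polynomial.eval₂_X]
          · rw [finSuccEquiv_X_succ, Polynomial.eval₂_C]
            change θ (X j) = _
            simp [θ]
      rw [h3, hπa, mul_zero]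
  have hall : ∀ c : MvPolynomial (Fin (m + 1)) K,
      (π.comp (aeval l)).toRingHom c ∈ integralClosure (MvPolynomial (Fin m) K) S := by
    intro c
    induction c using MvPolynomial.induction_on with
    | C c =>
      have h1 : (π.comp (aeval l)).toRingHom (C c) = algebraMap (MvPolynomial (Fin m) K) S (C c) := by
        change π (aeval l (C c)) = θ (C c)
        rw [← algebraMap_eq, ← algebraMap_eq, AlgHom.commutes, AlgHom.commutes, AlgHom.commutes]
      rw [h1]
      exact Subalgebra.algebraMap_mem _ _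
    | add p q hp hq => rw [map_add]; exact add_mem hp hq
    | mul_X p i hp =>
      rw [map_mul]
      apply mul_mem hp
      have h1 : (π.comp (aeval l)).toRingHom (X i) = π (l i) := by
        change π (aeval l (X i)) = _
        rw [aeval_X]
      rw [h1]
      refine Fin.cases ?_ (fun j => ?_) i
      · exact h0
      · have h2 : π (l j.succ) = algebraMap (MvPolynomial (Fin m) K) S (X j) := by
          change _ = θ (X j)
          simp [θ]
        rw [h2]
        exact Subalgebra.algebraMap_mem _ _
  exact int_step (R := MvPolynomial (Fin m) K) _ hall (hmon i)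

/-- relations transport integrality -/
theorem int_of_rel {K : Type*} [Field K] {S Ω : Type*} [CommRing S] [Algebra K S] [CommRing Ω]
    [Algebra K Ω] {n m : ℕ}
    (π : MvPolynomial (Fin n) K →ₐ[K] S) (x : Fin n → Ω) (l : Fin m → MvPolynomial (Fin n) K)
    (hrel : ∀ f : MvPolynomial (Fin n) K, aeval x f = 0 → π f = 0) (i : Fin n)
    (hi : (aeval (fun j => aeval x (l j)) : MvPolynomial (Fin m) K →ₐ[K] Ω).toRingHom.IsIntegralElem
      (x i)) : (π.comp (aeval l)).toRingHom.IsIntegralElem (π (X i)) := by
  obtain ⟨P, hP, hPz⟩ := hi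
  refine ⟨P, hP, ?_⟩
  have h1 : (aeval (fun j => aeval x (l j)) : MvPolynomial (Fin m) K →ₐ[K] Ω) =
      (aeval x).comp (aeval l : MvPolynomial (Fin m) K →ₐ[K] MvPolynomial (Fin n) K) := by
    ext j
    simp
  have h2 := Polynomial.hom_eval₂ P (aeval l : MvPolynomial (Fin m) K →ₐ[K] _).toRingHom
    (aeval x : MvPolynomial (Fin n) K →ₐ[K] Ω).toRingHom (X i)
  have h3 := Polynomial.hom_eval₂ P (aeval l : MvPolynomial (Fin m) K →ₐ[K] _).toRingHom
    π.toRingHom (X i)
  have h4 : (aeval x : MvPolynomial (Fin n) K →ₐ[K] Ω)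
      (Polynomial.eval₂ (aeval l : MvPolynomial (Fin m) K →ₐ[K] _).toRingHom (X i) P) = 0 := by
    refine h2.trans ?_
    have h5 : (aeval x : MvPolynomial (Fin n) K →ₐ[K] Ω).toRingHom (X i) = x i := by
      change aeval x (X i) = _
      rw [aeval_X]
    rw [h5]
    rw [h1] at hPz
    exact hPz
  have h6 := hrel _ h4
  exact h3.symm.trans h6

/-- homogeneity of the relation ideal -/
theorem hom_general {K Ω : Type*} [Field K] [Field Ω] [Algebra K Ω] {n m : ℕ}
    (x x' : Fin n → Ω) (l : Fin (m + 1) → MvPolynomial (Fin n) K)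
    (hmon : ∀ i, (aeval (fun j => aeval x (l j)) :
      MvPolynomial (Fin (m + 1)) K →ₐ[K] Ω).toRingHom.IsIntegralElem (x i))
    (hom : ∀ f : MvPolynomial (Fin n) K, aeval x f = 0 →
      ∀ d, aeval x (homogeneousComponent d f) = 0)
    (hrel : ∀ f : MvPolynomial (Fin n) K, aeval x f = 0 → aeval x' f = 0)
    {a : MvPolynomial (Fin (m + 1)) K} {D : ℕ} (ha : a.IsHomogeneous D)
    (ha0 : eval (Pi.single 0 1) a ≠ 0) {q g : MvPolynomial (Fin n) K} {e : ℕ}
    (hq : q.IsHomogeneous e) (hqx' : aeval x' q = 0) (hqa : aeval x (q * g + aeval l a) = 0)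
    (hind : AlgebraicIndependent K (fun j : Fin m => aeval x' (l j.succ)))
    (f : MvPolynomial (Fin n) K) (hf : aeval x' f = 0) (d : ℕ) :
    aeval x' (homogeneousComponent d f) = 0 := by
  let 𝒜 : ℕ → Submodule K (MvPolynomial (Fin n) K) := homogeneousSubmodule (Fin n) K
  let iG : GradedAlgebra 𝒜 := gradedAlgebra
  let J : Ideal (MvPolynomial (Fin n) K) := RingHom.ker (aeval x' : MvPolynomial (Fin n) K →ₐ[K] Ω)
  have hJ : J.IsPrime := RingHom.ker_isPrime _
  let J0 : HomogeneousIdeal 𝒜 := J.homogeneousCore 𝒜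
  have hJ0p : J0.toIdeal.IsPrime := hJ.homogeneousCore
  have hJ0le : J0.toIdeal ≤ J := Ideal.toIdeal_homogeneousCore_le 𝒜 J
  -- membership in the core
  have hcore : ∀ f : MvPolynomial (Fin n) K, (∀ d, aeval x' (homogeneousComponent d f) = 0) →
      f ∈ J0.toIdeal := by
    intro f hf
    rw [← sum_homogeneousComponent f]
    apply sum_mem
    intro i _
    apply Ideal.mem_homogeneousCore_of_homogeneous_of_mem
    · exact ⟨i, homogeneousComponent_isHomogeneous i f⟩
    · exact hf i
  have hrelJ0 : ∀ f : MvPolynomial (Fin n) K, aeval x f = 0 → f ∈ J0.toIdeal :=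
    fun f hf => hcore f (fun d => hrel _ (hom f hf d))
  have hqJ0 : q ∈ J0.toIdeal := by
    apply Ideal.mem_homogeneousCore_of_homogeneous_of_mem
    · exact ⟨e, hq⟩
    · exact hqx'
  have haJ0 : aeval l a ∈ J0.toIdeal := by
    have h1 := hrelJ0 _ hqa
    have h2 : q * g ∈ J0.toIdeal := Ideal.mul_mem_right _ _ hqJ0
    have h3 := sub_mem h1 h2
    rwa [add_sub_cancel_left] at h3
  -- the quotient
  let S := MvPolynomial (Fin n) K ⧸ J0.toIdeal
  have hdom : IsDomain S := Ideal.Quotient.isDomain _
  let π : MvPolynomial (Fin n) K →ₐ[K] S := Ideal.Quotient.mkₐ K _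
  have hπ : ∀ f, π f = 0 ↔ f ∈ J0.toIdeal := fun f => Ideal.Quotient.eq_zero_iff_mem
  have hint : ∀ i, (π.comp (aeval fun j : Fin m => l j.succ)).toRingHom.IsIntegralElem (π (X i)) := by
    intro i
    apply int_general π l _ ha ha0 ((hπ _).mpr haJ0) i
    intro i
    exact int_of_rel π x l (fun f hf => (hπ _).mpr (hrelJ0 f hf)) i (hmon i)
  let θ : MvPolynomial (Fin m) K →ₐ[K] S := π.comp (aeval fun j : Fin m => l j.succ)
  let iA : Algebra (MvPolynomial (Fin m) K) S := θ.toRingHom.toAlgebra
  have hI : Algebra.IsIntegral (MvPolynomial (Fin m) K) S := by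
    constructor
    intro z
    obtain ⟨f, rfl⟩ := Ideal.Quotient.mkₐ_surjective K _ z
    induction f using MvPolynomial.induction_on with
    | C c =>
      have h1 : π (C c) = algebraMap (MvPolynomial (Fin m) K) S (C c) := by
        change π (C c) = θ (C c)
        rw [← algebraMap_eq, ← algebraMap_eq, AlgHom.commutes, AlgHom.commutes]
      change IsIntegral _ (π (C c))
      rw [h1]
      exact isIntegral_algebraMap
    | add p q hp hq =>
      rw [map_add]
      exact IsIntegral.add hp hq
    | mul_X p i hp =>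
      rw [map_mul]
      exact IsIntegral.mul hp (hint i)
  let I : Ideal S := J.map (Ideal.Quotient.mk J0.toIdeal)
  have hIcomap : I.comap (Ideal.Quotient.mk J0.toIdeal) = J := by
    rw [Ideal.comap_map_of_surjective _ Ideal.Quotient.mk_surjective]
    rw [sup_eq_left]
    intro z hz
    apply hJ0le
    rw [Ideal.mem_comap, Ideal.mem_bot] at hz
    exact Ideal.Quotient.eq_zero_iff_mem.mp hz
  have hbot : I = ⊥ := by
    apply Ideal.eq_bot_of_comap_eq_bot (R := MvPolynomial (Fin m) K)
    rw [eq_bot_iff]
    intro c hc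
    rw [Ideal.mem_comap] at hc
    have h1 : (aeval (fun j : Fin m => l j.succ) c : MvPolynomial (Fin n) K) ∈ J := by
      rw [← hIcomap, Ideal.mem_comap]
      exact hc
    have h2 : aeval x' (aeval (fun j : Fin m => l j.succ) c : MvPolynomial (Fin n) K) = 0 := h1
    have h3 : aeval (fun j : Fin m => aeval x' (l j.succ)) c = 0 := by
      rw [← h2, ← AlgHom.comp_apply]
      congr 1
      ext j
      simp
    rw [Ideal.mem_bot]
    exact hind (h3.trans (map_zero _).symm)
  have hle : J ≤ J0.toIdeal := by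
    intro z hz
    have h1 : Ideal.Quotient.mk J0.toIdeal z ∈ I := Ideal.mem_map_of_mem _ hz
    rw [hbot, Ideal.mem_bot] at h1
    exact Ideal.Quotient.eq_zero_iff_mem.mp h1
  have hfJ0 : f ∈ J0.toIdeal := hle hf
  have h1 := J0.isHomogeneous d hfJ0
  have h2 := hJ0le h1
  have h3 : ((DirectSum.decompose 𝒜 f d : _) : MvPolynomial (Fin n) K) =
      homogeneousComponent d f := by
    exact decomposition.decompose'_apply f d
  rw [h3] at h2
  exact h2

end LeepA
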