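import Pool.Agent.H5.Leep.UInv

/-!
Leep's inequality for `u_1 = 1`.
-/

namespace LeepA

open Module

set_option maxHeartbeats 400000

theorem exists_zero_of_finrank {K V : Type*} [Field K] [AddCommGroup V] [Module K V]
    [FiniteDimensional K V] {r N : ℕ} (hr : ¬ HasAnisoSystem K r N) (hV : N ≤ finrank K V)
    (q : Fin r → QuadraticForm K V) : ∃ v : V, v ≠ 0 ∧ ∀ i, q i v = 0 := by
  let b := finBasis K V
  have hli : LinearIndependent K (b ∘ Fin.castLE hV) :=
    b.linearIndependent.comp _ (Fin.castLE_injective hV)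
  let f : (Fin N → K) →ₗ[K] V := Fintype.linearCombination K (b ∘ Fin.castLE hV)
  have hf : Function.Injective f := by
    rw [injective_iff_map_eq_zero]
    intro v hv
    funext i
    exact (Fintype.linearIndependent_iff.mp hli) v hv i
  by_contra hcon
  push Not at hcon
  apply hr
  refine ⟨fun i => (q i).comp f, fun v hv => ?_⟩
  by_contra hv0
  obtain ⟨i, hi⟩ := hcon (f v) (fun h => hv0 (hf (h.trans (map_zero f).symm)))
  exact hi (hv i)

/-- Leep's inequality in the case `u_1 = 1` -/
theorem leep_step {K : Type*} [Field K] {r N : ℕ} (h1 : ¬ HasAnisoSystem K 1 2)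
    (hr : ¬ HasAnisoSystem K r (N + 1)) : ¬ HasAnisoSystem K (r + 1) (N + 1 + (r + 1)) := by
  rintro ⟨q, hq⟩
  let V := Fin (N + 1 + (r + 1)) → K
  have hdimV : finrank K V = N + 1 + (r + 1) := by simp [V]
  -- the first vector
  obtain ⟨v1, hv1, hq1⟩ := exists_zero_of_finrank hr (V := V) (by omega) (fun i => q i.castSucc)
  -- the orthogonal
  let φ : V →ₗ[K] (Fin r → K) := LinearMap.pi fun i => (QuadraticMap.polarBilin (q i.castSucc)) v1
  have hφ : ∀ w i, φ w i = QuadraticMap.polar (q i.castSucc) v1 w := fun w i => rfl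
  have hker : N + 2 ≤ finrank K (LinearMap.ker φ) := by
    have h2 := LinearMap.finrank_range_add_finrank_ker φ
    have h3 : finrank K (LinearMap.range φ) ≤ r := by
      have := Submodule.finrank_le (LinearMap.range φ)
      simpa using this
    omega
  have hv1k : v1 ∈ LinearMap.ker φ := by
    rw [LinearMap.mem_ker]
    ext i
    rw [hφ, QuadraticMap.polar_self, hq1 i, smul_zero]
    rfl
  -- a complement
  let L : Submodule K (LinearMap.ker φ) := K ∙ (⟨v1, hv1k⟩ : LinearMap.ker φ)
  obtain ⟨C, hC⟩ := Submodule.exists_isCompl L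
  have hdimC : N + 1 ≤ finrank K C := by
    have h2 := Submodule.finrank_add_eq_of_isCompl hC
    have h3 : finrank K L = 1 := finrank_span_singleton (by
      intro h
      exact hv1 (congrArg Subtype.val h))
    omega
  let ι : C →ₗ[K] V := (LinearMap.ker φ).subtype ∘ₗ C.subtype
  obtain ⟨v2, hv2, hq2⟩ := exists_zero_of_finrank hr (V := C) hdimC
    (fun i => (q i.castSucc).comp ι)
  -- the plane
  let f : (Fin 2 → K) →ₗ[K] V :=
    (LinearMap.toSpanSingleton K V v1) ∘ₗ (LinearMap.proj 0) +
      (LinearMap.toSpanSingleton K V (ι v2)) ∘ₗ (LinearMap.proj 1)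
  have hf : ∀ a, f a = a 0 • v1 + a 1 • ι v2 := fun a => rfl
  obtain ⟨a, ha0, haq⟩ : ∃ a : Fin 2 → K, a ≠ 0 ∧ (q (Fin.last r)) (f a) = 0 := by
    by_contra hcon
    push Not at hcon
    apply h1
    refine ⟨fun _ => (q (Fin.last r)).comp f, fun v hv => ?_⟩
    by_contra hv0
    exact hcon v hv0 (hv 0)
  have hzero : f a = 0 := by
    apply hq
    intro i
    refine Fin.lastCases haq (fun i => ?_) i
    have h7 : ∀ u w : V, q i.castSucc (u + w) =
        q i.castSucc u + q i.castSucc w + QuadraticMap.polar (q i.castSucc) u w :=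
      fun u w => QuadraticMap.map_add (q i.castSucc) u w
    rw [hf, h7, QuadraticMap.map_smul, QuadraticMap.map_smul, hq1 i]
    have h2 : q i.castSucc (ι v2) = 0 := hq2 i
    have h3 : QuadraticMap.polar (q i.castSucc) v1 (ι v2) = 0 := by
      rw [← hφ]
      have h4 : φ (ι v2) = 0 := (v2 : LinearMap.ker φ).2
      rw [h4]
      rfl
    rw [h2, QuadraticMap.polar_smul_left, QuadraticMap.polar_smul_right, h3]
    simp
  -- independence
  rw [hf] at hzero
  have hmem : a 1 • v2 = 0 := by
    have h5 : ((a 1 • v2 : C) : LinearMap.ker φ) ∈ L := by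
      rw [Submodule.mem_span_singleton]
      refine ⟨-a 0, ?_⟩
      apply Subtype.ext
      change -a 0 • v1 = a 1 • ι v2
      rw [neg_smul]
      exact (eq_neg_of_add_eq_zero_right hzero).symm
    have h6 : ((a 1 • v2 : C) : LinearMap.ker φ) ∈ L ⊓ C := ⟨h5, (a 1 • v2 : C).2⟩
    rw [hC.inf_eq_bot, Submodule.mem_bot] at h6
    exact Subtype.ext h6
  have ha1 : a 1 = 0 := (smul_eq_zero.mp hmem).resolve_right hv2
  rw [ha1, zero_smul, add_zero] at hzero
  have ha00 : a 0 = 0 := (smul_eq_zero.mp hzero).resolve_right hv1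
  apply ha0
  funext i
  fin_cases i
  · exact ha00
  · exact ha1

end LeepA
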