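import Pool.Agent.H5.Leep.Defs
import Pool.Agent.H5.Leep.Poly

/-!
Graded Nakayama step.
-/

namespace LeepA

open MvPolynomial Module

set_option maxHeartbeats 400000

/-! linear algebra -/

theorem exists_supplement {K V : Type*} [Field K] [AddCommGroup V] [Module K V]
    [FiniteDimensional K V] (A B : Submodule K V) (hAB : A ≤ B) (k : ℕ)
    (hk : finrank K B = finrank K A + k) :
    ∃ w : Fin k → V, (∀ i, w i ∈ B) ∧ ∀ v ∈ B, ∃ a ∈ A, ∃ κ : Fin k → K,
      v = a + ∑ i, κ i • w i := by
  let A' : Submodule K B := A.submoduleOf B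
  have h1 : finrank K A' = finrank K A := (Submodule.submoduleOfEquivOfLe hAB).finrank_eq
  have h2 : finrank K (B ⧸ A') = k := by
    have := Submodule.finrank_quotient_add_finrank A'
    omega
  let b : Basis (Fin k) K (B ⧸ A') := finBasisOfFinrankEq K _ h2
  have hw : ∀ i, ∃ w : B, A'.mkQ w = b i := fun i => Submodule.mkQ_surjective A' (b i)
  choose w hw using hw
  refine ⟨fun i => (w i : V), fun i => (w i).2, ?_⟩
  intro v hv
  let v' : B := ⟨v, hv⟩
  have h3 : v' - ∑ i, b.repr (A'.mkQ v') i • w i ∈ A' := by
    rw [← Submodule.Quotient.mk_eq_zero A', ← Submodule.mkQ_apply, map_sub, map_sum]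
    simp only [map_smul, hw]
    rw [b.sum_repr, sub_self]
  refine ⟨_, h3, fun i => b.repr (A'.mkQ v') i, ?_⟩
  simp [v']

/-- functions supported on a set -/
def suppOn (K : Type*) [Field K] {ι : Type*} (p : ι → Prop) : Submodule K (ι → K) where
  carrier := {v | ∀ i, ¬ p i → v i = 0}
  zero_mem' := fun _ _ => rfl
  add_mem' := by
    intro a b ha hb i hi
    rw [Pi.add_apply, ha i hi, hb i hi, add_zero]
  smul_mem' := by
    intro c a ha i hi
    rw [Pi.smul_apply, ha i hi, smul_zero]

theorem finrank_suppOn (K : Type*) [Field K] {ι : Type*} [Fintype ι] (p : ι → Prop)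
    [DecidablePred p] : finrank K (suppOn K p) = Fintype.card {i // p i} := by
  let e : suppOn K p ≃ₗ[K] ({i // p i} → K) :=
    { toFun := fun v i => v.1 i.1
      invFun := fun g => ⟨fun i => if h : p i then g ⟨i, h⟩ else 0, by
        intro i hi
        exact dif_neg hi⟩
      map_add' := fun _ _ => rfl
      map_smul' := fun _ _ => rfl
      left_inv := by
        intro v
        ext i
        by_cases h : p i
        · simp [h]
        · simp [h, v.2 i h]
      right_inv := by
        intro g
        ext ⟨i, h⟩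
        simp [h] }
  rw [e.finrank_eq, finrank_fintype_fun_eq_card]

theorem card_step {ι : Type*} [Fintype ι] (d : ι → ℕ) (c : ℕ)
    (hd : ∀ e, Nat.card {i // d i = e} = c.choose e) (e : ℕ) :
    Fintype.card {i // d i ≤ e} = Fintype.card {i // d i + 2 ≤ e} + (c + 1).choose e := by
  classical
  have hd' : ∀ e, (Finset.univ.filter fun i => d i = e).card = c.choose e := by
    intro e
    rw [← hd e, Nat.card_eq_fintype_card, Fintype.card_subtype]
  rw [Fintype.card_subtype, Fintype.card_subtype]
  cases e with
  | zero =>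
    have h1 : (Finset.univ.filter fun i => d i ≤ 0) = Finset.univ.filter fun i => d i = 0 := by
      ext i; simp
    have h2 : (Finset.univ.filter fun i => d i + 2 ≤ 0) = ∅ := by
      ext i; simp
    rw [h1, h2, hd']
    simp
  | succ e =>
    have h1 : (Finset.univ.filter fun i => d i ≤ e + 1) =
        ((Finset.univ.filter fun i => d i + 2 ≤ e + 1) ∪ (Finset.univ.filter fun i => d i = e)) ∪
          (Finset.univ.filter fun i => d i = e + 1) := by
      ext i
      simp only [Finset.mem_union, Finset.mem_filter, Finset.mem_univ, true_and]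
      omega
    rw [h1, Finset.card_union_of_disjoint, Finset.card_union_of_disjoint, hd', hd',
      Nat.choose_succ_succ, add_assoc]
    · rw [Finset.disjoint_filter]
      intro i _ h2 h3
      omega
    · rw [Finset.disjoint_left]
      intro i hi
      simp only [Finset.mem_union, Finset.mem_filter, Finset.mem_univ, true_and] at hi ⊢
      omega

/-! the modules -/

variable {K Ω : Type*} [Field K] [Field Ω] [Algebra K Ω] {n m : ℕ}

/-- the span of `y_j * F(x)`, `F` homogeneous of degree `e - 1` -/
def MM (x : Fin n → Ω) (y : Fin m → Ω) (e : ℕ) : Submodule K Ω :=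
  Submodule.span K {z | ∃ (e' : ℕ) (j : Fin m) (F : MvPolynomial (Fin n) K), e = e' + 1 ∧
    F.IsHomogeneous e' ∧ z = y j * aeval x F}

theorem mem_MM_A (x : Fin n → Ω) (l : Fin (m + 1) → MvPolynomial (Fin n) K)
    (hl : ∀ j, (l j).IsHomogeneous 1) {G : MvPolynomial (Fin (m + 1)) K} {D s e : ℕ}
    (hG : G.IsHomogeneous D) {P : MvPolynomial (Fin n) K} (hP : P.IsHomogeneous s)
    (he : D + s = e) :
    aeval (fun j => aeval x (l j)) G * aeval x P -
      algebraMap K Ω (eval (Pi.single 0 1) G) * aeval x (l 0) ^ D * aeval x P ∈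
      (MM x (fun j : Fin m => aeval x (l j.succ)) e : Submodule K Ω) := by
  have hsum : aeval (fun j => aeval x (l j)) G * aeval x P -
      algebraMap K Ω (eval (Pi.single 0 1) G) * aeval x (l 0) ^ D * aeval x P =
      ∑ u ∈ G.support, (aeval (fun j => aeval x (l j)) (monomial u (coeff u G)) * aeval x P -
      algebraMap K Ω (eval (Pi.single 0 1) (monomial u (coeff u G))) *
        aeval x (l 0) ^ D * aeval x P) := by
    rw [Finset.sum_sub_distrib, ← Finset.sum_mul, ← Finset.sum_mul, ← Finset.sum_mul,
      ← map_sum, ← map_sum, ← map_sum, ← G.as_sum]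
  rw [hsum]
  apply sum_mem
  intro u hu
  have hud : u.degree = D := by
    have h1 := hG (mem_support_iff.mp hu)
    rwa [Finsupp.degree_eq_weight_one]
  by_cases hu0 : ∀ j : Fin m, u j.succ = 0
  · have hu1 : u = Finsupp.single 0 D := by
      have h2 : u = Finsupp.single 0 (u 0) := by
        ext i
        refine Fin.cases ?_ (fun j => ?_) i
        · simp
        · rw [hu0 j, Finsupp.single_apply, if_neg (Fin.succ_ne_zero j).symm]
      rw [h2, Finsupp.degree_single] at hud
      rw [h2, hud]
    rw [hu1, aeval_monomial, eval_monomial]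
    simp only [Finsupp.prod_single_index, pow_zero]
    rw [Pi.single_eq_same, one_pow, mul_one, sub_self]
    exact zero_mem _
  · push Not at hu0
    obtain ⟨j, hj⟩ := hu0
    have h1 : eval (Pi.single 0 1 : Fin (m + 1) → K) (monomial u (coeff u G)) = 0 := by
      rw [eval_monomial]
      apply mul_eq_zero_of_right
      rw [Finsupp.prod]
      apply Finset.prod_eq_zero (i := j.succ)
      · rwa [Finsupp.mem_support_iff]
      · rw [Pi.single_eq_of_ne (Fin.succ_ne_zero j)]
        exact zero_pow hj
    rw [h1, map_zero, zero_mul, zero_mul, sub_zero]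
    -- factor
    have h2 : monomial u (coeff u G) =
        X j.succ * monomial (u - Finsupp.single j.succ 1) (coeff u G) := by
      have h3 : Finsupp.single j.succ 1 + (u - Finsupp.single j.succ 1) = u := by
        apply add_tsub_cancel_of_le
        rw [Finsupp.single_le_iff]
        omega
      rw [X, monomial_mul, one_mul, h3]
    have hD : u.degree = (u - Finsupp.single j.succ 1).degree + 1 := by
      have h3 : u = (u - Finsupp.single j.succ 1) + Finsupp.single j.succ 1 := by
        rw [tsub_add_cancel_of_le]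
        rw [Finsupp.single_le_iff]
        omega
      conv_lhs => rw [h3]
      rw [map_add, Finsupp.degree_single]
    apply Submodule.subset_span
    refine ⟨(u - Finsupp.single j.succ 1).degree + s, j,
      aeval l (monomial (u - Finsupp.single j.succ 1) (coeff u G)) * P, by omega, ?_, ?_⟩
    · apply IsHomogeneous.mul _ hP
      apply isHomogeneous_aeval_lin hl
      apply isHomogeneous_monomial
      rfl
    · rw [h2, map_mul, aeval_X, map_mul, mul_assoc]
      congr 2
      rw [← AlgHom.comp_apply]
      congr 1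
      ext j
      simp

/-- the span of the new generators -/
def TT {ι : Type*} [Fintype ι] (x : Fin n → Ω) (y : Fin m → Ω) (b : ι → MvPolynomial (Fin n) K)
    (d : ι → ℕ) (e : ℕ) : Submodule K Ω where
  carrier := {z | ∃ h : ι → MvPolynomial (Fin m) K, (∀ i, (h i).IsHomogeneous (e - d i)) ∧
    (∀ i, e < d i → h i = 0) ∧ z = ∑ i, aeval y (h i) * aeval x (b i)}
  zero_mem' := ⟨fun _ => 0, fun _ => isHomogeneous_zero _ _ _, fun _ _ => rfl, by simp⟩
  add_mem' := by
    rintro _ _ ⟨h1, h1h, h1z, rfl⟩ ⟨h2, h2h, h2z, rfl⟩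
    refine ⟨fun i => h1 i + h2 i, fun i => (h1h i).add (h2h i), fun i hi => ?_, ?_⟩
    · change h1 i + h2 i = 0
      rw [h1z i hi, h2z i hi, add_zero]
    · rw [← Finset.sum_add_distrib]
      apply Finset.sum_congr rfl
      intro i _
      rw [map_add, add_mul]
  smul_mem' := by
    rintro c _ ⟨h1, h1h, h1z, rfl⟩
    refine ⟨fun i => C c * h1 i, fun i => (h1h i).C_mul c, fun i hi => ?_, ?_⟩
    · change C c * h1 i = 0
      rw [h1z i hi, mul_zero]
    · rw [Finset.smul_sum]
      apply Finset.sum_congr rfl
      intro i _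
      rw [map_mul, algHom_C, Algebra.smul_def, mul_assoc]

theorem mem_TT_gen {ι : Type*} [Fintype ι] (x : Fin n → Ω) (y : Fin m → Ω)
    (b : ι → MvPolynomial (Fin n) K) (d : ι → ℕ) (i : ι) : aeval x (b i) ∈ TT x y b d (d i) := by
  classical
  refine ⟨Pi.single i 1, ?_, ?_, ?_⟩
  · intro i'
    by_cases h : i' = i
    · subst h
      rw [Pi.single_eq_same, Nat.sub_self]
      exact isHomogeneous_one _ _
    · rw [Pi.single_eq_of_ne h]
      exact isHomogeneous_zero _ _ _
  · intro i' hi'
    rw [Pi.single_eq_of_ne]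
    rintro rfl
    omega
  · rw [Finset.sum_eq_single i]
    · rw [Pi.single_eq_same, map_one, one_mul]
    · intro i' _ h
      rw [Pi.single_eq_of_ne h, map_zero, zero_mul]
    · intro h
      exact absurd (Finset.mem_univ i) h

theorem mem_TT_mul {ι : Type*} [Fintype ι] (x : Fin n → Ω) (y : Fin m → Ω)
    (b : ι → MvPolynomial (Fin n) K) (d : ι → ℕ) (e : ℕ) (j : Fin m) {z : Ω}
    (hz : z ∈ TT x y b d e) : y j * z ∈ TT x y b d (e + 1) := by
  obtain ⟨h1, h1h, h1z, rfl⟩ := hz
  refine ⟨fun i => X j * h1 i, ?_, ?_, ?_⟩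
  · intro i
    by_cases hi : e < d i
    · change (X j * h1 i).IsHomogeneous _
      rw [h1z i hi, mul_zero]
      exact isHomogeneous_zero _ _ _
    · have h2 := (isHomogeneous_X K j).mul (h1h i)
      have h3 : e + 1 - d i = 1 + (e - d i) := by omega
      rw [h3]
      exact h2
  · intro i hi
    change X j * h1 i = 0
    rw [h1z i (by omega), mul_zero]
  · rw [Finset.mul_sum]
    apply Finset.sum_congr rfl
    intro i _
    rw [map_mul, aeval_X, mul_assoc]

end LeepA
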