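import Pool.Agent.H5.Leep.CoreAbs

/-!
The norm of a homogeneous form over the Noether normalisation.
-/

namespace LeepA

open MvPolynomial IntermediateField Module

set_option maxHeartbeats 400000

theorem field_norm {K L : Type*} [Field K] [Field L] [Algebra K L] [FiniteDimensional K L] (x : L) :
    Algebra.norm K x = ((-1) ^ (minpoly K x).natDegree * (minpoly K x).coeff 0) ^ (finrank K⟮x⟯ L) := by
  rw [Algebra.norm_eq_norm_adjoin]
  have hx : IsIntegral K x := Algebra.IsIntegral.isIntegral x
  have h := Algebra.PowerBasis.norm_gen_eq_coeff_zero_minpoly (adjoin.powerBasis hx)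
  rw [adjoin.powerBasis_gen, adjoin.powerBasis_dim, minpoly_gen] at h
  rw [h]

variable {K Ω : Type} [Field K] [Field Ω] [Algebra K Ω] {n m : ℕ}

theorem Stage.isIntegral {x : Fin n → Ω} {l : Fin m → MvPolynomial (Fin n) K} {ρ : ℕ}
    (st : Stage x l ρ) (f : MvPolynomial (Fin n) K) :
    IsIntegral (Algebra.adjoin K (Set.range fun j => aeval x (l j))) (aeval x f) := by
  induction f using MvPolynomial.induction_on with
  | C a =>
    rw [← algebraMap_eq, AlgHom.commutes]
    rw [IsScalarTower.algebraMap_apply K (Algebra.adjoin K (Set.range fun j => aeval x (l j))) Ω]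
    exact isIntegral_algebraMap
  | add p q hp hq => rw [map_add]; exact hp.add hq
  | mul_X p i hp => rw [map_mul, aeval_X]; exact hp.mul (st.int i)

theorem norm_form {x : Fin n → Ω} {l : Fin m → MvPolynomial (Fin n) K} {ρ : ℕ}
    (st : Stage x l ρ) (hρ : ρ ≠ 0) {q : MvPolynomial (Fin n) K} {e : ℕ} (hq : q.IsHomogeneous e)
    (hmem : aeval x q ∈ adjoin K (Set.range x)) :
    ∃ (k j : ℕ) (a : MvPolynomial (Fin m) K) (g : MvPolynomial (Fin n) K), 0 < k ∧ k * j = ρ ∧
      a.IsHomogeneous (e * k) ∧ aeval x (q * g + aeval l a) = 0 ∧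
      ((Algebra.norm (adjoin K (Set.range fun j => aeval x (l j)))
        (⟨aeval x q, hmem⟩ : extendScalars (field_le x l)) :
        adjoin K (Set.range fun j => aeval x (l j))) : Ω) =
        aeval (fun j => aeval x (l j)) (((-1) ^ k * a) ^ j) := by
  have hfin : FiniteDimensional (adjoin K (Set.range fun j => aeval x (l j)))
      (extendScalars (field_le x l)) := by
    have h := st.deg
    rw [relfinrank_eq_finrank_of_le (field_le x l)] at h
    apply FiniteDimensional.of_finrank_pos
    omega
  obtain ⟨a, ha, ha0, hac⟩ := minpoly_hom st.lin st.indep st.hom hq (st.isIntegral q)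
  set u : extendScalars (field_le x l) := ⟨aeval x q, hmem⟩ with hu
  have hmin : minpoly (adjoin K (Set.range fun j => aeval x (l j))) u =
      minpoly (adjoin K (Set.range fun j => aeval x (l j))) (aeval x q) :=
    IntermediateField.minpoly_eq u
  set P := minpoly (adjoin K (Set.range fun j => aeval x (l j))) (aeval x q) with hP
  have hk0 : 0 < P.natDegree := by
    rw [← hmin]
    exact minpoly.natDegree_pos (Algebra.IsIntegral.isIntegral u)
  refine ⟨P.natDegree, finrank (adjoin K (Set.range fun j => aeval x (l j)))⟮u⟯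
    (extendScalars (field_le x l)), a P.natDegree,
    ∑ i ∈ Finset.range P.natDegree, aeval l (a i) * q ^ (P.natDegree - 1 - i), hk0, ?_, ha _, ?_, ?_⟩
  · have h := st.deg
    rw [relfinrank_eq_finrank_of_le (field_le x l)] at h
    rw [← h, ← finrank_mul_finrank (adjoin K (Set.range fun j => aeval x (l j)))
      (adjoin K (Set.range fun j => aeval x (l j)))⟮u⟯ (extendScalars (field_le x l))]
    rw [← hmin, adjoin.finrank (Algebra.IsIntegral.isIntegral u)]
  · have h1 : Polynomial.aeval (aeval x q) P = 0 := minpoly.aeval _ _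
    rw [Polynomial.aeval_eq_sum_range] at h1
    rw [← h1, map_add, map_mul, map_sum, Finset.sum_range_succ', aeval_aeval_lin, Finset.mul_sum]
    congr 1
    · rw [← Finset.sum_range_reflect]
      apply Finset.sum_congr rfl
      intro i hi
      rw [Finset.mem_range] at hi
      rw [map_mul, map_pow, aeval_aeval_lin, Algebra.smul_def]
      have h2 := hac (i + 1) (by omega)
      change _ = ((P.coeff (i + 1) : _) : Ω) * _
      rw [h2]
      have e1 : P.natDegree - 1 - (P.natDegree - 1 - i) = i := by omega
      have e2 : P.natDegree - 1 - i = P.natDegree - (i + 1) := by omega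
      rw [e1, e2, pow_succ]
      ring
    · have h2 := hac 0 (Nat.zero_le _)
      rw [pow_zero, Algebra.smul_def, mul_one]
      change _ = ((P.coeff 0 : _) : Ω)
      rw [h2, Nat.sub_zero]
  · rw [field_norm, hmin]
    have h2 := hac 0 (Nat.zero_le _)
    rw [Nat.sub_zero] at h2
    rw [map_pow, map_mul, map_pow, map_neg, map_one, ← h2]
    push_cast
    rfl

end LeepA
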