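import Pool.Agent.H5.Leep.SecDim
import Pool.Agent.H5.Leep.Dev

/-!
A point of the section of degree prime to `p`.
-/

namespace LeepA

open MvPolynomial IntermediateField Module

set_option maxHeartbeats 400000

theorem point_abs {F Ω A : Type*} [Field F] [Field Ω] [Algebra F Ω] [IsAlgClosed Ω] [CommRing A]
    [Algebra F A] (u : A) (p : ℕ) (hfd : FiniteDimensional F (A ⧸ Ideal.span {u}))
    (hp : ¬ p ∣ finrank F (A ⧸ Ideal.span {u})) :
    ∃ g : A →ₐ[F] Ω, g u = 0 ∧ FiniteDimensional F g.range ∧ ¬ p ∣ finrank F g.range ∧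
      finrank F g.range ≤ finrank F (A ⧸ Ideal.span {u}) := by
  obtain ⟨P, hP, hpP⟩ := exists_maximal p hp
  let iF : Field ((A ⧸ Ideal.span {u}) ⧸ P) := Ideal.Quotient.field P
  have hfd2 : FiniteDimensional F ((A ⧸ Ideal.span {u}) ⧸ P) := inferInstance
  have halg : Algebra.IsAlgebraic F ((A ⧸ Ideal.span {u}) ⧸ P) := inferInstance
  let f : ((A ⧸ Ideal.span {u}) ⧸ P) →ₐ[F] Ω := IsAlgClosed.lift
  let π1 : A →ₐ[F] (A ⧸ Ideal.span {u}) := Ideal.Quotient.mkₐ F _
  let π2 : (A ⧸ Ideal.span {u}) →ₐ[F] ((A ⧸ Ideal.span {u}) ⧸ P) := Ideal.Quotient.mkₐ F _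
  let g : A →ₐ[F] Ω := f.comp (π2.comp π1)
  have hrange : g.range = f.range := by
    ext z
    constructor
    · rintro ⟨a, rfl⟩
      exact ⟨_, rfl⟩
    · rintro ⟨b, rfl⟩
      obtain ⟨b', rfl⟩ := Ideal.Quotient.mkₐ_surjective F P b
      obtain ⟨b'', rfl⟩ := Ideal.Quotient.mkₐ_surjective F _ b'
      exact ⟨b'', rfl⟩
  let e : ((A ⧸ Ideal.span {u}) ⧸ P) ≃ₗ[F] f.range :=
    (AlgEquiv.ofInjective f (RingHom.injective f.toRingHom)).toLinearEquiv
  have he : finrank F f.range = finrank F ((A ⧸ Ideal.span {u}) ⧸ P) := e.finrank_eq.symm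
  refine ⟨g, ?_, ?_, ?_, ?_⟩
  · change f (π2 (π1 u)) = 0
    have h1 : π1 u = 0 := Ideal.Quotient.eq_zero_iff_mem.mpr (Ideal.subset_span rfl)
    rw [h1, map_zero, map_zero]
  · rw [hrange]
    exact LinearEquiv.finiteDimensional e
  · rw [hrange, he]
    exact hpP
  · rw [hrange, he]
    exact LinearMap.finrank_le_finrank_of_surjective (f := π2.toLinearMap)
      (Ideal.Quotient.mkₐ_surjective F P)

theorem field_of_range {K Ω : Type} [Field K] [Field Ω] [Algebra K Ω] {n : ℕ}
    (F : IntermediateField K Ω) (x : Fin n → Ω) (g : Algebra.adjoin F (Set.range x) →ₐ[F] Ω)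
    (hfd : FiniteDimensional F g.range)
    (x' : Fin n → Ω) (hx' : ∀ i, x' i = g ⟨x i, Algebra.subset_adjoin ⟨i, rfl⟩⟩)
    (hF : F ≤ adjoin K (Set.range x')) :
    relfinrank F (adjoin K (Set.range x')) = finrank F g.range ∧
      ∀ i, IsAlgebraic F (x' i) := by
  have hmem : ∀ i, x' i ∈ g.range := fun i => ⟨_, (hx' i).symm⟩
  have halg : ∀ z ∈ g.range, IsAlgebraic F z := by
    intro z hz
    have h1 : IsAlgebraic F (⟨z, hz⟩ : g.range) := Algebra.IsAlgebraic.isAlgebraic _
    exact (isAlgebraic_algebraMap_iff (A := Ω) Subtype.val_injective).mpr h1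
  have hinv : ∀ z ∈ g.range, z⁻¹ ∈ g.range := fun z hz => Subalgebra.inv_mem_of_algebraic
    (A := g.range) (x := ⟨z, hz⟩) (halg z hz)
  let E : IntermediateField F Ω := g.range.toIntermediateField hinv
  have hle1 : adjoin K (Set.range x') ≤ E.restrictScalars K := by
    rw [adjoin_le_iff]
    rintro _ ⟨i, rfl⟩
    exact hmem i
  have hgr : g.range ≤ Algebra.adjoin F (Set.range x') := by
    rintro _ ⟨⟨a, ha⟩, rfl⟩
    have key : ∀ (a : Ω) (ha : a ∈ Algebra.adjoin F (Set.range x)),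
        g ⟨a, ha⟩ ∈ Algebra.adjoin F (Set.range x') := by
      intro a ha
      induction ha using Algebra.adjoin_induction with
      | mem z hz =>
        obtain ⟨i, rfl⟩ := hz
        have := Algebra.subset_adjoin (R := F) (s := Set.range x') ⟨i, rfl⟩
        rw [hx' i] at this
        exact this
      | algebraMap r =>
        have h1 : g ⟨algebraMap F Ω r, Subalgebra.algebraMap_mem _ r⟩ = algebraMap F Ω r :=
          g.commutes r
        rw [h1]
        exact Subalgebra.algebraMap_mem _ r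
      | add a b ha hb ha1 hb1 =>
        have h1 := map_add g ⟨a, ha⟩ ⟨b, hb⟩
        have h2 : g ⟨a + b, Subalgebra.add_mem _ ha hb⟩ = g ⟨a, ha⟩ + g ⟨b, hb⟩ := h1
        rw [h2]
        exact add_mem ha1 hb1
      | mul a b ha hb ha1 hb1 =>
        have h1 := map_mul g ⟨a, ha⟩ ⟨b, hb⟩
        have h2 : g ⟨a * b, Subalgebra.mul_mem _ ha hb⟩ = g ⟨a, ha⟩ * g ⟨b, hb⟩ := h1
        rw [h2]
        exact mul_mem ha1 hb1
    exact key a ha
  have hle2 : ∀ z ∈ g.range, z ∈ adjoin K (Set.range x') := by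
    intro z hz
    have hz2 := hgr hz
    clear hz
    induction hz2 using Algebra.adjoin_induction with
    | mem z hz => exact subset_adjoin _ _ hz
    | algebraMap r => exact hF r.2
    | add a b _ _ ha hb => exact add_mem ha hb
    | mul a b _ _ ha hb => exact mul_mem ha hb
  refine ⟨?_, fun i => halg _ (hmem i)⟩
  rw [relfinrank_eq_finrank_of_le hF]
  let e : extendScalars hF ≃ₗ[F] g.range :=
    { toFun := fun z => ⟨z.1, hle1 z.2⟩
      invFun := fun z => ⟨z.1, hle2 z.1 z.2⟩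
      map_add' := fun _ _ => rfl
      map_smul' := fun _ _ => rfl
      left_inv := fun _ => rfl
      right_inv := fun _ => rfl }
  exact e.finrank_eq

end LeepA
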