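import Pool.Agent.H5.Leep.UCalc

/-!
Quadratically closed base fields: a chain of values.
-/

namespace LeepA

open Module

set_option maxHeartbeats 400000

/-- every element is a square -/
theorem sq_of_u1 {K : Type*} [Field K] (h : ¬ HasAnisoSystem K 1 2) (c : K) : ∃ x : K, x * x = c := by
  by_contra hcon
  push Not at hcon
  apply h
  refine ⟨fun _ => QuadraticMap.sq.comp (LinearMap.proj 0) -
    c • QuadraticMap.sq.comp (LinearMap.proj 1), fun v hv => ?_⟩
  have h := hv 0
  have h' : v 0 * v 0 - c * (v 1 * v 1) = 0 := h
  have hv1 : v 1 = 0 := by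
    by_contra hne
    apply hcon (v 0 / v 1)
    field_simp
    linear_combination h'
  rw [hv1, mul_zero, mul_zero, sub_zero] at h'
  funext k
  fin_cases k
  · exact mul_self_eq_zero.mp h'
  · exact hv1

theorem exists_seq {K : Type*} [Field K] (hsq : ∀ c : K, ∃ x : K, x * x = c) (c e : ℕ → K) :
    ∃ x y : ℕ → K, (∀ i, y i * y i = e i) ∧ x 0 * x 0 = c 0 ∧
      ∀ i, x (i + 1) * x (i + 1) + 2 * (x i * y i) = c (i + 1) := by
  choose s hs using hsq
  let y : ℕ → K := fun i => s (e i)
  let x : ℕ → K := fun n => Nat.rec (s (c 0)) (fun i xi => s (c (i + 1) - 2 * (xi * y i))) n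
  refine ⟨x, y, fun i => hs _, hs _, fun i => ?_⟩
  have h1 : x (i + 1) = s (c (i + 1) - 2 * (x i * y i)) := rfl
  rw [h1, hs]
  ring

theorem chain_ident {K L : Type*} [Field K] [Field L] [Algebra K L] (a : ℕ → L)
    (c e x y : ℕ → K) (hy : ∀ i, y i * y i = e i) (hx0 : x 0 * x 0 = c 0)
    (hx : ∀ i, x (i + 1) * x (i + 1) + 2 * (x i * y i) = c (i + 1)) (k : ℕ)
    (ha : ∀ i, i ≤ k → a i ≠ 0) :
    ∑ i ∈ Finset.range k, a i * ((algebraMap K L (x i) + algebraMap K L (y i) * (a (i + 1) / a i)) *
      (algebraMap K L (x i) + algebraMap K L (y i) * (a (i + 1) / a i))) +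
      a k * (algebraMap K L (x k) * algebraMap K L (x k)) =
    ∑ i ∈ Finset.range (k + 1), c i • a i +
      ∑ i ∈ Finset.range k, e i • (a (i + 1) * a (i + 1) / a i) := by
  induction k with
  | zero =>
    rw [Finset.sum_range_zero, Finset.sum_range_zero, Finset.sum_range_one, zero_add, add_zero,
      ← map_mul, hx0, Algebra.smul_def, mul_comm]
  | succ k ih =>
    have h1 := ih (fun i hi => ha i (by omega))
    rw [Finset.sum_range_succ (fun i => a i * ((algebraMap K L (x i) +
        algebraMap K L (y i) * (a (i + 1) / a i)) *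
        (algebraMap K L (x i) + algebraMap K L (y i) * (a (i + 1) / a i)))) k,
      Finset.sum_range_succ (fun i => c i • a i) (k + 1),
      Finset.sum_range_succ (fun i => e i • (a (i + 1) * a (i + 1) / a i)) k]
    have hk := ha k (by omega)
    have h2 : c (k + 1) • a (k + 1) = a (k + 1) * (algebraMap K L (x (k + 1)) * algebraMap K L (x (k + 1)))
        + 2 * (algebraMap K L (x k) * algebraMap K L (y k)) * a (k + 1) := by
      rw [Algebra.smul_def, ← hx k, map_add, map_mul, map_mul, map_mul, map_ofNat]
      ring
    have h3 : e k • (a (k + 1) * a (k + 1) / a k) =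
        algebraMap K L (y k) * algebraMap K L (y k) * (a (k + 1) * a (k + 1) / a k) := by
      rw [Algebra.smul_def, ← hy k, map_mul]
    rw [h2, h3]
    have h4 : a k * ((algebraMap K L (x k) + algebraMap K L (y k) * (a (k + 1) / a k)) *
      (algebraMap K L (x k) + algebraMap K L (y k) * (a (k + 1) / a k))) =
      a k * (algebraMap K L (x k) * algebraMap K L (x k)) +
      2 * (algebraMap K L (x k) * algebraMap K L (y k)) * a (k + 1) +
      algebraMap K L (y k) * algebraMap K L (y k) * (a (k + 1) * a (k + 1) / a k) := by
      field_simp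
      ring
    rw [h4]
    linear_combination h1

/-- the chain of `2k+1` elements represented by a form of dimension `k+1` -/
theorem chain_repr {K L : Type*} [Field K] [Field L] [Algebra K L]
    (hsq : ∀ c : K, ∃ x : K, x * x = c) (a : ℕ → L) (k m : ℕ) (hkm : k < m)
    (haniso : ∀ X : ℕ → L, ∑ i ∈ Finset.range m, a i * (X i * X i) = 0 → ∀ i < m, X i = 0)
    (c e : ℕ → K) :
    ∃ X : ℕ → L, (∀ i, k < i → X i = 0) ∧
      ∑ i ∈ Finset.range m, a i * (X i * X i) =
        ∑ i ∈ Finset.range (k + 1), c i • a i +
          ∑ i ∈ Finset.range k, e i • (a (i + 1) * a (i + 1) / a i) ∧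
      ((∀ i < m, X i = 0) → (∀ i ≤ k, c i = 0) ∧ ∀ i < k, e i = 0) := by
  have ha : ∀ i < m, a i ≠ 0 := by
    intro i hi h0
    have h1 := haniso (Pi.single i 1) (by
      apply Finset.sum_eq_zero
      intro j _
      by_cases hj : j = i
      · rw [hj, h0, zero_mul]
      · rw [Pi.single_eq_of_ne hj, mul_zero, mul_zero]) i hi
    rw [Pi.single_eq_same] at h1
    exact one_ne_zero h1
  obtain ⟨x, y, hy, hx0, hx⟩ := exists_seq hsq c e
  let X : ℕ → L := fun i => if i < k then
    algebraMap K L (x i) + algebraMap K L (y i) * (a (i + 1) / a i) else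
    if i = k then algebraMap K L (x k) else 0
  have hX1 : ∀ i, i < k → X i = algebraMap K L (x i) + algebraMap K L (y i) * (a (i + 1) / a i) :=
    fun i hi => if_pos hi
  have hX2 : X k = algebraMap K L (x k) := by
    simp [X]
  have hX3 : ∀ i, k < i → X i = 0 := by
    intro i hi
    simp only [X]
    rw [if_neg (by omega), if_neg (by omega)]
  refine ⟨X, hX3, ?_, ?_⟩
  · have h1 : ∑ i ∈ Finset.range m, a i * (X i * X i) =
        ∑ i ∈ Finset.range (k + 1), a i * (X i * X i) := by
      symm
      apply Finset.sum_subset
      · intro i hi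
        rw [Finset.mem_range] at hi ⊢
        omega
      · intro i _ hi
        rw [Finset.mem_range] at hi
        rw [hX3 i (by omega), mul_zero, mul_zero]
    rw [h1, Finset.sum_range_succ, hX2, ← chain_ident a c e x y hy hx0 hx k
      (fun i hi => ha i (by omega))]
    congr 1
    apply Finset.sum_congr rfl
    intro i hi
    rw [hX1 i (Finset.mem_range.mp hi)]
  · intro h0
    -- all `x`, `y` vanish
    obtain ⟨w, hw⟩ := hsq (-1)
    have hxk : x k = 0 := by
      have h1 := h0 k hkm
      rw [hX2] at h1
      exact (map_eq_zero _).mp h1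
    have hxy : ∀ i < k, x i = 0 ∧ y i = 0 := by
      intro i hi
      have h1 := h0 i (by omega)
      rw [hX1 i hi] at h1
      have hai := ha i (by omega)
      have h2 : algebraMap K L (x i) * a i + algebraMap K L (y i) * a (i + 1) = 0 := by
        have h3 := congrArg (fun z => z * a i) h1
        simp only [zero_mul] at h3
        rw [← h3]
        field_simp
      -- use anisotropy
      obtain ⟨p, hp⟩ := hsq (x i)
      obtain ⟨q, hq⟩ := hsq (y i)
      have h4 := haniso (fun j => if j = i then algebraMap K L p else
        if j = i + 1 then algebraMap K L q else 0) (by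
        have h5 : ∑ j ∈ Finset.range m, a j * ((if j = i then algebraMap K L p else
            if j = i + 1 then algebraMap K L q else 0) * (if j = i then algebraMap K L p else
            if j = i + 1 then algebraMap K L q else 0)) =
            ∑ j ∈ ({i, i + 1} : Finset ℕ), a j * ((if j = i then algebraMap K L p else
            if j = i + 1 then algebraMap K L q else 0) * (if j = i then algebraMap K L p else
            if j = i + 1 then algebraMap K L q else 0)) := by
          symm
          apply Finset.sum_subset
          · intro j hj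
            rw [Finset.mem_insert, Finset.mem_singleton] at hj
            rw [Finset.mem_range]
            omega
          · intro j _ hj
            rw [Finset.mem_insert, Finset.mem_singleton, not_or] at hj
            rw [if_neg hj.1, if_neg hj.2, mul_zero, mul_zero]
        rw [h5, Finset.sum_pair (by omega), if_pos rfl, if_neg (by omega), if_pos rfl,
          ← map_mul, ← map_mul, hp, hq, ← h2]
        ring)
      have h6 := h4 i (by omega)
      have h7 := h4 (i + 1) (by omega)
      simp only [if_true] at h6
      rw [if_neg (by omega), if_pos rfl] at h7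
      have h8 : p = 0 := (map_eq_zero _).mp h6
      have h9 : q = 0 := (map_eq_zero _).mp h7
      rw [← hp, ← hq, h8, h9]
      simp
    have hxall : ∀ i ≤ k, x i = 0 := by
      intro i hi
      rcases hi.lt_or_eq with h | h
      · exact (hxy i h).1
      · rw [h]; exact hxk
    refine ⟨?_, ?_⟩
    · intro i hi
      cases i with
      | zero => rw [← hx0, hxall 0 hi, mul_zero]
      | succ i =>
        rw [← hx i, hxall (i + 1) hi, hxall i (by omega)]
        ring
    · intro i hi
      rw [← hy i, (hxy i hi).2, mul_zero]

end LeepA
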