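import Pool.Agent.H5.Leep.QC

/-!
Quadratically closed base fields: the main inequality.
-/

namespace LeepA

open Module

set_option maxHeartbeats 400000

/-- Leep's estimate (B) for `u_1 = 1` -/
theorem leepB {K : Type*} [Field K] (h1 : ¬ HasAnisoSystem K 1 2) (r N : ℕ)
    (h : HasAnisoSystem K r N) : 2 * N ≤ r * (r + 1) := by
  induction r generalizing N with
  | zero =>
    by_contra hcon
    have h2 : 1 ≤ N := by omega
    obtain ⟨q, hq⟩ := h.mono h2
    have h3 := hq 1 (fun i => i.elim0)
    exact one_ne_zero (congrFun h3 0)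
  | succ r ih =>
    obtain ⟨M, hM⟩ := Nat.even_mul_succ_self r
    have h2 : ¬ HasAnisoSystem K r (M + 1) := by
      intro h3
      have := ih (M + 1) h3
      omega
    have h3 := leep_step h1 h2
    have h4 : N < M + 1 + (r + 1) := by
      by_contra hcon
      exact h3 (h.mono (by omega))
    nlinarith

/-- an anisotropic quadratic map is an anisotropic system -/
theorem aniso_of_map {K V U : Type*} [Field K] [AddCommGroup V] [Module K V] [AddCommGroup U]
    [Module K U] [FiniteDimensional K V] [FiniteDimensional K U] (Q : QuadraticMap K V U)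
    (hQ : ∀ v, Q v = 0 → v = 0) : HasAnisoSystem K (finrank K U) (finrank K V) := by
  let b := finBasis K V
  let e := finBasis K U
  refine ⟨fun i => (e.coord i).compQuadraticMap (Q.comp b.equivFun.symm.toLinearMap),
    fun v hv => ?_⟩
  have h1 : Q (b.equivFun.symm v) = 0 := by
    apply e.ext_elem
    intro i
    have := hv i
    rw [map_zero]
    exact this
  have h2 := hQ _ h1
  exact (LinearEquiv.map_eq_zero_iff _).mp h2

section
variable {K L : Type*} [Field K] [Field L] [Algebra K L]

/-- the linear map onto the space spanned by the chain -/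
noncomputable def chainMap (a : ℕ → L) (k : ℕ) : ((Fin (k + 1) → K) × (Fin k → K)) →ₗ[K] L :=
  (Fintype.linearCombination K (fun i : Fin (k + 1) => a i)).coprod
    (Fintype.linearCombination K (fun i : Fin k => a (i + 1) * a (i + 1) / a i))

theorem chainMap_apply (a : ℕ → L) (k : ℕ) (c e : ℕ → K) :
    chainMap a k (fun i => c i, fun i => e i) = ∑ i ∈ Finset.range (k + 1), c i • a i +
          ∑ i ∈ Finset.range k, e i • (a (i + 1) * a (i + 1) / a i) := by
  rw [chainMap, LinearMap.coprod_apply, Fintype.linearCombination_apply,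
    Fintype.linearCombination_apply, Finset.sum_range, Finset.sum_range]

theorem exists_ext {α : Type*} [Zero α] {n : ℕ} (f : Fin n → α) : ∃ g : ℕ → α, ∀ i : Fin n, g i = f i := by
  refine ⟨fun i => if h : i < n then f ⟨i, h⟩ else 0, fun i => ?_⟩
  simp

theorem qc_main [FiniteDimensional K L] (h1 : ¬ HasAnisoSystem K 1 2) (a : ℕ → L) (k n : ℕ)
    (haniso : ∀ X : ℕ → L, ∑ i ∈ Finset.range (k + 1 + n), a i * (X i * X i) = 0 →
      ∀ i < k + 1 + n, X i = 0) :
    2 * k + 1 ≤ finrank K L ∧
      2 * (finrank K L * n) ≤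
        (finrank K L - (2 * k + 1)) * (finrank K L - (2 * k + 1) + 1) := by
  have hsq := sq_of_u1 h1
  have hrepr := chain_repr hsq a k (k + 1 + n) (by omega) haniso
  have hinj : Function.Injective (chainMap (K := K) a k) := by
    rw [injective_iff_map_eq_zero]
    rintro ⟨c', e'⟩ h0
    obtain ⟨c, hc⟩ := exists_ext c'
    obtain ⟨e, he⟩ := exists_ext e'
    have h2 : (c', e') = ((fun i => c i : Fin (k + 1) → K), (fun i => e i : Fin k → K)) := by
      rw [Prod.mk.injEq]
      exact ⟨funext fun i => (hc i).symm, funext fun i => (he i).symm⟩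
    rw [h2, chainMap_apply] at h0
    obtain ⟨X, -, hX1, hX2⟩ := hrepr c e
    rw [h0] at hX1
    obtain ⟨hc0, he0⟩ := hX2 (haniso X hX1)
    rw [h2, Prod.mk_eq_zero]
    exact ⟨funext fun i => hc0 i (by omega), funext fun i => he0 i i.2⟩
  have hE : finrank K (LinearMap.range (chainMap (K := K) a k)) = 2 * k + 1 := by
    rw [LinearMap.finrank_range_of_inj hinj, finrank_prod, finrank_fin_fun, finrank_fin_fun]
    ring
  have hEle := Submodule.finrank_le (LinearMap.range (chainMap (K := K) a k))
  rw [hE] at hEle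
  refine ⟨hEle, ?_⟩
  let E := LinearMap.range (chainMap (K := K) a k)
  have hU : finrank K (L ⧸ E) = finrank K L - (2 * k + 1) := by
    have := Submodule.finrank_quotient_add_finrank E
    rw [hE] at this
    omega
  -- the quadratic map
  let Q0 : QuadraticMap K (Fin (n) → L) L :=
    ∑ j : Fin (n), QuadraticMap.linMulLin
      (LinearMap.mulLeft K (a (k + 1 + j)) ∘ₗ LinearMap.proj j) (LinearMap.proj j)
  have hQ0 : ∀ v, Q0 v = ∑ j : Fin (n), a (k + 1 + j) * (v j * v j) := by
    intro v
    simp only [Q0]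
    rw [QuadraticMap.sum_apply]
    apply Finset.sum_congr rfl
    intro j _
    rw [QuadraticMap.linMulLin_apply]
    simp only [LinearMap.comp_apply, LinearMap.proj_apply, LinearMap.mulLeft_apply]
    ring
  have h2 := aniso_of_map (E.mkQ.compQuadraticMap Q0) (by
    intro v hv
    have h3 : Q0 v ∈ E := by
      rw [← Submodule.Quotient.mk_eq_zero]
      exact hv
    obtain ⟨⟨c', e'⟩, hce⟩ := h3
    obtain ⟨c, hc⟩ := exists_ext c'
    obtain ⟨e, he⟩ := exists_ext e'
    have h4 : (c', e') = ((fun i => c i : Fin (k + 1) → K), (fun i => e i : Fin k → K)) := by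
      rw [Prod.mk.injEq]
      exact ⟨funext fun i => (hc i).symm, funext fun i => (he i).symm⟩
    rw [h4, chainMap_apply] at hce
    obtain ⟨X, hX0, hX1, -⟩ := hrepr (fun i => - c i) (fun i => - e i)
    obtain ⟨w, hw⟩ := exists_ext v
    have h5 : ∑ i ∈ Finset.range (k + 1 + n), a i * (X i * X i) = - Q0 v := by
      rw [hX1, ← hce]
      simp only [neg_smul, Finset.sum_neg_distrib]
      ring
    have h6 : ∑ i ∈ Finset.range (k + 1 + n), a i * ((X i + if i < k + 1 then 0 else w (i - (k + 1))) *
        (X i + if i < k + 1 then 0 else w (i - (k + 1)))) = 0 := by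
      have h7 : ∀ i ∈ Finset.range (k + 1 + n), a i * ((X i + if i < k + 1 then 0 else w (i - (k + 1))) *
          (X i + if i < k + 1 then 0 else w (i - (k + 1)))) = a i * (X i * X i) +
          if i < k + 1 then 0 else a i * (w (i - (k + 1)) * w (i - (k + 1))) := by
        intro i _
        by_cases hi : i < k + 1
        · rw [if_pos hi, if_pos hi]
          ring
        · rw [if_neg hi, if_neg hi, hX0 i (by omega)]
          ring
      rw [Finset.sum_congr rfl h7, Finset.sum_add_distrib, h5, hQ0]
      have h9 : ∑ i ∈ Finset.range (k + 1 + n),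
          (if i < k + 1 then 0 else a i * (w (i - (k + 1)) * w (i - (k + 1)))) =
          ∑ j : Fin (n), a (k + 1 + j) * (v j * v j) := by
        rw [Finset.sum_range_add, Finset.sum_eq_zero, zero_add, Finset.sum_range]
        · apply Finset.sum_congr rfl
          intro j _
          rw [if_neg (by omega), Nat.add_sub_cancel_left, hw]
        · intro i hi
          rw [if_pos (Finset.mem_range.mp hi)]
      rw [h9, neg_add_cancel]
    have h11 := haniso _ h6
    funext j
    have h12 := h11 (k + 1 + j) (by omega)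
    rw [if_neg (by omega), Nat.add_sub_cancel_left, hX0 _ (by omega), zero_add, hw] at h12
    exact h12)
  rw [hU] at h2
  have h3 := leepB h1 _ _ h2
  have h4 : finrank K (Fin (n) → L) = finrank K L * (n) := by
    rw [finrank_pi_fintype, Finset.sum_const, Finset.card_univ, Fintype.card_fin, smul_eq_mul,
      mul_comm]
  rw [h4] at h3
  exact h3

end

/-- numerics -/
theorem qc_num {d m : ℕ} (hd : 0 < d)
    (h : ∀ k < m, 2 * k + 1 ≤ d ∧
      2 * (d * (m - k - 1)) ≤ (d - (2 * k + 1)) * (d - (2 * k + 1) + 1)) :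
    8 * d * m ≤ 3 * (d + 1) ^ 2 := by
  obtain ⟨κ, hκ⟩ : ∃ κ, κ = (d + 5) / 4 := ⟨_, rfl⟩
  have hκ1 : 1 ≤ κ := by omega
  by_cases hm : κ ≤ m
  · obtain ⟨h1, h2⟩ := h (κ - 1) (by omega)
    obtain ⟨n, hn⟩ : ∃ n, m = κ + n := ⟨m - κ, by omega⟩
    obtain ⟨j, hj⟩ : ∃ j, κ = j + 1 := ⟨κ - 1, by omega⟩
    have h3 : m - (κ - 1) - 1 = n := by omega
    have h4 : κ - 1 = j := by omega
    rw [h3, h4] at h2
    rw [h4] at h1
    obtain ⟨s, hs⟩ : ∃ s, d = 2 * j + 1 + s := ⟨d - (2 * j + 1), by omega⟩
    have h5 : d - (2 * j + 1) = s := by omega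
    rw [h5] at h2
    have h6 : d ≤ 4 * j + 3 := by omega
    have h7 : 4 * j ≤ d + 1 := by omega
    have h8 : s ≤ 2 * j + 2 := by omega
    have h9 : 2 * j ≤ s + 2 := by omega
    subst hn hj hs
    zify at h2 h8 h9 ⊢
    nlinarith [mul_nonneg (sub_nonneg.mpr h8) (sub_nonneg.mpr h9)]
  · have h1 : 4 * m ≤ d + 1 := by omega
    nlinarith

end LeepA
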