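import Pool.Agent.H5.Leep.QC2

/-!
Quadratically closed base fields: the bound.
-/

namespace LeepA

open Module

set_option maxHeartbeats 400000

section
variable {K L : Type*} [Field K] [Field L] [Algebra K L]

/-- transfer -/
theorem transfer [FiniteDimensional K L] {m : ℕ} (h : HasAnisoSystem L 1 m) :
    HasAnisoSystem K (finrank K L) (finrank K L * m) := by
  obtain ⟨q, hq⟩ := h
  have h1 := aniso_of_map ((q 0).restrictScalars (S := K)) (by
    intro v hv
    apply hq
    intro i
    rw [Subsingleton.elim i 0]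
    exact hv)
  have h2 : finrank K (Fin m → L) = finrank K L * m := by
    rw [finrank_pi_fintype, Finset.sum_const, Finset.card_univ, Fintype.card_fin, smul_eq_mul,
      mul_comm]
  rwa [h2] at h1

theorem finrank_ne_two (h1 : ¬ HasAnisoSystem K 1 2) : finrank K L ≠ 2 := by
  intro h2
  obtain ⟨θ, hθ⟩ : ∃ θ : L, ∀ x : K, algebraMap K L x ≠ θ := by
    by_contra hcon
    push Not at hcon
    have h3 : (⊥ : Subalgebra K L) = ⊤ := by
      rw [eq_top_iff]
      intro θ _
      obtain ⟨x, hx⟩ := hcon θ
      exact Algebra.mem_bot.mpr ⟨x, hx⟩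
    rw [Subalgebra.bot_eq_top_iff_finrank_eq_one] at h3
    omega
  have hpair : ∀ x y : K, algebraMap K L x + algebraMap K L y * θ = 0 → x = 0 ∧ y = 0 := by
    intro x y hxy
    have hy : y = 0 := by
      by_contra hy
      apply hθ (-x / y)
      have hy' : algebraMap K L y ≠ 0 := (map_ne_zero _).mpr hy
      rw [map_div₀, map_neg, div_eq_iff hy']
      linear_combination -hxy
    rw [hy, map_zero, zero_mul, add_zero] at hxy
    exact ⟨(map_eq_zero _).mp hxy, hy⟩
  have hli : LinearIndependent K ![(1 : L), θ] := by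
    rw [LinearIndependent.pair_iff]
    intro x y hxy
    apply hpair
    rw [Algebra.smul_def, Algebra.smul_def, mul_one] at hxy
    exact hxy
  have hspan := hli.span_eq_top_of_card_eq_finrank (by rw [h2, Fintype.card_fin])
  have hmem : θ * θ ∈ Submodule.span K (Set.range ![(1 : L), θ]) := by
    rw [hspan]
    trivial
  rw [Matrix.range_cons, Matrix.range_cons, Matrix.range_empty, Set.union_empty,
    Set.singleton_union, Submodule.mem_span_pair] at hmem
  obtain ⟨c, b, hcb⟩ := hmem
  rw [Algebra.smul_def, Algebra.smul_def, mul_one] at hcb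
  apply h1
  let p0 : (Fin 2 → K) →ₗ[K] K := LinearMap.proj 0
  let p1 : (Fin 2 → K) →ₗ[K] K := LinearMap.proj 1
  refine ⟨fun _ => QuadraticMap.linMulLin p0 p0 + b • QuadraticMap.linMulLin p0 p1 -
    c • QuadraticMap.linMulLin p1 p1, fun v hv => ?_⟩
  have h3 : v 0 * v 0 + b * (v 0 * v 1) - c * (v 1 * v 1) = 0 := hv 0
  have h4 : (algebraMap K L (v 0) + algebraMap K L (v 1) * θ) *
      (algebraMap K L (v 0 + b * v 1) + algebraMap K L (- v 1) * θ) = 0 := by
    have h5 := congrArg (algebraMap K L) h3
    simp only [map_add, map_sub, map_mul, map_neg, map_zero] at h5 ⊢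
    linear_combination h5 - (algebraMap K L (v 1)) ^ 2 * (-hcb)
  rcases mul_eq_zero.mp h4 with h5 | h5
  · obtain ⟨h6, h7⟩ := hpair _ _ h5
    funext i
    fin_cases i
    · exact h6
    · exact h7
  · obtain ⟨h6, h7⟩ := hpair _ _ h5
    have h8 : v 1 = 0 := neg_eq_zero.mp h7
    rw [h8, mul_zero, add_zero] at h6
    funext i
    fin_cases i
    · exact h6
    · exact h8

/-- squares in finite extensions, characteristic two -/
theorem sq_ext [FiniteDimensional K L] [CharP K 2] (hsq : ∀ c : K, ∃ x : K, x * x = c) (c : L) :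
    ∃ x : L, x * x = c := by
  haveI : ExpChar K 2 := ExpChar.prime Nat.prime_two
  haveI : CharP L 2 := charP_of_injective_algebraMap (algebraMap K L).injective 2
  haveI : ExpChar L 2 := ExpChar.prime Nat.prime_two
  haveI : PerfectRing K 2 := PerfectRing.ofSurjective K 2 (fun c => by
    obtain ⟨x, hx⟩ := hsq c
    exact ⟨x, by rw [frobenius_def, pow_two, hx]⟩)
  haveI : PerfectField K := PerfectRing.toPerfectField K 2
  haveI : PerfectField L := Algebra.IsAlgebraic.perfectField K
  obtain ⟨x, hx⟩ := surjective_frobenius L 2 c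
  exact ⟨x, by rw [← hx, frobenius_def, pow_two]⟩

end

theorem char_two_three {L : Type*} [Field L] [CharP L 2] (hsq : ∀ c : L, ∃ x : L, x * x = c) :
    ¬ HasAnisoSystem L 1 3 := by
  rintro ⟨q', hq'⟩
  have hq : ∀ v, q' 0 v = 0 → v = 0 := by
    intro v hv
    apply hq'
    intro i
    rw [Subsingleton.elim i 0]
    exact hv
  generalize q' 0 = q at hq
  have h2 : (2 : L) = 0 := CharTwo.two_eq_zero
  let E : Fin 3 → (Fin 3 → L) := fun i => Pi.single i 1
  let P := QuadraticMap.polar q
  have hPs : ∀ i, P (E i) (E i) = 0 := by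
    intro i
    simp only [P]
    rw [QuadraticMap.polar_self, two_smul]
    exact CharTwo.add_self_eq_zero _
  have hPc : ∀ u w, P u w = P w u := fun u w => QuadraticMap.polar_comm q u w
  obtain ⟨v, hv0, hv⟩ : ∃ v : Fin 3 → L, v ≠ 0 ∧ ∀ j, P v (E j) = 0 := by
    by_cases hall : ∀ i j, P (E i) (E j) = 0
    · refine ⟨E 0, ?_, fun j => hall 0 j⟩
      intro h
      have := congrFun h 0
      simp [E] at this
    · refine ⟨P (E 1) (E 2) • E 0 + P (E 0) (E 2) • E 1 + P (E 0) (E 1) • E 2, ?_, ?_⟩
      · intro h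
        apply hall
        have e0 := congrFun h 0
        have e1 := congrFun h 1
        have e2 := congrFun h 2
        simp [E] at e0 e1 e2
        intro i j
        fin_cases i <;> fin_cases j
        · exact hPs 0
        · exact e2
        · exact e1
        · rw [hPc]; exact e2
        · exact hPs 1
        · exact e0
        · rw [hPc]; exact e1
        · rw [hPc]; exact e0
        · exact hPs 2
      · intro j
        have h3 : P (P (E 1) (E 2) • E 0 + P (E 0) (E 2) • E 1 + P (E 0) (E 1) • E 2) (E j) =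
            P (E 1) (E 2) * P (E 0) (E j) + P (E 0) (E 2) * P (E 1) (E j) +
              P (E 0) (E 1) * P (E 2) (E j) := by
          simp only [P]
          rw [QuadraticMap.polar_add_left, QuadraticMap.polar_add_left,
            QuadraticMap.polar_smul_left, QuadraticMap.polar_smul_left,
            QuadraticMap.polar_smul_left]
          rfl
        rw [h3]
        fin_cases j
        · change P (E 1) (E 2) * P (E 0) (E 0) + P (E 0) (E 2) * P (E 1) (E 0) +
              P (E 0) (E 1) * P (E 2) (E 0) = 0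
          rw [hPs, hPc (E 1) (E 0), hPc (E 2) (E 0)]
          linear_combination (P (E 0) (E 2) * P (E 0) (E 1)) * h2
        · change P (E 1) (E 2) * P (E 0) (E 1) + P (E 0) (E 2) * P (E 1) (E 1) +
              P (E 0) (E 1) * P (E 2) (E 1) = 0
          rw [hPs, hPc (E 2) (E 1)]
          linear_combination (P (E 1) (E 2) * P (E 0) (E 1)) * h2
        · change P (E 1) (E 2) * P (E 0) (E 2) + P (E 0) (E 2) * P (E 1) (E 2) +
              P (E 0) (E 1) * P (E 2) (E 2) = 0
          rw [hPs]
          linear_combination (P (E 1) (E 2) * P (E 0) (E 2)) * h2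
  obtain ⟨i, hi⟩ : ∃ i, v i ≠ 0 := by
    by_contra hcon
    push Not at hcon
    exact hv0 (funext hcon)
  obtain ⟨j, hj⟩ : ∃ j : Fin 3, j ≠ i := by
    fin_cases i
    · exact ⟨1, by decide⟩
    · exact ⟨0, by decide⟩
    · exact ⟨0, by decide⟩
  obtain ⟨α, hα⟩ := hsq (q v)
  obtain ⟨β, hβ⟩ := hsq (q (E j))
  have hx : q (β • v + α • E j) = 0 := by
    have h3 : q (β • v + α • E j) = q (β • v) + q (α • E j) +
      QuadraticMap.polar q (β • v) (α • E j) := QuadraticMap.map_add q _ _
    rw [h3, QuadraticMap.map_smul, QuadraticMap.map_smul, QuadraticMap.polar_smul_left,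
      QuadraticMap.polar_smul_right]
    have h4 : QuadraticMap.polar q v (E j) = 0 := hv j
    rw [h4, ← hα, ← hβ, smul_zero, smul_zero, smul_eq_mul, smul_eq_mul]
    linear_combination (β * β * (α * α)) * h2
  have hx0 := hq _ hx
  have hb : β = 0 := by
    have h5 := congrFun hx0 i
    simp only [Pi.add_apply, Pi.smul_apply, smul_eq_mul, E] at h5
    rw [Pi.single_eq_of_ne hj.symm, mul_zero, add_zero, Pi.zero_apply] at h5
    exact (mul_eq_zero.mp h5).resolve_right hi
  have ha : α = 0 := by
    have h5 := congrFun hx0 j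
    simp only [Pi.add_apply, Pi.smul_apply, smul_eq_mul, E] at h5
    rw [hb, zero_mul, zero_add, Pi.single_eq_same, mul_one] at h5
    exact h5
  rw [ha, mul_zero] at hα
  exact hv0 (hq v hα.symm)

section
variable {K L : Type*} [Field K] [Field L] [Algebra K L]

theorem qc_bound [FiniteDimensional K L] (h1 : ¬ HasAnisoSystem K 1 2) (m : ℕ)
    (h : HasAnisoSystem L 1 m) : 8 * finrank K L * m ≤ 3 * (finrank K L + 1) ^ 2 := by
  have hd : 0 < finrank K L := finrank_pos
  by_cases h2 : (2 : K) = 0
  · haveI : CharP K 2 := CharTwo.of_one_ne_zero_of_two_eq_zero one_ne_zero h2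
    haveI : CharP L 2 := charP_of_injective_algebraMap (algebraMap K L).injective 2
    have h3 := char_two_three (L := L) (sq_ext (sq_of_u1 h1))
    have hm : m ≤ 2 := by
      by_contra hcon
      exact h3 (h.mono (by omega))
    by_cases hm2 : m = 2
    · subst hm2
      have hd2 : finrank K L ≠ 2 := finrank_ne_two h1
      have hd1 : finrank K L ≠ 1 := by
        intro hd1
        have h4 := transfer (K := K) h
        rw [hd1] at h4
        exact h1 h4
      obtain ⟨s, hs⟩ : ∃ s, finrank K L = s + 3 := ⟨finrank K L - 3, by omega⟩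
      rw [hs]
      nlinarith
    · have hm1 : m ≤ 1 := by omega
      obtain ⟨s, hs⟩ : ∃ s, finrank K L = s + 1 := ⟨finrank K L - 1, by omega⟩
      rw [hs]
      nlinarith
  · apply qc_num hd
    intro k hk
    obtain ⟨n, rfl⟩ : ∃ n, m = k + 1 + n := ⟨m - (k + 1), by omega⟩
    have h2L : (2 : L) ≠ 0 := by
      have h3 := (map_ne_zero (algebraMap K L)).mpr h2
      rwa [map_ofNat] at h3
    haveI : Invertible (2 : L) := invertibleOfNonzero h2L
    obtain ⟨q', hq'⟩ := h
    have hq : ∀ v, q' 0 v = 0 → v = 0 := by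
      intro v hv
      apply hq'
      intro i
      rw [Subsingleton.elim i 0]
      exact hv
    generalize q' 0 = q at hq
    obtain ⟨w, ⟨f⟩⟩ := QuadraticForm.equivalent_weightedSumSquares q
    have hfr : finrank L (Fin (k + 1 + n) → L) = k + 1 + n := by simp
    obtain ⟨a, ha⟩ := exists_ext w
    have hn : k + 1 + n - k - 1 = n := by omega
    rw [hn]
    apply qc_main h1 a k n
    intro X hX
    rw [← hfr] at hX ⊢
    have h4 : QuadraticMap.weightedSumSquares L w (fun i => X i) = 0 := by
      rw [QuadraticMap.weightedSumSquares_apply, ← hX, Finset.sum_range]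
      apply Finset.sum_congr rfl
      intro i _
      rw [ha, smul_eq_mul]
    have h5 : f.symm (fun i => X i) = 0 := by
      apply hq
      rw [← h4]
      exact f.symm.map_app _
    have h6 : (fun i : Fin (finrank L (Fin (k + 1 + n) → L)) => X i) = 0 := by
      have h7 := congrArg f.toLinearEquiv h5
      rw [map_zero] at h7
      rw [← h7]
      exact (f.toLinearEquiv.apply_symm_apply _).symm
    intro i hi
    exact congrFun h6 ⟨i, hi⟩

/-- the supremum is attained -/
theorem exists_uInv {K : Type*} [Field K] {r B : ℕ} (hB : ∀ N, HasAnisoSystem K r N → N ≤ B) :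
    ∃ N, HasAnisoSystem K r N ∧ uInv K r = N := by
  classical
  have h0 : HasAnisoSystem K r 0 := ⟨fun _ => 0, fun v _ => Subsingleton.elim _ _⟩
  have h1 := Nat.findGreatest_spec (P := fun N => HasAnisoSystem K r N) (Nat.zero_le B) h0
  refine ⟨_, h1, ?_⟩
  apply uInv_eq h1
  intro h2
  have h3 := Nat.le_findGreatest (P := fun N => HasAnisoSystem K r N) (hB _ h2) h2
  omega

theorem not_aniso_of_uInv {K : Type*} [Field K] {r N : ℕ} (h : uInv K r = N) :
    ¬ HasAnisoSystem K r (N + 1) := by
  intro h1
  have h2 : ((N + 1 : ℕ) : ℕ∞) ≤ uInv K r :=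
    le_iSup₂_of_le (f := fun (N : ℕ) (_ : HasAnisoSystem K r N) => (N : ℕ∞)) (N + 1) h1 le_rfl
  rw [h] at h2
  have h3 : N + 1 ≤ N := by exact_mod_cast h2
  omega

theorem qc_final [FiniteDimensional K L] (h : uInv K 1 = 1) :
    8 * (finrank K L : ℕ∞) * uInv L 1 ≤ 3 * ((finrank K L : ℕ∞) + 1) ^ 2 ∧
      (4 ≤ finrank K L → 2 * uInv L 1 < ((finrank K L : ℕ∞) + 1) * uInv K 1) := by
  have h1 : ¬ HasAnisoSystem K 1 2 := not_aniso_of_uInv (N := 1) h
  have hd : 0 < finrank K L := finrank_pos
  have hb := fun m => qc_bound (K := K) (L := L) h1 m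
  obtain ⟨m, hm, hum⟩ := exists_uInv (K := L) (r := 1) (B := 3 * (finrank K L + 1) ^ 2) (by
    intro N hN
    have := hb N hN
    nlinarith)
  have h2 := hb m hm
  rw [hum, h]
  constructor
  · exact_mod_cast h2
  · intro h4
    have h3 : 2 * m < finrank K L + 1 := by
      by_contra hcon
      push Not at hcon
      nlinarith
    rw [mul_one]
    exact_mod_cast h3

end

end LeepA
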