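import Pool.Agent.H5.Leep.Coords

/-!
Dimension of the section.
-/

namespace LeepA

open MvPolynomial IntermediateField Module

set_option maxHeartbeats 400000

variable {K Ω : Type} [Field K] [Field Ω] [Algebra K Ω] {n m : ℕ}

theorem toF_int {x : Fin n → Ω} {l : Fin (m + 1) → MvPolynomial (Fin n) K} {ρ : ℕ}
    (st : Stage x l ρ) {z : Ω} (hz : z ∈ AA x l) :
    (Polynomial.aeval (R := FF x l) (aeval x (l 0))).toRingHom.IsIntegralElem z := by
  induction hz using Algebra.adjoin_induction with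
  | mem z hz =>
    obtain ⟨i, rfl⟩ := hz
    obtain ⟨P, hP, hPz⟩ := (int_iff _ _).mp (st.int i)
    refine ⟨P.map (toF (fun j => aeval x (l j))).toRingHom, hP.map _, ?_⟩
    rw [Polynomial.eval₂_map]
    have h1 : ((Polynomial.aeval (R := FF x l) (aeval x (l 0))).toRingHom).comp
        (toF (fun j => aeval x (l j))).toRingHom =
        (aeval (fun j => aeval x (l j)) : MvPolynomial (Fin (m + 1)) K →ₐ[K] Ω).toRingHom := by
      apply RingHom.ext
      intro c
      exact aeval_toF (fun j => aeval x (l j)) c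
    have h2 := hPz
    rw [← h1] at h2
    exact h2
  | algebraMap r =>
    refine ⟨Polynomial.X - Polynomial.C (Polynomial.C r), Polynomial.monic_X_sub_C _, ?_⟩
    simp
  | add a b _ _ ha hb => exact RingHom.IsIntegralElem.add _ ha hb
  | mul a b _ _ ha hb => exact RingHom.IsIntegralElem.mul _ ha hb

theorem sec_dim {x : Fin n → Ω} {l : Fin (m + 1) → MvPolynomial (Fin n) K} {ρ : ℕ}
    (st : Stage x l ρ) {q : MvPolynomial (Fin n) K} {e : ℕ}
    (hmem : aeval x q ∈ adjoin K (Set.range x)) (hq0 : aeval x q ≠ 0) {k j : ℕ} (hkj : k * j = ρ)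
    {a : MvPolynomial (Fin (m + 1)) K} (ha : a.IsHomogeneous (e * k))
    (ha0 : eval (Pi.single 0 1) a ≠ 0)
    (hN : ((Algebra.norm (adjoin K (Set.range fun j => aeval x (l j)))
        (⟨aeval x q, hmem⟩ : extendScalars (field_le x l)) :
        adjoin K (Set.range fun j => aeval x (l j))) : Ω) =
        aeval (fun j => aeval x (l j)) (((-1) ^ k * a) ^ j)) :
    FiniteDimensional (FF x l)
      (AA x l ⧸ Ideal.span {(⟨aeval x q, aeval_mem_AA x l q⟩ : AA x l)}) ∧
    finrank (FF x l) (AA x l ⧸ Ideal.span {(⟨aeval x q, aeval_mem_AA x l q⟩ : AA x l)}) = e * ρ := by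
  have h := core_abs (FF x l) (adjoin K (Set.range fun j => aeval x (l j)))
    (adjoin K (Set.range x)) (aeval x (l 0)) (transcendental_succ (y := fun j => aeval x (l j)) st.indep) (AA x l)
    (aeval_mem_AA x l (l 0)) (subset_adjoin _ _ ⟨0, rfl⟩)
    (by
      rw [adjoin_le_iff]
      rintro _ ⟨i, rfl⟩
      exact subset_adjoin _ _ ⟨i.succ, rfl⟩)
    (field_le x l) (fun z hz => AA_le x l hz)
    (by
      intro z hz
      rw [mem_adjoin_range_iff] at hz
      obtain ⟨r, s, rfl⟩ := hz
      have h1 := aeval_toF (fun j => aeval x (l j)) r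
      have h2 := aeval_toF (fun j => aeval x (l j)) s
      exact ⟨toF (fun j => aeval x (l j)) r, toF (fun j => aeval x (l j)) s,
        (congrArg₂ (· / ·) h1 h2).symm⟩)
    (by
      intro z hz
      rw [mem_adjoin_range_iff] at hz
      obtain ⟨r, s, rfl⟩ := hz
      exact ⟨_, aeval_mem_AA x l r, _, aeval_mem_AA x l s, rfl⟩)
    (by
      rw [← Subalgebra.fg_iff_finiteType]
      exact Subalgebra.fg_def.mpr ⟨Set.range x, Set.finite_range x, rfl⟩)
    (fun z hz => toF_int st hz) ⟨aeval x q, aeval_mem_AA x l q⟩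
    (by
      intro h0
      exact hq0 (congrArg Subtype.val h0))
    (toF (fun j => aeval x (l j)) (((-1) ^ k * a) ^ j))
    (by
      rw [hN]
      exact aeval_toF (fun j => aeval x (l j)) _)
  refine ⟨h.1, h.2.trans ?_⟩
  rw [map_pow, Polynomial.natDegree_pow, map_mul, map_pow, map_neg, map_one]
  have h1 : ((-1) ^ k : Polynomial (FF x l)) = Polynomial.C ((-1) ^ k) := by
    rw [Polynomial.C_pow, Polynomial.C_neg, Polynomial.C_1]
  rw [h1, Polynomial.natDegree_C_mul (pow_ne_zero _ (neg_ne_zero.mpr one_ne_zero)),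
    natDegree_toF _ ha ha0, ← hkj]
  ring

end LeepA
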