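import Pool.Agent.H5.Leep.LeepStep

/-!
Computation of the system u-invariants.
-/

namespace LeepA

open Module MvPolynomial

set_option maxHeartbeats 400000

variable {K : Type*} [Field K]

theorem HasAnisoSystem.mono {r N N' : ℕ} (h : HasAnisoSystem K r N) (hN : N' ≤ N) :
    HasAnisoSystem K r N' := by
  by_contra hcon
  obtain ⟨q, hq⟩ := h
  obtain ⟨v, hv, hqv⟩ := exists_zero_of_finrank hcon (V := Fin N → K) (by simpa using hN) q
  exact hv (hq v hqv)

/-- sum of two systems -/
theorem HasAnisoSystem.add {r s N M : ℕ} (h : HasAnisoSystem K r N) (h' : HasAnisoSystem K s M) :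
    HasAnisoSystem K (r + s) (N + M) := by
  obtain ⟨q, hq⟩ := h
  obtain ⟨p, hp⟩ := h'
  let f : (Fin (N + M) → K) →ₗ[K] (Fin N → K) := LinearMap.funLeft K K (Fin.castAdd M)
  let g : (Fin (N + M) → K) →ₗ[K] (Fin M → K) := LinearMap.funLeft K K (Fin.natAdd N)
  refine ⟨Fin.addCases (fun i => (q i).comp f) (fun i => (p i).comp g), fun v hv => ?_⟩
  have h1 : f v = 0 := by
    apply hq
    intro i
    have := hv (Fin.castAdd s i)
    simp only [Fin.addCases_left] at this
    exact this
  have h2 : g v = 0 := by
    apply hp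
    intro i
    have := hv (Fin.natAdd r i)
    simp only [Fin.addCases_right] at this
    exact this
  funext k
  refine Fin.addCases (fun i => ?_) (fun i => ?_) k
  · exact congrFun h1 i
  · exact congrFun h2 i

theorem hasAnisoSystem_zero : HasAnisoSystem K 0 0 :=
  ⟨fun i => i.elim0, fun v _ => Subsingleton.elim _ _⟩

theorem HasAnisoSystem.nsmul {r N : ℕ} (h : HasAnisoSystem K r N) (k : ℕ) :
    HasAnisoSystem K (k * r) (k * N) := by
  induction k with
  | zero => rw [Nat.zero_mul, Nat.zero_mul]; exact hasAnisoSystem_zero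
  | succ k ih => rw [Nat.succ_mul, Nat.succ_mul]; exact ih.add h

theorem hasAnisoSystem_one : HasAnisoSystem K 1 1 := by
  refine ⟨fun _ => QuadraticMap.sq.comp (LinearMap.proj 0), fun v hv => ?_⟩
  have h := hv 0
  simp only [QuadraticMap.comp_apply, LinearMap.proj_apply, QuadraticMap.sq_apply] at h
  funext k
  rw [Subsingleton.elim k 0]
  exact mul_self_eq_zero.mp h

theorem uInv_eq {r N : ℕ} (h : HasAnisoSystem K r N) (h' : ¬ HasAnisoSystem K r (N + 1)) :
    uInv K r = N := by
  apply le_antisymm
  · apply iSup₂_le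
    intro M hM
    by_contra hcon
    push Not at hcon
    have h1 : N + 1 ≤ M := by exact_mod_cast hcon
    exact h' (hM.mono h1)
  · exact le_iSup₂ (f := fun (N : ℕ) (_ : HasAnisoSystem K r N) => (N : ℕ∞)) N h

/-- quadratic forms and polynomials -/
theorem exists_quadPoly {N : ℕ} (h2 : IsUnit (2 : K)) (q : QuadraticForm K (Fin N → K)) :
    ∃ P : MvPolynomial (Fin N) K, P.IsHomogeneous 2 ∧ ∀ v, eval v P = q v := by
  have : Invertible (2 : K) := h2.invertible
  let B := QuadraticMap.associated (R := K) q
  refine ⟨∑ i, ∑ j, C (B (Pi.single i 1) (Pi.single j 1)) * (X i * X j), ?_, ?_⟩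
  · apply IsHomogeneous.sum
    intro i _
    apply IsHomogeneous.sum
    intro j _
    exact ((isHomogeneous_X K i).mul (isHomogeneous_X K j)).C_mul _
  · intro v
    have h1 : q v = B v v := (QuadraticMap.associated_eq_self_apply K q v).symm
    have h3 : v = ∑ i, v i • (Pi.single i 1 : Fin N → K) := by
      funext k
      rw [Finset.sum_apply, Finset.sum_eq_single k]
      · rw [Pi.smul_apply, Pi.single_eq_same, smul_eq_mul, mul_one]
      · intro b _ hb
        rw [Pi.smul_apply, Pi.single_eq_of_ne (Ne.symm hb), smul_zero]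
      · intro h
        exact absurd (Finset.mem_univ k) h
    have h4 : ∀ w, B w v = ∑ j, v j * B w (Pi.single j 1) := by
      intro w
      conv_lhs => rw [h3]
      rw [map_sum]
      apply Finset.sum_congr rfl
      intro j _
      rw [map_smul, smul_eq_mul]
    have h5 : ∀ w, B v w = ∑ j, v j * B (Pi.single j 1) w := by
      intro w
      conv_lhs => rw [h3]
      rw [map_sum, LinearMap.sum_apply]
      apply Finset.sum_congr rfl
      intro j _
      rw [map_smul, LinearMap.smul_apply, smul_eq_mul]
    rw [h1, h5, map_sum]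
    apply Finset.sum_congr rfl
    intro i _
    rw [h4, map_sum, Finset.mul_sum]
    apply Finset.sum_congr rfl
    intro j _
    rw [map_mul, map_mul, eval_C, eval_X, eval_X]
    ring

/-- the u-invariants in our situation -/
theorem uInv_calc {r : ℕ} (hr : 3 ≤ r) (h1 : ¬ HasAnisoSystem K (r - 1) (r + 1))
    (h2 : HasAnisoSystem K r (2 * r)) :
    IsSumSq (-1 : K) ∧ uInv K 1 = 1 ∧ uInv K (r - 1) = r ∧ uInv K r = r * uInv K 1 + uInv K (r - 1) := by
  have h12 : ¬ HasAnisoSystem K 1 2 := by
    intro h
    have h3 := h.nsmul (r - 1)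
    rw [Nat.mul_one] at h3
    exact h1 (h3.mono (by omega))
  have hr1 : r - 1 + 1 = r := by omega
  have h3 : HasAnisoSystem K (r - 1) r := by
    by_contra hcon
    have h4 := leep_step (N := r - 1) h12 (by rw [hr1]; exact hcon)
    rw [hr1] at h4
    exact h4 (by
      have : r + r = 2 * r := by ring
      rw [this]; exact h2)
  have h5 : ¬ HasAnisoSystem K r (2 * r + 1) := by
    have h4 := leep_step (N := r) h12 h1
    rw [hr1] at h4
    have : r + 1 + r = 2 * r + 1 := by ring
    rwa [this] at h4
  have e1 : uInv K 1 = 1 := uInv_eq (N := 1) hasAnisoSystem_one h12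
  have e2 : uInv K (r - 1) = r := uInv_eq h3 h1
  have e3 : uInv K r = ((2 * r : ℕ) : ℕ∞) := uInv_eq h2 h5
  refine ⟨?_, e1, e2, ?_⟩
  · -- `-1` is a square
    by_contra hcon
    apply h12
    refine ⟨fun _ => QuadraticMap.sq.comp (LinearMap.proj 0) +
      QuadraticMap.sq.comp (LinearMap.proj 1), fun v hv => ?_⟩
    have h := hv 0
    simp only [QuadraticMap.add_apply, QuadraticMap.comp_apply, LinearMap.proj_apply,
      QuadraticMap.sq_apply] at h
    have hv1 : v 1 = 0 := by
      by_contra hne
      apply hcon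
      have h6 : (-1 : K) = (v 0 / v 1) * (v 0 / v 1) := by
        field_simp
        linear_combination -h
      rw [h6]
      exact IsSumSq.mul_self _
    rw [hv1, mul_zero, add_zero] at h
    funext k
    fin_cases k
    · exact mul_self_eq_zero.mp h
    · exact hv1
  · rw [e1, e2, e3, mul_one, Nat.cast_mul]
    push_cast
    ring

end LeepA
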